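import Pool.Agent.Lib.MP_4ca46c_ag.Nil.SpecL

/-!
# Tensor products of numerically trivial operators
-/

set_option autoImplicit false

namespace Pool.Agent.Lib.MP_4ca46c_ag.Nil

open Module TensorProduct LinearMap Pool.Agent.Lib.MP_4ca46c_ag.Sign

section aB2

variable {K V : Type} [Field K] [AddCommGroup V] [Module K V] {n : ℕ} {pr : ℤ → Module.End K V}
  {L : Module.End K V}

/-- operators on the tensor square are determined on the bihomogeneous pieces -/
theorem aB2_ext (h : LefMod n pr L) {u w : Module.End K (V ⊗[K] V)}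
    (huw : ∀ i j, u * TensorProduct.map (pr i) (pr j) = w * TensorProduct.map (pr i) (pr j)) :
    u = w := by
  refine TensorProduct.ext' fun x y => ?_
  have hx : x = ∑ i ∈ Finset.Icc (0 : ℤ) (2 * n), pr i x := by
    have := LinearMap.congr_fun h.sum x
    rw [LinearMap.sum_apply] at this
    exact this.symm
  have hy : y = ∑ i ∈ Finset.Icc (0 : ℤ) (2 * n), pr i y := by
    have := LinearMap.congr_fun h.sum y
    rw [LinearMap.sum_apply] at this
    exact this.symm
  rw [hx, hy, TensorProduct.sum_tmul]
  simp only [TensorProduct.tmul_sum, map_sum]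
  refine Finset.sum_congr rfl fun i _ => Finset.sum_congr rfl fun j _ => ?_
  have := LinearMap.congr_fun (huw i j) (x ⊗ₜ y)
  simpa only [Module.End.mul_apply, TensorProduct.map_tmul] using this

/-- the ordinary swap -/
noncomputable def aB2_c (K V : Type) [Field K] [AddCommGroup V] [Module K V] :
    Module.End K (V ⊗[K] V) := (TensorProduct.comm K V V).toLinearMap

theorem aB2_c_map (f g : Module.End K V) :
    aB2_c K V * TensorProduct.map f g = TensorProduct.map g f * aB2_c K V := by
  refine TensorProduct.ext' fun x y => ?_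
  simp [aB2_c]

theorem aB2_c_c : aB2_c K V * aB2_c K V = 1 := by
  refine TensorProduct.ext' fun x y => ?_
  simp [aB2_c]

/-- the graded swap on the bihomogeneous pieces -/
theorem aB2_gs (h : LefMod n pr L) (i j : ℤ) :
    gswap n pr * TensorProduct.map (pr i) (pr j) =
      (if Even (i * j) then (1 : K) else -1) • (aB2_c K V * TensorProduct.map (pr i) (pr j)) := by
  classical
  have e : gswap n pr = ∑ a ∈ Finset.Icc (0 : ℤ) (2 * n), ∑ b ∈ Finset.Icc (0 : ℤ) (2 * n),
    (if Even (a * b) then (1 : K) else -1) • (aB2_c K V * TensorProduct.map (pr a) (pr b)) := rfl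
  by_cases hi : i ∈ Finset.Icc (0 : ℤ) (2 * n)
  · by_cases hj : j ∈ Finset.Icc (0 : ℤ) (2 * n)
    · rw [e, Finset.sum_mul, Finset.sum_eq_single_of_mem i hi, Finset.sum_mul,
        Finset.sum_eq_single_of_mem j hj]
      · rw [smul_mul_assoc, mul_assoc, ← TensorProduct.map_mul, h.pr_mul, h.pr_mul, if_pos rfl,
          if_pos rfl]
      · intro b _ hb
        rw [smul_mul_assoc, mul_assoc, ← TensorProduct.map_mul, h.pr_mul b j, if_neg hb,
          TensorProduct.map_zero_right, mul_zero, smul_zero]
      · intro a _ ha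
        rw [Finset.sum_mul]
        refine Finset.sum_eq_zero fun b _ => ?_
        rw [smul_mul_assoc, mul_assoc, ← TensorProduct.map_mul, h.pr_mul a i, if_neg ha,
          TensorProduct.map_zero_left, mul_zero, smul_zero]
    · have h0 : pr j = 0 := by
        apply h.out
        simpa only [Finset.mem_Icc, not_and_or, not_le] using hj
      rw [h0, TensorProduct.map_zero_right, mul_zero, mul_zero, smul_zero]
  · have h0 : pr i = 0 := by
      apply h.out
      simpa only [Finset.mem_Icc, not_and_or, not_le] using hi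
    rw [h0, TensorProduct.map_zero_left, mul_zero, mul_zero, smul_zero]

theorem aB2_gs_gs (h : LefMod n pr L) : gswap n pr * gswap n pr = 1 := by
  refine aB2_ext h fun i j => ?_
  rw [mul_assoc, aB2_gs h, aB2_c_map, mul_smul_comm, ← mul_assoc, aB2_gs h, smul_mul_assoc,
    smul_smul]
  have e2 : aB2_c K V * TensorProduct.map (pr j) (pr i) * aB2_c K V =
      1 * TensorProduct.map (pr i) (pr j) := by
    rw [aB2_c_map, mul_assoc, aB2_c_c, mul_one, one_mul]
  have e3 : ((if Even (i * j) then (1 : K) else -1) * if Even (j * i) then (1 : K) else -1) = 1 := by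
    rw [mul_comm j i]
    split_ifs <;> norm_num
  rw [e3, one_smul, e2]

theorem aB2_gs_map (h : LefMod n pr L) {r s : ℤ} {f g : Module.End K V}
    (hf : ∀ k, f * pr k = pr (k + 2 * r) * f) (hg : ∀ k, g * pr k = pr (k + 2 * s) * g) :
    gswap n pr * TensorProduct.map f g = TensorProduct.map g f * gswap n pr := by
  refine aB2_ext h fun i j => ?_
  have e1 : (TensorProduct.map f g : Module.End K (V ⊗[K] V)) * TensorProduct.map (pr i) (pr j) =
      TensorProduct.map (pr (i + 2 * r)) (pr (j + 2 * s)) * TensorProduct.map f g := by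
    rw [← TensorProduct.map_mul, ← TensorProduct.map_mul, hf, hg]
  have e2 : (if Even ((i + 2 * r) * (j + 2 * s)) then (1 : K) else -1) =
      if Even (i * j) then (1 : K) else -1 := by
    have : Even ((i + 2 * r) * (j + 2 * s)) ↔ Even (i * j) := by
      rw [Int.even_mul, Int.even_mul, Int.even_add, Int.even_add]
      simp
    simp only [this]
  rw [mul_assoc, e1, ← mul_assoc, aB2_gs h, e2, mul_assoc (TensorProduct.map g f), aB2_gs h,
    mul_smul_comm, smul_mul_assoc, mul_assoc, ← e1, ← mul_assoc, aB2_c_map, ← mul_assoc]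

end aB2

theorem tAB2 (h1 : S_Idl) (h2 : S_EpsT) : S_AB2 := by
  intro K V _ _ _ _ _ n pr L A B h r s f g hf hg
  have hm : TensorProduct.map f g ∈ B (r + s) := h.tensor r s f hf.1 g hg
  have key : SNum B (TensorProduct.map (sgn n pr) (sgn n pr)) (r + s)
      (TensorProduct.map f g) := by
    refine ⟨hm, fun u hu => ?_⟩
    have e : (TensorProduct.map f g : Module.End K (V ⊗[K] V)) *
        TensorProduct.map (sgn n pr) (sgn n pr) =
        TensorProduct.map 1 g * TensorProduct.map 1 (sgn n pr) *
          TensorProduct.map (f * sgn n pr) 1 := by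
      rw [← TensorProduct.map_mul, ← TensorProduct.map_mul, ← TensorProduct.map_mul, one_mul,
        one_mul, mul_one]
    rw [mul_assoc, e, ← mul_assoc, ← mul_assoc, trace_mul_map_one, ← mul_assoc]
    have h3 : TensorProduct.map (1 : Module.End K V) g ∈ B (0 + s) :=
      h.tensor 0 s 1 h.ratA.one g hg
    have h4 := h.ratB.mul _ _ u hu _ h3
    have h5 : -(r + s) + (0 + s) = -r := by ring
    rw [h5] at h4
    exact hf.2 _ (h.ptr _ _ h4)
  refine ⟨key, ?_⟩
  obtain ⟨e1, e2⟩ := h2 K V n pr h.lef.out
  have hg1 := aB2_gs_map h.lef (h.ratA.comm r f hf.1) (h.ratA.comm s g hg)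
  have hg2 : TensorProduct.map g f = gswap n pr * TensorProduct.map f g * gswap n pr := by
    rw [hg1, mul_assoc, aB2_gs_gs h.lef, mul_one]
  rw [e1] at key ⊢
  have h3 := (h1 K (V ⊗[K] V) (2 * n) (prT n pr) B e2 h.ratB _ 0 _ _ key h.swap).1
  have h4 := (h1 K (V ⊗[K] V) (2 * n) (prT n pr) B e2 h.ratB _ 0 _ _ h3 h.swap).2
  have h5 : 0 + (r + s) + 0 = r + s := by ring
  rw [h5, ← hg2] at h4
  exact h4

end Pool.Agent.Lib.MP_4ca46c_ag.Nil
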