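import Pool.Agent.Lib.MP_4ca46c_ag.Nil.SpecI

/-!
# The action of a symmetric idempotent class
-/

set_option autoImplicit false

namespace Pool.Agent.Lib.MP_4ca46c_ag.Nil

section

variable {K : Type} [Field K] (S : Cal K) {ι κ J : Type} [Finite ι] [Finite κ] [Finite J]

omit [Finite ι] [Finite κ] in
theorem act_vec (f : ι → κ) (a b : ι) : f ∘ ![a, b] = ![f a, f b] := by
  funext j
  fin_cases j <;> rfl

/-- the trace of the action -/
theorem act_tot (e : S.C (Fin 2)) (i : ι) (n τ : S.C ι) : S.tot ι (n * S.act e i τ) =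
    S.tot (ι ⊕ Unit) (S.map Sum.inl n * (S.map ![Sum.inl i, Sum.inr ()] e *
      S.map (plF i) τ)) := by
  rw [S.act_apply, S.sub_id]

/-- the action of an integral -/
theorem act_map_int (i : ι) (R : S.C (ι ⊕ Unit)) :
    S.map (plF i) (S.int ι Unit R) = S.int (ι ⊕ Unit) Unit (S.map (Sum.map (plF i) id) R) :=
  S.map_int _ _

theorem act_two (e : S.C (Fin 2)) (i j : ι) (n τ : S.C ι) :
    S.tot ι (n * S.act e i (S.act e j τ)) = S.tot ((ι ⊕ Unit) ⊕ Unit)
      (S.map (Sum.inl ∘ Sum.inl) n * (S.map ![Sum.inl (Sum.inl i), Sum.inl (Sum.inr ())] e *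
        (S.map ![Sum.inl (plF i j), Sum.inr ()] e *
          S.map (Sum.map (plF i) id ∘ plF j) τ))) := by
  rw [act_tot, S.act_apply e j, act_map_int, ← mul_assoc, S.sub_id]
  simp only [map_mul, S.map_map, act_vec, mul_assoc]
  rfl

end

theorem tAct : S_Act := by
  intro K _ S e hs he
  refine ⟨fun ι _ i τ => ?_, fun ι _ i j τ => ?_, fun ι _ i n τ => ?_,
    fun ι κ _ _ f i τ => ?_⟩
  · -- idempotent
    refine S.ext_tot fun n => ?_
    rw [act_two, act_tot, plF_self]
    have h1 : Function.Bijective (Sum.elim (Sum.map Sum.inl id : ι ⊕ Unit → (ι ⊕ Unit) ⊕ Unit)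
        (fun _ : Unit => Sum.inl (Sum.inr ()))) := by
      constructor
      · rintro ((a | a) | a) ((b | b) | b) h <;> simp_all
      · rintro ((a | a) | a)
        · exact ⟨Sum.inl (Sum.inl a), rfl⟩
        · exact ⟨Sum.inr (), rfl⟩
        · exact ⟨Sum.inl (Sum.inr a), rfl⟩
    have h2 := S.elim he (Sum.map Sum.inl id : ι ⊕ Unit → (ι ⊕ Unit) ⊕ Unit)
      (Sum.inl (Sum.inr ())) h1 (S.map Sum.inl n * S.map (plF i) τ)
      ![Sum.inl i, Sum.inr ()] ![Sum.inl (Sum.inl i), Sum.inl (Sum.inr ())] 1 rfl (by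
        intro j hj
        fin_cases j
        · rfl
        · exact absurd rfl hj)
    have h3 : S.map ![(Sum.inr () : (ι ⊕ Unit) ⊕ Unit), Sum.inl (Sum.inr ())] e =
        S.map ![Sum.inl (Sum.inr ()), Sum.inr ()] e := by
      conv_lhs => rw [← hs, S.map_map]
      congr 2
      funext j
      fin_cases j <;> rfl
    have h4 : Sum.map Sum.inl (id : Unit → Unit) ∘ plF i = Sum.map (plF i) id ∘ plF i := by
      funext j
      by_cases hj : j = i
      · subst hj
        simp [plF_self]
      · simp [plF_ne hj]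
    have h5 : Sum.map Sum.inl (id : Unit → Unit) ∘ Sum.inl =
        (Sum.inl ∘ Sum.inl : ι → (ι ⊕ Unit) ⊕ Unit) := rfl
    have h6 : Sum.map Sum.inl (id : Unit → Unit) (![(Sum.inl i : ι ⊕ Unit), Sum.inr ()] 1) =
        (Sum.inr () : (ι ⊕ Unit) ⊕ Unit) := rfl
    rw [h6, h3] at h2
    simp only [map_mul, S.map_map, h4, h5] at h2
    have h7 : S.map Sum.inl n * (S.map ![Sum.inl i, Sum.inr ()] e * S.map (plF i) τ) =
        S.map Sum.inl n * S.map (plF i) τ * S.map ![Sum.inl i, Sum.inr ()] e := by ring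
    rw [h7, ← h2]
    congr 1
    ring
  · -- commutation
    by_cases hij : i = j
    · subst hij
      rfl
    refine S.ext_tot fun n => ?_
    rw [act_two, act_two, plF_ne (Ne.symm hij), plF_ne hij]
    have hb : Function.Bijective (Sum.elim (Sum.elim (fun a => Sum.inl (Sum.inl a))
        (fun a => Sum.inr a)) (fun a => Sum.inl (Sum.inr a)) :
        (ι ⊕ Unit) ⊕ Unit → (ι ⊕ Unit) ⊕ Unit) := by
      constructor
      · rintro ((a | a) | a) ((b | b) | b) h <;> simp_all
      · rintro ((a | a) | a)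
        · exact ⟨Sum.inl (Sum.inl a), rfl⟩
        · exact ⟨Sum.inr a, rfl⟩
        · exact ⟨Sum.inl (Sum.inr a), rfl⟩
    rw [← S.tot_equiv (Equiv.ofBijective _ hb)]
    simp only [map_mul, S.map_map, Equiv.ofBijective_apply, act_vec, Sum.elim_inl, Sum.elim_inr]
    have h1 : (Equiv.ofBijective _ hb : (ι ⊕ Unit) ⊕ Unit → (ι ⊕ Unit) ⊕ Unit) ∘
        (Sum.inl ∘ Sum.inl) = (Sum.inl ∘ Sum.inl : ι → (ι ⊕ Unit) ⊕ Unit) := rfl
    have h2 : (Equiv.ofBijective _ hb : (ι ⊕ Unit) ⊕ Unit → (ι ⊕ Unit) ⊕ Unit) ∘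
        (Sum.map (plF i) id ∘ plF j) = Sum.map (plF j) id ∘ plF i := by
      funext a
      change Sum.elim _ _ (Sum.map (plF i) id (plF j a)) = Sum.map (plF j) id (plF i a)
      by_cases h3 : a = i
      · subst h3
        rw [plF_ne hij, plF_self]
        simp [plF_self]
      · by_cases h4 : a = j
        · subst h4
          rw [plF_ne h3, plF_self]
          simp [plF_self]
        · rw [plF_ne h3, plF_ne h4]
          simp [plF_ne h3, plF_ne h4]
    rw [h1, h2]
    congr 1
    ring
  · -- self-adjoint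
    rw [act_tot, mul_comm (S.act e i n), act_tot]
    have hb : Function.Bijective (Sum.elim (plF i) (fun _ => Sum.inl i) :
        ι ⊕ Unit → ι ⊕ Unit) := by
      have hinv : ∀ a, Sum.elim (plF i) (fun _ => Sum.inl i)
          ((Sum.elim (plF i) (fun _ => Sum.inl i) : ι ⊕ Unit → ι ⊕ Unit) a) = a := by
        rintro (a | a)
        · by_cases h : a = i
          · subst h
            simp [plF_self]
          · simp [plF_ne h]
        · simp [plF_self]
      exact Function.Involutive.bijective hinv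
    rw [← S.tot_equiv (Equiv.ofBijective _ hb)]
    simp only [map_mul, S.map_map, Equiv.ofBijective_apply, act_vec, Sum.elim_inl, Sum.elim_inr,
      plF_self]
    have h1 : (Equiv.ofBijective _ hb : ι ⊕ Unit → ι ⊕ Unit) ∘ Sum.inl = plF i := rfl
    have h2 : (Equiv.ofBijective _ hb : ι ⊕ Unit → ι ⊕ Unit) ∘ plF i = Sum.inl := by
      funext a
      change Sum.elim _ _ (plF i a) = _
      by_cases h : a = i
      · subst h
        simp [plF_self]
      · simp [plF_ne h]
    have h3 : S.map ![(Sum.inr () : ι ⊕ Unit), Sum.inl i] e =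
        S.map ![Sum.inl i, Sum.inr ()] e := by
      conv_lhs => rw [← hs, S.map_map]
      congr 2
      funext j
      fin_cases j <;> rfl
    rw [h1, h2, h3]
    congr 1
    ring
  · -- transport
    rw [S.act_apply, S.map_int, map_mul, S.map_map, S.map_map, S.act_apply, S.map_map, act_vec]
    have h1 : Sum.map f (id : Unit → Unit) ∘ plF i = plF (f i) ∘ f := by
      funext a
      by_cases h : a = i
      · subst h
        simp [plF_self]
      · simp [plF_ne h, plF_ne (fun h' => h (f.injective h'))]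
    rw [h1]
    rfl

end Pool.Agent.Lib.MP_4ca46c_ag.Nil
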