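import Pool.Agent.Lib.MP_4ca46c_ag.Nil.SpecI
import Pool.Agent.Lib.MP_4ca46c_ag.Nil.ActP

/-!
# Absorption and products
-/

set_option autoImplicit false

namespace Pool.Agent.Lib.MP_4ca46c_ag.Nil

section

variable {K : Type} [Field K] (S : Cal K) {ι κ J : Type} [Finite ι] [Finite κ] [Finite J]

theorem abC_inl (e : S.C (Fin 2)) (i : ι) (u : S.C ι) (v : S.C κ) :
    S.act e (Sum.inl i) (S.map Sum.inl u * S.map Sum.inr v) =
      S.map Sum.inl (S.act e i u) * S.map Sum.inr v := by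
  have e1 : plF (Sum.inl i : ι ⊕ κ) ∘ Sum.inl = Sum.map Sum.inl (id : Unit → Unit) ∘ plF i := by
    funext j
    by_cases hj : j = i
    · subst hj
      simp [plF_self]
    · rw [Function.comp_apply, plF_ne (by simpa using hj)]
      simp [plF_ne hj]
  have e2 : plF (Sum.inl i : ι ⊕ κ) ∘ Sum.inr = (Sum.inl ∘ Sum.inr : κ → (ι ⊕ κ) ⊕ Unit) := by
    funext j
    exact plF_ne (by simp)
  rw [mul_comm (S.map Sum.inl (S.act e i u)), S.act_apply e i, S.map_int, S.mul_int, S.act_apply]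
  congr 1
  simp only [map_mul, S.map_map, e1, e2, act_vec, Sum.map_inl, Sum.map_inr, id]
  ring

theorem abC_inr (e : S.C (Fin 2)) (j : κ) (u : S.C ι) (v : S.C κ) :
    S.act e (Sum.inr j) (S.map Sum.inl u * S.map Sum.inr v) =
      S.map Sum.inl u * S.map Sum.inr (S.act e j v) := by
  have e1 : plF (Sum.inr j : ι ⊕ κ) ∘ Sum.inr = Sum.map Sum.inr (id : Unit → Unit) ∘ plF j := by
    funext i
    by_cases hj : i = j
    · subst hj
      simp [plF_self]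
    · rw [Function.comp_apply, plF_ne (by simpa using hj)]
      simp [plF_ne hj]
  have e2 : plF (Sum.inr j : ι ⊕ κ) ∘ Sum.inl = (Sum.inl ∘ Sum.inl : ι → (ι ⊕ κ) ⊕ Unit) := by
    funext i
    exact plF_ne (by simp)
  rw [S.act_apply e j, S.map_int, S.mul_int, S.act_apply]
  congr 1
  simp only [map_mul, S.map_map, e1, e2, act_vec, Sum.map_inl, Sum.map_inr, id]
  ring

theorem abC_bij (ι κ J : Type) : Function.Bijective (Sum.elim
    (Sum.map Sum.inl id : (ι ⊕ κ) ⊕ J → ((ι ⊕ κ) ⊕ Unit) ⊕ J)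
    (fun _ : Unit => Sum.inl (Sum.inr ()))) := by
  constructor
  · rintro ((a | a) | a) ((b | b) | b) h <;> simp_all
  · rintro ((a | a) | a)
    · exact ⟨Sum.inl (Sum.inl a), rfl⟩
    · exact ⟨Sum.inr (), rfl⟩
    · exact ⟨Sum.inl (Sum.inr a), rfl⟩

theorem abC_compl (e : S.C (Fin 2)) (u : S.C (ι ⊕ J)) (v : S.C (κ ⊕ J)) (hu : S.Abs e u)
    (i : ι) : S.act e (Sum.inl i) (S.int (ι ⊕ κ) J (S.map (Sum.map Sum.inl id) u *
      S.map (Sum.map Sum.inr id) v)) =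
    S.int (ι ⊕ κ) J (S.map (Sum.map Sum.inl id) u * S.map (Sum.map Sum.inr id) v) := by
  refine S.ext_tot fun P => ?_
  rw [act_tot, S.map_int, ← mul_assoc, S.sub_id, S.sub_id]
  have h := S.elim hu (Sum.map Sum.inl id : (ι ⊕ κ) ⊕ J → ((ι ⊕ κ) ⊕ Unit) ⊕ J)
    (Sum.inl (Sum.inr ())) (abC_bij ι κ J) (S.map Sum.inl P * S.map (Sum.map Sum.inr id) v)
    (Sum.map Sum.inl id) (Sum.map (plF (Sum.inl i)) id ∘ Sum.map Sum.inl id) (Sum.inl i)
    (by simp [plF_self]) (by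
      rintro (j | j) hj
      · simp [plF_ne (show (Sum.inl j : ι ⊕ κ) ≠ Sum.inl i by simpa using hj)]
      · rfl)
  have e1 : Sum.map Sum.inl (id : J → J) ∘ Sum.map Sum.inr id =
      Sum.map (plF (Sum.inl i : ι ⊕ κ)) (id : J → J) ∘ Sum.map (Sum.inr : κ → ι ⊕ κ) id := by
    funext x
    rcases x with x | x
    · simp [plF_ne (show (Sum.inr x : ι ⊕ κ) ≠ Sum.inl i by simp)]
    · rfl
  have e2 : Sum.map Sum.inl (id : J → J) ∘ Sum.inl =
    (Sum.inl ∘ Sum.inl : ι ⊕ κ → ((ι ⊕ κ) ⊕ Unit) ⊕ J) := rfl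
  have e3 : ![Sum.map Sum.inl (id : J → J) (Sum.map Sum.inl (id : J → J) (Sum.inl i : ι ⊕ J)),
      (Sum.inl (Sum.inr ()) : ((ι ⊕ κ) ⊕ Unit) ⊕ J)] =
      Sum.inl ∘ ![Sum.inl (Sum.inl i), Sum.inr ()] := by
    funext x
    fin_cases x <;> rfl
  rw [e3] at h
  simp only [map_mul, S.map_map, e1, e2] at h ⊢
  rw [show S.map Sum.inl P * (S.map (Sum.map Sum.inl id) u * S.map (Sum.map Sum.inr id) v) =
    S.map Sum.inl P * S.map (Sum.map Sum.inr id) v * S.map (Sum.map Sum.inl id) u by ring, ← h]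
  congr 1
  ring

theorem abC_compr (e : S.C (Fin 2)) (u : S.C (ι ⊕ J)) (v : S.C (κ ⊕ J)) (hv : S.Abs e v)
    (k : κ) : S.act e (Sum.inr k) (S.int (ι ⊕ κ) J (S.map (Sum.map Sum.inl id) u *
      S.map (Sum.map Sum.inr id) v)) =
    S.int (ι ⊕ κ) J (S.map (Sum.map Sum.inl id) u * S.map (Sum.map Sum.inr id) v) := by
  refine S.ext_tot fun P => ?_
  rw [act_tot, S.map_int, ← mul_assoc, S.sub_id, S.sub_id]
  have h := S.elim hv (Sum.map Sum.inl id : (ι ⊕ κ) ⊕ J → ((ι ⊕ κ) ⊕ Unit) ⊕ J)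
    (Sum.inl (Sum.inr ())) (abC_bij ι κ J) (S.map Sum.inl P * S.map (Sum.map Sum.inl id) u)
    (Sum.map Sum.inr id) (Sum.map (plF (Sum.inr k)) id ∘ Sum.map Sum.inr id) (Sum.inl k)
    (by simp [plF_self]) (by
      rintro (j | j) hj
      · simp [plF_ne (show (Sum.inr j : ι ⊕ κ) ≠ Sum.inr k by simpa using hj)]
      · rfl)
  have e1 : Sum.map Sum.inl (id : J → J) ∘ Sum.map Sum.inl id =
      Sum.map (plF (Sum.inr k : ι ⊕ κ)) (id : J → J) ∘ Sum.map (Sum.inl : ι → ι ⊕ κ) id := by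
    funext x
    rcases x with x | x
    · simp [plF_ne (show (Sum.inl x : ι ⊕ κ) ≠ Sum.inr k by simp)]
    · rfl
  have e2 : Sum.map Sum.inl (id : J → J) ∘ Sum.inl =
    (Sum.inl ∘ Sum.inl : ι ⊕ κ → ((ι ⊕ κ) ⊕ Unit) ⊕ J) := rfl
  have e3 : ![Sum.map Sum.inl (id : J → J) (Sum.map Sum.inr (id : J → J) (Sum.inl k : κ ⊕ J)),
      (Sum.inl (Sum.inr ()) : ((ι ⊕ κ) ⊕ Unit) ⊕ J)] =
      Sum.inl ∘ ![Sum.inl (Sum.inr k), Sum.inr ()] := by
    funext x
    fin_cases x <;> rfl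
  rw [e3] at h
  simp only [map_mul, S.map_map, e1, e2] at h ⊢
  rw [← mul_assoc (S.map Sum.inl P) (S.map (Sum.map Sum.inl id) u), ← h]
  congr 1
  ring

end

theorem tAbC : S_AbC := by
  intro K _ S e
  refine ⟨fun ι κ _ _ u v hu hv => S.abs_iff.2 ?_, fun ι κ J _ _ _ u v hu hv => S.abs_iff.2 ?_,
    S.abs_iff.2 fun i => i.elim⟩
  · rintro (i | j)
    · rw [abC_inl, S.abs_iff.1 hu]
    · rw [abC_inr, S.abs_iff.1 hv]
  · rintro (i | k)
    · exact abC_compl S e u v hu i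
    · exact abC_compr S e u v hv k

end Pool.Agent.Lib.MP_4ca46c_ag.Nil
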