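import Pool.Agent.Lib.MP_4ca46c_ag.Nil.SpecD

/-!
# Absorption is invariant under bijections
-/

set_option autoImplicit false

namespace Pool.Agent.Lib.MP_4ca46c_ag.Nil

theorem tAbE : S_AbE := by
  classical
  intro K _ S ι κ _ _ f e u hu i' h' h0 h1
  obtain ⟨i, rfl⟩ := f.surjective i'
  let h : ι → ι ⊕ Unit := fun j => if j = i then Sum.inr () else Sum.inl j
  have hk := hu i h (if_pos rfl) (fun j hj => if_neg hj)
  conv_lhs => rw [hk, S.map_int]
  congr 1
  rw [map_mul, S.map_map, S.map_map, S.map_map]
  congr 2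
  · congr 1
    ext k
    fin_cases k <;> rfl
  · congr 1
    funext j
    by_cases hj : j = i
    · subst hj
      simp [h, h0]
    · have hne : f j ≠ f i := fun hh => hj (f.injective hh)
      simp [h, hj, h1 (f j) hne]

end Pool.Agent.Lib.MP_4ca46c_ag.Nil
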