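import Pool.Agent.Lib.MP_4ca46c_ag.Nil.SpecI

/-!
# The classes `x` and `y ⊗ y`
-/

set_option autoImplicit false

open CategoryTheory Limits MonoidalCategory CartesianMonoidalCategory TensorProduct

namespace Pool.Agent.Lib.MP_4ca46c_ag.Nil

open PreWeil (IsPl pw pj pm pl pmIso pwSum pwUnit pwEmpty pwTwo pm_pj)

variable {K : Type} [Field K] [CharZero K] {𝒱 : Type 1} [Category.{0} 𝒱]
  [CartesianMonoidalCategory 𝒱] (W : PreWeil K 𝒱) (Y : 𝒱)

/-- the pull-back of `y` along a projection -/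
theorem abX_pull {ι κ : Type} [Finite ι] [Finite κ] (f : ι → κ) (i : ι) (y : W.H Y) :
    W.pull (pm Y f) (W.pull (pj Y i) y) = W.pull (pj Y (f i)) y := by
  rw [← W.pull_comp, pm_pj]

theorem abX_co1 : PreWeil.IsCo (fun _ : Unit => (0 : Fin 2)) 1 := by
  constructor
  · rintro (a | a) (b | b) h
    · rfl
    · exact absurd h (by decide : (0 : Fin 2) ≠ 1)
    · exact absurd h (by decide : (1 : Fin 2) ≠ 0)
    · rfl
  · intro a
    fin_cases a
    · exact ⟨Sum.inl (), rfl⟩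
    · exact ⟨Sum.inr (), rfl⟩

theorem abX_co0 : PreWeil.IsCo (fun _ : Unit => (1 : Fin 2)) 0 := by
  constructor
  · rintro (a | a) (b | b) h
    · rfl
    · exact absurd h (by decide : (1 : Fin 2) ≠ 0)
    · exact absurd h (by decide : (0 : Fin 2) ≠ 1)
    · rfl
  · intro a
    fin_cases a
    · exact ⟨Sum.inr (), rfl⟩
    · exact ⟨Sum.inl (), rfl⟩

theorem tAbX (h1 : S_Pl1) (h2 : S_Pl2) : S_AbX := by
  intro K _ _ 𝒱 _ _ W Y e E hE
  refine ⟨fun x X hx hX => ?_, fun k y hy hey P hP => ⟨?_, fun hk => ?_⟩⟩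
  · rw [Cal.abs_iff]
    intro i
    refine W.cv_inj Y ?_
    rw [W.cv_act, hX]
    have h := (h1 K 𝒱 W Y).2.2.2 e E hE (plF ()) (isPl_plF ()) x
    rw [hx] at h
    exact h
  · rw [Cal.abs_iff]
    intro i
    refine W.cv_inj Y ?_
    rw [W.cv_act, hP]
    fin_cases i
    · have h := (h2 K 𝒱 W Y (Fin 2) Unit (fun _ => 1) 0 abX_co0).1 e E hE (plF 0) (isPl_plF 0)
        (W.pull (pj Y ()) y) y
      rw [abX_pull, hey] at h
      rw [PreWeil.comm_smul W (W.pull_gr (pj Y (0 : Fin 2)) hy) (W.pull_gr (pj Y (1 : Fin 2)) hy),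
        map_smul]
      exact congrArg _ h
    · have h := (h2 K 𝒱 W Y (Fin 2) Unit (fun _ => 0) 1 abX_co1).1 e E hE (plF 1) (isPl_plF 1)
        (W.pull (pj Y ()) y) y
      rw [abX_pull, hey] at h
      exact h
  · refine W.cv_inj Y ?_
    have hneg : ∀ i j : Fin 4, W.pull (pj Y i) y * W.pull (pj Y j) y =
        - (W.pull (pj Y j) y * W.pull (pj Y i) y) := by
      intro i j
      rw [PreWeil.comm_smul W (W.pull_gr (pj Y i) hy) (W.pull_gr (pj Y j) hy),
        (hk.mul hk).neg_one_pow, neg_one_smul]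
    rw [map_neg, W.cv_mul, W.cv_mul, W.cv_map, W.cv_map, W.cv_map, W.cv_map, hP]
    simp only [map_mul, abX_pull]
    show W.pull (pj Y (0 : Fin 4)) y * W.pull (pj Y 1) y *
      (W.pull (pj Y (2 : Fin 4)) y * W.pull (pj Y 3) y) =
      - (W.pull (pj Y (0 : Fin 4)) y * W.pull (pj Y 3) y *
      (W.pull (pj Y (2 : Fin 4)) y * W.pull (pj Y 1) y))
    rw [hneg 2 3, mul_neg, mul_assoc, ← mul_assoc (W.pull (pj Y (1 : Fin 4)) y), hneg 1 3,
      neg_mul, mul_assoc (W.pull (pj Y (3 : Fin 4)) y), hneg 1 2]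
    simp only [mul_neg, neg_neg, mul_assoc]

end Pool.Agent.Lib.MP_4ca46c_ag.Nil
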