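import Pool.Agent.Lib.MP_4ca46c_ag.Nil.Inst

/-!
# The action of a class on `Y × Y` in one variable
-/

set_option autoImplicit false

open CategoryTheory Limits MonoidalCategory CartesianMonoidalCategory TensorProduct

namespace Pool.Agent.Lib.MP_4ca46c_ag.Nil

universe v u

open PreWeil (IsPl)

/-- the new variable at the place `i` -/
noncomputable def plF {ι : Type} (i : ι) : ι → ι ⊕ Unit := by
  classical exact fun j => if j = i then Sum.inr () else Sum.inl j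

theorem plF_self {ι : Type} (i : ι) : plF i i = Sum.inr () := by
  unfold plF
  exact if_pos rfl

theorem plF_ne {ι : Type} {i j : ι} (h : j ≠ i) : plF i j = Sum.inl j := by
  unfold plF
  exact if_neg h

theorem isPl_plF {ι : Type} (i : ι) : IsPl i (plF i) := ⟨plF_self i, fun _ h => plF_ne h⟩

theorem eq_plF {ι : Type} {i : ι} {h : ι → ι ⊕ Unit} (hh : IsPl i h) : h = plF i := by
  funext j
  by_cases hj : j = i
  · subst hj
    rw [hh.1, plF_self]
  · rw [hh.2 j hj, plF_ne hj]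

namespace Cal

variable {K : Type} [Field K] (S : Cal K)

/-- The action of `u` in the variable `i`: `τ ↦ ∫_c u(i, c) τ(.. c ..)`. -/
noncomputable def act (u : S.C (Fin 2)) {ι : Type} [Finite ι] (i : ι) : S.C ι →ₗ[K] S.C ι :=
  S.int ι Unit ∘ₗ LinearMap.mulLeft K (S.map ![Sum.inl i, Sum.inr ()] u) ∘ₗ
    (S.map (plF i)).toLinearMap

theorem act_apply (u : S.C (Fin 2)) {ι : Type} [Finite ι] (i : ι) (τ : S.C ι) :
    S.act u i τ = S.int ι Unit (S.map ![Sum.inl i, Sum.inr ()] u * S.map (plF i) τ) := rfl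

theorem abs_iff {e : S.C (Fin 2)} {ι : Type} [Finite ι] {u : S.C ι} :
    S.Abs e u ↔ ∀ i, S.act e i u = u := by
  constructor
  · intro h i
    exact (h i (plF i) (plF_self i) (fun _ hj => plF_ne hj)).symm
  · intro h i g h0 h1
    rw [eq_plF ⟨h0, h1⟩]
    exact (h i).symm

end Cal

namespace PreWeil

variable {K : Type} [Field K] [CharZero K] {𝒱 : Type u} [Category.{v} 𝒱]
  [CartesianMonoidalCategory 𝒱] (W : PreWeil K 𝒱) (Y : 𝒱)

/-- an element of the calculus of even classes as a class -/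
noncomputable def cv {ι : Type} [Finite ι] : (W.calOf Y).C ι →ₗ[K] W.H (pw Y ι) :=
  (W.Ev (pw Y ι)).val.toLinearMap

variable {ι κ J : Type} [Finite ι] [Finite κ] [Finite J]

theorem cv_map (f : ι → κ) (u : (W.calOf Y).C ι) :
    W.cv Y ((W.calOf Y).map f u) = W.pull (pm Y f) (W.cv Y u) := rfl

theorem cv_mul (u v : (W.calOf Y).C ι) : W.cv Y (u * v) = W.cv Y u * W.cv Y v := rfl

theorem cv_one : W.cv Y (1 : (W.calOf Y).C ι) = 1 := rfl

theorem cv_int (u : (W.calOf Y).C (ι ⊕ J)) :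
    W.cv Y ((W.calOf Y).int ι J u) = W.push (pm Y Sum.inl) (W.cv Y u) := rfl

theorem tot_cv (u : (W.calOf Y).C ι) : (W.calOf Y).tot ι u = W.tr (pw Y ι) (W.cv Y u) := rfl

theorem cv_inj {u v : (W.calOf Y).C ι} (h : W.cv Y u = W.cv Y v) : u = v := Subtype.ext h

theorem cv_mem (u : (W.calOf Y).C ι) : W.cv Y u ∈ W.Ev (pw Y ι) := u.2

theorem exists_cv {x : W.H (pw Y ι)} (h : x ∈ W.Ev (pw Y ι)) : ∃ u, W.cv Y u = x := ⟨⟨x, h⟩, rfl⟩

theorem isCls_iff {φ : Module.End K (W.H Y)} {u : (W.calOf Y).C (Fin 2)} :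
    W.IsCls Y φ u ↔ W.op (W.pull (pwTwo Y).inv (W.cv Y u)) = φ := Iff.rfl

theorem mem_TT {e : (W.calOf Y).C (Fin 2)} {u : (W.calOf Y).C ι} :
    u ∈ W.TT Y e ι ↔ W.cv Y u ∈ W.midAlg Y ι ∧ (W.calOf Y).Abs e u := Iff.rfl

/-- the action in one variable -/
theorem cv_act (u : (W.calOf Y).C (Fin 2)) (i : ι) (τ : (W.calOf Y).C ι) :
    W.cv Y ((W.calOf Y).act u i τ) = W.plc Y (W.cv Y u) i (plF i) (W.cv Y τ) := rfl

/-- `g` is the adjoint of `f` -/
def IsAdj {X Y : 𝒱} (f : W.H Y →ₗ[K] W.H X) (g : W.H X →ₗ[K] W.H Y) : Prop :=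
  ∀ a b, W.tr X (f a * b) = W.tr Y (a * g b)

end PreWeil

end Pool.Agent.Lib.MP_4ca46c_ag.Nil
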