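import Pool.Agent.Lib.MP_4ca46c_ag.Nil.SpecI

/-!
# Adjoints of algebraic correspondences
-/

set_option autoImplicit false

open CategoryTheory Limits MonoidalCategory CartesianMonoidalCategory TensorProduct

namespace Pool.Agent.Lib.MP_4ca46c_ag.Nil

open PreWeil

theorem tAdK (h1 : S_Adj) (h2 : S_CK) : S_AdK := by
  intro K _ _ 𝒱 _ _ W X Y m f hf
  obtain ⟨-, -, a3, a4, -⟩ := h1 K 𝒱 W
  obtain ⟨-, c2, -⟩ := h2 K 𝒱 W
  have key : ∃ g ∈ W.CK Y X (m + W.dim Y - W.dim X), W.IsAdj f g := by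
    refine Submodule.span_induction
      (p := fun f _ => ∃ g ∈ W.CK Y X (m + W.dim Y - W.dim X), W.IsAdj f g) ?_ ?_ ?_ ?_ hf
    · intro f hf
      rcases W.mem_cor.1 hf with rfl | ⟨c, u, hc, hu, rfl⟩
      · refine ⟨0, Submodule.zero_mem _, fun a b => ?_⟩
        rw [LinearMap.zero_apply, LinearMap.zero_apply, zero_mul, mul_zero, map_zero, map_zero]
      · refine ⟨W.op (W.pull (lift (snd Y X) (fst Y X)) u), Submodule.subset_span
          (W.mem_cor.2 (Or.inr ⟨c, _, by omega, W.alg_pull _ hu, rfl⟩)), ?_⟩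
        exact a4 u (W.Ev_of_gr (W.alg_gr hu) (even_two_mul c))
    · refine ⟨0, Submodule.zero_mem _, fun a b => ?_⟩
      rw [LinearMap.zero_apply, LinearMap.zero_apply, zero_mul, mul_zero, map_zero, map_zero]
    · rintro f f' _ _ ⟨g, hg, hfg⟩ ⟨g', hg', hfg'⟩
      refine ⟨g + g', Submodule.add_mem _ hg hg', fun a b => ?_⟩
      rw [LinearMap.add_apply, LinearMap.add_apply, add_mul, mul_add, map_add, map_add, hfg, hfg']
    · rintro t f _ ⟨g, hg, hfg⟩
      refine ⟨t • g, Submodule.smul_mem _ _ hg, fun a b => ?_⟩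
      rw [LinearMap.smul_apply, LinearMap.smul_apply, smul_mul_assoc, mul_smul_comm, map_smul,
        map_smul, hfg]
  obtain ⟨g, hg, hfg⟩ := key
  exact ⟨g, hg, hfg, (a3 f g hfg (c2 m f hf)).2⟩

end Pool.Agent.Lib.MP_4ca46c_ag.Nil
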