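import Pool.Agent.Lib.MP_4ca46c_ag.Nil.SpecI

/-!
# Adjoints with respect to the trace pairing
-/

set_option autoImplicit false

open CategoryTheory Limits MonoidalCategory CartesianMonoidalCategory TensorProduct

namespace Pool.Agent.Lib.MP_4ca46c_ag.Nil

open PreWeil

section

variable {K : Type} [Field K] [CharZero K] {𝒱 : Type 1} [Category.{0} 𝒱]
  [CartesianMonoidalCategory 𝒱] (W : PreWeil K 𝒱) {X Y : 𝒱}

theorem adj_eps_left (a b : W.H X) : W.tr X (W.eps X a * b) = W.tr X (a * W.eps X b) := by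
  have h : W.eps X (a * W.eps X b) = W.eps X a * b := by
    have h1 := LinearMap.congr_fun W.eps_eps b
    rw [LinearMap.comp_apply, LinearMap.id_apply] at h1
    rw [eps_mul, h1]
  rw [← h, tr_eps_self]

theorem adj_nd {z z' : W.H X} (h : ∀ a, W.tr X (a * z) = W.tr X (a * z')) : z = z' := by
  refine W.ext_tr fun y => ?_
  obtain ⟨a, rfl⟩ : ∃ a, W.eps X a = y := ⟨W.eps X y, LinearMap.congr_fun W.eps_eps y⟩
  rw [W.tr_eps, W.tr_eps, h]

theorem adj_pull_push (g : X ⟶ Y) (a : W.H Y) (b : W.H X) :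
    W.tr X (W.pull g a * b) = W.tr Y (a * W.push g b) := by
  rw [← W.tr_eps (W.pull g a) b, eps_pull, ← push_spec, W.tr_eps]

theorem adj_op (u : W.H (X ⊗ Y)) (hu : u ∈ W.Ev (X ⊗ Y)) (a : W.H Y) (b : W.H X) :
    W.tr X (W.op u a * b) =
      W.tr Y (a * W.op (W.pull (lift (snd Y X) (fst Y X)) u) b) := by
  have hs : IsIso (lift (snd Y X) (fst Y X)) :=
    ⟨lift (snd X Y) (fst X Y), by ext <;> simp, by ext <;> simp⟩
  rw [← W.tr_eps a (W.op _ b), op_spec, op_spec]
  have e1 : W.pull (snd Y X) b = W.pull (lift (snd Y X) (fst Y X)) (W.pull (fst X Y) b) := by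
    rw [← W.pull_comp, lift_fst]
  have e2 : W.pull (fst Y X) (W.eps Y a) =
      W.pull (lift (snd Y X) (fst Y X)) (W.pull (snd X Y) (W.eps Y a)) := by
    rw [← W.pull_comp, lift_snd]
  rw [e1, e2, ← map_mul, ← map_mul]
  have h := W.tr_iso (asIso (lift (snd Y X) (fst Y X)))
    (u * W.pull (fst X Y) b * W.pull (snd X Y) (W.eps Y a))
  rw [asIso_hom] at h
  rw [h, ← eps_pull, W.tr_eps, ← mul_assoc, W.Ev_comm hu]

theorem adj_trace (f g : Module.End K (W.H X)) (h : W.IsAdj f g) :
    LinearMap.trace K (W.H X) f = LinearMap.trace K (W.H X) g := by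
  let B : W.H X →ₗ[K] Module.Dual K (W.H X) :=
    ((LinearMap.mul K (W.H X)).compr₂ (W.tr X)).flip
  have hB : ∀ b a, B b a = W.tr X (a * b) := fun _ _ => rfl
  have hinj : Function.Injective B := by
    intro b b' hb
    refine adj_nd W fun a => ?_
    rw [← hB, ← hB, hb]
  have hbij : Function.Bijective B := ⟨hinj,
    (LinearMap.injective_iff_surjective_of_finrank_eq_finrank
      (Subspace.dual_finrank_eq).symm).1 hinj⟩
  let φ : W.H X ≃ₗ[K] Module.Dual K (W.H X) := LinearEquiv.ofBijective B hbij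
  have h1 : φ.conj g = Module.Dual.transpose (R := K) f := by
    refine LinearMap.ext fun l => ?_
    obtain ⟨b, rfl⟩ := φ.surjective l
    rw [LinearEquiv.conj_apply_apply, LinearEquiv.symm_apply_apply]
    refine LinearMap.ext fun a => ?_
    exact (h a b).symm
  rw [← LinearMap.trace_conj' g φ, h1, LinearMap.trace_transpose']

end

theorem tAdj : S_Adj := by
  intro K _ _ 𝒱 _ _ W
  refine ⟨fun {X Y} g => ⟨fun a b => W.push_spec g a b, fun a b => adj_pull_push W g a b⟩,
    fun {X Y} f g g' hg hg' => ?_, fun {X Y} f g hg hf => ?_, fun {X Y} u hu a b => ?_,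
    fun {X} f g h => adj_trace W f g h⟩
  · refine LinearMap.ext fun b => adj_nd W fun a => ?_
    rw [← hg, ← hg']
  · have hc : ∀ b, g (W.eps X b) = W.eps Y (g b) := by
      intro b
      refine adj_nd W fun a => ?_
      have h1 : W.eps X (f a) = f (W.eps Y a) := LinearMap.congr_fun hf a
      rw [← hg, ← adj_eps_left, h1, hg, adj_eps_left]
    refine ⟨LinearMap.ext fun b => (hc b).symm, fun b a => ?_⟩
    rw [← W.tr_eps (g b) a, ← hc, ← hg, W.tr_eps]
  · exact adj_op W u hu a b

end Pool.Agent.Lib.MP_4ca46c_ag.Nil
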