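import Pool.Agent.Lib.MP_4ca46c_ag.Nil.SpecI

/-!
# Combinations of algebraic correspondences
-/

set_option autoImplicit false

open CategoryTheory Limits MonoidalCategory CartesianMonoidalCategory TensorProduct

namespace Pool.Agent.Lib.MP_4ca46c_ag.Nil

open PreWeil

section

variable {K : Type} [Field K] [CharZero K] {𝒱 : Type 1} [Category.{0} 𝒱]
  [CartesianMonoidalCategory 𝒱] (W : PreWeil K 𝒱) {X Y Z : 𝒱}

theorem cK_comp (m n : ℤ) (f : W.H Y →ₗ[K] W.H X) (hf : f ∈ W.CK X Y m)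
    (g : W.H Z →ₗ[K] W.H Y) (hg : g ∈ W.CK Y Z n) : f ∘ₗ g ∈ W.CK X Z (m + n) := by
  refine Submodule.span_induction (p := fun f _ => f ∘ₗ g ∈ W.CK X Z (m + n)) ?_ ?_ ?_ ?_ hf
  · intro f hf
    refine Submodule.span_induction (p := fun g _ => f ∘ₗ g ∈ W.CK X Z (m + n)) ?_ ?_ ?_ ?_ hg
    · intro g hg
      exact Submodule.subset_span (W.cor_comp hf hg)
    · rw [LinearMap.comp_zero]
      exact Submodule.zero_mem _
    · intro a b _ _ ha hb
      rw [LinearMap.comp_add]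
      exact Submodule.add_mem _ ha hb
    · intro c a _ ha
      rw [LinearMap.comp_smul]
      exact Submodule.smul_mem _ _ ha
  · rw [LinearMap.zero_comp]
    exact Submodule.zero_mem _
  · intro a b _ _ ha hb
    rw [LinearMap.add_comp]
    exact Submodule.add_mem _ ha hb
  · intro c a _ ha
    rw [LinearMap.smul_comp]
    exact Submodule.smul_mem _ _ ha

theorem cK_eps (m : ℤ) (f : W.H Y →ₗ[K] W.H X) (hf : f ∈ W.CK X Y m) :
    W.eps X ∘ₗ f = f ∘ₗ W.eps Y := by
  refine Submodule.span_induction (p := fun f _ => W.eps X ∘ₗ f = f ∘ₗ W.eps Y) ?_ ?_ ?_ ?_ hf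
  · intro f hf
    refine W.hom_ext fun i y hy => ?_
    rw [LinearMap.comp_apply, LinearMap.comp_apply, W.eps_gr hy, map_smul]
    by_cases h : 0 ≤ (i : ℤ) + 2 * m
    · have h1 : f y ∈ W.gr X ((i : ℤ) + 2 * m).toNat :=
        W.cor_gr hf hy (Int.toNat_of_nonneg h)
      rw [W.eps_gr h1]
      congr 1
      have h2 := Int.toNat_of_nonneg h
      rcases Nat.even_or_odd i with hi | hi
      · have h3 : Even ((i : ℤ) + 2 * m).toNat := by
          obtain ⟨t, ht⟩ := hi
          exact ⟨((t : ℤ) + m).toNat, by omega⟩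
        rw [hi.neg_one_pow, h3.neg_one_pow]
      · have h3 : Odd ((i : ℤ) + 2 * m).toNat := by
          obtain ⟨t, ht⟩ := hi
          exact ⟨((t : ℤ) + m).toNat, by omega⟩
        rw [hi.neg_one_pow, h3.neg_one_pow]
    · rw [W.cor_gr_zero hf hy (by omega), map_zero, smul_zero]
  · rw [LinearMap.comp_zero, LinearMap.zero_comp]
  · intro a b _ _ ha hb
    rw [LinearMap.comp_add, LinearMap.add_comp, ha, hb]
  · intro c a _ ha
    rw [LinearMap.comp_smul, LinearMap.smul_comp, ha]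

theorem cK_op (m : ℤ) (c : ℕ) (hc : (c : ℤ) = W.dim Y + m) (u : W.H (X ⊗ Y))
    (hu : u ∈ W.AK (X ⊗ Y) c) : W.op u ∈ W.CK X Y m := by
  refine Submodule.span_induction (p := fun u _ => W.op u ∈ W.CK X Y m) ?_ ?_ ?_ ?_ hu
  · intro u hu
    exact Submodule.subset_span (W.mem_cor.2 (Or.inr ⟨c, u, hc, hu, rfl⟩))
  · rw [W.op_zero]
    exact Submodule.zero_mem _
  · intro a b _ _ ha hb
    rw [W.op_add]
    exact Submodule.add_mem _ ha hb
  · intro t a _ ha
    rw [W.op_smul]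
    exact Submodule.smul_mem _ _ ha

theorem cK_exists (m : ℤ) (c : ℕ) (hc : (c : ℤ) = W.dim Y + m) (f : W.H Y →ₗ[K] W.H X)
    (hf : f ∈ W.CK X Y m) : ∃ u ∈ W.AK (X ⊗ Y) c, f = W.op u := by
  refine Submodule.span_induction (p := fun f _ => ∃ u ∈ W.AK (X ⊗ Y) c, f = W.op u)
    ?_ ?_ ?_ ?_ hf
  · intro f hf
    rcases W.mem_cor.1 hf with rfl | ⟨d, u, hd, hu, rfl⟩
    · exact ⟨0, Submodule.zero_mem _, W.op_zero.symm⟩
    · have h : d = c := by omega
      subst h
      exact ⟨u, Submodule.subset_span hu, rfl⟩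
  · exact ⟨0, Submodule.zero_mem _, W.op_zero.symm⟩
  · rintro _ _ _ _ ⟨u, hu, rfl⟩ ⟨v, hv, rfl⟩
    exact ⟨u + v, Submodule.add_mem _ hu hv, (W.op_add u v).symm⟩
  · rintro t _ _ ⟨u, hu, rfl⟩
    exact ⟨t • u, Submodule.smul_mem _ _ hu, (W.op_smul t u).symm⟩

end

theorem tCK : S_CK := by
  intro K _ _ 𝒱 _ _ W
  refine ⟨fun {X Y Z} m n f hf g hg => cK_comp W m n f hf g hg,
    fun {X Y} m f hf => cK_eps W m f hf, fun {X Y} g => ⟨Submodule.subset_span (W.cor_pull g),
    Submodule.subset_span (W.cor_push g), Submodule.subset_span (W.cor_id X)⟩,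
    fun {X Y} m c hc => ⟨fun u hu => cK_op W m c hc u hu, fun f hf => cK_exists W m c hc f hf⟩,
    fun {Y Z} r hr => ?_, fun {X} f hf i x hx => ?_⟩
  · rintro _ ⟨s, hs, rfl⟩
    have h1 : W.push r ∈ W.CK Z Y 1 := by
      have h2 := W.cor_push r
      have h3 : (W.dim Z : ℤ) - W.dim Y = 1 := by omega
      rw [h3] at h2
      exact Submodule.subset_span h2
    have h2 := cK_comp W (-1) 1 s hs _ h1
    have h3 := cK_comp W 0 (-1 + 1) (W.pull r).toLinearMap
      (Submodule.subset_span (W.cor_pull r)) _ h2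
    exact h3
  · refine Submodule.span_induction (p := fun f _ => f x ∈ W.gr X i) ?_ ?_ ?_ ?_ hf
    · intro f hf
      exact W.cor_gr hf hx (by omega)
    · exact Submodule.zero_mem _
    · intro a b _ _ ha hb
      exact Submodule.add_mem _ ha hb
    · intro c a _ ha
      exact Submodule.smul_mem _ _ ha

end Pool.Agent.Lib.MP_4ca46c_ag.Nil
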