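import Pool.Agent.Lib.MP_4ca46c_ag.Nil.SpecI

/-!
# Classes of operators
-/

set_option autoImplicit false

open CategoryTheory Limits MonoidalCategory CartesianMonoidalCategory TensorProduct

namespace Pool.Agent.Lib.MP_4ca46c_ag.Nil

open PreWeil

section

variable {K : Type} [Field K] [CharZero K] {𝒱 : Type 1} [Category.{0} 𝒱]
  [CartesianMonoidalCategory 𝒱] (W : PreWeil K 𝒱) {X : 𝒱} (Y : 𝒱)

theorem cls_eps_left (a b : W.H X) : W.tr X (W.eps X a * b) = W.tr X (a * W.eps X b) := by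
  have h : W.eps X (a * W.eps X b) = W.eps X a * b := by
    have h1 := LinearMap.congr_fun W.eps_eps b
    rw [LinearMap.comp_apply, LinearMap.id_apply] at h1
    rw [eps_mul, h1]
  rw [← h, tr_eps_self]

/-- the operator of `eps z` -/
theorem cls_op_eps (z : W.H (Y ⊗ Y)) :
    W.op (W.eps (Y ⊗ Y) z) = W.eps Y ∘ₗ W.op z ∘ₗ W.eps Y := by
  refine W.ind_tm (P := fun z => W.op (W.eps (Y ⊗ Y) z) = W.eps Y ∘ₗ W.op z ∘ₗ W.eps Y) z
    (by rw [map_zero, W.op_zero, LinearMap.zero_comp, LinearMap.comp_zero]) (fun a b => ?_)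
    (fun u v hu hv => by
      rw [map_add, W.op_add, hu, hv, W.op_add, LinearMap.add_comp, LinearMap.comp_add])
  refine LinearMap.ext fun x => ?_
  have h1 : W.eps (Y ⊗ Y) (W.tm a b) = W.tm (W.eps Y a) (W.eps Y b) := by
    rw [tm, eps_mul, eps_pull, eps_pull]
    rfl
  rw [h1, op_tm, LinearMap.comp_apply, LinearMap.comp_apply, op_tm, map_smul, cls_eps_left]

/-- every operator is the operator of a class -/
theorem cls_surj (φ : Module.End K (W.H Y)) : ∃ z : W.H (Y ⊗ Y), W.op z = φ := by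
  let O : W.H (Y ⊗ Y) →ₗ[K] Module.End K (W.H Y) :=
    { toFun := fun z => W.op z
      map_add' := fun u v => W.op_add u v
      map_smul' := fun a u => W.op_smul a u }
  have hinj : Function.Injective O := fun u v h => W.op_inj h
  have hd : Module.finrank K (W.H (Y ⊗ Y)) = Module.finrank K (Module.End K (W.H Y)) := by
    rw [← (W.kun Y Y).finrank_eq, Module.finrank_tensorProduct]
    exact (Module.finrank_linearMap K K (W.H Y) (W.H Y)).symm
  exact (LinearMap.injective_iff_surjective_of_finrank_eq_finrank hd).1 hinj φ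

theorem cls_exists (φ : Module.End K (W.H Y)) (hφ : W.eps Y ∘ₗ φ = φ ∘ₗ W.eps Y) :
    ∃ u, W.IsCls Y φ u := by
  obtain ⟨z, hz⟩ := cls_surj W Y φ
  have h1 : W.eps (Y ⊗ Y) z = z := by
    apply W.op_inj
    rw [cls_op_eps, hz, ← hφ, ← LinearMap.comp_assoc, W.eps_eps, LinearMap.id_comp]
  have h2 : W.pull (pwTwo Y).hom z ∈ W.Ev (pw Y (Fin 2)) := W.pull_Ev _ (W.mem_Ev.2 h1)
  obtain ⟨u, hu⟩ := W.exists_cv Y h2
  refine ⟨u, (W.isCls_iff Y).2 ?_⟩
  rw [hu, ← W.pull_comp, Iso.inv_hom_id, W.pull_id, hz]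

theorem cls_unique (φ : Module.End K (W.H Y)) (u v : (W.calOf Y).C (Fin 2))
    (hu : W.IsCls Y φ u) (hv : W.IsCls Y φ v) : u = v := by
  have h := W.op_inj (((W.isCls_iff Y).1 hu).trans ((W.isCls_iff Y).1 hv).symm)
  have h1 := congrArg (W.pull (pwTwo Y).hom) h
  rw [← W.pull_comp, ← W.pull_comp, Iso.hom_inv_id, W.pull_id, W.pull_id] at h1
  exact W.cv_inj Y h1

end

theorem tCls (h1 : S_CK) : S_Cls := by
  intro K _ _ 𝒱 _ _ W Y
  refine ⟨fun φ hφ => cls_exists W Y φ hφ, fun φ u v hu hv => cls_unique W Y φ u v hu hv,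
    fun φ hφ u hu => ?_⟩
  obtain ⟨-, -, -, c4, -, -⟩ := h1 K 𝒱 W
  obtain ⟨z, hz, hop⟩ := (c4 (X := Y) (Y := Y) 0 (W.dim Y) (by omega)).2 φ hφ
  have h := W.op_inj (((W.isCls_iff Y).1 hu).trans hop)
  have h2 := congrArg (W.pull (pwTwo Y).hom) h
  rw [← W.pull_comp, Iso.hom_inv_id, W.pull_id] at h2
  have h3 : Nat.card (Fin 2) * W.dim Y = 2 * W.dim Y := by rw [Nat.card_eq_fintype_card,
    Fintype.card_fin]
  have h4 : W.midAlg Y (Fin 2) = W.AK (pw Y (Fin 2)) (W.dim Y) := by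
    unfold midAlg
    rw [h3, if_pos (Dvd.intro _ rfl), Nat.mul_div_cancel_left _ (by norm_num)]
  rw [h2, h4]
  refine Submodule.span_induction
    (p := fun z _ => W.pull (pwTwo Y).hom z ∈ W.AK (pw Y (Fin 2)) (W.dim Y)) ?_ ?_ ?_ ?_ hz
  · intro z hz
    exact Submodule.subset_span (W.alg_pull _ hz)
  · rw [map_zero]
    exact Submodule.zero_mem _
  · intro a b _ _ ha hb
    rw [map_add]
    exact Submodule.add_mem _ ha hb
  · intro t a _ ha
    rw [map_smul]
    exact Submodule.smul_mem _ _ ha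

end Pool.Agent.Lib.MP_4ca46c_ag.Nil
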