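import Pool.Agent.Lib.MP_4ca46c_ag.Nil.SpecI

/-!
# The superdimension of the idempotent
-/

set_option autoImplicit false

open CategoryTheory Limits MonoidalCategory CartesianMonoidalCategory TensorProduct

namespace Pool.Agent.Lib.MP_4ca46c_ag.Nil

open PreWeil

section Dim

variable {K : Type} [Field K] [CharZero K] {𝒱 : Type 1} [Category.{0} 𝒱]
  [CartesianMonoidalCategory 𝒱] (W : PreWeil K 𝒱) (Y : 𝒱)

/-- The operator which multiplies `H^i` by `s i`. -/
noncomputable def dimG (s : ℕ → K) : Module.End K (W.H Y) :=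
  ∑ i ∈ Finset.range (2 * W.dim Y + 1), s i • W.pi Y i

theorem dim_G_gr (s : ℕ → K) {i : ℕ} {x : W.H Y} (hx : x ∈ W.gr Y i) :
    dimG W Y s x = s i • x := by
  rw [dimG, LinearMap.sum_apply]
  by_cases hi : 2 * W.dim Y < i
  · rw [W.gr_top hx hi]
    simp
  · rw [Finset.sum_eq_single_of_mem i (Finset.mem_range.2 (by omega))
      fun j _ hj => by rw [LinearMap.smul_apply, W.pi_ne hx (Ne.symm hj), smul_zero],
      LinearMap.smul_apply, W.pi_same hx]

theorem dim_G_comp (s t : ℕ → K) :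
    dimG W Y s ∘ₗ dimG W Y t = dimG W Y (fun i => s i * t i) := by
  refine W.hom_ext fun i x hx => ?_
  rw [LinearMap.comp_apply, dim_G_gr W Y t hx, map_smul, dim_G_gr W Y s hx, dim_G_gr W Y _ hx,
    smul_smul, mul_comm]

theorem dim_G_congr {s t : ℕ → K} (h : ∀ i, s i = t i) : dimG W Y s = dimG W Y t := by
  rw [funext h]

variable {W Y}

theorem dim_G_comm (s : ℕ → K) {e : Module.End K (W.H Y)}
    (he : ∀ i, ∀ x ∈ W.gr Y i, e x ∈ W.gr Y i) : e ∘ₗ dimG W Y s = dimG W Y s ∘ₗ e := by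
  refine W.hom_ext fun i x hx => ?_
  rw [LinearMap.comp_apply, LinearMap.comp_apply, dim_G_gr W Y s hx, map_smul,
    dim_G_gr W Y s (he i x hx)]

theorem dim_G_adj (s t : ℕ → K) (h : ∀ i j, i + j = 2 * W.dim Y → s i = t j) (x y : W.H Y) :
    W.tr Y (dimG W Y s x * y) = W.tr Y (x * dimG W Y t y) := by
  refine W.ind (P := fun x => W.tr Y (dimG W Y s x * y) = W.tr Y (x * dimG W Y t y)) x (by simp)
    (fun i x hx => ?_) (fun a b ha hb => by simp only [map_add, add_mul, ha, hb])
  refine W.ind (P := fun y => W.tr Y (dimG W Y s x * y) = W.tr Y (x * dimG W Y t y)) y (by simp)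
    (fun j y hy => ?_) (fun a b ha hb => by simp only [map_add, mul_add, ha, hb])
  rw [dim_G_gr W Y s hx, dim_G_gr W Y t hy, smul_mul_assoc, mul_smul_comm, map_smul, map_smul]
  by_cases hij : i + j = 2 * W.dim Y
  · rw [h i j hij]
  · rw [W.tr_gr (SetLike.mul_mem_graded hx hy) hij, smul_zero, smul_zero]

theorem dim_skew (s : ℕ → K) (hs : ∀ i j, i + j = 2 * W.dim Y → s j = -((-1) ^ (i * j) * s i))
    (x y : W.H Y) : W.tr Y (x * dimG W Y s y) = -W.tr Y (y * dimG W Y s x) := by
  refine W.ind (P := fun x => W.tr Y (x * dimG W Y s y) = -W.tr Y (y * dimG W Y s x)) x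
    (by simp) (fun i x hx => ?_) (fun a b ha hb => by
      simp only [map_add, add_mul, mul_add, ha, hb, neg_add])
  refine W.ind (P := fun y => W.tr Y (x * dimG W Y s y) = -W.tr Y (y * dimG W Y s x)) y
    (by simp) (fun j y hy => ?_) (fun a b ha hb => by
      simp only [map_add, add_mul, mul_add, ha, hb, neg_add])
  rw [dim_G_gr W Y s hx, dim_G_gr W Y s hy, mul_smul_comm, mul_smul_comm, map_smul, map_smul,
    smul_eq_mul, smul_eq_mul]
  by_cases hij : i + j = 2 * W.dim Y
  · rw [hs i j hij, W.tr_comm hy hx, mul_comm j i]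
    ring
  · rw [W.tr_gr (SetLike.mul_mem_graded hx hy) hij,
      W.tr_gr (SetLike.mul_mem_graded hy hx) (by omega), mul_zero, mul_zero, neg_zero]

/-- The ranges of `e` on the even and on the odd part have even dimension. -/
theorem dim_main (hPar : S_Par) {e : Module.End K (W.H Y)}
    (he : ∀ i, ∀ x ∈ W.gr Y i, e x ∈ W.gr Y i) (hee : e ∘ₗ e = e)
    (hsym : ∀ a b, W.tr Y (e a * b) = W.tr Y (a * e b))
    (s p : ℕ → K) (hs : ∀ i j, i + j = 2 * W.dim Y → s j = -((-1) ^ (i * j) * s i))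
    (hp : ∀ i, s i * s i = p i) (hpp : ∀ i, p i * p i = p i)
    (hpe : ∀ i j, i + j = 2 * W.dim Y → p i = p j) :
    ∃ n : ℕ, LinearMap.trace K (W.H Y) (e ∘ₗ dimG W Y p) = 2 * n ∧
      (n = 0 ↔ e ∘ₗ dimG W Y p = 0) := by
  set f : Module.End K (W.H Y) := e ∘ₗ dimG W Y p with hf
  have hGG : dimG W Y p ∘ₗ dimG W Y p = dimG W Y p := by
    rw [dim_G_comp]
    exact dim_G_congr W Y hpp
  have hss : dimG W Y s ∘ₗ dimG W Y s = dimG W Y p := by
    rw [dim_G_comp]
    exact dim_G_congr W Y hp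
  have hps : dimG W Y p ∘ₗ dimG W Y s = dimG W Y s ∘ₗ dimG W Y p := by
    rw [dim_G_comp, dim_G_comp]
    exact dim_G_congr W Y fun i => mul_comm _ _
  have hef : e ∘ₗ f = f := by
    rw [hf, ← LinearMap.comp_assoc, hee]
  have hGf : dimG W Y p ∘ₗ f = f := by
    rw [hf, ← LinearMap.comp_assoc, ← dim_G_comm p he, LinearMap.comp_assoc, hGG]
  have hff : f ∘ₗ f = f := by
    conv_lhs => rw [hf]
    rw [LinearMap.comp_assoc, hGf, hef]
  have hidem : IsIdempotentElem f := hff
  have htr := (LinearMap.IsIdempotentElem.isProj_range f hidem).trace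
  have hfix : ∀ x ∈ LinearMap.range f, e x = x ∧ dimG W Y p x = x := by
    rintro _ ⟨z, rfl⟩
    exact ⟨LinearMap.congr_fun hef z, LinearMap.congr_fun hGf z⟩
  let B : LinearMap.range f →ₗ[K] LinearMap.range f →ₗ[K] K :=
    ((LinearMap.mul K (W.H Y)).compr₂ (W.tr Y)).compl₁₂ (LinearMap.range f).subtype
      (dimG W Y s ∘ₗ (LinearMap.range f).subtype)
  have hB : ∀ x y, B x y = W.tr Y (x.1 * dimG W Y s y.1) := fun _ _ => rfl
  have heven : Even (Module.finrank K (LinearMap.range f)) := by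
    refine hPar K (LinearMap.range f) B (fun x y => ?_) (fun x hx => ?_)
    · rw [hB, hB, dim_skew s hs]
    · obtain ⟨h1, h2⟩ := hfix x.1 x.2
      refine Subtype.ext (W.duality _ fun z => ?_)
      have h3 : W.tr Y (x.1 * z) = W.tr Y (x.1 * dimG W Y p (e z)) := by
        rw [← dim_G_adj p p hpe, h2, ← hsym, h1]
      have h4 : dimG W Y p (e z) = dimG W Y s (f (dimG W Y s z)) := by
        have h5 : dimG W Y s ∘ₗ f ∘ₗ dimG W Y s = dimG W Y p ∘ₗ e := by
          rw [hf, LinearMap.comp_assoc, hps, ← LinearMap.comp_assoc, ← LinearMap.comp_assoc,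
            ← dim_G_comm s he, LinearMap.comp_assoc (dimG W Y s) (dimG W Y s) e, hss,
            LinearMap.comp_assoc, hGG, dim_G_comm p he]
        exact (LinearMap.congr_fun h5 z).symm
      rw [h3, h4]
      exact hx ⟨f (dimG W Y s z), LinearMap.mem_range_self _ _⟩
  obtain ⟨n, hn⟩ := heven
  refine ⟨n, ?_, ?_⟩
  · rw [htr, hn]
    push_cast
    ring
  · rw [← LinearMap.range_eq_bot, ← Submodule.finrank_eq_zero (R := K), hn]
    omega

end Dim

/-- the projector to the even part -/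
def dimpE {K : Type} [Field K] (i : ℕ) : K := if Even i then 1 else 0

/-- the projector to the odd part -/
def dimpO {K : Type} [Field K] (i : ℕ) : K := if Even i then 0 else 1

/-- the sign on the even part -/
def dimsE {K : Type} [Field K] (D i : ℕ) : K := if Even i then (if i < D then 1 else -1) else 0

theorem dim_zero_iff {K : Type} [Field K] [CharZero K] {𝒱 : Type 1} [Category.{0} 𝒱]
    [CartesianMonoidalCategory 𝒱] {W : PreWeil K 𝒱} {Y : 𝒱} (e : Module.End K (W.H Y))
    (p : ℕ → K) (P : ℕ → Prop) (h1 : ∀ i, P i → p i = 1) (h0 : ∀ i, ¬ P i → p i = 0) :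
    e ∘ₗ dimG W Y p = 0 ↔ ∀ i, P i → ∀ x ∈ W.gr Y i, e x = 0 := by
  constructor
  · intro h i hi x hx
    have h2 := LinearMap.congr_fun h x
    rw [LinearMap.comp_apply, dim_G_gr W Y p hx, h1 i hi, one_smul] at h2
    exact h2
  · intro h
    refine W.hom_ext fun i x hx => ?_
    rw [LinearMap.comp_apply, dim_G_gr W Y p hx, LinearMap.zero_apply]
    by_cases hi : P i
    · rw [h1 i hi, one_smul, h i hi x hx]
    · rw [h0 i hi, zero_smul, map_zero]

theorem tDim (_h1 : S_Adj) (h2 : S_CK) (h3 : S_Op2) (h4 : S_Par) : S_Dim := by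
  intro K _ _ 𝒱 _ _ W Y Z r e E hD
  obtain ⟨-, -, -, -, -, hdeg⟩ := h2 K 𝒱 W
  have hodd : Odd (W.dim Y) := hD.sec.odd
  have he : ∀ i, ∀ x ∈ W.gr Y i, e x ∈ W.gr Y i := hdeg e hD.isE.mem
  have hee : e ∘ₗ e = e := hD.isE.idem
  have hsym := hD.isE.symm
  have hadj : W.IsAdj e e := hsym
  obtain ⟨-, -, -, htot⟩ := h3 K 𝒱 W Y e e E E hD.cls hD.cls
  have htot := htot e hadj
  obtain ⟨n, hn, hn0⟩ := dim_main h4 he hee hsym (dimsE (W.dim Y)) dimpE
    (by
      intro i j hij
      unfold dimsE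
      rcases Nat.even_or_odd i with hi | hi
      · have hj : Even j := by
          have h5 : Even (i + j) := hij ▸ ⟨W.dim Y, by ring⟩
          exact (Nat.even_add.1 h5).1 hi
        have hne : i ≠ W.dim Y := fun h => (Nat.not_even_iff_odd.2 hodd) (h ▸ hi)
        rw [if_pos hi, if_pos hj, (hi.mul_right j).neg_one_pow]
        by_cases h6 : i < W.dim Y
        · rw [if_pos h6, if_neg (by omega)]
          ring
        · rw [if_neg h6, if_pos (by omega)]
          ring
      · have hj : ¬ Even j := by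
          intro hj
          have h5 : Even (i + j) := hij ▸ ⟨W.dim Y, by ring⟩
          exact (Nat.not_even_iff_odd.2 hi) ((Nat.even_add.1 h5).2 hj)
        rw [if_neg (Nat.not_even_iff_odd.2 hi), if_neg hj]
        ring)
    (by
      intro i
      unfold dimsE dimpE
      split_ifs <;> ring)
    (by
      intro i
      unfold dimpE
      split_ifs <;> ring)
    (by
      intro i j hij
      have h5 : Even (i + j) := hij ▸ ⟨W.dim Y, by ring⟩
      unfold dimpE
      rw [if_congr (Nat.even_add.1 h5) rfl rfl])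
  obtain ⟨m, hm, hm0⟩ := dim_main h4 he hee hsym dimpO dimpO
    (by
      intro i j hij
      unfold dimpO
      have h5 : Even (i + j) := hij ▸ ⟨W.dim Y, by ring⟩
      rcases Nat.even_or_odd i with hi | hi
      · rw [if_pos hi, if_pos ((Nat.even_add.1 h5).1 hi)]
        ring
      · have hj : ¬ Even j := fun hj => (Nat.not_even_iff_odd.2 hi) ((Nat.even_add.1 h5).2 hj)
        rw [if_neg (Nat.not_even_iff_odd.2 hi), if_neg hj,
          (hi.mul (Nat.not_even_iff_odd.1 hj)).neg_one_pow]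
        ring)
    (by
      intro i
      unfold dimpO
      split_ifs <;> ring)
    (by
      intro i
      unfold dimpO
      split_ifs <;> ring)
    (by
      intro i j hij
      have h5 : Even (i + j) := hij ▸ ⟨W.dim Y, by ring⟩
      unfold dimpO
      rw [if_congr (Nat.even_add.1 h5) rfl rfl])
  refine ⟨n, m, ?_, ?_, ?_⟩
  · have h5 : e ∘ₗ e ∘ₗ W.eps Y = e ∘ₗ dimG W Y dimpE - e ∘ₗ dimG W Y dimpO := by
      rw [← LinearMap.comp_assoc, hee, ← LinearMap.comp_sub]
      congr 1
      refine W.hom_ext fun i x hx => ?_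
      rw [W.eps_gr hx, LinearMap.sub_apply, dim_G_gr W Y _ hx, dim_G_gr W Y _ hx]
      unfold dimpE dimpO
      rcases Nat.even_or_odd i with hi | hi
      · rw [if_pos hi, if_pos hi, hi.neg_one_pow, zero_smul, sub_zero]
      · rw [if_neg (Nat.not_even_iff_odd.2 hi), if_neg (Nat.not_even_iff_odd.2 hi),
          hi.neg_one_pow, zero_smul, zero_sub, one_smul, neg_one_smul]
    rw [htot, h5, map_sub, hn, hm]
  · rw [hn0]
    exact dim_zero_iff e dimpE Even (fun i hi => if_pos hi) (fun i hi => if_neg hi)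
  · rw [hm0]
    exact dim_zero_iff e dimpO Odd (fun i hi => if_neg (Nat.not_even_iff_odd.2 hi))
      (fun i hi => if_pos (Nat.not_odd_iff_even.1 hi))

end Pool.Agent.Lib.MP_4ca46c_ag.Nil
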