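import Pool.Agent.Lib.MP_4ca46c_ag.Nil.SpecI

/-!
# Basic properties of `E`
-/

set_option autoImplicit false

open CategoryTheory Limits MonoidalCategory CartesianMonoidalCategory TensorProduct

namespace Pool.Agent.Lib.MP_4ca46c_ag.Nil

open PreWeil

theorem tEE3 (h1 : S_Cls) (h2 : S_Op2) : S_EE3 := by
  intro K _ _ 𝒱 _ _ W Y Z r e E h
  obtain ⟨-, c2, c3⟩ := h1 K 𝒱 W Y
  obtain ⟨o1, o2, -, -⟩ := h2 K 𝒱 W Y e e E E h.cls h.cls
  have hadj : W.IsAdj e e := h.isE.symm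
  have hee : e ∘ₗ e = e := h.isE.idem
  rw [hee] at o1
  obtain ⟨o3, o4⟩ := o2 e hadj
  rw [hee] at o3
  have hE0 := c2 e _ _ o1 h.cls
  have hE1 := c2 e _ _ o3 h.cls
  have habs : (W.calOf Y).Abs E E := by
    refine (W.calOf Y).abs_iff.2 fun i => ?_
    fin_cases i
    · exact hE0
    · exact hE1
  exact ⟨(W.mem_TT Y).2 ⟨c3 e h.isE.mem E h.cls, habs⟩, c2 e _ _ o4 h.cls, habs⟩

end Pool.Agent.Lib.MP_4ca46c_ag.Nil
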