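import Pool.Agent.Lib.MP_4ca46c_ag.Nil.SpecI

/-!
# The idempotent
-/

set_option autoImplicit false

open CategoryTheory Limits MonoidalCategory CartesianMonoidalCategory TensorProduct

namespace Pool.Agent.Lib.MP_4ca46c_ag.Nil

/-- the linear algebra data for the choice of the idempotent -/
structure ExEDat (K V : Type) [Field K] [AddCommGroup V] [Module K V] where
  C : Submodule K (Module.End K V)
  J : Submodule K (Module.End K V)
  adj : Module.End K V → Module.End K V → Prop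
  Cmul : ∀ f ∈ C, ∀ g ∈ C, f * g ∈ C
  C1 : 1 ∈ C
  ex : ∀ f ∈ C, ∃ g ∈ C, adj f g ∧ adj g f
  uniq : ∀ f g g', adj f g → adj f g' → g = g'
  add : ∀ f g f' g', adj f g → adj f' g' → adj (f + f') (g + g')
  smul : ∀ (a : K) f g, adj f g → adj (a • f) (a • g)
  mul : ∀ f g f' g', adj f g → adj f' g' → adj (f * f') (g' * g)
  one : adj 1 1
  tr : ∀ f g, adj f g → LinearMap.trace K V f = LinearMap.trace K V g
  kap : ∀ f ∈ C, ∃ κ : K, f - κ • 1 ∈ J
  not1 : 1 ∉ J
  Jmul : ∀ j ∈ J, ∀ f ∈ C, f * j ∈ J ∧ j * f ∈ J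
  Jadj : ∀ j ∈ J, ∃ j' ∈ J, adj j j'
  JC : J ≤ C

namespace ExEDat

variable {K V : Type} [Field K] [AddCommGroup V] [Module K V] (D : ExEDat K V)

/-- the algebra -/
def R : Subalgebra K (Module.End K V) where
  carrier := {f | f ∈ D.C}
  mul_mem' ha hb := D.Cmul _ ha _ hb
  one_mem' := D.C1
  add_mem' ha hb := D.C.add_mem ha hb
  zero_mem' := D.C.zero_mem
  algebraMap_mem' a := by
    rw [Algebra.algebraMap_eq_smul_one]
    exact D.C.smul_mem a D.C1

/-- the adjoint -/
noncomputable def t0 (x : D.R) : D.R := ⟨(D.ex x.1 x.2).choose, (D.ex x.1 x.2).choose_spec.1⟩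

theorem adj_t0 (x : D.R) : D.adj x.1 (D.t0 x).1 := (D.ex x.1 x.2).choose_spec.2.1

theorem adj_t0' (x : D.R) : D.adj (D.t0 x).1 x.1 := (D.ex x.1 x.2).choose_spec.2.2

theorem t0_eq {x y : D.R} (h : D.adj x.1 y.1) : D.t0 x = y :=
  Subtype.ext (D.uniq _ _ _ (D.adj_t0 x) h)

theorem kap_uniq {f : Module.End K V} {a b : K} (ha : f - a • 1 ∈ D.J) (hb : f - b • 1 ∈ D.J) :
    a = b := by
  by_contra hne
  have h1 : (b - a)⁻¹ • ((f - a • 1) - (f - b • 1)) ∈ D.J :=
    D.J.smul_mem _ (D.J.sub_mem ha hb)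
  have h2 : (f - a • 1) - (f - b • 1) = (b - a) • (1 : Module.End K V) := by
    rw [sub_smul]
    abel
  rw [h2, smul_smul, inv_mul_cancel₀ (sub_ne_zero.mpr (Ne.symm hne)), one_smul] at h1
  exact D.not1 h1

/-- the homomorphism to `K` -/
noncomputable def k0 (x : D.R) : K := (D.kap x.1 x.2).choose

theorem k0_spec (x : D.R) : x.1 - D.k0 x • 1 ∈ D.J := (D.kap x.1 x.2).choose_spec

theorem k0_eq {x : D.R} {a : K} (h : x.1 - a • 1 ∈ D.J) : D.k0 x = a :=
  D.kap_uniq (D.k0_spec x) h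

/-- the algebra with anti-involution -/
noncomputable def S : StarAlg K V where
  R := D.R
  t :=
    { toFun := D.t0
      map_add' := fun x y => D.t0_eq (D.add _ _ _ _ (D.adj_t0 x) (D.adj_t0 y))
      map_smul' := fun a x => D.t0_eq (D.smul a _ _ (D.adj_t0 x)) }
  t_mul x y := D.t0_eq (D.mul _ _ _ _ (D.adj_t0 x) (D.adj_t0 y))
  t_t x := D.t0_eq (D.adj_t0' x)
  trace_t x := D.tr _ _ (D.adj_t0' x)
  κ :=
    { toFun := D.k0
      map_one' := D.k0_eq (by
        rw [one_smul]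
        show (1 : Module.End K V) - 1 ∈ D.J
        rw [sub_self]
        exact D.J.zero_mem)
      map_mul' := fun x y => D.k0_eq (by
        have h1 : (x * y : D.R).1 - (D.k0 x * D.k0 y) • 1 =
            (x.1 - D.k0 x • 1) * y.1 + D.k0 x • (y.1 - D.k0 y • 1) := by
          show x.1 * y.1 - (D.k0 x * D.k0 y) • 1 = _
          rw [sub_mul, smul_sub, smul_smul, smul_mul_assoc, one_mul]
          abel
        rw [h1]
        exact D.J.add_mem (D.Jmul _ (D.k0_spec x) _ y.2).2 (D.J.smul_mem _ (D.k0_spec y)))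
      map_zero' := D.k0_eq (by
        rw [zero_smul, sub_zero]
        exact D.J.zero_mem)
      map_add' := fun x y => D.k0_eq (by
        have h1 : (x + y : D.R).1 - (D.k0 x + D.k0 y) • 1 =
            (x.1 - D.k0 x • 1) + (y.1 - D.k0 y • 1) := by
          show x.1 + y.1 - (D.k0 x + D.k0 y) • 1 = _
          rw [add_smul]
          abel
        rw [h1]
        exact D.J.add_mem (D.k0_spec x) (D.k0_spec y))
      commutes' := fun a => D.k0_eq (by
        have h1 : (algebraMap K D.R a).1 = a • (1 : Module.End K V) := by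
          rw [Algebra.algebraMap_eq_smul_one]
          rfl
        rw [h1]
        show a • (1 : Module.End K V) - a • 1 ∈ D.J
        rw [sub_self]
        exact D.J.zero_mem) }
  κ_t x := by
    show D.k0 (D.t0 x) = D.k0 x
    refine D.k0_eq ?_
    obtain ⟨j, hj, hadj⟩ := D.Jadj _ (D.k0_spec x)
    have h1 : D.adj (x.1 - D.k0 x • 1) ((D.t0 x).1 - D.k0 x • 1) := by
      rw [sub_eq_add_neg, sub_eq_add_neg, ← neg_smul]
      exact D.add _ _ _ _ (D.adj_t0 x) (D.smul _ _ _ D.one)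
    rwa [D.uniq _ _ _ hadj h1] at hj

theorem main [CharZero K] [FiniteDimensional K V] (h : S_Idem) : ∃ e ∈ D.C, e * e = e ∧
    D.adj e e ∧ 1 - e ∈ D.J ∧ ∀ x ∈ D.J, IsNilpotent (e * x * e) := by
  obtain ⟨e, h1, h2, h3, h4⟩ := h K V D.S
  refine ⟨e.1, e.2, congrArg Subtype.val h1, ?_, ?_, fun x hx => ?_⟩
  · have h5 := D.adj_t0 e
    have h6 : D.t0 e = e := h2
    rwa [h6] at h5
  · have h5 := D.k0_spec e
    have h6 : D.k0 e = 1 := h3
    rw [h6, one_smul] at h5
    have h7 := D.J.neg_mem h5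
    rwa [neg_sub] at h7
  · have h5 : D.k0 ⟨x, D.JC hx⟩ = 0 := D.k0_eq (by rwa [zero_smul, sub_zero])
    exact (h4 ⟨x, D.JC hx⟩ h5).map D.R.val

end ExEDat

theorem tExE (hA : S_Adj) (hC : S_CK) (hK : S_AdK) (hJ : S_Jdl) (hI : S_Idem) : S_ExE := by
  intro K _ _ 𝒱 _ _ W Y Z r hs hid
  obtain ⟨c1, c2, c3, c4, c5, c6⟩ := hC K 𝒱 W
  obtain ⟨a1, a2, a3, a4, a5⟩ := hA K 𝒱 W
  obtain ⟨j1, j2, j3⟩ := hJ K 𝒱 W r hs
  let D : ExEDat K (W.H Y) :=
    { C := W.CK Y Y 0
      J := W.JK r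
      adj := fun f g => W.IsAdj f g
      Cmul := fun f hf g hg => by
        have h := c1 0 0 f hf g hg
        rwa [add_zero] at h
      C1 := (c3 (𝟙 Y)).2.2
      ex := fun f hf => by
        obtain ⟨g, hg, h1, h2⟩ := hK K 𝒱 W 0 f hf
        rw [zero_add, sub_self] at hg
        exact ⟨g, hg, h1, h2⟩
      uniq := fun f g g' h h' => a2 f g g' h h'
      add := fun f g f' g' h h' a b => by
        show W.tr Y ((f a + f' a) * b) = W.tr Y (a * (g b + g' b))
        rw [add_mul, map_add, h a b, h' a b, mul_add, map_add]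
      smul := fun c f g h a b => by
        show W.tr Y ((c • f a) * b) = W.tr Y (a * (c • g b))
        rw [smul_mul_assoc, map_smul, h a b, mul_smul_comm, map_smul]
      mul := fun f g f' g' h h' a b => by
        show W.tr Y (f (f' a) * b) = W.tr Y (a * g' (g b))
        rw [h, h']
      one := fun a b => rfl
      tr := fun f g h => a5 f g h
      kap := fun f hf => j1 f hf
      not1 := hid
      Jmul := fun j hj f hf => j2 j hj f hf
      Jadj := fun j hj => j3 j hj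
      JC := c5 r hs.dim }
  obtain ⟨e, h1, h2, h3, h4, h5⟩ := D.main hI
  exact ⟨e, h1, h2, h3, h4, h5⟩

end Pool.Agent.Lib.MP_4ca46c_ag.Nil
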