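import Pool.Agent.Lib.MP_4ca46c_ag.Nil.SpecI

/-!
# The spreading argument for four points
-/

set_option autoImplicit false

open CategoryTheory Limits MonoidalCategory CartesianMonoidalCategory TensorProduct

namespace Pool.Agent.Lib.MP_4ca46c_ag.Nil

open PreWeil (IsPl pw pj pm pl pmIso pwSum pwUnit pwEmpty pwTwo)

section

variable {K : Type} [Field K]

theorem fourI_pi {S : Cal K} {e : S.C (Fin 2)} {π : S.C (Fin 4) →ₗ[K] S.C (Fin 4)}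
    (h1 : ∀ u, S.Abs e (π u))
    (h3 : ∀ n u, S.Abs e n → S.tot (Fin 4) (n * π u) = S.tot (Fin 4) (n * u))
    {N N' : S.C (Fin 4)} (hN : ∀ u, S.tot (Fin 4) (π u * N) = S.tot (Fin 4) (π u * N'))
    (hN' : S.Abs e N') : π N = N' := by
  refine S.ext_tot fun w => ?_
  rw [mul_comm w, ← h3 (π N) w (h1 N), mul_comm (π N), h3 (π w) N (h1 w), hN, mul_comm (π w),
    h3 N' w hN', mul_comm]

theorem fourI_abs (h5 : S_AbC) (h6 : S_AbE) {S : Cal K} {e : S.C (Fin 2)} (he : S.Abs e e)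
    (a b c d : Fin 4) (h : Function.Bijective (Sum.elim ![a, b] ![c, d] : Fin 2 ⊕ Fin 2 → Fin 4)) :
    S.Abs e (S.map ![a, b] e * S.map ![c, d] e) := by
  have h7 := h6 K S (Fin 2 ⊕ Fin 2) (Fin 4) (Equiv.ofBijective _ h) e _
    ((h5 K S e).1 (Fin 2) (Fin 2) e e he he)
  rw [map_mul, S.map_map, S.map_map] at h7
  exact h7

end

section

variable {K : Type} [Field K] [CharZero K] {𝒱 : Type 1} [Category.{0} 𝒱]
  [CartesianMonoidalCategory 𝒱] (W : PreWeil K 𝒱)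

theorem fourI_pull {X Y : 𝒱} (f : X ⟶ Y) {c : ℕ} {x : W.H Y} (hx : x ∈ W.AK Y c) :
    W.pull f x ∈ W.AK X c := by
  refine Submodule.span_induction (p := fun x _ => W.pull f x ∈ W.AK X c) ?_ ?_ ?_ ?_ hx
  · intro a ha
    exact Submodule.subset_span (W.alg_pull f ha)
  · rw [map_zero]
    exact Submodule.zero_mem _
  · intro a b _ _ ha hb
    rw [map_add]
    exact Submodule.add_mem _ ha hb
  · intro t a _ ha
    rw [map_smul]
    exact Submodule.smul_mem _ _ ha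

theorem fourI_dec {Y Z : 𝒱} {r : Y ⟶ Z} (hr : W.Sec4 r) {a : W.H (pw Y (Fin 4))}
    (ha : a ∈ W.AK (pw Y (Fin 4)) (2 * W.dim Y)) : ∃ (x : Fin 3 → K)
    (b : Fin 4 → W.H (pw Y (Fin 3) ⊗ Z)), (∀ i, b i ∈ W.AK _ (2 * W.dim Y)) ∧
    a = x 0 • (W.dg Y 0 1 * W.dg Y 2 3) + x 1 • (W.dg Y 0 2 * W.dg Y 1 3) +
      x 2 • (W.dg Y 0 3 * W.dg Y 1 2) + ∑ i, W.pull (PreWeil.th r i) (b i) := by
  refine Submodule.span_induction (p := fun a _ => ∃ (x : Fin 3 → K)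
    (b : Fin 4 → W.H (pw Y (Fin 3) ⊗ Z)), (∀ i, b i ∈ W.AK _ (2 * W.dim Y)) ∧
    a = x 0 • (W.dg Y 0 1 * W.dg Y 2 3) + x 1 • (W.dg Y 0 2 * W.dg Y 1 3) +
      x 2 • (W.dg Y 0 3 * W.dg Y 1 2) + ∑ i, W.pull (PreWeil.th r i) (b i)) ?_ ?_ ?_ ?_ ha
  · intro a ha
    exact hr.four a ha
  · refine ⟨0, 0, fun i => Submodule.zero_mem _, ?_⟩
    simp
  · rintro a a' _ _ ⟨x, b, hb, rfl⟩ ⟨x', b', hb', rfl⟩
    refine ⟨x + x', b + b', fun i => Submodule.add_mem _ (hb i) (hb' i), ?_⟩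
    simp only [Pi.add_apply, map_add, add_smul, Finset.sum_add_distrib]
    abel
  · rintro t a _ ⟨x, b, hb, rfl⟩
    refine ⟨t • x, t • b, fun i => Submodule.smul_mem _ _ (hb i), ?_⟩
    simp only [Pi.smul_apply, map_smul, smul_eq_mul, smul_add, mul_smul, Finset.smul_sum]

end

theorem tFourI (h1 : S_Cls) (h3 : S_One) (h4 : S_PrC) (h5 : S_AbC) (h6 : S_AbE)
    (h7 : S_M4) (h8 : S_Mid) (h9 : S_EE3) (h10 : S_LemS) : S_FourI := by
  intro K _ _ 𝒱 _ _ W Y Z r e E hD Q hQ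
  obtain ⟨hE1, hE2, hE3⟩ := h9 K 𝒱 W r e E hD
  obtain ⟨I, hI⟩ := (h1 K 𝒱 W Y).1 LinearMap.id (by rw [LinearMap.id_comp, LinearMap.comp_id])
  obtain ⟨hI1, hI2⟩ := h3 K 𝒱 W Y I hI
  obtain ⟨-, -, -, -, m5, -, -⟩ := h8 K 𝒱 W Y
  have hmid : W.midAlg Y (Fin 4) = W.AK (pw Y (Fin 4)) (2 * W.dim Y) := by
    rw [PreWeil.midAlg, Nat.card_eq_fintype_card, Fintype.card_fin,
      if_pos ⟨2 * W.dim Y, by ring⟩]
    congr 1
    omega
  obtain ⟨π, hπ1, hπ2, hπ3, hπ4⟩ := h4 K (W.calOf Y) E hE2 hE3 (Fin 4)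
    ((W.midAlg Y (Fin 4)).comap (W.cv Y)) (by
      intro i u hu
      rw [Submodule.mem_comap, W.cv_act]
      exact m5 (Fin 4) i (plF i) _ hE1.1 _ hu)
  have hcl : ∀ (N N' : (W.calOf Y).C (Fin 4)), (∀ u, (W.calOf Y).Abs I u → (W.calOf Y).Abs E u →
      (W.calOf Y).tot (Fin 4) (u * N) = (W.calOf Y).tot (Fin 4) (u * N')) →
      (W.calOf Y).Abs E N' → π N = N' := fun N N' hN hN' =>
    fourI_pi hπ1 hπ3 (fun u => hN _ (hI1 (Fin 4) _) (hπ1 u)) hN'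
  have n1 : π ((W.calOf Y).map ![0, 1] I * (W.calOf Y).map ![2, 3] I) =
      (W.calOf Y).map ![0, 1] E * (W.calOf Y).map ![2, 3] E := by
    refine hcl _ _ (fun u hu hu' => ?_) (fourI_abs h5 h6 hE3 0 1 2 3 (by decide))
    rw [(h7 K (W.calOf Y) I u hu).1, (h7 K (W.calOf Y) E u hu').1]
  have n2 : π ((W.calOf Y).map ![0, 2] I * (W.calOf Y).map ![1, 3] I) =
      (W.calOf Y).map ![0, 2] E * (W.calOf Y).map ![1, 3] E := by
    refine hcl _ _ (fun u hu hu' => ?_) (fourI_abs h5 h6 hE3 0 2 1 3 (by decide))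
    rw [(h7 K (W.calOf Y) I u hu).2.1, (h7 K (W.calOf Y) E u hu').2.1]
  have n3 : π ((W.calOf Y).map ![0, 3] I * (W.calOf Y).map ![1, 2] I) =
      (W.calOf Y).map ![0, 3] E * (W.calOf Y).map ![1, 2] E := by
    refine hcl _ _ (fun u hu hu' => ?_) (fourI_abs h5 h6 hE3 0 3 1 2 (by decide))
    rw [(h7 K (W.calOf Y) I u hu).2.2, (h7 K (W.calOf Y) E u hu').2.2]
  obtain ⟨hQ1, hQ2⟩ := W.mem_TT Y |>.1 hQ
  rw [hmid] at hQ1
  obtain ⟨x, b, hb, hx⟩ := fourI_dec W hD.sec hQ1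
  set B : (W.calOf Y).C (Fin 4) := Q -
    (x 0 • ((W.calOf Y).map ![0, 1] I * (W.calOf Y).map ![2, 3] I) +
    x 1 • ((W.calOf Y).map ![0, 2] I * (W.calOf Y).map ![1, 3] I) +
    x 2 • ((W.calOf Y).map ![0, 3] I * (W.calOf Y).map ![1, 2] I)) with hB
  have hcB : W.cv Y B = ∑ i, W.pull (PreWeil.th r i) (b i) := by
    rw [hB, map_sub, map_add, map_add, map_smul, map_smul, map_smul, W.cv_mul, W.cv_mul, W.cv_mul,
      hI2, hI2, hI2, hI2, hI2, hI2, hx, add_sub_cancel_left]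
  have hBM : B ∈ (W.midAlg Y (Fin 4)).comap (W.cv Y) := by
    rw [Submodule.mem_comap, hcB, hmid]
    exact Submodule.sum_mem _ fun i _ => fourI_pull W _ (hb i)
  refine ⟨x 0, x 1, x 2, π B, W.mem_TT Y |>.2 ⟨hπ4 B hBM, hπ1 B⟩, ?_, ?_⟩
  · intro g hg
    rw [mul_comm, hπ3 g B (W.mem_TT Y |>.1 hg).2, mul_comm, W.tot_cv, W.cv_mul, hcB,
      Finset.sum_mul, map_sum]
    exact Finset.sum_eq_zero fun i _ => h10 K 𝒱 W r e E hD i (b i) (hb i) g hg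
  · rw [← n1, ← n2, ← n3, ← map_smul, ← map_smul, ← map_smul, ← map_add, ← map_add, ← map_add, hB,
      add_sub_cancel, hπ2 Q hQ2]

end Pool.Agent.Lib.MP_4ca46c_ag.Nil
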