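import Pool.Agent.Lib.MP_4ca46c_ag.Nil.SpecI

/-!
# The grading operator on the `e`-part
-/

set_option autoImplicit false

open CategoryTheory Limits MonoidalCategory CartesianMonoidalCategory TensorProduct

namespace Pool.Agent.Lib.MP_4ca46c_ag.Nil

open PreWeil (IsPl pw pj pm pl pmIso pwSum pwUnit pwEmpty pwTwo)

section grI

variable {K : Type} [Field K] [CharZero K] {𝒱 : Type 1} [Category.{0} 𝒱]
  [CartesianMonoidalCategory 𝒱] (W : PreWeil K 𝒱)

theorem grI_cls_neg (Y : 𝒱) {φ : Module.End K (W.H Y)} {u : (W.calOf Y).C (Fin 2)}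
    (h : W.IsCls Y φ u) : W.IsCls Y (-φ) (-u) := by
  rw [PreWeil.isCls_iff] at h ⊢
  have h1 := W.op_add (W.pull (pwTwo Y).inv (W.cv Y u)) (W.pull (pwTwo Y).inv (W.cv Y (-u)))
  rw [← map_add, ← map_add, add_neg_cancel, map_zero, map_zero, W.op_zero, h] at h1
  exact eq_neg_of_add_eq_zero_right h1.symm

/-- the adjoint of the degree operator -/
theorem grI_tr (hd : ∀ (X : 𝒱) (k : ℕ) (x : W.H X), x ∈ W.gr X k → W.degOp X x = (k : K) • x)
    (Y : 𝒱) (a b : W.H Y) :
    W.tr Y ((W.degOp Y a - (W.dim Y : K) • a) * b) =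
      -W.tr Y (a * (W.degOp Y b - (W.dim Y : K) • b)) := by
  refine W.ind (P := fun a => W.tr Y ((W.degOp Y a - (W.dim Y : K) • a) * b) =
      -W.tr Y (a * (W.degOp Y b - (W.dim Y : K) • b))) a (by simp) (fun i a ha => ?_)
    (fun a a' h h' => ?_)
  · refine W.ind (P := fun b => W.tr Y ((W.degOp Y a - (W.dim Y : K) • a) * b) =
      -W.tr Y (a * (W.degOp Y b - (W.dim Y : K) • b))) b (by simp) (fun j b hb => ?_)
      (fun b b' h h' => ?_)
    · rw [hd Y i a ha, hd Y j b hb, ← sub_smul, ← sub_smul, smul_mul_assoc, mul_smul_comm,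
        map_smul, map_smul, smul_eq_mul, smul_eq_mul]
      by_cases hij : i + j = 2 * W.dim Y
      · have h1 : (i : K) + j = 2 * (W.dim Y : K) := by exact_mod_cast congrArg (Nat.cast : ℕ → K) hij
        linear_combination (W.tr Y (a * b)) * h1
      · rw [W.tr_gr (SetLike.mul_mem_graded ha hb) hij, mul_zero, mul_zero, neg_zero]
    · have e1 : a * (W.degOp Y (b + b') - (W.dim Y : K) • (b + b')) =
          a * (W.degOp Y b - (W.dim Y : K) • b) + a * (W.degOp Y b' - (W.dim Y : K) • b') := by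
        rw [← mul_add, map_add, smul_add]
        congr 1
        abel
      rw [mul_add, map_add, h, h', e1, map_add, neg_add]
  · have e1 : (W.degOp Y (a + a') - (W.dim Y : K) • (a + a')) * b =
        (W.degOp Y a - (W.dim Y : K) • a) * b + (W.degOp Y a' - (W.dim Y : K) • a') * b := by
      rw [← add_mul, map_add, smul_add]
      congr 1
      abel
    rw [e1, map_add, h, h', add_mul, map_add, neg_add]

end grI

/-- **The grading operator.** -/
theorem tGrI (_hAdj : S_Adj) (hCK : S_CK) (hCls : S_Cls) (hPl2 : S_Pl2) (hOp2 : S_Op2)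
    (hEul : S_Eul) (hMid : S_Mid) : S_GrI := by
  intro K _ _ 𝒱 _ _ W Y Z r e E hD h w hw
  obtain ⟨hd, hsum⟩ := hEul K 𝒱 W Y
  obtain ⟨-, hck2, -, -, -, hck6⟩ := hCK K 𝒱 W
  obtain ⟨hc1, hc2, -⟩ := hCls K 𝒱 W Y
  have hE := hD.isE
  have hcls := hD.cls
  have heps : W.eps Y ∘ₗ e = e ∘ₗ W.eps Y := hck2 0 e hE.mem
  have hee : ∀ x, e (e x) = e x := fun x => LinearMap.congr_fun hE.idem x
  have hegr : ∀ i, ∀ x ∈ W.gr Y i, e x ∈ W.gr Y i := hck6 e hE.mem
  -- `e` commutes with the degree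
  have hde : ∀ x, W.degOp Y (e x) = e (W.degOp Y x) := by
    intro x
    have h1 : W.degOp Y ∘ₗ e = e ∘ₗ W.degOp Y := by
      refine W.hom_ext fun i x hx => ?_
      rw [LinearMap.comp_apply, LinearMap.comp_apply, hd Y i x hx, map_smul,
        hd Y i (e x) (hegr i x hx)]
    exact LinearMap.congr_fun h1 x
  set ψ : Module.End K (W.H Y) := (W.degOp Y - (W.dim Y : K) • LinearMap.id) ∘ₗ e with hψ
  have hψx : ∀ x, ψ x = W.degOp Y (e x) - (W.dim Y : K) • e x := fun x => rfl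
  have hψe : ψ ∘ₗ e = ψ := by
    refine LinearMap.ext fun x => ?_
    rw [LinearMap.comp_apply, hψx, hψx, hee]
  have heψ : e ∘ₗ ψ = ψ := by
    refine LinearMap.ext fun x => ?_
    rw [LinearMap.comp_apply, hψx, map_sub, map_smul, ← hde, hee]
  have hadj : W.IsAdj e e := hE.symm
  obtain ⟨ho1, ho2, -, -⟩ := hOp2 K 𝒱 W Y e ψ E w hcls hw
  obtain ⟨-, ho3, -, -⟩ := hOp2 K 𝒱 W Y ψ ψ w w hw hw
  have hψadj : W.IsAdj ψ (-ψ) := by
    intro a b
    rw [LinearMap.neg_apply, mul_neg, map_neg, hψx, grI_tr W hd, hψx]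
    congr 1
    have h1 := hE.symm a (W.degOp Y b - (W.dim Y : K) • b)
    rw [h1, map_sub, map_smul, ← hde]
  -- the class of the degree operator
  have hdeps : W.eps Y ∘ₗ W.degOp Y = W.degOp Y ∘ₗ W.eps Y := by
    refine W.hom_ext fun i x hx => ?_
    rw [LinearMap.comp_apply, LinearMap.comp_apply, hd Y i x hx, map_smul, W.eps_gr hx, map_smul,
      hd Y i x hx, smul_comm]
  obtain ⟨θ, hθ⟩ := hc1 (W.degOp Y) hdeps
  refine ⟨?_, ?_, ?_⟩
  · change (W.calOf Y).map ![1, 0] w = -w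
    exact hc2 (-ψ) _ _ (ho3 (-ψ) hψadj).2 (grI_cls_neg W Y hw)
  · change (W.calOf Y).Abs E w
    rw [Cal.abs_iff]
    intro i
    fin_cases i
    · rw [heψ] at ho1
      exact hc2 ψ _ _ ho1 hw
    · have h1 := (ho2 e hadj).1
      rw [hψe] at h1
      exact hc2 ψ _ _ h1 hw
  · intro ι _ (τ : (W.calOf Y).C ι) hτ (P : (W.calOf Y).C ι) g hg0 hg1
    obtain ⟨hτ1, hτ2⟩ : W.cv Y τ ∈ W.midAlg Y ι ∧ (W.calOf Y).Abs E τ := hτ
    have hg : ∀ i, g i = plF i := fun i => eq_plF ⟨hg0 i, fun j hj => hg1 i j hj⟩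
    have h1 : ∀ i, (W.calOf Y).tot (ι ⊕ Unit) ((W.calOf Y).map Sum.inl P *
        ((W.calOf Y).map ![Sum.inl i, Sum.inr ()] w * (W.calOf Y).map (g i) τ)) =
        (W.calOf Y).tot ι (P * (W.calOf Y).act w i τ) := by
      intro i
      rw [Cal.act_apply, Cal.sub_id, hg i]
    change ∑ i, (W.calOf Y).tot (ι ⊕ Unit) ((W.calOf Y).map Sum.inl P *
        ((W.calOf Y).map ![Sum.inl i, Sum.inr ()] w * (W.calOf Y).map (g i) τ)) = 0
    rw [Finset.sum_congr rfl fun i _ => h1 i, ← map_sum, ← Finset.mul_sum]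
    have h2 : ∑ i, (W.calOf Y).act w i τ = 0 := by
      apply PreWeil.cv_inj W Y
      rw [map_sum, map_zero]
      have h3 : ∀ i, W.cv Y ((W.calOf Y).act w i τ) =
          W.plc Y (W.cv Y θ) i (plF i) (W.cv Y τ) - (W.dim Y : K) • W.cv Y τ := by
        intro i
        have hco : PreWeil.IsCo (fun j : {j // j ≠ i} => (j : ι)) i := by
          constructor
          · rintro (a | a) (b | b) hab
            · exact congrArg Sum.inl (Subtype.ext hab)
            · exact absurd hab a.2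
            · exact absurd hab.symm b.2
            · rfl
          · intro j
            by_cases hj : j = i
            · exact ⟨Sum.inr (), hj.symm⟩
            · exact ⟨Sum.inl ⟨j, hj⟩, rfl⟩
        obtain ⟨hp1, -, hp3⟩ := hPl2 K 𝒱 W Y ι {j // j ≠ i} (fun j => (j : ι)) i hco
        have h4 : ∀ σ : W.H (pw Y ι), W.plc Y (W.cv Y w) i (plF i) σ =
            W.plc Y (W.cv Y θ) i (plF i) (W.plc Y (W.cv Y E) i (plF i) σ) -
              (W.dim Y : K) • W.plc Y (W.cv Y E) i (plF i) σ := by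
          refine hp3 _ (by simp) (fun k l a x _ _ => ?_) (fun a b ha hb => ?_)
          · rw [hp1 ψ w hw (plF i) (isPl_plF i) a x, hp1 e E hcls (plF i) (isPl_plF i) a x,
              hp1 (W.degOp Y) θ hθ (plF i) (isPl_plF i) a (e x), hψx, map_sub, map_smul, mul_sub,
              mul_smul_comm]
          · rw [map_add, ha, hb, map_add, map_add, smul_add]
            abel
        have h5 : W.plc Y (W.cv Y E) i (plF i) (W.cv Y τ) = W.cv Y τ := by
          rw [← PreWeil.cv_act, ((W.calOf Y).abs_iff).1 hτ2 i]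
        rw [PreWeil.cv_act, h4, h5]
      rw [Finset.sum_congr rfl fun i _ => h3 i, Finset.sum_sub_distrib,
        hsum θ hθ ι (fun i => plF i) (fun i => isPl_plF i) (W.cv Y τ), Finset.sum_const,
        Finset.card_univ]
      obtain ⟨-, -, -, -, -, hm6, -⟩ := hMid K 𝒱 W Y
      rw [hd _ _ _ (hm6 ι _ hτ1), Nat.card_eq_fintype_card, Nat.cast_mul, mul_smul,
        Nat.cast_smul_eq_nsmul, sub_self]
    rw [h2, mul_zero, map_zero]

end Pool.Agent.Lib.MP_4ca46c_ag.Nil
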