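import Pool.Agent.Lib.MP_4ca46c_ag.Nil.SpecL

/-!
# The minimal symmetric idempotent
-/

set_option autoImplicit false

namespace Pool.Agent.Lib.MP_4ca46c_ag.Nil

open Module TensorProduct LinearMap Polynomial Pool.Agent.Lib.MP_4ca46c_ag.Sign

section

variable {K V : Type} [Field K] [AddCommGroup V] [Module K V] (S : StarAlg K V)

theorem idem_t_one : S.t 1 = 1 := by
  have h : S.t (1 * S.t 1) = S.t (S.t 1) * S.t 1 := S.t_mul _ _
  rw [one_mul, S.t_t, one_mul] at h
  exact h.symm

theorem idem_t_pow (z : S.R) (m : ℕ) : S.t (z ^ m) = S.t z ^ m := by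
  induction m with
  | zero => rw [pow_zero, pow_zero, idem_t_one]
  | succ m ih => rw [pow_succ, S.t_mul, ih, pow_succ']

theorem idem_t_aeval {z : S.R} (hz : S.t z = z) (u : K[X]) :
    S.t (aeval z u) = aeval z u := by
  induction u using Polynomial.induction_on' with
  | add p q hp hq => rw [map_add, map_add, hp, hq]
  | monomial n a =>
    rw [aeval_monomial, ← Algebra.smul_def, map_smul, idem_t_pow, hz]

/-- symmetric idempotents with `κ = 1` -/
def idem_good (e : S.R) : Prop := e * e = e ∧ S.t e = e ∧ S.κ e = 1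

/-- the rank -/
noncomputable def idem_rk (e : S.R) : ℕ :=
  finrank K (LinearMap.range (e : Module.End K V))

theorem idem_trace [FiniteDimensional K V] {e : S.R} (he : e * e = e) :
    LinearMap.trace K V (e : Module.End K V) = (idem_rk S e : K) := by
  have hid : IsIdempotentElem (e : Module.End K V) := by
    have h := congrArg (fun z : S.R => (z : Module.End K V)) he
    exact h
  exact (LinearMap.IsIdempotentElem.isProj_range _ hid).trace

theorem idem_min [FiniteDimensional K V] : ∃ e : S.R, idem_good S e ∧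
    ∀ f : S.R, idem_good S f → idem_rk S e ≤ idem_rk S f := by
  classical
  have h1 : ∃ m : ℕ, ∃ e : S.R, idem_good S e ∧ idem_rk S e = m :=
    ⟨_, 1, ⟨one_mul 1, idem_t_one S, map_one _⟩, rfl⟩
  obtain ⟨e, he, hm⟩ := Nat.find_spec h1
  refine ⟨e, he, fun f hf => ?_⟩
  rw [hm]
  exact Nat.find_min' h1 ⟨f, hf, rfl⟩

theorem idem_sym [CharZero K] [FiniteDimensional K V] {e : S.R} (he : idem_good S e)
    (hmin : ∀ f : S.R, idem_good S f → idem_rk S e ≤ idem_rk S f) {z : S.R}
    (hez : e * z = z) (hze : z * e = z) (htz : S.t z = z) (hκ : S.κ z = 0) :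
    IsNilpotent z := by
  have hm : minpoly K z ≠ 0 := minpoly.ne_zero (Algebra.IsIntegral.isIntegral (R := K) z)
  obtain ⟨u, r, s, k, h1, h2⟩ := exists_split _ hm
  have h1' := congrArg (fun w : K[X] => aeval z w) h1
  have h2' := congrArg (fun w : K[X] => aeval z w) h2
  simp only [map_mul, map_sub, map_one, map_add, minpoly.aeval, mul_zero, add_zero, map_pow,
    aeval_X] at h1' h2'
  set f : S.R := aeval z u * z ^ (k + 1) with hf
  have hff : f * f = f := by
    rw [mul_sub, mul_one, sub_eq_zero] at h1'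
    exact h1'.symm
  have hcomm : aeval z u * z ^ (k + 1) = z ^ (k + 1) * aeval z u := by
    have h3 : aeval z (u * X ^ (k + 1)) = aeval z (X ^ (k + 1) * u) := by rw [mul_comm]
    simpa only [map_mul, map_pow, aeval_X] using h3
  have htf : S.t f = f := by
    rw [hf, S.t_mul, idem_t_pow, htz, idem_t_aeval S htz, hcomm]
  have hκf : S.κ f = 0 := by
    rw [hf, map_mul, map_pow, hκ, pow_succ, mul_zero, mul_zero]
  have hef : e * f = f := by
    rw [hf, hcomm, ← mul_assoc, pow_succ', ← mul_assoc, hez]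
  have hfe : f * e = f := by
    rw [hf, mul_assoc, pow_succ, mul_assoc, hze]
  have hgood : idem_good S (e - f) := by
    refine ⟨?_, ?_, ?_⟩
    · rw [sub_mul, mul_sub, mul_sub, he.1, hef, hfe, hff, sub_self, sub_zero]
    · rw [map_sub, he.2.1, htf]
    · rw [map_sub, he.2.2, hκf, sub_zero]
  have hrk : (idem_rk S e : K) = idem_rk S (e - f) + idem_rk S f := by
    rw [← idem_trace S he.1, ← idem_trace S hgood.1, ← idem_trace S hff, ← map_add]
    congr 1
    simp
  have hrk' : idem_rk S e = idem_rk S (e - f) + idem_rk S f := by exact_mod_cast hrk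
  have hrkf : idem_rk S f = 0 := by
    have := hmin _ hgood
    omega
  have hf0 : f = 0 := by
    unfold idem_rk at hrkf
    rw [Submodule.finrank_eq_zero, LinearMap.range_eq_bot] at hrkf
    exact Subtype.ext hrkf
  refine ⟨k + 1, ?_⟩
  rw [h2', hf0, mul_zero]

theorem idem_tr0 [CharZero K] [FiniteDimensional K V] {e : S.R} (he : idem_good S e)
    (hmin : ∀ f : S.R, idem_good S f → idem_rk S e ≤ idem_rk S f) {z : S.R}
    (hez : e * z = z) (hze : z * e = z) (hκ : S.κ z = 0) :
    LinearMap.trace K V (z : Module.End K V) = 0 := by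
  have h1 : IsNilpotent (z + S.t z) := by
    have h2 : e * S.t z = S.t z := by
      have h3 := congrArg S.t hze
      rwa [S.t_mul, he.2.1] at h3
    have h4 : S.t z * e = S.t z := by
      have h3 := congrArg S.t hez
      rwa [S.t_mul, he.2.1] at h3
    refine idem_sym S he hmin ?_ ?_ ?_ ?_
    · rw [mul_add, hez, h2]
    · rw [add_mul, hze, h4]
    · rw [map_add, S.t_t, add_comm]
    · rw [map_add, S.κ_t, hκ, add_zero]
  have h5 : IsNilpotent ((z : Module.End K V) + (S.t z : Module.End K V)) := by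
    obtain ⟨k, hk⟩ := h1
    refine ⟨k, ?_⟩
    have h6 := congrArg (fun w : S.R => (w : Module.End K V)) hk
    simpa using h6
  have h7 := (LinearMap.isNilpotent_trace_of_isNilpotent h5).eq_zero
  rw [map_add, S.trace_t] at h7
  have h8 : (2 : K) * LinearMap.trace K V (z : Module.End K V) = 0 := by
    rw [two_mul]
    exact h7
  exact (mul_eq_zero.1 h8).resolve_left two_ne_zero

end

theorem tIdem : S_Idem := by
  intro K V _ _ _ _ _ S
  obtain ⟨e, he, hmin⟩ := idem_min S
  refine ⟨e, he.1, he.2.1, he.2.2, fun x hx => ?_⟩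
  have hez : e * (e * x * e) = e * x * e := by
    rw [← mul_assoc, ← mul_assoc, he.1]
  have hze : e * x * e * e = e * x * e := by
    rw [mul_assoc (e * x), he.1]
  have hκ : S.κ (e * x * e) = 0 := by
    rw [map_mul, map_mul, hx, mul_zero, zero_mul]
  have h1 : IsNilpotent ((e * x * e : S.R) : Module.End K V) := by
    refine isNilpotent_of_trace_pow _ fun m hm => ?_
    obtain ⟨m, rfl⟩ := Nat.exists_eq_succ_of_ne_zero hm.ne'
    have h2 : ((e * x * e : S.R) : Module.End K V) ^ (m + 1) =
        (((e * x * e) ^ (m + 1) : S.R) : Module.End K V) := by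
      rw [SubmonoidClass.coe_pow]
    rw [Nat.succ_eq_add_one, h2]
    refine idem_tr0 S he hmin ?_ ?_ ?_
    · rw [pow_succ', ← mul_assoc, hez]
    · rw [pow_succ, mul_assoc, hze]
    · rw [map_pow, hκ, pow_succ, mul_zero]
  obtain ⟨k, hk⟩ := h1
  refine ⟨k, Subtype.ext ?_⟩
  rw [SubmonoidClass.coe_pow, hk]
  rfl

end Pool.Agent.Lib.MP_4ca46c_ag.Nil
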