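import Pool.Agent.Lib.MP_4ca46c_ag.Nil.SpecI

/-!
# The ideal `JK r`
-/

set_option autoImplicit false

open CategoryTheory Limits MonoidalCategory CartesianMonoidalCategory TensorProduct

namespace Pool.Agent.Lib.MP_4ca46c_ag.Nil

open PreWeil

theorem tJdl (h1 : S_Adj) (h2 : S_CK) (h3 : S_AdK) : S_Jdl := by
  intro K _ _ 𝒱 _ _ W Y Z r hs
  obtain ⟨c1, -, c3, c4, -, -⟩ := h2 K 𝒱 W
  obtain ⟨a1, -⟩ := h1 K 𝒱 W
  have hpush : W.push r ∈ W.CK Z Y 1 := by
    have h := (c3 r).2.1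
    have h4 : (W.dim Z : ℤ) - W.dim Y = 1 := by
      have := hs.dim
      omega
    rwa [h4] at h
  have hpull : (W.pull r).toLinearMap ∈ W.CK Y Z 0 := (c3 r).1
  have p1 : ∀ f ∈ W.CK Y Y 0, ∃ κ : K, f - κ • LinearMap.id ∈ W.JK r := by
    intro f hf
    obtain ⟨u, hu, rfl⟩ := (c4 (X := Y) (Y := Y) 0 (W.dim Y) (by omega)).2 f hf
    refine Submodule.span_induction
      (p := fun u _ => ∃ κ : K, W.op u - κ • LinearMap.id ∈ W.JK r) ?_ ?_ ?_ ?_ hu
    · exact fun u hu => hs.step0 u hu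
    · refine ⟨0, ?_⟩
      rw [W.op_zero, zero_smul, sub_zero]
      exact Submodule.zero_mem _
    · rintro a b _ _ ⟨κ, hκ⟩ ⟨κ', hκ'⟩
      refine ⟨κ + κ', ?_⟩
      rw [W.op_add, add_smul, add_sub_add_comm]
      exact Submodule.add_mem _ hκ hκ'
    · rintro t a _ ⟨κ, hκ⟩
      refine ⟨t * κ, ?_⟩
      have e : W.op (t • a) - (t * κ) • LinearMap.id = t • (W.op a - κ • LinearMap.id) := by
        refine LinearMap.ext fun x => ?_
        simp only [W.op_smul, LinearMap.sub_apply, LinearMap.smul_apply, LinearMap.id_apply,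
          smul_sub, mul_smul]
      rw [e]
      exact Submodule.smul_mem _ _ hκ
  have p2 : ∀ j ∈ W.JK r, ∀ j' ∈ W.JK r, j ∘ₗ j' ∈ W.JK r := by
    rintro _ ⟨s, hs1, rfl⟩ _ ⟨s', hs2, rfl⟩
    have h5 := c1 (-1) ((1 + 0) + -1) s hs1 _
      (c1 (1 + 0) (-1) _ (c1 1 0 _ hpush _ hpull) s' hs2)
    have h6 : (-1 : ℤ) + ((1 + 0) + -1) = -1 := by norm_num
    rw [h6] at h5
    exact ⟨_, h5, rfl⟩
  refine ⟨p1, fun j hj f hf => ?_, ?_⟩
  · obtain ⟨κ, hκ⟩ := p1 f hf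
    have e : f = κ • LinearMap.id + (f - κ • LinearMap.id) := by abel
    constructor
    · rw [e, LinearMap.add_comp]
      refine Submodule.add_mem _ ?_ (p2 _ hκ _ hj)
      rw [LinearMap.smul_comp, LinearMap.id_comp]
      exact Submodule.smul_mem _ _ hj
    · rw [e, LinearMap.comp_add]
      refine Submodule.add_mem _ ?_ (p2 _ hj _ hκ)
      rw [LinearMap.comp_smul, LinearMap.comp_id]
      exact Submodule.smul_mem _ _ hj
  · rintro _ ⟨s, hs1, rfl⟩
    obtain ⟨s', hs', hadj, -⟩ := h3 K 𝒱 W (-1) s hs1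
    have e : (-1 : ℤ) + W.dim Z - W.dim Z = -1 := by ring
    rw [e] at hs'
    refine ⟨_, ⟨s', hs', rfl⟩, fun a b => ?_⟩
    have h5 := (a1 r).2 (s (W.push r a)) b
    have h6 := hadj (W.push r a) (W.push r b)
    have h7 := (a1 r).1 a (s' (W.push r b))
    exact h5.trans (h6.trans h7)

end Pool.Agent.Lib.MP_4ca46c_ag.Nil
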