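import Pool.Agent.Lib.MP_4ca46c_ag.Nil.SpecI

/-!
# The kernel of `κ`
-/

set_option autoImplicit false

open CategoryTheory Limits MonoidalCategory CartesianMonoidalCategory TensorProduct

namespace Pool.Agent.Lib.MP_4ca46c_ag.Nil

open PreWeil

theorem tKap (h1 : S_Adj) (h2 : S_CK) (h3 : S_AdK) (h4 : S_Jdl) : S_Kap := by
  intro K _ _ 𝒱 _ _ W Y Z r hs hid v hv
  obtain ⟨c1, -, c3, -, -, -⟩ := h2 K 𝒱 W
  obtain ⟨a1, a2, -⟩ := h1 K 𝒱 W
  have hd := hs.dim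
  have hpush : W.push r ∈ W.CK Z Y 1 := by
    have h := (c3 r).2.1
    have h4 : (W.dim Z : ℤ) - W.dim Y = 1 := by omega
    rwa [h4] at h
  have hx : v ∘ₗ W.push r ∈ W.CK Y Y 0 := by
    have h5 := c1 (-1) 1 v hv _ hpush
    have h6 : (-1 : ℤ) + 1 = 0 := by norm_num
    rwa [h6] at h5
  obtain ⟨κ, s, hs1, hκ⟩ := (h4 K 𝒱 W r hs).1 _ hx
  by_cases h0 : κ = 0
  · subst h0
    rw [zero_smul, sub_zero] at hκ
    exact ⟨s, hs1, hκ⟩
  · exfalso
    apply hid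
    have hv' : κ⁻¹ • (v - (W.pull r).toLinearMap ∘ₗ s) ∈ W.CK Y Z (-1) := by
      refine Submodule.smul_mem _ _ (Submodule.sub_mem _ hv ?_)
      have h5 := c1 0 (-1) _ (c3 r).1 s hs1
      rwa [zero_add] at h5
    have e1 : (κ⁻¹ • (v - (W.pull r).toLinearMap ∘ₗ s)) ∘ₗ W.push r = LinearMap.id := by
      rw [LinearMap.smul_comp, LinearMap.sub_comp]
      have h5 : v ∘ₗ W.push r = κ • LinearMap.id +
          ((W.pull r).toLinearMap ∘ₗ s) ∘ₗ W.push r := by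
        rw [LinearMap.comp_assoc, ← hκ]
        abel
      rw [h5, add_sub_cancel_right, smul_smul, inv_mul_cancel₀ h0, one_smul]
    obtain ⟨g, hg, hadj, -⟩ := h3 K 𝒱 W (-1) _ hv'
    have e2 : (-1 : ℤ) + W.dim Z - W.dim Y = 0 := by omega
    rw [e2] at hg
    have e3 : (W.pull r).toLinearMap ∘ₗ g = LinearMap.id := by
      refine a2 (LinearMap.id : W.H Y →ₗ[K] W.H Y) _ _ (fun a b => ?_) (fun a b => rfl)
      have h5 := LinearMap.congr_fun e1 a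
      have h6 := hadj (W.push r a) b
      have h7 := (a1 r).1 a (g b)
      rw [← h5]
      exact h6.trans h7
    have h8 := c1 0 (-1) _ hg _ hv'
    rw [zero_add] at h8
    refine ⟨_, h8, ?_⟩
    calc (LinearMap.id : W.H Y →ₗ[K] W.H Y) = LinearMap.id ∘ₗ LinearMap.id := rfl
      _ = ((W.pull r).toLinearMap ∘ₗ g) ∘ₗ
          ((κ⁻¹ • (v - (W.pull r).toLinearMap ∘ₗ s)) ∘ₗ W.push r) := by rw [e3, e1]
      _ = _ := rfl

end Pool.Agent.Lib.MP_4ca46c_ag.Nil
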