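import Pool.Agent.Lib.MP_4ca46c_ag.Nil.SpecI

/-!
# The trace pairing and composition
-/

set_option autoImplicit false

open CategoryTheory Limits MonoidalCategory CartesianMonoidalCategory TensorProduct

namespace Pool.Agent.Lib.MP_4ca46c_ag.Nil

open PreWeil

section

variable {K : Type} [Field K] [CharZero K] {𝒱 : Type 1} [Category.{0} 𝒱]
  [CartesianMonoidalCategory 𝒱] (W : PreWeil K 𝒱) {X Y : 𝒱}

theorem lef_tm {i j k l : ℕ} {a : W.H X} {b c : W.H Y} {d : W.H X} (ha : a ∈ W.gr X i)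
    (hb : b ∈ W.gr Y j) (hc : c ∈ W.gr Y k) (hd : d ∈ W.gr X l) :
    W.tr (X ⊗ Y) (W.tm a b * W.pull (lift (snd X Y) (fst X Y)) (W.tm c d)) =
      W.tr Y (b * c) * W.tr X (a * d) := by
  have h1 : W.pull (lift (snd X Y) (fst X Y)) (W.tm c d) =
      ((-1 : K) ^ (k * l)) • W.tm d c := by
    rw [pull_tm, tm, W.comm_smul (W.pull_gr _ hc) (W.pull_gr _ hd)]
  rw [h1, mul_smul_comm, map_smul, W.tr_four a d b c hd hb, smul_eq_mul]
  by_cases h : j + k = 2 * W.dim Y
  · have h2 : Even (k * l + j * l) := by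
      have h3 : k * l + j * l = 2 * (W.dim Y * l) := by
        rw [← add_mul, add_comm k j, h, mul_assoc]
      rw [h3]
      exact even_two_mul _
    rw [← mul_assoc, ← pow_add, h2.neg_one_pow, one_mul, mul_comm]
  · rw [W.tr_gr (SetLike.mul_mem_graded hb hc) h]
    ring

end

theorem tLef : S_Lef := by
  intro K _ _ 𝒱 _ _ W X Y u v
  have key : ∀ (a : W.H X) (b c : W.H Y) (d : W.H X),
      W.tr (X ⊗ Y) (W.tm a b * W.pull (lift (snd X Y) (fst X Y)) (W.tm c d)) =
        W.tr Y (b * c) * W.tr X (a * d) := by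
    intro a b c d
    refine W.ind (P := fun a => W.tr (X ⊗ Y) (W.tm a b *
      W.pull (lift (snd X Y) (fst X Y)) (W.tm c d)) = W.tr Y (b * c) * W.tr X (a * d)) a
      (by simp [tm]) (fun i a ha => ?_) (fun r s hr hs => by
        rw [tm_add_left, add_mul, map_add, hr, hs, add_mul, map_add, mul_add])
    refine W.ind (P := fun b => W.tr (X ⊗ Y) (W.tm a b *
      W.pull (lift (snd X Y) (fst X Y)) (W.tm c d)) = W.tr Y (b * c) * W.tr X (a * d)) b
      (by simp [tm]) (fun j b hb => ?_) (fun r s hr hs => by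
        rw [tm_add_right, add_mul, map_add, hr, hs, add_mul, map_add, add_mul])
    refine W.ind (P := fun c => W.tr (X ⊗ Y) (W.tm a b *
      W.pull (lift (snd X Y) (fst X Y)) (W.tm c d)) = W.tr Y (b * c) * W.tr X (a * d)) c
      (by simp [tm]) (fun k c hc => ?_) (fun r s hr hs => by
        rw [tm_add_left, map_add, mul_add, map_add, hr, hs, mul_add, map_add, add_mul])
    refine W.ind (P := fun d => W.tr (X ⊗ Y) (W.tm a b *
      W.pull (lift (snd X Y) (fst X Y)) (W.tm c d)) = W.tr Y (b * c) * W.tr X (a * d)) d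
      (by simp [tm]) (fun l d hd => ?_) (fun r s hr hs => by
        rw [tm_add_right, map_add, mul_add, map_add, hr, hs, mul_add, map_add, mul_add])
    exact lef_tm W ha hb hc hd
  refine W.ind_tm (P := fun u => W.tr (X ⊗ Y) (u * W.pull (lift (snd X Y) (fst X Y)) v) =
    LinearMap.trace K (W.H X) (W.op u ∘ₗ W.op v ∘ₗ W.eps X)) u
    (by rw [zero_mul, map_zero, W.op_zero, LinearMap.zero_comp, map_zero]) (fun a b => ?_)
    (fun r s hr hs => by
      rw [add_mul, map_add, hr, hs, W.op_add, LinearMap.add_comp, map_add])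
  refine W.ind_tm (P := fun v => W.tr (X ⊗ Y) (W.tm a b *
    W.pull (lift (snd X Y) (fst X Y)) v) =
    LinearMap.trace K (W.H X) (W.op (W.tm a b) ∘ₗ W.op v ∘ₗ W.eps X)) v
    (by rw [map_zero, mul_zero, map_zero, W.op_zero, LinearMap.zero_comp, LinearMap.comp_zero,
      map_zero]) (fun c d => ?_)
    (fun r s hr hs => by
      rw [map_add, mul_add, map_add, hr, hs, W.op_add, LinearMap.add_comp, LinearMap.comp_add,
        map_add])
  rw [key, ← LinearMap.comp_assoc, ← W.op_comp, comp_tm, W.op_smul, LinearMap.smul_comp,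
    map_smul, trace_eps, pull_tm, W.pull_id, W.pull_id, smul_eq_mul]

end Pool.Agent.Lib.MP_4ca46c_ag.Nil
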