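import Pool.Agent.Lib.MP_4ca46c_ag.Nil.SpecI

/-!
# Lemma S
-/

set_option autoImplicit false

open CategoryTheory Limits MonoidalCategory CartesianMonoidalCategory TensorProduct

namespace Pool.Agent.Lib.MP_4ca46c_ag.Nil

open PreWeil

theorem lemS_pull {K : Type} [Field K] [CharZero K] {𝒱 : Type 1} [Category.{0} 𝒱]
    [CartesianMonoidalCategory 𝒱] (W : PreWeil K 𝒱) {X X' : 𝒱} (f : X' ⟶ X) {c : ℕ} {x : W.H X}
    (hx : x ∈ W.AK X c) : W.pull f x ∈ W.AK X' c := by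
  unfold AK at hx ⊢
  induction hx using Submodule.span_induction with
  | mem x h => exact Submodule.subset_span (W.alg_pull f h)
  | zero => rw [map_zero]; exact Submodule.zero_mem _
  | add x y _ _ hx hy => rw [map_add]; exact Submodule.add_mem _ hx hy
  | smul a x _ hx => rw [map_smul]; exact Submodule.smul_mem _ _ hx

theorem lemS_mid {K : Type} [Field K] [CharZero K] {𝒱 : Type 1} [Category.{0} 𝒱]
    [CartesianMonoidalCategory 𝒱] (W : PreWeil K 𝒱) (Y : 𝒱) :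
    W.midAlg Y (Fin 4) = W.AK (pw Y (Fin 4)) (2 * W.dim Y) := by
  have h1 : Nat.card (Fin 4) * W.dim Y = 2 * (2 * W.dim Y) := by
    rw [Nat.card_fin]
    ring
  unfold midAlg
  rw [if_pos ⟨_, h1⟩, h1, Nat.mul_div_cancel_left _ (by norm_num)]

/-- the trace of an operator `x` with `e x = x`, `e x e` nilpotent -/
theorem lemS_trace {K V : Type} [Field K] [AddCommGroup V] [Module K V] [Module.Finite K V]
    (e x s : Module.End K V) (hex : e * x = x) (hes : s * e = e * s) (hxs : s * x = x * s)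
    (hn : IsNilpotent (e * x * e)) : LinearMap.trace K V (x * s) = 0 := by
  have h1 : LinearMap.trace K V (x * s) = LinearMap.trace K V (e * x * e * s) := by
    have h2 : x * s = e * (x * s) := by rw [← mul_assoc, hex]
    rw [h2, LinearMap.trace_mul_comm, mul_assoc x s e, hes, ← mul_assoc]
    congr 2
    rw [hex]
  have h3 : Commute (e * x * e) s := by
    show e * x * e * s = s * (e * x * e)
    rw [mul_assoc (e * x) e s, ← hes, ← mul_assoc, mul_assoc e x s, ← hxs, ← mul_assoc, ← hes]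
    simp only [mul_assoc]
  rw [h1]
  exact (LinearMap.isNilpotent_trace_of_isNilpotent (h3.isNilpotent_mul_right hn)).eq_zero

theorem tLemS (_h1 : S_Adj) (h2 : S_CK) (_h3 : S_AdK) (_h4 : S_Jdl) (h5 : S_Lef) (h6 : S_Kap)
    (h7 : S_Phi) : S_LemS := by
  intro K _ _ 𝒱 _ _ W Y Z r e E hD i b hb g hg
  obtain ⟨c1, c2, c3, c4, c5, -⟩ := h2 K 𝒱 W
  obtain ⟨ω, o1, o2, o3⟩ := h7 K 𝒱 W r i
  obtain ⟨hgA, hgE⟩ := (W.mem_TT Y).1 hg
  rw [lemS_mid] at hgA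
  have hdim : W.dim (pw Y (Fin 3)) = 3 * W.dim Y := by
    rw [W.dim_pw, Nat.card_fin]
  have hdZ := hD.sec.dim
  obtain ⟨g₁, hg₁⟩ : ∃ g₁, g₁ = W.pull ω.inv (W.cv Y g) := ⟨_, rfl⟩
  have hcg : W.pull ω.hom g₁ = W.cv Y g := by
    rw [hg₁, ← W.pull_comp, Iso.hom_inv_id, W.pull_id]
  obtain ⟨v, hv⟩ : ∃ v, v = W.pull (lift (snd Y (pw Y (Fin 3))) (fst Y (pw Y (Fin 3)))) g₁ :=
    ⟨_, rfl⟩
  have hvg : W.pull (lift (snd (pw Y (Fin 3)) Y) (fst (pw Y (Fin 3)) Y)) v = g₁ := by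
    rw [hv, ← W.pull_comp]
    have h : lift (snd (pw Y (Fin 3)) Y) (fst (pw Y (Fin 3)) Y) ≫
        lift (snd Y (pw Y (Fin 3))) (fst Y (pw Y (Fin 3))) = 𝟙 _ := by
      ext
      · rw [Category.assoc, lift_fst, lift_snd, Category.id_comp]
      · rw [Category.assoc, lift_snd, lift_fst, Category.id_comp]
    rw [h, W.pull_id]
  -- the operators
  have hvA : v ∈ W.AK (Y ⊗ pw Y (Fin 3)) (2 * W.dim Y) := by
    rw [hv, hg₁]
    exact lemS_pull W _ (lemS_pull W _ hgA)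
  have hvC : W.op v ∈ W.CK Y (pw Y (Fin 3)) (-(W.dim Y : ℤ)) :=
    (c4 (-(W.dim Y : ℤ)) (2 * W.dim Y) (by rw [hdim]; push_cast; ring)).1 v hvA
  have hbC : W.op b ∈ W.CK (pw Y (Fin 3)) Z ((W.dim Y : ℤ) - 1) :=
    (c4 ((W.dim Y : ℤ) - 1) (2 * W.dim Y) (by rw [hdZ]; push_cast; ring)).1 b hb
  have hvb : W.op v ∘ₗ W.op b ∈ W.CK Y Z (-1) := by
    have h := c1 _ _ _ hvC _ hbC
    have h' : -(W.dim Y : ℤ) + ((W.dim Y : ℤ) - 1) = -1 := by ring
    rwa [h'] at h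
  have hpush := (c3 r).2.1
  have hx : (W.op v ∘ₗ W.op b) ∘ₗ W.push r ∈ W.JK r := h6 K 𝒱 W r hD.sec hD.not _ hvb
  obtain ⟨x, hxdef⟩ : ∃ x : Module.End K (W.H Y), x = (W.op v ∘ₗ W.op b) ∘ₗ W.push r := ⟨_, rfl⟩
  have hxJ : x ∈ W.JK r := by rw [hxdef]; exact hx
  have hev : e ∘ₗ W.op v = W.op v := by
    have h := o3 e E hD.isE.mem hD.cls g hgE
    rw [← hg₁, ← hv] at h
    exact h
  have hex : e * x = x := by
    rw [hxdef]
    show e ∘ₗ ((W.op v ∘ₗ W.op b) ∘ₗ W.push r) = _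
    rw [← LinearMap.comp_assoc, ← LinearMap.comp_assoc, hev]
  have hes : W.eps Y * e = e * W.eps Y := c2 0 e hD.isE.mem
  have hxs : W.eps Y * x = x * W.eps Y := c2 0 x (c5 r hdZ hxJ)
  -- the computation
  have e1 : W.tr (pw Y (Fin 4)) (W.pull (th r i) b * W.cv Y g) =
      LinearMap.trace K (W.H (pw Y (Fin 3))) ((W.op b ∘ₗ W.push r) ∘ₗ (W.op v ∘ₗ W.eps _)) := by
    rw [o1, ← hcg, ← map_mul, W.tr_iso, ← o2 b, ← h5 K 𝒱 W _ v, hvg]
  have e2 : (W.op v ∘ₗ W.eps (pw Y (Fin 3))) ∘ₗ (W.op b ∘ₗ W.push r) = x * W.eps Y := by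
    have h8 := c2 _ _ hbC
    have h9 := c2 _ _ hpush
    rw [hxdef]
    show _ = ((W.op v ∘ₗ W.op b) ∘ₗ W.push r) ∘ₗ W.eps Y
    rw [LinearMap.comp_assoc, ← LinearMap.comp_assoc (W.push r), h8, LinearMap.comp_assoc (W.push r),
      h9]
    simp only [LinearMap.comp_assoc]
  rw [e1, LinearMap.trace_comp_comm', e2]
  exact lemS_trace e x (W.eps Y) hex hes hxs (hD.isE.ker x hxJ)

end Pool.Agent.Lib.MP_4ca46c_ag.Nil
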