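import Pool.Agent.Lib.MP_4ca46c_ag.Nil.SpecI

/-!
# Pairings with products of two classes
-/

set_option autoImplicit false

namespace Pool.Agent.Lib.MP_4ca46c_ag.Nil

theorem m4_three {K : Type} [Field K] (S : Cal K) (f : S.C (Fin 2)) (n : S.C (Fin 4))
    (hn : S.Abs f n) (a b c : Fin 3) (s : Fin 4 → Fin 3) (hs : ∀ j, j ≠ 3 → s j = ![0, 1, 2, 0] j)
    (h3 : s 3 = c) :
    S.tot (Fin 4) (S.map ![Fin.castSucc a, Fin.castSucc b] f * S.map ![Fin.castSucc c, 3] f * n) =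
      S.tot (Fin 3) (S.map ![a, b] f * S.map s n) := by
  have h := S.elimF hn (3 : Fin 4) (S.map ![a, b] f) s id 3 rfl (by
    intro j hj
    rw [hs j hj]
    fin_cases j
    · rfl
    · rfl
    · rfl
    · exact absurd rfl hj)
  rw [← h, S.map_map, S.map_id, h3]
  congr 1
  have e1 : (Fin.succAbove (3 : Fin 4)) ∘ ![a, b] = ![Fin.castSucc a, Fin.castSucc b] := by
    funext j
    fin_cases j
    · exact Fin.succAbove_last_apply a
    · exact Fin.succAbove_last_apply b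
  have e2 : Fin.succAbove (3 : Fin 4) c = Fin.castSucc c := Fin.succAbove_last_apply c
  rw [e1, e2, mul_assoc]

theorem tM4 : S_M4 := by
  intro K _ S f n hn
  refine ⟨?_, ?_, ?_⟩
  · have h1 := m4_three S f n hn 0 1 2 ![0, 1, 2, 2] (by decide) rfl
    have h2 := S.elimF hn (1 : Fin 3) 1 ![0, 0, 1, 1] ![0, 1, 2, 2] 1 rfl (by decide)
    have e1 : Fin.succAbove (1 : Fin 3) (![0, 0, 1, 1] (1 : Fin 4)) = 0 := by decide
    rw [e1, map_one, one_mul, one_mul] at h2
    rw [← h2, ← h1]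
    congr 1
    have e2 : ![Fin.castSucc (0 : Fin 3), Fin.castSucc 1] = ![(0 : Fin 4), 1] := by decide
    have e3 : ![Fin.castSucc (2 : Fin 3), 3] = ![(2 : Fin 4), 3] := by decide
    rw [e2, e3]
    ring
  · have h1 := m4_three S f n hn 0 2 1 ![0, 1, 2, 1] (by decide) rfl
    have h2 := S.elimF hn (2 : Fin 3) 1 ![0, 1, 0, 1] ![0, 1, 2, 1] 2 rfl (by decide)
    have e1 : Fin.succAbove (2 : Fin 3) (![0, 1, 0, 1] (2 : Fin 4)) = 0 := by decide
    rw [e1, map_one, one_mul, one_mul] at h2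
    rw [← h2, ← h1]
    congr 1
    have e2 : ![Fin.castSucc (0 : Fin 3), Fin.castSucc 2] = ![(0 : Fin 4), 2] := by decide
    have e3 : ![Fin.castSucc (1 : Fin 3), 3] = ![(1 : Fin 4), 3] := by decide
    rw [e2, e3]
    ring
  · have h1 := m4_three S f n hn 1 2 0 ![0, 1, 2, 0] (by decide) rfl
    have h2 := S.elimF hn (2 : Fin 3) 1 ![0, 1, 1, 0] ![0, 1, 2, 0] 2 rfl (by decide)
    have e1 : Fin.succAbove (2 : Fin 3) (![0, 1, 1, 0] (2 : Fin 4)) = 1 := by decide
    rw [e1, map_one, one_mul, one_mul] at h2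
    rw [← h2, ← h1]
    congr 1
    have e2 : ![Fin.castSucc (1 : Fin 3), Fin.castSucc 2] = ![(1 : Fin 4), 2] := by decide
    have e3 : ![Fin.castSucc (0 : Fin 3), 3] = ![(0 : Fin 4), 3] := by decide
    rw [e2, e3]
    ring

end Pool.Agent.Lib.MP_4ca46c_ag.Nil
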