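import Pool.Agent.Lib.MP_4ca46c_ag.Nil.SpecI

/-!
# The result for the section

If the identity is in the ideal `JK r` there is nothing to do. Otherwise the symmetric idempotent
`e` kills the even or the odd classes, and `1 - e` is in `JK r`.
-/

set_option autoImplicit false

open CategoryTheory Limits MonoidalCategory CartesianMonoidalCategory TensorProduct

namespace Pool.Agent.Lib.MP_4ca46c_ag.Nil

open PreWeil (IsPl pw pj pm pl pmIso pwSum pwUnit pwEmpty pwTwo)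

theorem mM_key {K : Type} [Field K] [CharZero K] {𝒱 : Type 1} [Category.{0} 𝒱]
    [CartesianMonoidalCategory 𝒱] (W : PreWeil K 𝒱) {Y Z : 𝒱} (r : Y ⟶ Z)
    (e : Module.End K (W.H Y)) (s : W.H Z →ₗ[K] W.H Z)
    (hs : 1 - e = (W.pull r).toLinearMap ∘ₗ s ∘ₗ W.push r) (x : W.H Y) (hx : e x = 0) :
    W.pull r (s (W.push r x)) = x := by
  have h := LinearMap.congr_fun hs x
  have h1 : (1 - e) x = x := by
    rw [LinearMap.sub_apply, hx, sub_zero]
    rfl
  exact h.symm.trans h1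

theorem tMM (h1 : S_CK) (h2 : S_Cls) (h3 : S_ExE) (h4 : S_Out) : S_MM := by
  intro K _ _ 𝒱 _ _ W Y Z r hsec hnil
  by_cases hid : (LinearMap.id : W.H Y →ₗ[K] W.H Y) ∈ W.JK r
  · obtain ⟨s, hs, he⟩ := hid
    exact Or.inl ⟨s, hs, fun i _ x _ => (LinearMap.congr_fun he x).symm⟩
  · obtain ⟨e, he⟩ := h3 K 𝒱 W r hsec hid
    have hc := (h1 K 𝒱 W).2.1 0 e he.mem
    obtain ⟨E, hE⟩ := (h2 K 𝒱 W Y).1 e hc
    have hD : W.Dat r e E := ⟨hsec, hnil, hid, he, hE⟩
    obtain ⟨s, hs, hse⟩ := he.one_sub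
    rcases h4 K 𝒱 W r e E hD with h | h
    · exact Or.inl ⟨s, hs, fun i hi x hx => mM_key W r e s hse x (h i hi x hx)⟩
    · exact Or.inr ⟨s, hs, fun i hi x hx => mM_key W r e s hse x (h i hi x hx)⟩

end Pool.Agent.Lib.MP_4ca46c_ag.Nil
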