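import Pool.Agent.Lib.MP_4ca46c_ag.Nil.SpecI

/-!
# Numerically trivial classes are nilpotent
-/

set_option autoImplicit false

open CategoryTheory Limits MonoidalCategory CartesianMonoidalCategory TensorProduct

namespace Pool.Agent.Lib.MP_4ca46c_ag.Nil

open PreWeil

theorem nilI_pull {K : Type} [Field K] [CharZero K] {𝒱 : Type 1} [Category.{0} 𝒱]
    [CartesianMonoidalCategory 𝒱] (W : PreWeil K 𝒱) {X X' : 𝒱} (f : X' ⟶ X) {c : ℕ} {x : W.H X}
    (hx : x ∈ W.AK X c) : W.pull f x ∈ W.AK X' c := by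
  unfold AK at hx ⊢
  induction hx using Submodule.span_induction with
  | mem x h => exact Submodule.subset_span (W.alg_pull f h)
  | zero => rw [map_zero]; exact Submodule.zero_mem _
  | add x y _ _ hx hy => rw [map_add]; exact Submodule.add_mem _ hx hy
  | smul a x _ hx => rw [map_smul]; exact Submodule.smul_mem _ _ hx

theorem nilI_mid {K : Type} [Field K] [CharZero K] {𝒱 : Type 1} [Category.{0} 𝒱]
    [CartesianMonoidalCategory 𝒱] (W : PreWeil K 𝒱) (Y : 𝒱) (ι : Type) [Finite ι] :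
    W.midAlg Y (ι ⊕ ι) = W.AK (pw Y (ι ⊕ ι)) (W.dim (pw Y ι)) := by
  have h1 : Nat.card (ι ⊕ ι) * W.dim Y = 2 * W.dim (pw Y ι) := by
    rw [Nat.card_sum, W.dim_pw]
    ring
  unfold midAlg
  rw [if_pos ⟨_, h1⟩, h1, Nat.mul_div_cancel_left _ (by norm_num)]

theorem tNilI (h1 : S_PrC) (h2 : S_Mid) (h3 : S_EE3) : S_NilI := by
  intro K _ _ 𝒱 _ _ W Y Z r e E hD ι _ n hn hnum x c hx
  obtain ⟨-, hsymm, habs⟩ := h3 K 𝒱 W r e E hD
  obtain ⟨hE, -, -⟩ := h3 K 𝒱 W r e E hD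
  obtain ⟨-, -, -, -, m5, -, m7⟩ := h2 K 𝒱 W Y
  -- the two projections
  have hf : (pwSum Y ι ι).hom ≫ fst _ _ = pm Y Sum.inl := lift_fst _ _
  have hs : (pwSum Y ι ι).hom ≫ snd _ _ = pm Y Sum.inr := lift_snd _ _
  have hi : ∀ z : W.H (pw Y (ι ⊕ ι)),
      W.pull (pwSum Y ι ι).hom (W.pull (pwSum Y ι ι).inv z) = z := fun z => by
    rw [← W.pull_comp, Iso.hom_inv_id, W.pull_id]
  obtain ⟨n', hn'⟩ : ∃ n', n' = W.pull (pwSum Y ι ι).inv (W.cv Y n) := ⟨_, rfl⟩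
  have hcn : W.pull (pwSum Y ι ι).hom n' = W.cv Y n := by rw [hn', hi]
  have hnA : n' ∈ W.AK (pw Y ι ⊗ pw Y ι) (W.dim (pw Y ι)) := by
    rw [hn']
    refine nilI_pull W _ ?_
    rw [← nilI_mid]
    exact (W.mem_TT Y).1 hn |>.1
  -- the operator is nilpotent
  have hnil : IsNilpotent (W.op n' : Module.End K (W.H (pw Y ι))) := by
    refine hD.nil ι n' hnA fun g hg => ?_
    have hg' : W.pull (pwSum Y ι ι).hom g ∈ W.midAlg Y (ι ⊕ ι) := by
      rw [nilI_mid]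
      exact nilI_pull W _ hg
    obtain ⟨G, hG⟩ := W.exists_cv Y (m7 (ι ⊕ ι) _ hg')
    obtain ⟨π, p1, -, p3, p4⟩ := h1 K (W.calOf Y) E hsymm habs (ι ⊕ ι)
      ((W.midAlg Y (ι ⊕ ι)).comap (W.cv Y)) (fun i u hu => by
        rw [Submodule.mem_comap] at hu ⊢
        rw [W.cv_act]
        exact m5 (ι ⊕ ι) i (plF i) _ ((W.mem_TT Y).1 hE).1 _ hu)
    have hπ : π G ∈ W.TT Y E (ι ⊕ ι) := by
      refine (W.mem_TT Y).2 ⟨?_, p1 G⟩
      have := p4 G (by rw [Submodule.mem_comap, hG]; exact hg')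
      rwa [Submodule.mem_comap] at this
    rw [← W.tr_iso (pwSum Y ι ι), map_mul, hcn, ← hG, ← W.cv_mul, ← W.tot_cv,
      ← p3 n G ((W.mem_TT Y).1 hn).2]
    exact hnum _ hπ
  -- the operator multiplies `x` by `c`
  have heven : W.op n' (W.cv Y x) ∈ W.Ev (pw Y ι) := by
    rw [op_apply]
    refine W.push_Ev _ (Subalgebra.mul_mem _ ?_ (W.pull_Ev _ (W.cv_mem Y x)))
    rw [hn']
    exact W.pull_Ev _ (W.cv_mem Y n)
  obtain ⟨w, hw⟩ := W.exists_cv Y heven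
  have hwx : w = c • x := by
    refine (W.calOf Y).ext_tot fun y => ?_
    rw [mul_comm y, mul_comm y, smul_mul_assoc, map_smul, smul_eq_mul, ← hx y, W.tot_cv, W.tot_cv,
      W.cv_mul, hw, op_spec, ← W.tr_iso (pwSum Y ι ι)]
    simp only [map_mul, ← W.pull_comp, hf, hs, hcn, W.cv_mul, W.cv_map]
  have hop : W.op n' (W.cv Y x) = c • W.cv Y x := by
    rw [← hw, hwx, map_smul]
  obtain ⟨N, hN⟩ := hnil
  have hpow : ∀ k : ℕ, ((W.op n' : Module.End K (W.H (pw Y ι))) ^ k) (W.cv Y x) =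
      c ^ k • W.cv Y x := by
    intro k
    induction k with
    | zero => rw [pow_zero, pow_zero, one_smul]; rfl
    | succ k ih =>
      rw [pow_succ', Module.End.mul_apply, ih, map_smul, hop, smul_smul, pow_succ]
  have h0 : c ^ N • W.cv Y x = 0 := by
    rw [← hpow N, hN]
    rfl
  rcases smul_eq_zero.1 h0 with h | h
  · exact Or.inl (eq_zero_of_pow_eq_zero h)
  · refine Or.inr (W.cv_inj Y ?_)
    rw [h, map_zero]

end Pool.Agent.Lib.MP_4ca46c_ag.Nil
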