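import Pool.Agent.Lib.MP_4ca46c_ag.Nil.SpecI

/-!
# The degree
-/

set_option autoImplicit false

open CategoryTheory Limits MonoidalCategory CartesianMonoidalCategory TensorProduct

namespace Pool.Agent.Lib.MP_4ca46c_ag.Nil

open PreWeil

section

variable {K : Type} [Field K] [CharZero K] {𝒱 : Type 1} [Category.{0} 𝒱]
  [CartesianMonoidalCategory 𝒱] (W : PreWeil K 𝒱) {X : 𝒱} (Y : 𝒱)

theorem eul_deg (k : ℕ) (x : W.H X) (hx : x ∈ W.gr X k) : W.degOp X x = (k : K) • x := by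
  unfold degOp
  rw [LinearMap.sum_apply]
  by_cases hk : 2 * W.dim X < k
  · rw [W.gr_top hx hk]
    simp
  · rw [Finset.sum_eq_single_of_mem k (Finset.mem_range.2 (by omega)) fun j _ hj => by
      rw [LinearMap.smul_apply, W.pi_ne hx (Ne.symm hj), smul_zero]]
    rw [LinearMap.smul_apply, W.pi_same hx]

theorem eul_zero (h : W.dim X = 0) : W.degOp X = 0 := by
  unfold degOp
  rw [h]
  simp

theorem eul_co {ι : Type} (i : ι) : IsCo (Subtype.val : {j // j ≠ i} → ι) i := by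
  constructor
  · rintro (a | a) (b | b) h
    · exact congrArg Sum.inl (Subtype.ext h)
    · exact absurd h a.2
    · exact absurd h.symm b.2
    · rfl
  · intro j
    by_cases h : j = i
    · exact ⟨Sum.inr (), h.symm⟩
    · exact ⟨Sum.inl ⟨j, h⟩, rfl⟩

theorem eul_main (h2 : S_Pl2) (θ : (W.calOf Y).C (Fin 2)) (hθ : W.IsCls Y (W.degOp Y) θ) :
    ∀ (n : ℕ) (ι : Type) [Fintype ι], Fintype.card ι = n → ∀ (h : ι → ι → ι ⊕ Unit),
    (∀ i, IsPl i (h i)) → ∀ τ : W.H (pw Y ι),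
    ∑ i, W.plc Y (W.cv Y θ) i (h i) τ = W.degOp (pw Y ι) τ
  | 0 => by
    intro ι _ hn h hh τ
    have h1 : W.dim (pw Y ι) = 0 := by
      rw [W.dim_pw, Nat.card_eq_fintype_card, hn, zero_mul]
    have h3 : IsEmpty ι := Fintype.card_eq_zero_iff.1 hn
    rw [eul_zero W h1, Finset.univ_eq_empty, Finset.sum_empty, LinearMap.zero_apply]
  | (n + 1) => by
    classical
    intro ι _ hn h hh τ
    obtain ⟨i₀⟩ : Nonempty ι := Fintype.card_pos_iff.1 (by omega)
    obtain ⟨p1, p2, p3⟩ := h2 K 𝒱 W Y ι {j // j ≠ i₀} Subtype.val i₀ (eul_co i₀)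
    have hn' : Fintype.card {j // j ≠ i₀} = n := by
      rw [Fintype.card_subtype_compl, Fintype.card_subtype_eq, hn]
      rfl
    refine p3 (fun τ => ∑ i, W.plc Y (W.cv Y θ) i (h i) τ = W.degOp (pw Y ι) τ)
      (by simp) (fun k l a x ha hx => ?_)
      (fun a b ha hb => by simp only [map_add, Finset.sum_add_distrib, ha, hb]) τ
    have e1 : W.plc Y (W.cv Y θ) i₀ (h i₀) (W.pull (pm Y Subtype.val) a * W.pull (pj Y i₀) x) =
        (l : K) • (W.pull (pm Y Subtype.val) a * W.pull (pj Y i₀) x) := by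
      rw [p1 _ θ hθ (h i₀) (hh i₀), eul_deg W l x hx, map_smul, mul_smul_comm]
    have e2 : ∑ j : {j // j ≠ i₀}, W.plc Y (W.cv Y θ) j.1 (h j.1)
        (W.pull (pm Y Subtype.val) a * W.pull (pj Y i₀) x) =
        (k : K) • (W.pull (pm Y Subtype.val) a * W.pull (pj Y i₀) x) := by
      have e3 : ∀ j : {j // j ≠ i₀}, W.plc Y (W.cv Y θ) j.1 (h j.1)
          (W.pull (pm Y Subtype.val) a * W.pull (pj Y i₀) x) =
          W.pull (pm Y Subtype.val) (W.plc Y (W.cv Y θ) j (plF j) a) * W.pull (pj Y i₀) x :=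
        fun j => p2 _ j (h j.1) (plF j) (hh j.1) (isPl_plF j) a x
      rw [Finset.sum_congr rfl fun j _ => e3 j, ← Finset.sum_mul, ← map_sum,
        eul_main h2 θ hθ n {j // j ≠ i₀} hn' (fun j => plF j) (fun j => isPl_plF j) a,
        eul_deg W k a ha, map_smul, smul_mul_assoc]
    have e4 : W.pull (pm Y Subtype.val) a * W.pull (pj Y i₀) x ∈ W.gr (pw Y ι) (k + l) :=
      SetLike.mul_mem_graded (W.pull_gr _ ha) (W.pull_gr _ hx)
    rw [Fintype.sum_eq_add_sum_subtype_ne _ i₀, e1, e2, eul_deg W (k + l) _ e4, ← add_smul]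
    push_cast
    rw [add_comm (l : K)]

end

theorem tEul (h2 : S_Pl2) : S_Eul := by
  intro K _ _ 𝒱 _ _ W Y
  exact ⟨fun X k x hx => eul_deg W k x hx, fun θ hθ ι _ h hh τ =>
    eul_main W Y h2 θ hθ _ ι rfl h hh τ⟩

end Pool.Agent.Lib.MP_4ca46c_ag.Nil
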