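import Pool.Agent.Lib.MP_4ca46c_ag.Nil.SpecI
import Pool.Agent.Lib.MP_4ca46c_ag.Nil.Eul

/-!
# The class of the identity
-/

set_option autoImplicit false

open CategoryTheory Limits MonoidalCategory CartesianMonoidalCategory TensorProduct

namespace Pool.Agent.Lib.MP_4ca46c_ag.Nil

open PreWeil

theorem tOne (h1 : S_Pl2) : S_One := by
  classical
  intro K _ _ 𝒱 _ _ W Y I hI
  refine ⟨fun ι _ u => (W.calOf Y).abs_iff.2 fun i => ?_, fun ι _ k l => ?_⟩
  · obtain ⟨p1, -, p3⟩ := h1 K 𝒱 W Y ι {j // j ≠ i} Subtype.val i (eul_co i)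
    apply W.cv_inj Y
    rw [cv_act]
    refine p3 (fun τ => W.plc Y (W.cv Y I) i (plF i) τ = τ) (map_zero _)
      (fun k l a x _ _ => p1 LinearMap.id I hI (plF i) (isPl_plF i) a x)
      (fun a b ha hb => by rw [map_add, ha, hb]) (W.cv Y u)
  · have h2 : W.pull (pwTwo Y).inv (W.cv Y I) = W.graph (𝟙 Y) := by
      apply W.op_inj
      rw [(W.isCls_iff Y).1 hI, op_graph]
      exact LinearMap.ext fun x => (W.pull_id x).symm
    have h3 : W.cv Y I = W.pull (pwTwo Y).hom (W.graph (𝟙 Y)) := by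
      rw [← h2, ← W.pull_comp, Iso.hom_inv_id, W.pull_id]
    rw [cv_map, h3, ← W.pull_comp]
    unfold dg
    congr 2
    apply CartesianMonoidalCategory.hom_ext
    · rw [Category.assoc, lift_fst]
      have h4 : (pwTwo Y).hom ≫ fst Y Y = pj Y 0 := lift_fst _ _
      rw [h4, pm_pj]
      rfl
    · rw [Category.assoc, lift_snd]
      have h4 : (pwTwo Y).hom ≫ snd Y Y = pj Y 1 := lift_snd _ _
      rw [h4, pm_pj]
      rfl

end Pool.Agent.Lib.MP_4ca46c_ag.Nil
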