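import Pool.Agent.Lib.MP_4ca46c_ag.Nil.SpecI
import Pool.Agent.Lib.MP_4ca46c_ag.Nil.Cls

/-!
# Classes on `Y × Y`
-/

set_option autoImplicit false

open CategoryTheory Limits MonoidalCategory CartesianMonoidalCategory TensorProduct

namespace Pool.Agent.Lib.MP_4ca46c_ag.Nil

open PreWeil

section

variable {K : Type} [Field K] [CharZero K] {𝒱 : Type 1} [Category.{0} 𝒱]
  [CartesianMonoidalCategory 𝒱] (W : PreWeil K 𝒱) {X : 𝒱} (Y : 𝒱)

/-- commutation with a homogeneous class -/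
theorem op2_comm {k : ℕ} {b : W.H X} (hb : b ∈ W.gr X k) (y : W.H X) :
    b * y = ((W.eps X : Module.End K (W.H X)) ^ k) y * b := by
  refine W.ind (P := fun y => b * y = ((W.eps X : Module.End K (W.H X)) ^ k) y * b) y
    (by rw [map_zero, mul_zero, zero_mul]) (fun l y hy => ?_)
    (fun u v hu hv => by rw [mul_add, map_add, add_mul, hu, hv])
  have h : ∀ n : ℕ, ((W.eps X : Module.End K (W.H X)) ^ n) y = ((-1 : K) ^ l) ^ n • y := by
    intro n
    induction n with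
    | zero => rw [pow_zero, pow_zero, one_smul, Module.End.one_apply]
    | succ n ih => rw [pow_succ', Module.End.mul_apply, ih, map_smul, W.eps_gr hy, smul_smul,
        pow_succ]
  rw [h, ← pow_mul, smul_mul_assoc, mul_comm l k, W.comm_smul hb hy]

theorem op2_epsk (φ : Module.End K (W.H X)) (h : W.eps X ∘ₗ φ = φ ∘ₗ W.eps X) (k : ℕ)
    (x : W.H X) : ((W.eps X : Module.End K (W.H X)) ^ k) (φ x) =
      φ (((W.eps X : Module.End K (W.H X)) ^ k) x) := by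
  induction k with
  | zero => rfl
  | succ n ih =>
    rw [pow_succ', Module.End.mul_apply, ih, Module.End.mul_apply]
    exact LinearMap.congr_fun h _

theorem op2_pullk {Z : 𝒱} (f : X ⟶ Z) (k : ℕ) (x : W.H Z) :
    ((W.eps X : Module.End K (W.H X)) ^ k) (W.pull f x) =
      W.pull f (((W.eps Z : Module.End K (W.H Z)) ^ k) x) := by
  induction k with
  | zero => rfl
  | succ n ih => rw [pow_succ', Module.End.mul_apply, ih, pow_succ', Module.End.mul_apply,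
      eps_pull]

/-- the operator of a class on `pw Y (Fin 2)` -/
noncomputable def op2_O (v : W.H (pw Y (Fin 2))) : Module.End K (W.H Y) :=
  W.op (W.pull (pwTwo Y).inv v)

theorem op2_O_add (u v : W.H (pw Y (Fin 2))) : op2_O W Y (u + v) = op2_O W Y u + op2_O W Y v := by
  unfold op2_O
  rw [map_add, W.op_add]

theorem op2_O_zero : op2_O W Y 0 = 0 := by
  unfold op2_O
  rw [map_zero, W.op_zero]

theorem op2_inv (i : Fin 2) : (pwTwo Y).inv ≫ pj Y i = ![fst Y Y, snd Y Y] i := pl_pj _ _ _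

theorem op2_O1 {k : ℕ} {b : W.H Y} (hb : b ∈ W.gr Y k) (y z : W.H Y) :
    op2_O W Y (W.pull (pj Y 1) b * W.pull (pj Y 0) y) z =
      W.tr Y (b * z) • ((W.eps Y : Module.End K (W.H Y)) ^ k) y := by
  have h1 : W.pull (pwTwo Y).inv (W.pull (pj Y 1) b * W.pull (pj Y 0) y) =
      W.tm (((W.eps Y : Module.End K (W.H Y)) ^ k) y) b := by
    rw [map_mul, ← W.pull_comp, ← W.pull_comp, op2_inv, op2_inv]
    change W.pull (snd Y Y) b * W.pull (fst Y Y) y = _
    rw [op2_comm W (W.pull_gr _ hb), op2_pullk]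
    rfl
  unfold op2_O
  rw [h1, op_tm]

theorem op2_O2 (b y z : W.H Y) :
    op2_O W Y (W.pull (pj Y 0) b * W.pull (pj Y 1) y) z = W.tr Y (y * z) • b := by
  have h1 : W.pull (pwTwo Y).inv (W.pull (pj Y 0) b * W.pull (pj Y 1) y) = W.tm b y := by
    rw [map_mul, ← W.pull_comp, ← W.pull_comp, op2_inv, op2_inv]
    rfl
  unfold op2_O
  rw [h1, op_tm]

theorem op2_co0 : IsCo (fun _ : Unit => (1 : Fin 2)) 0 := by
  constructor
  · rintro (a | a) (b | b) h
    · rfl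
    · simp at h
    · simp at h
    · rfl
  · intro a
    fin_cases a
    · exact ⟨Sum.inr (), rfl⟩
    · exact ⟨Sum.inl (), rfl⟩

theorem op2_co1 : IsCo (fun _ : Unit => (0 : Fin 2)) 1 := by
  constructor
  · rintro (a | a) (b | b) h
    · rfl
    · simp at h
    · simp at h
    · rfl
  · intro a
    fin_cases a
    · exact ⟨Sum.inl (), rfl⟩
    · exact ⟨Sum.inr (), rfl⟩

theorem op2_unit {k : ℕ} {a : W.H (pw Y Unit)} (ha : a ∈ W.gr _ k) :
    ∃ b ∈ W.gr Y k, a = W.pull (pj Y ()) b := by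
  refine ⟨W.pull (pwUnit Y).inv a, W.pull_gr _ ha, ?_⟩
  rw [← W.pull_comp]
  have h : pj Y () ≫ (pwUnit Y).inv = 𝟙 _ := (pwUnit Y).hom_inv_id
  rw [h, W.pull_id]

theorem op2_eps (φ : Module.End K (W.H Y)) (u : (W.calOf Y).C (Fin 2)) (hu : W.IsCls Y φ u) :
    W.eps Y ∘ₗ φ = φ ∘ₗ W.eps Y := by
  have h1 : W.eps (Y ⊗ Y) (W.pull (pwTwo Y).inv (W.cv Y u)) =
      W.pull (pwTwo Y).inv (W.cv Y u) := W.mem_Ev.1 (W.pull_Ev _ (W.cv_mem Y u))
  have h2 := cls_op_eps W Y (W.pull (pwTwo Y).inv (W.cv Y u))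
  rw [h1, (W.isCls_iff Y).1 hu] at h2
  conv_lhs => rw [h2]
  rw [← LinearMap.comp_assoc, W.eps_eps, LinearMap.id_comp]

end

theorem tOp2 (h1 : S_Adj) (h2 : S_Pl2) (h3 : S_Lef) : S_Op2 := by
  intro K _ _ 𝒱 _ _ W Y φ ψ u v hu hv
  obtain ⟨-, a2, -, a4, -⟩ := h1 K 𝒱 W
  have hφ := op2_eps W Y φ u hu
  have hadj : ∀ (χ χ' : Module.End K (W.H Y)) (t : (W.calOf Y).C (Fin 2)), W.IsCls Y χ t →
      W.IsAdj χ χ' →
      χ' = W.op (W.pull (lift (snd Y Y) (fst Y Y)) (W.pull (pwTwo Y).inv (W.cv Y t))) := by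
    intro χ χ' t ht hχ
    refine a2 χ χ' _ hχ ?_
    have h4 := a4 (W.pull (pwTwo Y).inv (W.cv Y t)) (W.pull_Ev _ (W.cv_mem Y t))
    rwa [(W.isCls_iff Y).1 ht] at h4
  refine ⟨?_, fun φ' hφ' => ⟨?_, ?_⟩, hφ, fun ψ' hψ' => ?_⟩
  · -- place 0
    obtain ⟨p1, -, p3⟩ := h2 K 𝒱 W Y (Fin 2) Unit (fun _ => 1) 0 op2_co0
    have key : ∀ t, op2_O W Y (W.plc Y (W.cv Y u) 0 (plF 0) t) = φ ∘ₗ op2_O W Y t := by
      intro t
      refine p3 (fun t => op2_O W Y (W.plc Y (W.cv Y u) 0 (plF 0) t) = φ ∘ₗ op2_O W Y t)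
        (by rw [map_zero, op2_O_zero, LinearMap.comp_zero]) (fun k l a x ha hx => ?_)
        (fun a b ha hb => by rw [map_add, op2_O_add, ha, hb, op2_O_add, LinearMap.comp_add]) t
      obtain ⟨b, hb, rfl⟩ := op2_unit W Y ha
      rw [p1 φ u hu (plF 0) (isPl_plF _), ← W.pull_comp, pm_pj]
      refine LinearMap.ext fun z => ?_
      rw [LinearMap.comp_apply, op2_O1 W Y hb, op2_O1 W Y hb, map_smul, op2_epsk W φ hφ]
    have h5 := key (W.cv Y v)
    have h6 : op2_O W Y (W.cv Y v) = ψ := (W.isCls_iff Y).1 hv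
    rw [h6] at h5
    exact (W.isCls_iff Y).2 h5
  · -- place 1
    obtain ⟨p1, -, p3⟩ := h2 K 𝒱 W Y (Fin 2) Unit (fun _ => 0) 1 op2_co1
    have key : ∀ t, op2_O W Y (W.plc Y (W.cv Y u) 1 (plF 1) t) = op2_O W Y t ∘ₗ φ' := by
      intro t
      refine p3 (fun t => op2_O W Y (W.plc Y (W.cv Y u) 1 (plF 1) t) = op2_O W Y t ∘ₗ φ')
        (by rw [map_zero, op2_O_zero, LinearMap.zero_comp]) (fun k l a x ha hx => ?_)
        (fun a b ha hb => by rw [map_add, op2_O_add, ha, hb, op2_O_add, LinearMap.add_comp]) t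
      obtain ⟨b, hb, rfl⟩ := op2_unit W Y ha
      rw [p1 φ u hu (plF 1) (isPl_plF _), ← W.pull_comp, pm_pj]
      refine LinearMap.ext fun z => ?_
      rw [LinearMap.comp_apply, op2_O2, op2_O2, hφ']
    have h5 := key (W.cv Y v)
    have h6 : op2_O W Y (W.cv Y v) = ψ := (W.isCls_iff Y).1 hv
    rw [h6] at h5
    exact (W.isCls_iff Y).2 h5
  · -- the adjoint
    refine (W.isCls_iff Y).2 ?_
    rw [hadj φ φ' u hu hφ', cv_map, ← W.pull_comp, ← W.pull_comp]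
    congr 2
    have h5 : (pwTwo Y).inv ≫ pm Y ![1, 0] = lift (snd Y Y) (fst Y Y) ≫ (pwTwo Y).inv := by
      refine pw_ext Y fun i => ?_
      rw [Category.assoc, Category.assoc, pm_pj, op2_inv, op2_inv]
      fin_cases i
      · exact (lift_fst _ _).symm
      · exact (lift_snd _ _).symm
    rw [h5]
  · -- the trace
    have e1 : ∀ t : (W.calOf Y).C (Fin 2), W.cv Y t =
        W.pull (pwTwo Y).hom (W.pull (pwTwo Y).inv (W.cv Y t)) := by
      intro t
      rw [← W.pull_comp, Iso.hom_inv_id, W.pull_id]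
    have e2 := h3 K 𝒱 W (W.pull (pwTwo Y).inv (W.cv Y u))
      (W.pull (lift (snd Y Y) (fst Y Y)) (W.pull (pwTwo Y).inv (W.cv Y v)))
    have e3 : lift (snd Y Y) (fst Y Y) ≫ lift (snd Y Y) (fst Y Y) = 𝟙 (Y ⊗ Y) := by
      ext <;> simp
    rw [← W.pull_comp (lift (snd Y Y) (fst Y Y)) (lift (snd Y Y) (fst Y Y)), e3, W.pull_id,
      (W.isCls_iff Y).1 hu, ← hadj ψ ψ' v hv hψ'] at e2
    rw [← e2, tot_cv, cv_mul, e1 u, e1 v, ← map_mul, W.tr_iso (pwTwo Y)]
    rw [← e1 u, ← e1 v]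

end Pool.Agent.Lib.MP_4ca46c_ag.Nil
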