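import Pool.Agent.Lib.MP_4ca46c_ag.Nil.SpecI

/-!
# The idempotent kills the even or the odd classes
-/

set_option autoImplicit false

open CategoryTheory Limits MonoidalCategory CartesianMonoidalCategory TensorProduct

namespace Pool.Agent.Lib.MP_4ca46c_ag.Nil

open PreWeil (IsPl pw pj pm pl pmIso pwSum pwUnit pwEmpty pwTwo)

section

variable {K : Type} [Field K] [CharZero K] {𝒱 : Type 1} [Category.{0} 𝒱]
  [CartesianMonoidalCategory 𝒱] (W : PreWeil K 𝒱)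

theorem out_deg {X : 𝒱} {k : ℕ} {x : W.H X} (hx : x ∈ W.gr X k) :
    W.degOp X x = (k : K) • x := by
  rw [PreWeil.degOp, LinearMap.sum_apply]
  by_cases hk : 2 * W.dim X < k
  · rw [W.gr_top hx hk]
    simp
  · rw [Finset.sum_eq_single_of_mem k (Finset.mem_range.2 (by omega)), LinearMap.smul_apply,
      W.pi_same hx]
    intro i _ hi
    rw [LinearMap.smul_apply, W.pi_ne hx (Ne.symm hi), smul_zero]

theorem out_tr_unit {Y : 𝒱} (x : W.H Y) :
    W.tr (pw Y Unit) (W.pull (pj Y ()) x) = W.tr Y x :=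
  W.tr_iso (pwUnit Y) x

theorem out_exists {Y : 𝒱} {x : W.H Y} (hx : x ≠ 0) : ∃ y, W.tr Y (x * y) ≠ 0 := by
  by_contra h
  push Not at h
  exact hx (W.duality x h)

theorem out_inv0 {Y : 𝒱} : (pwTwo Y).inv ≫ pj Y 0 = fst Y Y := by
  have h : (pwTwo Y).hom ≫ fst Y Y = pj Y 0 := lift_fst _ _
  rw [← h, Iso.inv_hom_id_assoc]

theorem out_inv1 {Y : 𝒱} : (pwTwo Y).inv ≫ pj Y 1 = snd Y Y := by
  have h : (pwTwo Y).hom ≫ snd Y Y = pj Y 1 := lift_snd _ _
  rw [← h, Iso.inv_hom_id_assoc]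

theorem out_ne {Y : 𝒱} {y : W.H Y} (hy : y ≠ 0) :
    W.pull (pj Y (0 : Fin 2)) y * W.pull (pj Y 1) y ≠ 0 := by
  intro h
  have h1 := congrArg (W.pull (pwTwo Y).inv) h
  rw [map_mul, ← W.pull_comp, ← W.pull_comp, out_inv0, out_inv1, map_zero] at h1
  obtain ⟨z, hz⟩ := out_exists W hy
  have h2 : W.op (W.tm y y) z = 0 := by
    rw [PreWeil.tm, h1, W.op_zero, LinearMap.zero_apply]
  rw [W.op_tm] at h2
  rcases smul_eq_zero.1 h2 with h3 | h3
  · exact hz h3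
  · exact hy h3

end

theorem tOut (h1 : S_SysI) (h2 : S_GrI) (h3 : S_Dim) (h4 : S_Cls) (h5 : S_CK) (h6 : S_AbX)
    (h7 : S_Formal) (h8 : S_Formal2) : S_Out := by
  intro K _ _ 𝒱 _ _ W Y Z r e E hD
  have hsys := h1 K 𝒱 W r e E hD
  obtain ⟨p, q, hpq, hp, hq⟩ := h3 K 𝒱 W r e E hD
  obtain ⟨-, -, -, -, -, c6⟩ := h5 K 𝒱 W
  have hedeg : ∀ i, ∀ x ∈ W.gr Y i, e x ∈ W.gr Y i := c6 e hD.isE.mem
  have hidem : ∀ x, e (e x) = e x := fun x => LinearMap.congr_fun hD.isE.idem x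
  set ψ : Module.End K (W.H Y) := (W.degOp Y - (W.dim Y : K) • LinearMap.id) ∘ₗ e with hψdef
  have hψ : ∀ i, ∀ x ∈ W.gr Y i, ψ x = ((i : K) - W.dim Y) • e x := by
    intro i x hx
    rw [hψdef, LinearMap.comp_apply, LinearMap.sub_apply, LinearMap.smul_apply,
      LinearMap.id_apply, out_deg W (hedeg i x hx), sub_smul]
  have hψe : W.eps Y ∘ₗ ψ = ψ ∘ₗ W.eps Y := by
    refine W.hom_ext fun i x hx => ?_
    change W.eps Y (ψ x) = ψ (W.eps Y x)
    rw [W.eps_gr hx, map_smul, hψ i x hx,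
      W.eps_gr (Submodule.smul_mem _ _ (hedeg i x hx))]
  obtain ⟨w, hw⟩ := (h4 K 𝒱 W Y).1 ψ hψe
  have hgrad := h2 K 𝒱 W r e E hD hsys w hw
  obtain ⟨a, ha⟩ := hD.sec.odd
  have hw0 : ∀ i, Even i → ∀ x ∈ W.gr Y i, e x ≠ 0 → w ≠ 0 := by
    intro i hi x hx hne h0
    have h9 : W.op (W.pull (pwTwo Y).inv (W.cv Y w)) = ψ := hw
    rw [h0, map_zero, map_zero, W.op_zero] at h9
    have h10 := hψ i x hx
    rw [← h9, LinearMap.zero_apply] at h10
    rcases smul_eq_zero.1 h10.symm with h11 | h11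
    · rw [sub_eq_zero] at h11
      have h12 : i = W.dim Y := by exact_mod_cast h11
      obtain ⟨b, hb⟩ := hi
      omega
    · exact hne h11
  rcases le_or_gt p q with hle | hlt
  · left
    intro i hi x hx
    by_contra hne
    have hx' := hedeg i x hx
    have hxe : W.pull (pj Y ()) (e x) ∈ W.Ev (pw Y Unit) := W.pull_Ev _ (W.Ev_of_gr hx' hi)
    obtain ⟨X, hX⟩ := W.exists_cv Y hxe
    have hAbs := (h6 K 𝒱 W Y e E hD.cls).1 (e x) X (hidem x) hX
    have hXX : (W.calOf Y).tot Unit (X * X) = 0 := by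
      rw [W.tot_cv, W.cv_mul, hX, ← map_mul, out_tr_unit]
      refine W.tr_gr (SetLike.mul_mem_graded hx' hx') ?_
      obtain ⟨b, hb⟩ := hi
      omega
    obtain ⟨y, hy⟩ := out_exists W hne
    have hy1 : y + W.eps Y y ∈ W.Ev Y := by
      rw [W.mem_Ev, map_add, add_comm]
      congr 1
      exact LinearMap.congr_fun W.eps_eps y
    have hy2 : W.tr Y (e x * (y + W.eps Y y)) ≠ 0 := by
      have h9 : W.tr Y (e x * W.eps Y y) = W.tr Y (e x * y) := by
        rw [← W.tr_eps_self (e x * y), W.eps_mul, W.mem_Ev.1 (W.Ev_of_gr hx' hi)]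
      rw [mul_add, map_add, h9, ← two_mul]
      exact mul_ne_zero two_ne_zero hy
    obtain ⟨Y', hY'⟩ := W.exists_cv Y (W.pull_Ev (pj Y ()) hy1)
    have hXY : (W.calOf Y).tot Unit (X * Y') ≠ 0 := by
      rw [W.tot_cv, W.cv_mul, hX, hY', ← map_mul, out_tr_unit]
      exact hy2
    have hdelta : (W.sysOf Y E hsys).delta = -(2 * ((q - p : ℕ) : K)) := by
      rw [Nat.cast_sub hle]
      refine hpq.trans ?_
      ring
    exact h7 K (W.sysOf Y E hsys) w hgrad (hw0 i hi x hx hne) (q - p) hdelta X Y' hAbs hXX hXY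
  · right
    intro i hi y hy
    by_contra hne
    have hp0 : p ≠ 0 := by omega
    have hwne : w ≠ 0 := by
      by_contra hw1
      apply hp0
      rw [hp]
      intro j hj x hx
      by_contra hx0
      exact hw0 j hj x hx hx0 hw1
    have hy' := hedeg i y hy
    have hPgr : W.pull (pj Y (0 : Fin 2)) (e y) * W.pull (pj Y 1) (e y) ∈
        W.gr (pw Y (Fin 2)) (i + i) :=
      SetLike.mul_mem_graded (W.pull_gr _ hy') (W.pull_gr _ hy')
    obtain ⟨P, hP⟩ := W.exists_cv Y (W.Ev_of_gr hPgr ⟨i, rfl⟩)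
    obtain ⟨hP1, hP2⟩ := (h6 K 𝒱 W Y e E hD.cls).2 i (e y) hy' (hidem y) P hP
    have hP0 : P ≠ 0 := by
      intro h0
      rw [h0, map_zero] at hP
      exact out_ne W hne hP.symm
    obtain ⟨Q, hQ⟩ : ∃ Q, (W.calOf Y).tot (Fin 2) (P * Q) ≠ 0 := by
      by_contra h9
      push Not at h9
      exact hP0 ((W.calOf Y).dual P h9)
    have hdelta : (W.sysOf Y E hsys).delta = ((2 * (p - q) : ℕ) : K) := by
      rw [Nat.cast_mul, Nat.cast_sub hlt.le]
      refine hpq.trans ?_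
      push_cast
      ring
    exact h8 K (W.sysOf Y E hsys) w hgrad hwne (2 * (p - q)) hdelta P Q hP1 (hP2 hi) hQ

end Pool.Agent.Lib.MP_4ca46c_ag.Nil
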