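import Pool.Agent.Lib.MP_4ca46c_ag.Nil.SpecI

/-!
# Skew-symmetric forms
-/

set_option autoImplicit false

namespace Pool.Agent.Lib.MP_4ca46c_ag.Nil

theorem tPar : S_Par := by
  intro K V _ _ _ _ _ B hB hn
  classical
  let b := Module.finBasis K V
  obtain ⟨M, hM0⟩ : ∃ M, M = LinearMap.toMatrix₂ b b B := ⟨_, rfl⟩
  have hM : M.transpose = -M := by
    ext i j
    rw [Matrix.transpose_apply, Matrix.neg_apply, hM0, LinearMap.toMatrix₂_apply,
      LinearMap.toMatrix₂_apply, hB]
  have hdet : M.det ≠ 0 := by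
    have hs : B.SeparatingLeft := fun x hx => hn x hx
    rw [hM0]
    exact (LinearMap.separatingLeft_iff_det_ne_zero b).1 hs
  by_contra hodd
  rw [Nat.not_even_iff_odd] at hodd
  have h1 := Matrix.det_transpose M
  rw [hM, Matrix.det_neg, Fintype.card_fin, hodd.neg_one_pow, neg_one_mul] at h1
  exact hdet (self_eq_neg.1 h1.symm)

end Pool.Agent.Lib.MP_4ca46c_ag.Nil
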