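import Pool.Agent.Lib.MP_4ca46c_ag.Nil.SpecI

/-!
# Classes on `Y^4` as operators
-/

set_option autoImplicit false

open CategoryTheory Limits MonoidalCategory CartesianMonoidalCategory TensorProduct

namespace Pool.Agent.Lib.MP_4ca46c_ag.Nil

open PreWeil

section Iso

variable {𝒱 : Type 1} [Category.{0} 𝒱] [CartesianMonoidalCategory 𝒱] (Y : 𝒱)
  {ι ι' : Type} [Finite ι] [Finite ι']

/-- `Y^ι = Y^ι' × Y` -/
noncomputable def phi_iso (s : ι' → ι) (i : ι) (h : IsCo s i) : pw Y ι ≅ pw Y ι' ⊗ Y where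
  hom := lift (pm Y s) (pj Y i)
  inv := pl fun j => Sum.elim (fun k => fst (pw Y ι') Y ≫ pj Y k) (fun _ => snd (pw Y ι') Y)
    ((Equiv.ofBijective _ h).symm j)
  hom_inv_id := by
    refine pw_ext Y fun j => ?_
    rw [Category.assoc, Category.id_comp, pl_pj]
    obtain ⟨k, rfl⟩ := (Equiv.ofBijective _ h).surjective j
    rw [Equiv.symm_apply_apply]
    rcases k with k | k
    · rw [Sum.elim_inl, lift_fst_assoc, pm_pj]
      rfl
    · rw [Sum.elim_inr, lift_snd]
      rfl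
  inv_hom_id := by
    ext
    · rw [Category.assoc, lift_fst, Category.id_comp]
      refine pw_ext Y fun k => ?_
      have h1 : (Equiv.ofBijective _ h).symm (s k) = Sum.inl k := (Equiv.symm_apply_eq _).2 rfl
      rw [Category.assoc, pm_pj, pl_pj, h1, Sum.elim_inl]
    · have h1 : (Equiv.ofBijective _ h).symm i = Sum.inr () := (Equiv.symm_apply_eq _).2 rfl
      rw [Category.assoc, lift_snd, Category.id_comp, pl_pj, h1, Sum.elim_inr]

theorem phi_co (i : Fin 4) : IsCo i.succAbove i := by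
  constructor
  · rintro (a | a) (b | b) h
    · exact congrArg Sum.inl (Fin.succAbove_right_injective h)
    · exact absurd h (Fin.succAbove_ne i a)
    · exact absurd h (Fin.succAbove_ne i b).symm
    · rfl
  · intro j
    by_cases hj : j = i
    · exact ⟨Sum.inr (), hj.symm⟩
    · obtain ⟨k, hk⟩ := Fin.exists_succAbove_eq hj
      exact ⟨Sum.inl k, hk⟩

end Iso

section

variable {K : Type} [Field K] [CharZero K] {𝒱 : Type 1} [Category.{0} 𝒱]
  [CartesianMonoidalCategory 𝒱] (W : PreWeil K 𝒱)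

/-- exchange of the factors -/
theorem phi_swap {P Y : 𝒱} {k l : ℕ} {a : W.H P} {x : W.H Y} (ha : a ∈ W.gr P k)
    (hx : x ∈ W.gr Y l) : W.pull (lift (snd Y P) (fst Y P)) (W.tm a x) =
      ((-1 : K) ^ (k * l)) • W.tm x a := by
  rw [pull_tm, W.comm_smul (W.pull_gr _ ha) (W.pull_gr _ hx)]
  rfl

theorem phi_comp {P Y : 𝒱} (e : Module.End K (W.H Y)) (x : W.H Y) (a : W.H P) :
    e ∘ₗ W.op (W.tm x a) = W.op (W.tm (e x) a) := by
  refine LinearMap.ext fun z => ?_
  rw [LinearMap.comp_apply, op_tm, op_tm, map_smul]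

/-- the operator of a class on a power -/
theorem phi_op {Y : 𝒱} {ι ι' : Type} [Finite ι] [Finite ι'] (s : ι' → ι) (i : ι) (h : IsCo s i)
    {k l : ℕ} {a : W.H (pw Y ι')} {x : W.H Y} (ha : a ∈ W.gr _ k) (hx : x ∈ W.gr _ l) :
    W.op (W.pull (lift (snd Y (pw Y ι')) (fst Y (pw Y ι'))) (W.pull (phi_iso Y s i h).inv
      (W.pull (pm Y s) a * W.pull (pj Y i) x))) = ((-1 : K) ^ (k * l)) • W.op (W.tm x a) := by
  have h0 := (phi_iso Y s i h).inv_hom_id
  have h1 : (phi_iso Y s i h).inv ≫ pm Y s = fst _ _ := by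
    have h2 := congrArg (fun f => f ≫ fst _ _) h0
    simp only [phi_iso, Category.assoc, lift_fst, Category.id_comp] at h2 ⊢
    exact h2
  have h3 : (phi_iso Y s i h).inv ≫ pj Y i = snd _ _ := by
    have h2 := congrArg (fun f => f ≫ snd _ _) h0
    simp only [phi_iso, Category.assoc, lift_snd, Category.id_comp] at h2 ⊢
    exact h2
  rw [map_mul, ← W.pull_comp, ← W.pull_comp, h1, h3, ← op_smul, ← phi_swap W ha hx]
  rfl

end

theorem tPhi (h1 : S_Adj) (h2 : S_CK) (h3 : S_Pl2) : S_Phi := by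
  intro K _ _ 𝒱 _ _ W Y Z r i
  obtain ⟨a1, -, -, -, -⟩ := h1 K 𝒱 W
  obtain ⟨-, -, -, -, -, c6⟩ := h2 K 𝒱 W
  obtain ⟨p1, -, p3⟩ := h3 K 𝒱 W Y (Fin 4) (Fin 3) i.succAbove i (phi_co i)
  refine ⟨phi_iso Y i.succAbove i (phi_co i), fun b => ?_, fun b => ?_, ?_⟩
  · rw [← W.pull_comp]
    have h : th r i = (phi_iso Y i.succAbove i (phi_co i)).hom ≫
        lift (fst _ _) (snd _ _ ≫ r) := by
      change lift (pm Y i.succAbove) (pj Y i ≫ r) =
        lift (pm Y i.succAbove) (pj Y i) ≫ lift (fst _ _) (snd _ _ ≫ r)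
      rw [comp_lift, lift_fst, lift_snd_assoc]
    rw [h]
  · refine W.ind_tm (P := fun b =>
      W.op (W.pull (lift (fst (pw Y (Fin 3)) Y) (snd (pw Y (Fin 3)) Y ≫ r)) b) =
        W.op b ∘ₗ W.push r) b ?_ (fun p q => ?_) (fun u v hu hv => ?_)
    · rw [map_zero, W.op_zero, W.op_zero, LinearMap.zero_comp]
    · have e1 : W.pull (lift (fst (pw Y (Fin 3)) Y) (snd (pw Y (Fin 3)) Y ≫ r)) (W.tm p q) =
          W.tm p (W.pull r q) := by
        rw [pull_tm, W.pull_comp]
        rfl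
      rw [e1]
      refine LinearMap.ext fun x => ?_
      rw [LinearMap.comp_apply, op_tm, op_tm]
      exact congrArg (· • p) ((a1 r).2 q x)
    · rw [map_add, W.op_add, W.op_add, hu, hv, LinearMap.add_comp]
  · intro e E he hE g hg
    have key : ∀ τ : W.H (pw Y (Fin 4)), W.op (W.pull (lift (snd Y (pw Y (Fin 3)))
        (fst Y (pw Y (Fin 3)))) (W.pull (phi_iso Y i.succAbove i (phi_co i)).inv
          (W.plc Y (W.cv Y E) i (plF i) τ))) =
        e ∘ₗ W.op (W.pull (lift (snd Y (pw Y (Fin 3))) (fst Y (pw Y (Fin 3))))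
          (W.pull (phi_iso Y i.succAbove i (phi_co i)).inv τ)) := by
      refine p3 _ ?_ (fun k l a x ha hx => ?_) (fun u v hu hv => ?_)
      · rw [map_zero, map_zero, map_zero, W.op_zero]
        exact (LinearMap.comp_zero e).symm
      · rw [p1 e E hE (plF i) (isPl_plF i) a x, phi_op W _ _ _ ha hx,
          phi_op W _ _ _ ha (c6 e he l x hx), LinearMap.comp_smul, phi_comp]
      · rw [map_add, map_add, map_add, W.op_add, hu, hv, map_add, map_add, W.op_add]
        exact (LinearMap.comp_add _ _ e).symm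
    have h : W.cv Y g = W.plc Y (W.cv Y E) i (plF i) (W.cv Y g) := by
      rw [← W.cv_act, ((W.calOf Y).abs_iff.1 hg) i]
    conv_rhs => rw [h]
    exact (key _).symm

end Pool.Agent.Lib.MP_4ca46c_ag.Nil
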