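import Pool.Agent.Lib.MP_4ca46c_ag.Nil.SpecI

/-!
# The action in one variable, products
-/

set_option autoImplicit false

open CategoryTheory Limits MonoidalCategory CartesianMonoidalCategory TensorProduct

namespace Pool.Agent.Lib.MP_4ca46c_ag.Nil

open PreWeil

section

variable {K : Type} [Field K] [CharZero K] {𝒱 : Type 1} [Category.{0} 𝒱]
  [CartesianMonoidalCategory 𝒱] (W : PreWeil K 𝒱) {X Z : 𝒱} (Y : 𝒱)

/-- first projection formula -/
theorem pl1_proj (f : X ⟶ Z) (x : W.H X) (y : W.H Z) :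
    W.push f (x * W.pull f y) = W.push f x * y :=
  W.push_eq f _ _ fun z => by rw [mul_assoc, push_spec, map_mul (W.pull f), ← mul_assoc]

/-- second projection formula -/
theorem pl1_proj' (f : X ⟶ Z) (x : W.H Z) (y : W.H X) :
    W.push f (W.pull f x * y) = x * W.push f y :=
  W.push_eq f _ _ fun z => by
    have h1 : W.tr Z (x * W.push f y * z) = W.tr Z (W.push f y * (z * W.eps Z x)) := by
      rw [mul_assoc, ← W.tr_eps x, mul_assoc]
    have h2 : W.pull f (z * W.eps Z x) = W.pull f z * W.eps X (W.pull f x) := by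
      rw [map_mul, eps_pull]
    rw [h1, push_spec, h2, ← mul_assoc, W.tr_eps, mul_assoc]

variable {ι κ J : Type} [Finite ι] [Finite κ] [Finite J]

theorem pl1_apply (u : W.H (pw Y (Fin 2))) (i : ι) (h : ι → ι ⊕ Unit) (τ : W.H (pw Y ι)) :
    W.plc Y u i h τ = W.push (pm Y Sum.inl)
      (W.pull (pm Y ![(Sum.inl i : ι ⊕ Unit), Sum.inr ()]) u * W.pull (pm Y h) τ) := rfl

theorem pl1_pull (f : ι → κ) (g : κ → J) (u : W.H (pw Y ι)) :
    W.pull (pm Y g) (W.pull (pm Y f) u) = W.pull (pm Y (g ∘ f)) u := by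
  rw [← W.pull_comp, pm_comp]

omit [Finite ι] [Finite κ] in
theorem pl1_map (f : ι → κ) (i : ι) : Sum.map f (id : Unit → Unit) ∘
    ![(Sum.inl i : ι ⊕ Unit), Sum.inr ()] = ![(Sum.inl (f i) : κ ⊕ Unit), Sum.inr ()] := by
  funext j
  fin_cases j <;> rfl

theorem pl1_one (u : W.H (pw Y (Fin 2))) (i : κ) (h : κ ⊕ J → (κ ⊕ J) ⊕ Unit)
    (h' : κ → κ ⊕ Unit) (hh : IsPl (Sum.inl i) h) (hh' : IsPl i h') (a : W.H (pw Y κ))
    (b : W.H (pw Y J)) :
    W.plc Y u (Sum.inl i) h (W.pull (pm Y Sum.inl) a * W.pull (pm Y Sum.inr) b) =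
      W.pull (pm Y Sum.inl) (W.plc Y u i h' a) * W.pull (pm Y Sum.inr) b := by
  have e1 : h ∘ Sum.inr = (Sum.inl ∘ Sum.inr : J → (κ ⊕ J) ⊕ Unit) := by
    funext j
    exact hh.2 _ (by simp)
  have e2 : h ∘ Sum.inl = Sum.map Sum.inl (id : Unit → Unit) ∘ h' := by
    funext j
    by_cases hj : j = i
    · subst hj
      simp [hh.1, hh'.1]
    · simp [hh.2 (Sum.inl j) (by simpa using hj), hh'.2 j hj]
  rw [pl1_apply, map_mul (W.pull (pm Y h)), pl1_pull, pl1_pull, e1, e2, ← pl1_pull W Y h',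
    ← pl1_pull W Y (Sum.inr : J → κ ⊕ J),
    ← mul_assoc, pl1_proj, pl1_apply, W.pull_push, map_mul (W.pull (pm Y (Sum.map _ _))),
    pl1_pull W Y ![_, _], pl1_map]

theorem pl1_two (u : W.H (pw Y (Fin 2))) (hu : u ∈ W.Ev (pw Y (Fin 2))) (i : J)
    (h : κ ⊕ J → (κ ⊕ J) ⊕ Unit) (h' : J → J ⊕ Unit) (hh : IsPl (Sum.inr i) h)
    (hh' : IsPl i h') (a : W.H (pw Y κ)) (b : W.H (pw Y J)) :
    W.plc Y u (Sum.inr i) h (W.pull (pm Y Sum.inl) a * W.pull (pm Y Sum.inr) b) =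
      W.pull (pm Y Sum.inl) a * W.pull (pm Y Sum.inr) (W.plc Y u i h' b) := by
  have e1 : h ∘ Sum.inl = (Sum.inl ∘ Sum.inl : κ → (κ ⊕ J) ⊕ Unit) := by
    funext j
    exact hh.2 _ (by simp)
  have e2 : h ∘ Sum.inr = Sum.map Sum.inr (id : Unit → Unit) ∘ h' := by
    funext j
    by_cases hj : j = i
    · subst hj
      simp [hh.1, hh'.1]
    · simp [hh.2 (Sum.inr j) (by simpa using hj), hh'.2 j hj]
  rw [pl1_apply, map_mul (W.pull (pm Y h)), pl1_pull, pl1_pull, e1, e2, ← pl1_pull W Y h',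
    ← pl1_pull W Y (Sum.inl : κ → κ ⊕ J), ← mul_assoc, W.Ev_comm (W.pull_Ev _ hu), mul_assoc,
    pl1_proj', pl1_apply, W.pull_push, map_mul (W.pull (pm Y (Sum.map _ _))),
    pl1_pull W Y ![_, _], pl1_map]

theorem pl1_three (f : ι ≃ κ) (u : W.H (pw Y (Fin 2))) (i : ι)
    (h : ι → ι ⊕ Unit) (h' : κ → κ ⊕ Unit) (hh : IsPl i h) (hh' : IsPl (f i) h')
    (τ : W.H (pw Y ι)) :
    W.pull (pm Y f) (W.plc Y u i h τ) = W.plc Y u (f i) h' (W.pull (pm Y f) τ) := by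
  have e2 : Sum.map f (id : Unit → Unit) ∘ h = h' ∘ f := by
    funext j
    by_cases hj : j = i
    · subst hj
      simp [hh.1, hh'.1]
    · simp [hh.2 j hj, hh'.2 (f j) (fun h => hj (f.injective h))]
  rw [pl1_apply, pl1_apply, W.pull_push, map_mul (W.pull (pm Y (Sum.map _ _))), pl1_pull,
    pl1_pull, pl1_pull, pl1_map, e2]

/-- `Y^(1 ⊕ 1) = Y × Y` -/
noncomputable def pl1_iso : pw Y (Unit ⊕ Unit) ≅ Y ⊗ Y where
  hom := lift (pj Y (Sum.inl ())) (pj Y (Sum.inr ()))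
  inv := pl (Sum.elim (fun _ => fst Y Y) (fun _ => snd Y Y))
  hom_inv_id := by
    refine pw_ext Y fun i => ?_
    rw [Category.assoc, pl_pj, Category.id_comp]
    rcases i with i | i
    · exact lift_fst _ _
    · exact lift_snd _ _
  inv_hom_id := by
    ext
    · rw [Category.assoc, lift_fst, pl_pj, Category.id_comp]; rfl
    · rw [Category.assoc, lift_snd, pl_pj, Category.id_comp]; rfl

theorem pl1_push (z : W.H (Y ⊗ Y)) :
    W.push (pm Y (Sum.inl : Unit → Unit ⊕ Unit)) (W.pull (pl1_iso Y).hom z) =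
      W.pull (pj Y ()) (W.push (fst Y Y) z) := by
  refine W.push_eq _ _ _ fun y => ?_
  obtain ⟨y', rfl⟩ : ∃ y', W.pull (pj Y ()) y' = y := by
    refine ⟨W.pull (pwUnit Y).inv y, ?_⟩
    rw [← W.pull_comp]
    have h : pj Y () ≫ (pwUnit Y).inv = 𝟙 _ := (pwUnit Y).hom_inv_id
    rw [h, W.pull_id]
  have h1 : pm Y (Sum.inl : Unit → Unit ⊕ Unit) ≫ pj Y () = (pl1_iso Y).hom ≫ fst Y Y := by
    rw [pm_pj]
    exact (lift_fst _ _).symm
  rw [← map_mul, ← W.pull_comp, h1, W.pull_comp, ← map_mul, W.tr_iso (pl1_iso Y)]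
  have h2 := W.tr_iso (pwUnit Y) (W.push (fst Y Y) z * y')
  change W.tr _ (W.pull (pj Y ()) (W.push (fst Y Y) z * y')) = _ at h2
  rw [h2, push_spec]

theorem pl1_four (φ : Module.End K (W.H Y)) (u : (W.calOf Y).C (Fin 2)) (hu : W.IsCls Y φ u)
    (h : Unit → Unit ⊕ Unit) (hh : IsPl () h) (x : W.H Y) :
    W.plc Y (W.cv Y u) () h (W.pull (pj Y ()) x) = W.pull (pj Y ()) (φ x) := by
  have e1 : W.pull (pm Y ![(Sum.inl () : Unit ⊕ Unit), Sum.inr ()]) (W.cv Y u) =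
      W.pull (pl1_iso Y).hom (W.pull (pwTwo Y).inv (W.cv Y u)) := by
    rw [← W.pull_comp]
    congr 2
    refine pw_ext Y fun i => ?_
    rw [pm_pj, Category.assoc]
    have h3 : (pwTwo Y).inv ≫ pj Y i = ![fst Y Y, snd Y Y] i := pl_pj _ _ _
    rw [h3]
    fin_cases i
    · exact (lift_fst _ _).symm
    · exact (lift_snd _ _).symm
  have e2 : W.pull (pm Y h) (W.pull (pj Y ()) x) =
      W.pull (pl1_iso Y).hom (W.pull (snd Y Y) x) := by
    rw [← W.pull_comp, ← W.pull_comp, pm_pj, hh.1]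
    congr 2
    exact (lift_snd _ _).symm
  rw [pl1_apply, e1, e2, ← map_mul, pl1_push, ← op_apply, (W.isCls_iff Y).1 hu]

end

theorem tPl1 : S_Pl1 := by
  intro K _ _ 𝒱 _ _ W Y
  exact ⟨fun κ J _ _ u i h h' hh hh' a b => pl1_one W Y u i h h' hh hh' a b,
    fun κ J _ _ u hu j h h' hh hh' a b => pl1_two W Y u hu j h h' hh hh' a b,
    fun ι κ _ _ f u i h h' hh hh' τ => pl1_three W Y f u i h h' hh hh' τ,
    fun φ u hu h hh x => pl1_four W Y φ u hu h hh x⟩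

end Pool.Agent.Lib.MP_4ca46c_ag.Nil
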