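import Pool.Agent.Lib.MP_4ca46c_ag.Nil.SpecI

/-!
# The action in one variable
-/

set_option autoImplicit false

open CategoryTheory Limits MonoidalCategory CartesianMonoidalCategory TensorProduct

namespace Pool.Agent.Lib.MP_4ca46c_ag.Nil

open PreWeil

section

variable {K : Type} [Field K] [CharZero K] {𝒱 : Type 1} [Category.{0} 𝒱]
  [CartesianMonoidalCategory 𝒱] (W : PreWeil K 𝒱) (Y : 𝒱) {ι ι' : Type} [Finite ι] [Finite ι']
  {s : ι' → ι} {i : ι}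

/-- the bijection -/
noncomputable def pl2_f (hs : PreWeil.IsCo s i) : ι' ⊕ Unit ≃ ι := Equiv.ofBijective _ hs

omit [Finite ι] [Finite ι'] in
theorem pl2_inl (hs : PreWeil.IsCo s i) : ⇑(pl2_f hs) ∘ Sum.inl = s := rfl

omit [Finite ι] [Finite ι'] in
theorem pl2_inr (hs : PreWeil.IsCo s i) : pl2_f hs (Sum.inr ()) = i := rfl

theorem pl2_eq (hs : PreWeil.IsCo s i) (a : W.H (pw Y ι')) (x : W.H Y) :
    W.pull (pm Y s) a * W.pull (pj Y i) x = W.pull (pm Y (pl2_f hs))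
      (W.pull (pm Y Sum.inl) a * W.pull (pm Y Sum.inr) (W.pull (pj Y ()) x)) := by
  rw [map_mul, ← W.pull_comp, ← W.pull_comp, ← W.pull_comp, pm_comp, pl2_inl, pm_comp, pm_pj]
  rfl

theorem pl2_ind (hs : PreWeil.IsCo s i) (P : W.H (pw Y ι) → Prop) (h0 : P 0)
    (ht : ∀ (k l : ℕ) (a : W.H (pw Y ι')) (x : W.H Y),
      a ∈ W.gr _ k → x ∈ W.gr _ l → P (W.pull (pm Y s) a * W.pull (pj Y i) x))
    (ha : ∀ a b, P a → P b → P (a + b)) (τ : W.H (pw Y ι)) : P τ := by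
  have h : ∀ R : W.H (pw Y (ι' ⊕ Unit)), P (W.pull (pm Y (pl2_f hs)) R) := by
    intro R
    refine W.ind_sum Y (P := fun R => P (W.pull (pm Y (pl2_f hs)) R)) R (by rwa [map_zero])
      (fun a b => ?_) (fun u v hu hv => by rw [map_add]; exact ha _ _ hu hv)
    obtain ⟨x, rfl⟩ : ∃ x, W.pull (pj Y ()) x = b := by
      refine ⟨W.pull (pwUnit Y).inv b, ?_⟩
      rw [← W.pull_comp]
      have h : pj Y () ≫ (pwUnit Y).inv = 𝟙 _ := (pwUnit Y).hom_inv_id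
      rw [h, W.pull_id]
    rw [← pl2_eq]
    refine W.ind (P := fun a => P (W.pull (pm Y s) a * W.pull (pj Y i) x)) a
      (by rwa [map_zero, zero_mul]) (fun k a hk => ?_)
      (fun u v hu hv => by rw [map_add, add_mul]; exact ha _ _ hu hv)
    exact W.ind (P := fun x => P (W.pull (pm Y s) a * W.pull (pj Y i) x)) x
      (by rwa [map_zero, mul_zero]) (fun l x hl => ht k l a x hk hl)
      (fun u v hu hv => by rw [map_add, mul_add]; exact ha _ _ hu hv)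
  have h1 := h (W.pull (pm Y (pl2_f hs).symm) τ)
  rwa [← W.pull_comp, pm_comp, Equiv.self_comp_symm, pm_id, W.pull_id] at h1

end

theorem tPl2 (h1 : S_Pl1) : S_Pl2 := by
  intro K _ _ 𝒱 _ _ W Y ι ι' _ _ s i hs
  obtain ⟨p1, p2, p3, p4⟩ := h1 K 𝒱 W Y
  refine ⟨fun φ u hu h hh a x => ?_, fun u j h h' hh hh' a x => ?_,
    fun P h0 ht ha τ => pl2_ind W Y hs P h0 ht ha τ⟩
  · rw [pl2_eq W Y hs, pl2_eq W Y hs]
    have e1 := p3 (ι' ⊕ Unit) ι (pl2_f hs) (W.cv Y u) (Sum.inr ()) (plF (Sum.inr ())) h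
      (isPl_plF _) hh (W.pull (pm Y Sum.inl) a * W.pull (pm Y Sum.inr) (W.pull (pj Y ()) x))
    have e2 := p2 ι' Unit (W.cv Y u) (W.cv_mem Y u) () (plF (Sum.inr ())) (plF ())
      (isPl_plF _) (isPl_plF _) a (W.pull (pj Y ()) x)
    rw [p4 φ u hu (plF ()) (isPl_plF _)] at e2
    rw [e2] at e1
    exact e1.symm
  · rw [pl2_eq W Y hs, pl2_eq W Y hs]
    have e1 := p3 (ι' ⊕ Unit) ι (pl2_f hs) u (Sum.inl j) (plF (Sum.inl j)) h
      (isPl_plF _) hh (W.pull (pm Y Sum.inl) a * W.pull (pm Y Sum.inr) (W.pull (pj Y ()) x))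
    have e2 := p1 ι' Unit u j (plF (Sum.inl j)) h' (isPl_plF _) hh' a (W.pull (pj Y ()) x)
    rw [e2] at e1
    exact e1.symm

end Pool.Agent.Lib.MP_4ca46c_ag.Nil
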