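import Pool.Agent.Lib.MP_4ca46c_ag.Nil.SpecI

/-!
# The projection onto the classes which absorb `e`
-/

set_option autoImplicit false

namespace Pool.Agent.Lib.MP_4ca46c_ag.Nil

theorem tPrC (h1 : S_Act) : S_PrC := by
  classical
  intro K _ S e hs he V _ M hM
  have := Fintype.ofFinite V
  obtain ⟨a1, a2, a3, -⟩ := h1 K S e hs he
  have key : ∀ s : Finset V, ∃ π : S.C V →ₗ[K] S.C V, (∀ i ∈ s, ∀ u, S.act e i (π u) = π u) ∧
      (∀ u, (∀ i ∈ s, S.act e i u = u) → π u = u) ∧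
      (∀ n u, S.Abs e n → S.tot V (n * π u) = S.tot V (n * u)) ∧ ∀ u ∈ M, π u ∈ M := by
    intro s
    refine Finset.induction_on s ?_ ?_
    · exact ⟨LinearMap.id, by simp, fun u _ => rfl, fun n u _ => rfl, fun u hu => hu⟩
    · rintro j s - ⟨π, h2, h3, h4, h5⟩
      refine ⟨S.act e j ∘ₗ π, fun i hi u => ?_, fun u hu => ?_, fun n u hn => ?_,
        fun u hu => hM j _ (h5 u hu)⟩
      · rw [LinearMap.comp_apply]
        rcases Finset.mem_insert.1 hi with rfl | hi
        · exact a1 V _ _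
        · rw [a2, h2 i hi]
      · rw [LinearMap.comp_apply, h3 u fun i hi => hu i (Finset.mem_insert_of_mem hi)]
        exact hu j (Finset.mem_insert_self _ _)
      · rw [LinearMap.comp_apply, a3, (S.abs_iff.1 hn) j, h4 n u hn]
  obtain ⟨π, h2, h3, h4, h5⟩ := key Finset.univ
  exact ⟨π, fun u => S.abs_iff.2 fun i => h2 i (Finset.mem_univ i) u,
    fun u hu => h3 u fun i _ => S.abs_iff.1 hu i, h4, h5⟩

end Pool.Agent.Lib.MP_4ca46c_ag.Nil
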