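import Pool.Agent.Lib.MP_4ca46c_ag.Nil.SpecI

/-!
# The system of the `e`-parts of the cohomology of the powers of a generic section
-/

set_option autoImplicit false

open CategoryTheory Limits MonoidalCategory CartesianMonoidalCategory TensorProduct

namespace Pool.Agent.Lib.MP_4ca46c_ag.Nil

open PreWeil

theorem tSysI (h1 : S_EE3) (h2 : S_Mid) (h3 : S_AbE) (h4 : S_AbC) (h5 : S_FourI)
    (h6 : S_NilI) : S_SysI := by
  intro K _ _ 𝒱 _ _ W Y Z r e E hD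
  obtain ⟨m1, m2, m3, m4, -, -, -⟩ := h2 K 𝒱 W Y
  obtain ⟨b1, b2, b3⟩ := h4 K (W.calOf Y) E
  obtain ⟨x1, x2, -⟩ := h1 K 𝒱 W r e E hD
  exact {
    e_mem := x1
    e_symm := x2
    T_equiv := fun {ι κ} _ _ f u hu =>
      (W.mem_TT Y).2 ⟨m1 ι κ f _ hu.1, h3 K (W.calOf Y) ι κ f E u hu.2⟩
    T_one := (W.mem_TT Y).2 ⟨m2, b3⟩
    T_mul := fun {ι κ} _ _ u hu v hv =>
      (W.mem_TT Y).2 ⟨m3 ι κ _ hu.1 _ hv.1, b1 ι κ u v hu.2 hv.2⟩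
    T_comp := fun {ι κ J} _ _ _ u hu v hv =>
      (W.mem_TT Y).2 ⟨m4 ι κ J _ hu.1 _ hv.1, b2 ι κ J u v hu.2 hv.2⟩
    four := h5 K 𝒱 W r e E hD
    nil := fun {ι} _ n hn hg x c hy => h6 K 𝒱 W r e E hD ι n hn hg x c hy }

end Pool.Agent.Lib.MP_4ca46c_ag.Nil
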