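import Pool.Agent.Lib.MP_4ca46c_ag.Nil.AllF
import Pool.Agent.Lib.MP_4ca46c_ag.Nil.AbC
import Pool.Agent.Lib.MP_4ca46c_ag.Nil.AbX
import Pool.Agent.Lib.MP_4ca46c_ag.Nil.ActP
import Pool.Agent.Lib.MP_4ca46c_ag.Nil.AdK
import Pool.Agent.Lib.MP_4ca46c_ag.Nil.Adj
import Pool.Agent.Lib.MP_4ca46c_ag.Nil.CK
import Pool.Agent.Lib.MP_4ca46c_ag.Nil.Cls
import Pool.Agent.Lib.MP_4ca46c_ag.Nil.Dim
import Pool.Agent.Lib.MP_4ca46c_ag.Nil.EE3
import Pool.Agent.Lib.MP_4ca46c_ag.Nil.Eul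
import Pool.Agent.Lib.MP_4ca46c_ag.Nil.ExE
import Pool.Agent.Lib.MP_4ca46c_ag.Nil.FourI
import Pool.Agent.Lib.MP_4ca46c_ag.Nil.GrI
import Pool.Agent.Lib.MP_4ca46c_ag.Nil.Idem
import Pool.Agent.Lib.MP_4ca46c_ag.Nil.Jdl
import Pool.Agent.Lib.MP_4ca46c_ag.Nil.Kap
import Pool.Agent.Lib.MP_4ca46c_ag.Nil.Lef
import Pool.Agent.Lib.MP_4ca46c_ag.Nil.LemS
import Pool.Agent.Lib.MP_4ca46c_ag.Nil.M4
import Pool.Agent.Lib.MP_4ca46c_ag.Nil.MM
import Pool.Agent.Lib.MP_4ca46c_ag.Nil.Mid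
import Pool.Agent.Lib.MP_4ca46c_ag.Nil.NilI
import Pool.Agent.Lib.MP_4ca46c_ag.Nil.One
import Pool.Agent.Lib.MP_4ca46c_ag.Nil.Op2
import Pool.Agent.Lib.MP_4ca46c_ag.Nil.Out
import Pool.Agent.Lib.MP_4ca46c_ag.Nil.Par
import Pool.Agent.Lib.MP_4ca46c_ag.Nil.Phi
import Pool.Agent.Lib.MP_4ca46c_ag.Nil.Pl1
import Pool.Agent.Lib.MP_4ca46c_ag.Nil.Pl2
import Pool.Agent.Lib.MP_4ca46c_ag.Nil.PrC
import Pool.Agent.Lib.MP_4ca46c_ag.Nil.SysI

/-!
# Assembly: generic sections of a nondegenerate Lefschetz pencil, abstract form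

All statements of `Nil/SpecI.lean`. The result is `allMM : S_MM`.
-/

set_option autoImplicit false

namespace Pool.Agent.Lib.MP_4ca46c_ag.Nil

theorem allCls : S_Cls := tCls tCK
theorem allAdK : S_AdK := tAdK tAdj tCK
theorem allJdl : S_Jdl := tJdl tAdj tCK allAdK
theorem allExE : S_ExE := tExE tAdj tCK allAdK allJdl tIdem
theorem allPl2 : S_Pl2 := tPl2 tPl1
theorem allOp2 : S_Op2 := tOp2 tAdj allPl2 tLef
theorem allEE3 : S_EE3 := tEE3 allCls allOp2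
theorem allOne : S_One := tOne allPl2
theorem allPrC : S_PrC := tPrC tAct
theorem allKap : S_Kap := tKap tAdj tCK allAdK allJdl
theorem allPhi : S_Phi := tPhi tAdj tCK allPl2
theorem allLemS : S_LemS := tLemS tAdj tCK allAdK allJdl tLef allKap allPhi
theorem allFourI : S_FourI := tFourI allCls allOne allPrC tAbC tAbE tM4 tMid allEE3 allLemS
theorem allNilI : S_NilI := tNilI allPrC tMid allEE3
theorem allSysI : S_SysI := tSysI allEE3 tMid tAbE tAbC allFourI allNilI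
theorem allEul : S_Eul := tEul allPl2
theorem allGrI : S_GrI := tGrI tAdj tCK allCls allPl2 allOp2 allEul tMid
theorem allDim : S_Dim := tDim tAdj tCK allOp2 tPar
theorem allAbX : S_AbX := tAbX tPl1 allPl2
theorem allOut : S_Out := tOut allSysI allGrI allDim allCls tCK allAbX allFormal allFormal2
theorem allMM : S_MM := tMM tCK allCls allExE allOut

end Pool.Agent.Lib.MP_4ca46c_ag.Nil
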