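import Pool.Agent.Lib.MP_4ca46c_ag.Nil.SpecF

/-!
# The chain of contractions
-/

set_option autoImplicit false

namespace Pool.Agent.Lib.MP_4ca46c_ag.Nil

open Function

variable {K : Type} [Field K]

/-- the contraction against a class `P` -/
theorem chain_contr (h1 : S_Con) (S : Sys K) {J : Type} [Finite J] (ρ : S.C (Fin 2 ⊕ J))
    (P : S.C J) : S.tot J (S.contr ρ * P) =
      S.tot (Fin 2 ⊕ J) (ρ * (S.map Sum.inl S.e * S.map Sum.inr P)) := by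
  have h := (h1 K S J ρ).2.2 J id P
  rw [S.map_id, mul_comm] at h
  rw [h, ← S.tot_equiv (Equiv.sumComm J (Fin 2))]
  simp only [map_mul, S.map_map]
  have e1 : (Equiv.sumComm J (Fin 2) : J ⊕ Fin 2 → Fin 2 ⊕ J) ∘ Sum.inl = Sum.inr := rfl
  have e2 : (Equiv.sumComm J (Fin 2) : J ⊕ Fin 2 → Fin 2 ⊕ J) ∘ Sum.inr = Sum.inl := rfl
  have e3 : (Equiv.sumComm J (Fin 2) : J ⊕ Fin 2 → Fin 2 ⊕ J) ∘
      Sum.elim Sum.inr (Sum.inl ∘ id) = id := by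
    ext x
    rcases x with x | x <;> rfl
  rw [e1, e2, e3, S.map_id]
  congr 1
  ring

/-- the square of the contraction -/
theorem chain_sq [CharZero K] (h2 : S_Rel) (S : Sys K) (w : S.C (Fin 2)) (hw : S.IsGrad w)
    (hw0 : w ≠ 0) {J : Type} [Fintype J] (ρ : S.C (Fin 2 ⊕ J)) (hρ : ρ ∈ S.T (Fin 2 ⊕ J))
    (hs : S.Sym ρ)
    (h : (S.delta + Fintype.card J) * S.tot (Fin 2 ⊕ J) (ρ * ρ) = 0) :
    S.tot J (S.contr ρ * S.contr ρ) = 0 := by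
  have h3 := h2 K S w hw hw0 J ρ hρ hs
  rw [h] at h3
  refine (mul_eq_zero.1 h3).resolve_left ?_
  exact_mod_cast Nat.succ_ne_zero (Fintype.card J)

theorem chain_A [CharZero K] (h1 : S_Con) (h2 : S_Rel) (S : Sys K) (w : S.C (Fin 2))
    (hw : S.IsGrad w) (hw0 : w ≠ 0) : ∀ (r : ℕ) (ρ : S.C (JJ r)), ρ ∈ S.T (JJ r) → S.Sym ρ →
      S.tot (JJ r) (ρ * ρ) = 0 → S.tot (JJ r) (ρ * S.EE r) = 0
  | 0 => by
    change ∀ ρ : S.C Empty, ρ ∈ S.T Empty → S.Sym ρ → S.tot Empty (ρ * ρ) = 0 →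
      S.tot Empty (ρ * (1 : S.C Empty)) = 0
    intro ρ _ _ h
    have hc := S.const ρ
    rw [mul_one]
    have h3 : S.tot Empty (ρ * ρ) = S.tot Empty ρ * S.tot Empty ρ := by
      conv_lhs => rw [hc]
      rw [← map_mul, Algebra.algebraMap_eq_smul_one, map_smul, S.tot_one, smul_eq_mul, mul_one]
    rw [h3] at h
    exact mul_self_eq_zero.1 h
  | (r + 1) => by
    change ∀ ρ : S.C (Fin 2 ⊕ JJ r), ρ ∈ S.T (Fin 2 ⊕ JJ r) → S.Sym ρ →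
      S.tot (Fin 2 ⊕ JJ r) (ρ * ρ) = 0 →
      S.tot (Fin 2 ⊕ JJ r) (ρ * (S.map Sum.inl S.e * S.map Sum.inr (S.EE r))) = 0
    intro ρ hρ hs h
    have h3 : S.tot (JJ r) (S.contr ρ * S.contr ρ) = 0 := by
      refine chain_sq h2 S w hw hw0 ρ hρ hs ?_
      rw [h, mul_zero]
    have h5 := chain_A h1 h2 S w hw hw0 r (S.contr ρ)
      ((h1 K S (JJ r) ρ).1 hρ) ((h1 K S (JJ r) ρ).2.1 hs) h3
    rw [chain_contr h1 S] at h5
    exact h5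

theorem tChain (h1 : S_Con) (h2 : S_Rel) : S_Chain := by
  intro K _ _ S w hw hw0 m hδ
  change ∀ ρ : S.C (Fin 2 ⊕ JJ m), ρ ∈ S.T (Fin 2 ⊕ JJ m) → S.Sym ρ →
    S.tot (Fin 2 ⊕ JJ m) (ρ * (S.map Sum.inl S.e * S.map Sum.inr (S.EE m))) = 0
  intro ρ hρ hs
  have h3 : S.tot (JJ m) (S.contr ρ * S.contr ρ) = 0 := by
    refine chain_sq h2 S w hw hw0 ρ hρ hs ?_
    rw [hδ, card_JJ]
    push_cast
    ring
  have h5 := chain_A h1 h2 S w hw hw0 m (S.contr ρ)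
    ((h1 K S (JJ m) ρ).1 hρ) ((h1 K S (JJ m) ρ).2.1 hs) h3
  rw [chain_contr h1 S] at h5
  exact h5

end Pool.Agent.Lib.MP_4ca46c_ag.Nil
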