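import Pool.Agent.Lib.MP_4ca46c_ag.Nil.SpecD
import Pool.Agent.Lib.MP_4ca46c_ag.Nil.Chain

/-!
# The chain of contractions for two columns
-/

set_option autoImplicit false

namespace Pool.Agent.Lib.MP_4ca46c_ag.Nil

open Function

variable {K : Type} [Field K]

theorem chain2_ncol_step {J : Type} [Fintype J] (c : J → Bool) (b : Bool) :
    ncol (colS c) b = ncol c b + 1 := by
  unfold ncol
  rw [Finset.card_filter, Finset.card_filter, Fintype.sum_sum_type, Fin.sum_univ_two, add_comm]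
  cases b <;> simp only [colS, Sum.elim_inl, Sum.elim_inr] <;> simp only [Matrix.cons_val_zero,
    Matrix.cons_val_one, if_true, Bool.true_eq_false, Bool.false_eq_true, if_false, add_zero,
    zero_add] <;> rfl

theorem chain2_ncol : ∀ (r : ℕ) (b : Bool), ncol (colJ r) b = r
  | 0, b => by
    change ncol (Empty.elim : Empty → Bool) b = 0
    rfl
  | (r + 1), b => by
    change ncol (colS (colJ r)) b = r + 1
    rw [chain2_ncol_step, chain2_ncol r b]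

/-- the square of the contraction -/
theorem chain2_sq [CharZero K] (h2 : S_Rel2) (S : Sys K) (w : S.C (Fin 2)) (hw : S.IsGrad w)
    (hw0 : w ≠ 0) (r : ℕ) (ρ : S.C (Fin 2 ⊕ JJ r)) (hρ : ρ ∈ S.T (Fin 2 ⊕ JJ r))
    (hs : S.Two (colS (colJ r)) ρ)
    (h : (S.delta - r) * S.tot (Fin 2 ⊕ JJ r) (ρ * ρ) = 0) :
    S.tot (JJ r) (S.contr ρ * S.contr ρ) = 0 := by
  have h3 := h2 K S w hw hw0 (JJ r) (colJ r) (by rw [chain2_ncol, chain2_ncol]) ρ hρ hs
  rw [chain2_ncol, h] at h3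
  refine (mul_eq_zero.1 h3).resolve_left ?_
  exact_mod_cast Nat.succ_ne_zero r

theorem chain2_A [CharZero K] (h1 : S_Con) (hc : S_Con2) (h2 : S_Rel2) (S : Sys K)
    (w : S.C (Fin 2)) (hw : S.IsGrad w) (hw0 : w ≠ 0) : ∀ (r : ℕ) (ρ : S.C (JJ r)),
      ρ ∈ S.T (JJ r) → S.Two (colJ r) ρ →
      S.tot (JJ r) (ρ * ρ) = 0 → S.tot (JJ r) (ρ * S.EE r) = 0
  | 0 => by
    change ∀ ρ : S.C Empty, ρ ∈ S.T Empty → S.Two (Empty.elim : Empty → Bool) ρ →
      S.tot Empty (ρ * ρ) = 0 → S.tot Empty (ρ * (1 : S.C Empty)) = 0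
    intro ρ _ _ h
    have hc := S.const ρ
    rw [mul_one]
    have h3 : S.tot Empty (ρ * ρ) = S.tot Empty ρ * S.tot Empty ρ := by
      conv_lhs => rw [hc]
      rw [← map_mul, Algebra.algebraMap_eq_smul_one, map_smul, S.tot_one, smul_eq_mul, mul_one]
    rw [h3] at h
    exact mul_self_eq_zero.1 h
  | (r + 1) => by
    change ∀ ρ : S.C (Fin 2 ⊕ JJ r), ρ ∈ S.T (Fin 2 ⊕ JJ r) → S.Two (colS (colJ r)) ρ →
      S.tot (Fin 2 ⊕ JJ r) (ρ * ρ) = 0 →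
      S.tot (Fin 2 ⊕ JJ r) (ρ * (S.map Sum.inl S.e * S.map Sum.inr (S.EE r))) = 0
    intro ρ hρ hs h
    have h3 : S.tot (JJ r) (S.contr ρ * S.contr ρ) = 0 := by
      refine chain2_sq h2 S w hw hw0 r ρ hρ hs ?_
      rw [h, mul_zero]
    have h5 := chain2_A h1 hc h2 S w hw hw0 r (S.contr ρ)
      ((h1 K S (JJ r) ρ).1 hρ) (hc K S (JJ r) (colJ r) ρ hs) h3
    rw [chain_contr h1 S] at h5
    exact h5

theorem tChain2 (h1 : S_Con) (hc : S_Con2) (h2 : S_Rel2) : S_Chain2 := by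
  intro K _ _ S w hw hw0 n hδ
  change ∀ ρ : S.C (Fin 2 ⊕ JJ n), ρ ∈ S.T (Fin 2 ⊕ JJ n) → S.Two (colS (colJ n)) ρ →
    S.tot (Fin 2 ⊕ JJ n) (ρ * (S.map Sum.inl S.e * S.map Sum.inr (S.EE n))) = 0
  intro ρ hρ hs
  have h3 : S.tot (JJ n) (S.contr ρ * S.contr ρ) = 0 := by
    refine chain2_sq h2 S w hw hw0 n ρ hρ hs ?_
    rw [hδ, sub_self, zero_mul]
  have h5 := chain2_A h1 hc h2 S w hw hw0 n (S.contr ρ)
    ((h1 K S (JJ n) ρ).1 hρ) (hc K S (JJ n) (colJ n) ρ hs) h3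
  rw [chain_contr h1 S] at h5
  exact h5

end Pool.Agent.Lib.MP_4ca46c_ag.Nil
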