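import Pool.Agent.Lib.MP_4ca46c_ag.Nil.SpecD

/-!
# Contraction and two columns
-/

set_option autoImplicit false

namespace Pool.Agent.Lib.MP_4ca46c_ag.Nil

variable {K : Type} [Field K] (S : Sys K)

/-- the contraction as a linear map -/
noncomputable def con2_L (J : Type) [Finite J] : S.C (Fin 2 ⊕ J) →ₗ[K] S.C J :=
  (S.int J (Fin 2)).comp ((LinearMap.mulRight K (S.map Sum.inr S.e)).comp
    (S.map (Sum.swap : Fin 2 ⊕ J → J ⊕ Fin 2)).toLinearMap)

theorem con2_L_eq (J : Type) [Finite J] (u : S.C (Fin 2 ⊕ J)) : S.contr u = con2_L S J u := rfl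

theorem con2_neg {J : Type} [Finite J] (u : S.C (Fin 2 ⊕ J)) : S.contr (-u) = -S.contr u := by
  rw [con2_L_eq, con2_L_eq, map_neg]

theorem con2_sum {J : Type} [Finite J] {A : Type} (s : Finset A) (u : A → S.C (Fin 2 ⊕ J)) :
    S.contr (∑ a ∈ s, u a) = ∑ a ∈ s, S.contr (u a) := by
  rw [con2_L_eq, map_sum]
  rfl

theorem con2_map {J : Type} [Finite J] (σ : Equiv.Perm J) (u : S.C (Fin 2 ⊕ J)) :
    S.map σ (S.contr u) = S.contr (S.map (Sum.map id σ) u) := by
  unfold Sys.contr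
  rw [S.map_int]
  congr 1
  simp only [map_mul, S.map_map]
  have h1 : Sum.map (σ : J → J) (id : Fin 2 → Fin 2) ∘ (Sum.swap : Fin 2 ⊕ J → J ⊕ Fin 2) =
      Sum.swap ∘ (Sum.map id σ : Fin 2 ⊕ J → Fin 2 ⊕ J) := by
    funext i
    rcases i with i | i <;> rfl
  have h2 : Sum.map (σ : J → J) (id : Fin 2 → Fin 2) ∘ Sum.inr = Sum.inr := rfl
  rw [h1, h2]

theorem con2_swapmap {J : Type} [DecidableEq J] (x y : J) :
    (Sum.map id (Equiv.swap x y) : Fin 2 ⊕ J → Fin 2 ⊕ J) =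
      Equiv.swap (Sum.inr x : Fin 2 ⊕ J) (Sum.inr y) := by
  funext i
  rcases i with i | i
  · rw [Equiv.swap_apply_of_ne_of_ne (by simp) (by simp)]
    rfl
  · by_cases h1 : i = x
    · subst h1
      rw [Equiv.swap_apply_left]
      show Sum.inr (Equiv.swap i y i) = _
      rw [Equiv.swap_apply_left]
    · by_cases h2 : i = y
      · subst h2
        rw [Equiv.swap_apply_right]
        show Sum.inr (Equiv.swap x i i) = _
        rw [Equiv.swap_apply_right]
      · rw [Equiv.swap_apply_of_ne_of_ne (by simpa using h1) (by simpa using h2)]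
        show Sum.inr (Equiv.swap x y i) = _
        rw [Equiv.swap_apply_of_ne_of_ne h1 h2]

/-- the contraction does not change if the first two variables are exchanged -/
theorem con2_symm {J : Type} [Finite J] [DecidableEq J] (u : S.C (Fin 2 ⊕ J)) :
    S.contr (S.map (Equiv.swap (Sum.inl 0 : Fin 2 ⊕ J) (Sum.inl 1)) u) = S.contr u := by
  refine S.ext_tot fun w => ?_
  unfold Sys.contr
  rw [S.sub_id, S.sub_id]
  rw [← S.tot_equiv (Equiv.sumCongr (Equiv.refl J) (Equiv.swap (0 : Fin 2) 1))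
    (S.map Sum.inl w * (S.map (Sum.swap : Fin 2 ⊕ J → J ⊕ Fin 2) u * S.map Sum.inr S.e))]
  congr 1
  simp only [map_mul, S.map_map]
  have h1 : ((Equiv.sumCongr (Equiv.refl J) (Equiv.swap (0 : Fin 2) 1)) : J ⊕ Fin 2 → J ⊕ Fin 2) ∘
      Sum.inl = Sum.inl := rfl
  have h2 : ((Equiv.sumCongr (Equiv.refl J) (Equiv.swap (0 : Fin 2) 1)) : J ⊕ Fin 2 → J ⊕ Fin 2) ∘
      (Sum.swap : Fin 2 ⊕ J → J ⊕ Fin 2) =
      Sum.swap ∘ (Equiv.swap (Sum.inl 0 : Fin 2 ⊕ J) (Sum.inl 1)) := by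
    funext i
    rcases i with i | i
    · fin_cases i
      · show Sum.inr (Equiv.swap (0 : Fin 2) 1 0) = Sum.swap (Equiv.swap (Sum.inl 0) (Sum.inl 1)
          (Sum.inl 0))
        rw [Equiv.swap_apply_left, Equiv.swap_apply_left]
        rfl
      · show Sum.inr (Equiv.swap (0 : Fin 2) 1 1) = Sum.swap (Equiv.swap (Sum.inl 0) (Sum.inl 1)
          (Sum.inl 1))
        rw [Equiv.swap_apply_right, Equiv.swap_apply_right]
        rfl
    · show Sum.inl i = Sum.swap (Equiv.swap (Sum.inl 0) (Sum.inl 1) (Sum.inr i))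
      rw [Equiv.swap_apply_of_ne_of_ne (by simp) (by simp)]
      rfl
  have h3 : ((Equiv.sumCongr (Equiv.refl J) (Equiv.swap (0 : Fin 2) 1)) : J ⊕ Fin 2 → J ⊕ Fin 2) ∘
      Sum.inr = Sum.inr ∘ (![1, 0] : Fin 2 → Fin 2) := by
    funext i
    fin_cases i
    · show Sum.inr (Equiv.swap (0 : Fin 2) 1 0) = Sum.inr 1
      rw [Equiv.swap_apply_left]
    · show Sum.inr (Equiv.swap (0 : Fin 2) 1 1) = Sum.inr 0
      rw [Equiv.swap_apply_right]
  rw [h1, h2, h3, ← S.map_map (![1, 0] : Fin 2 → Fin 2), S.e_symm]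

/-- exchanging `inl 0` with a variable of the other column gives contraction zero -/
theorem con2_zero [CharZero K] {J : Type} [Fintype J] [DecidableEq J] {c : J → Bool}
    {ρ : S.C (Fin 2 ⊕ J)} (h : S.Two (colS c) ρ) (j : J) (hj : c j = true) :
    S.contr (S.map (Equiv.swap (Sum.inl 0 : Fin 2 ⊕ J) (Sum.inr j)) ρ) = 0 := by
  set u := S.map (Equiv.swap (Sum.inl 0 : Fin 2 ⊕ J) (Sum.inr j)) ρ with hu
  have h1 : S.map (Equiv.swap (Sum.inl 0 : Fin 2 ⊕ J) (Sum.inl 1)) u = -u := by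
    have h2 := h.alt (Sum.inl 1) (Sum.inr j) (by simp) (by
      show true = c j
      exact hj.symm)
    rw [hu, S.map_map]
    have h3 : (Equiv.swap (Sum.inl 0 : Fin 2 ⊕ J) (Sum.inl 1) : Fin 2 ⊕ J → Fin 2 ⊕ J) ∘
        (Equiv.swap (Sum.inl 0 : Fin 2 ⊕ J) (Sum.inr j)) =
        (Equiv.swap (Sum.inl 0 : Fin 2 ⊕ J) (Sum.inr j)) ∘
          (Equiv.swap (Sum.inl 1 : Fin 2 ⊕ J) (Sum.inr j)) := by
      have h4 := Equiv.mul_swap_eq_swap_mul (Equiv.swap (Sum.inl 0 : Fin 2 ⊕ J) (Sum.inr j))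
        (Sum.inl 1) (Sum.inr j)
      rw [Equiv.swap_apply_right, Equiv.swap_apply_of_ne_of_ne (by simp) (by simp),
        Equiv.swap_comm (Sum.inl 1 : Fin 2 ⊕ J) (Sum.inl 0)] at h4
      funext x
      have h5 := congrArg (fun p : Equiv.Perm (Fin 2 ⊕ J) => p x) h4
      exact h5.symm
    rw [h3, ← S.map_map, h2, map_neg]
  have h2 := con2_symm S u
  rw [h1, con2_neg] at h2
  have h3 : (2 : K) • S.contr u = 0 := by
    rw [two_smul]
    nth_rewrite 1 [← h2]
    exact neg_add_cancel _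
  exact (smul_eq_zero.1 h3).resolve_left two_ne_zero

theorem tCon2 : S_Con2 := by
  intro K _ _ S J _ c ρ h
  refine ⟨?_, ?_⟩
  · intro _ x y hxy hc
    rw [con2_map, con2_swapmap, h.alt (Sum.inr x) (Sum.inr y) (by simpa using hxy) hc, con2_neg]
  · intro _ b hb
    have h1 := congrArg S.contr (h.garnir (Sum.inr b) hb)
    rw [con2_sum, Finset.sum_filter, Fintype.sum_sum_type, Fin.sum_univ_two] at h1
    have e0 : colS c (Sum.inl 0) = false := rfl
    have e1 : colS c (Sum.inl 1) = true := rfl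
    rw [if_pos e0, if_neg (by rw [e1]; simp), con2_zero S h b hb, zero_add, zero_add] at h1
    rw [Finset.sum_filter]
    refine Eq.trans (Finset.sum_congr rfl fun x _ => ?_) h1
    rw [con2_map, con2_swapmap]
    rfl

end Pool.Agent.Lib.MP_4ca46c_ag.Nil
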