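import Pool.Agent.Lib.MP_4ca46c_ag.Nil.SpecF

/-!
# The contraction

The contraction of two variables with `e` preserves the algebraic classes and the symmetry.
-/

set_option autoImplicit false

namespace Pool.Agent.Lib.MP_4ca46c_ag.Nil

/-- **The contraction.** -/
theorem tCon : S_Con := by
  intro K _ S J _ τ
  refine ⟨?_, ?_, ?_⟩
  · intro hτ
    have hu : S.map (Sum.swap : Fin 2 ⊕ J → J ⊕ Fin 2) τ ∈ S.T (J ⊕ Fin 2) :=
      S.T_equiv (Equiv.sumComm (Fin 2) J) τ hτ
    have hv : S.map (Sum.inr : Fin 2 → Empty ⊕ Fin 2) S.e ∈ S.T (Empty ⊕ Fin 2) :=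
      S.T_equiv (Equiv.emptySum Empty (Fin 2)).symm S.e S.e_mem
    have h := S.T_comp _ hu _ hv
    have h2 := S.T_equiv (Equiv.sumEmpty J Empty) _ h
    have h3 : S.map (Equiv.sumEmpty J Empty) (S.int (J ⊕ Empty) (Fin 2)
        (S.map (Sum.map Sum.inl id) (S.map (Sum.swap : Fin 2 ⊕ J → J ⊕ Fin 2) τ) *
          S.map (Sum.map Sum.inr id) (S.map (Sum.inr : Fin 2 → Empty ⊕ Fin 2) S.e))) =
        S.contr τ := by
      rw [S.map_int]
      unfold Sys.contr
      congr 1
      simp only [map_mul, S.map_map]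
      congr 2
      · congr 1
        funext i
        rcases i with i | i <;> rfl
    rwa [h3] at h2
  · intro hs σ
    unfold Sys.contr
    rw [S.map_int]
    congr 1
    simp only [map_mul, S.map_map]
    have h1 : Sum.map (σ : J → J) (id : Fin 2 → Fin 2) ∘ (Sum.swap : Fin 2 ⊕ J → J ⊕ Fin 2) =
        Sum.swap ∘ (Equiv.sumCongr (Equiv.refl (Fin 2)) σ : Equiv.Perm (Fin 2 ⊕ J)) := by
      funext i
      rcases i with i | i <;> rfl
    have h2 : Sum.map (σ : J → J) (id : Fin 2 → Fin 2) ∘ Sum.inr = Sum.inr := rfl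
    rw [h1, h2, ← S.map_map, hs]
  · intro V _ f P
    unfold Sys.contr
    rw [S.sub]
    congr 2
    simp only [map_mul, S.map_map]
    have h1 : Sum.map f (id : Fin 2 → Fin 2) ∘ (Sum.swap : Fin 2 ⊕ J → J ⊕ Fin 2) =
        Sum.elim Sum.inr (Sum.inl ∘ f) := by
      funext i
      rcases i with i | i <;> rfl
    have h2 : Sum.map f (id : Fin 2 → Fin 2) ∘ Sum.inr = Sum.inr := rfl
    rw [h1, h2]

end Pool.Agent.Lib.MP_4ca46c_ag.Nil
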