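import Pool.Agent.Lib.MP_4ca46c_ag.Nil.SpecF

set_option autoImplicit false

namespace Pool.Agent.Lib.MP_4ca46c_ag.Nil

section dia

variable {K : Type} [Field K] (S : Sys K)

theorem dia_mul {V W : Type} [Finite V] [Finite W] (f : V → W) (u v : S.C V) :
    S.map f (u * v) = S.map f u * S.map f v := map_mul _ _ _

theorem dia_pair {V W : Type} [Finite V] [Finite W] (a b : V) (f : V → W) (u : S.C (Fin 2)) :
    S.map f (S.map ![a, b] u) = S.map ![f a, f b] u := by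
  rw [S.map_map]
  have h : f ∘ ![a, b] = ![f a, f b] := by
    funext i
    fin_cases i <;> rfl
  rw [h]

theorem dia_symm {V : Type} [Finite V] (a b : V) : S.map ![a, b] S.e = S.map ![b, a] S.e := by
  have h := dia_pair S (1 : Fin 2) 0 ![a, b] S.e
  rw [S.e_symm] at h
  exact h

theorem dia_id (u : S.C (Fin 2)) : S.map ![0, 1] u = u := by
  have h : (![0, 1] : Fin 2 → Fin 2) = id := by
    funext i
    fin_cases i <;> rfl
  rw [h, S.map_id]

/-- the circle with four points -/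
theorem dia_cyc4 : S.tot (Fin 4) (S.map ![0, 1] S.e * S.map ![1, 2] S.e * (S.map ![2, 3] S.e *
    S.map ![3, 0] S.e)) = S.delta := by
  have h := S.elimF (S.abs _ S.e_mem) (3 : Fin 4) (S.map ![0, 1] S.e * S.map ![1, 2] S.e)
    ![2, 0] ![3, 0] 0 rfl (by decide)
  rw [dia_mul, dia_pair, dia_pair] at h
  have h' := S.elimF (S.abs _ S.e_mem) (2 : Fin 3) (S.map ![0, 1] S.e)
    ![1, 0] ![2, 0] 0 rfl (by decide)
  rw [dia_pair] at h'
  have h1 : ((3 : Fin 4).succAbove 0 : Fin 4) = 0 := rfl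
  have h2 : ((3 : Fin 4).succAbove 1 : Fin 4) = 1 := rfl
  have h3 : ((3 : Fin 4).succAbove 2 : Fin 4) = 2 := rfl
  have h4 : ((2 : Fin 3).succAbove 0 : Fin 3) = 0 := rfl
  have h5 : ((2 : Fin 3).succAbove 1 : Fin 3) = 1 := rfl
  simp only [Matrix.cons_val_zero, h1, h2, h3] at h
  simp only [Matrix.cons_val_zero, h4, h5] at h'
  rw [h, mul_assoc, h', dia_id, S.e_symm]
  rfl

/-- the circle with four points, in any order -/
theorem dia_cyc {V : Type} [Finite V] (f : Fin 4 ≃ V) :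
    S.tot V (S.map ![f 0, f 1] S.e * S.map ![f 1, f 2] S.e * (S.map ![f 2, f 3] S.e *
      S.map ![f 3, f 0] S.e)) = S.delta := by
  rw [← dia_cyc4 S, ← S.tot_equiv f]
  simp only [dia_mul, dia_pair]

/-- two circles with two points -/
theorem dia_two {V : Type} [Finite V] (f : Fin 2 ⊕ Fin 2 ≃ V) :
    S.tot V (S.map ![f (Sum.inl 0), f (Sum.inl 1)] S.e * S.map ![f (Sum.inl 0), f (Sum.inl 1)] S.e *
      (S.map ![f (Sum.inr 0), f (Sum.inr 1)] S.e * S.map ![f (Sum.inr 0), f (Sum.inr 1)] S.e)) =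
      S.delta ^ 2 := by
  have h := S.tot_mul (S.e * S.e) (S.e * S.e)
  rw [← S.tot_equiv f, dia_mul, S.map_map, S.map_map] at h
  have h1 : (f ∘ Sum.inl : Fin 2 → V) = ![f (Sum.inl 0), f (Sum.inl 1)] := by
    funext i
    fin_cases i <;> rfl
  have h2 : (f ∘ Sum.inr : Fin 2 → V) = ![f (Sum.inr 0), f (Sum.inr 1)] := by
    funext i
    fin_cases i <;> rfl
  rw [h1, h2, dia_mul, dia_mul] at h
  rw [h, sq]
  rfl

end dia

theorem tDia : S_Dia := by
  intro K _ S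
  have hT : S.map Sum.inl S.e * S.map Sum.inr S.e ∈ S.T (Fin 2 ⊕ Fin 2) :=
    S.T_mul _ S.e_mem _ S.e_mem
  have key : ∀ f : Fin 2 ⊕ Fin 2 ≃ Fin 4, S.map ![f (Sum.inl 0), f (Sum.inl 1)] S.e *
      S.map ![f (Sum.inr 0), f (Sum.inr 1)] S.e ∈ S.T (Fin 4) := by
    intro f
    have h := S.T_equiv f _ hT
    rw [dia_mul, S.map_map, S.map_map] at h
    have h1 : (f ∘ Sum.inl : Fin 2 → Fin 4) = ![f (Sum.inl 0), f (Sum.inl 1)] := by
      funext i
      fin_cases i <;> rfl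
    have h2 : (f ∘ Sum.inr : Fin 2 → Fin 4) = ![f (Sum.inr 0), f (Sum.inr 1)] := by
      funext i
      fin_cases i <;> rfl
    rwa [h1, h2] at h
  let f1 : Fin 2 ⊕ Fin 2 ≃ Fin 4 := Equiv.ofBijective (Sum.elim ![0, 1] ![2, 3]) (by decide)
  let f2 : Fin 2 ⊕ Fin 2 ≃ Fin 4 := Equiv.ofBijective (Sum.elim ![0, 2] ![1, 3]) (by decide)
  let f3 : Fin 2 ⊕ Fin 2 ≃ Fin 4 := Equiv.ofBijective (Sum.elim ![0, 3] ![1, 2]) (by decide)
  let g12 : Fin 4 ≃ Fin 4 := Equiv.ofBijective ![0, 1, 3, 2] (by decide)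
  let g23 : Fin 4 ≃ Fin 4 := Equiv.ofBijective ![0, 2, 1, 3] (by decide)
  have m1 : S.M1 ∈ S.T (Fin 4) := key f1
  have m2 : S.M2 ∈ S.T (Fin 4) := key f2
  have m3 : S.M3 ∈ S.T (Fin 4) := key f3
  have d11 : S.tot (Fin 4) (S.M1 * S.M1) = S.delta ^ 2 := by
    have h : S.tot (Fin 4) (S.map ![0, 1] S.e * S.map ![0, 1] S.e *
      (S.map ![2, 3] S.e * S.map ![2, 3] S.e)) = S.delta ^ 2 := dia_two S f1
    rw [← h]
    simp only [Sys.M1]
    congr 1
    ring
  have d22 : S.tot (Fin 4) (S.M2 * S.M2) = S.delta ^ 2 := by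
    have h : S.tot (Fin 4) (S.map ![0, 2] S.e * S.map ![0, 2] S.e *
      (S.map ![1, 3] S.e * S.map ![1, 3] S.e)) = S.delta ^ 2 := dia_two S f2
    rw [← h]
    simp only [Sys.M2]
    congr 1
    ring
  have d12 : S.tot (Fin 4) (S.M1 * S.M2) = S.delta := by
    have h : S.tot (Fin 4) (S.map ![0, 1] S.e * S.map ![1, 3] S.e * (S.map ![3, 2] S.e *
      S.map ![2, 0] S.e)) = S.delta := dia_cyc S g12
    rw [← h, dia_symm S (3 : Fin 4) 2, dia_symm S (2 : Fin 4) 0]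
    simp only [Sys.M1, Sys.M2]
    congr 1
    ring
  have d13 : S.tot (Fin 4) (S.M1 * S.M3) = S.delta := by
    have h := dia_cyc4 S
    rw [dia_symm S (3 : Fin 4) 0] at h
    rw [← h]
    simp only [Sys.M1, Sys.M3]
    congr 1
    ring
  have d23 : S.tot (Fin 4) (S.M2 * S.M3) = S.delta := by
    have h : S.tot (Fin 4) (S.map ![0, 2] S.e * S.map ![2, 1] S.e * (S.map ![1, 3] S.e *
      S.map ![3, 0] S.e)) = S.delta := dia_cyc S g23
    rw [dia_symm S (2 : Fin 4) 1, dia_symm S (3 : Fin 4) 0] at h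
    rw [← h]
    simp only [Sys.M2, Sys.M3]
    congr 1
    ring
  exact ⟨m1, m2, m3, d11, d12, d13, by rw [mul_comm]; exact d12, d22, d23⟩

end Pool.Agent.Lib.MP_4ca46c_ag.Nil
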