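import Pool.Agent.Lib.MP_4ca46c_ag.Nil.SpecF

/-!
# `EE` and `EF`

The class `EE r` on the pairs of `JJ r` is transported to `EF r` by a bijection of `JJ r` with
two copies of `Fin r`.
-/

set_option autoImplicit false

namespace Pool.Agent.Lib.MP_4ca46c_ag.Nil

/-- `EE r` is in `T (JJ r)` -/
theorem eE_mem {K : Type} [Field K] (S : Sys K) (r : ℕ) : S.EE r ∈ S.T (JJ r) := by
  induction r with
  | zero => exact S.T_one
  | succ r ih => exact S.T_mul S.e S.e_mem (S.EE r) ih

/-- the next bijection, as a function -/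
def eE_fun {J : Type} {r : ℕ} (φ : J → Fin r ⊕ Fin r) : Fin 2 ⊕ J → Fin (r + 1) ⊕ Fin (r + 1) :=
  Sum.elim ![Sum.inl 0, Sum.inr 0] (Sum.map Fin.succ Fin.succ ∘ φ)

theorem eE_map_succ_ne_inl {r : ℕ} (c : Fin r ⊕ Fin r) :
    Sum.map Fin.succ Fin.succ c ≠ (Sum.inl 0 : Fin (r + 1) ⊕ Fin (r + 1)) := by
  rcases c with c | c
  · intro h
    exact Fin.succ_ne_zero c (Sum.inl_injective h)
  · intro h
    exact Sum.inr_ne_inl h

theorem eE_map_succ_ne_inr {r : ℕ} (c : Fin r ⊕ Fin r) :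
    Sum.map Fin.succ Fin.succ c ≠ (Sum.inr 0 : Fin (r + 1) ⊕ Fin (r + 1)) := by
  rcases c with c | c
  · intro h
    exact Sum.inl_ne_inr h
  · intro h
    exact Fin.succ_ne_zero c (Sum.inr_injective h)

theorem eE_bij {J : Type} {r : ℕ} (φ : J ≃ Fin r ⊕ Fin r) :
    Function.Bijective (eE_fun (φ : J → Fin r ⊕ Fin r)) := by
  constructor
  · rintro (a | a) (b | b) h
    · fin_cases a <;> fin_cases b
      · rfl
      · exact absurd h Sum.inl_ne_inr
      · exact absurd h Sum.inr_ne_inl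
      · rfl
    · fin_cases a
      · exact absurd h.symm (eE_map_succ_ne_inl (φ b))
      · exact absurd h.symm (eE_map_succ_ne_inr (φ b))
    · fin_cases b
      · exact absurd h (eE_map_succ_ne_inl (φ a))
      · exact absurd h (eE_map_succ_ne_inr (φ a))
    · have hinj : Function.Injective
          (Sum.map Fin.succ Fin.succ : Fin r ⊕ Fin r → Fin (r + 1) ⊕ Fin (r + 1)) :=
        Sum.map_injective.2 ⟨Fin.succ_injective r, Fin.succ_injective r⟩
      exact congrArg Sum.inr (φ.injective (hinj h))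
  · rintro (c | c)
    · refine Fin.cases ?_ (fun i => ?_) c
      · exact ⟨Sum.inl 0, rfl⟩
      · refine ⟨Sum.inr (φ.symm (Sum.inl i)), ?_⟩
        change Sum.map Fin.succ Fin.succ (φ (φ.symm (Sum.inl i))) = _
        rw [Equiv.apply_symm_apply]
        rfl
    · refine Fin.cases ?_ (fun i => ?_) c
      · exact ⟨Sum.inl 1, rfl⟩
      · refine ⟨Sum.inr (φ.symm (Sum.inr i)), ?_⟩
        change Sum.map Fin.succ Fin.succ (φ (φ.symm (Sum.inr i))) = _
        rw [Equiv.apply_symm_apply]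
        rfl

/-- the product `EF (r + 1)` -/
theorem eE_EF_succ {K : Type} [Field K] (S : Sys K) (r : ℕ) :
    S.EF (r + 1) = S.map ![Sum.inl 0, Sum.inr 0] S.e *
      S.map (Sum.map Fin.succ Fin.succ) (S.EF r) := by
  unfold Sys.EF
  rw [Fin.prod_univ_succ, map_prod]
  congr 1
  refine Finset.prod_congr rfl fun i _ => ?_
  rw [S.map_map]
  congr 2
  funext j
  fin_cases j <;> rfl

/-- transport of a product -/
theorem eE_step {K : Type} [Field K] (S : Sys K) {J : Type} [Finite J] {r : ℕ}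
    (φ : J → Fin r ⊕ Fin r) (u : S.C J) (h : S.map φ u = S.EF r) :
    S.map (eE_fun φ) (S.map Sum.inl S.e * S.map Sum.inr u) = S.EF (r + 1) := by
  rw [eE_EF_succ, map_mul, S.map_map, S.map_map, ← h, S.map_map]
  congr 1

theorem eE_ex {K : Type} [Field K] (S : Sys K) (r : ℕ) :
    ∃ φ : JJ r ≃ Fin r ⊕ Fin r, S.map φ (S.EE r) = S.EF r := by
  induction r with
  | zero =>
    refine ⟨⟨fun x => x.elim, fun x => Sum.elim (fun i => i.elim0) (fun i => i.elim0) x,
      fun x => x.elim, fun x => ?_⟩, ?_⟩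
    · rcases x with i | i <;> exact i.elim0
    · have h1 : S.EE 0 = (1 : S.C Empty) := rfl
      have h2 : S.EF 0 = 1 := by
        unfold Sys.EF
        exact Fintype.prod_empty _
      rw [h2]
      exact map_one _
  | succ r ih =>
    obtain ⟨φ, hφ⟩ := ih
    exact ⟨Equiv.ofBijective _ (eE_bij φ), eE_step S φ (S.EE r) hφ⟩

theorem tEE : S_EE := fun _ _ S r => ⟨eE_mem S r, eE_ex S r⟩

end Pool.Agent.Lib.MP_4ca46c_ag.Nil
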