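import Pool.Agent.Lib.MP_4ca46c_ag.Nil.SpecD
import Pool.Agent.Lib.MP_4ca46c_ag.Nil.EE

/-!
# The bijection of `JJ r` respects the columns
-/

set_option autoImplicit false

namespace Pool.Agent.Lib.MP_4ca46c_ag.Nil

theorem eE2_fun {J : Type} {r : ℕ} (φ : J → Fin r ⊕ Fin r) (c : J → Bool)
    (h : ∀ x, (φ x).isRight = c x) (x : Fin 2 ⊕ J) : (eE_fun φ x).isRight = colS c x := by
  rcases x with i | j
  · fin_cases i <;> rfl
  · change (Sum.map Fin.succ Fin.succ (φ j)).isRight = c j
    rw [Sum.isRight_map]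
    exact h j

theorem tEE2 : S_EE2 := by
  intro K _ S r
  induction r with
  | zero =>
    refine ⟨⟨fun x => x.elim, fun x => Sum.elim (fun i => i.elim0) (fun i => i.elim0) x,
      fun x => x.elim, fun x => ?_⟩, ?_, fun x => x.elim⟩
    · rcases x with i | i <;> exact i.elim0
    · have h2 : S.EF 0 = 1 := by
        unfold Sys.EF
        exact Fintype.prod_empty _
      rw [h2]
      exact map_one _
  | succ r ih =>
    obtain ⟨φ, hφ, hc⟩ := ih
    exact ⟨Equiv.ofBijective _ (eE_bij φ), eE_step S φ (S.EE r) hφ, eE2_fun φ (colJ r) hc⟩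

end Pool.Agent.Lib.MP_4ca46c_ag.Nil
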