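import Pool.Agent.Lib.MP_4ca46c_ag.Nil.SpecD

/-!
# Elimination of `r` variables, second version
-/

set_option autoImplicit false

namespace Pool.Agent.Lib.MP_4ca46c_ag.Nil

theorem elr2_bij {V : Type} (r : ℕ) : Function.Bijective
    (Sum.elim (Sum.map id Fin.castSucc : V ⊕ Fin r → V ⊕ Fin (r + 1))
      (fun _ : Unit => Sum.inr (Fin.last r))) := by
  constructor
  · rintro ((a | a) | a) ((b | b) | b) hab
    · simpa using hab
    · simp at hab
    · simp at hab
    · simp at hab
    · simpa using hab
    · simp only [Sum.elim_inl, Sum.map_inr, Sum.elim_inr, Sum.inr.injEq] at hab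
      exact absurd hab (Fin.castSucc_lt_last a).ne
    · simp at hab
    · simp only [Sum.elim_inl, Sum.map_inr, Sum.elim_inr, Sum.inr.injEq] at hab
      exact absurd hab.symm (Fin.castSucc_lt_last b).ne
    · rfl
  · rintro (a | a)
    · exact ⟨Sum.inl (Sum.inl a), rfl⟩
    · refine Fin.lastCases ?_ (fun j => ?_) a
      · exact ⟨Sum.inr (), rfl⟩
      · exact ⟨Sum.inl (Sum.inr j), rfl⟩

theorem tElr2 : S_Elr2 := by
  intro K _ S p hp r
  induction r with
  | zero =>
    intro V _ g h P
    rw [Finset.univ_eq_empty, Finset.prod_empty, mul_one, Finset.prod_empty, mul_one]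
    exact S.tot_equiv (Equiv.sumEmpty V (Fin 0)).symm P
  | succ r ih =>
    intro V _ g h P
    have he := S.elim hp (Sum.map id Fin.castSucc : V ⊕ Fin r → V ⊕ Fin (r + 1))
      (Sum.inr (Fin.last r)) (elr2_bij r)
      (S.map Sum.inl P * ∏ j : Fin r, (S.map ![Sum.inl (g j.castSucc), Sum.inr j] S.e *
        S.map ![Sum.inr j, Sum.inl (h j.castSucc)] p))
      ![Sum.inl (g (Fin.last r)), Sum.inl (h (Fin.last r))]
      ![Sum.inr (Fin.last r), Sum.inl (h (Fin.last r))] 0 rfl
      (fun j hj => by
        fin_cases j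
        · exact (hj rfl).elim
        · rfl)
    have h1 : S.map (Sum.map id Fin.castSucc : V ⊕ Fin r → V ⊕ Fin (r + 1))
        (S.map Sum.inl P * ∏ j : Fin r, (S.map ![Sum.inl (g j.castSucc), Sum.inr j] S.e *
          S.map ![Sum.inr j, Sum.inl (h j.castSucc)] p)) =
        S.map Sum.inl P * ∏ j : Fin r, (S.map ![Sum.inl (g j.castSucc),
          Sum.inr j.castSucc] S.e * S.map ![Sum.inr j.castSucc, Sum.inl (h j.castSucc)] p) := by
      rw [map_mul, map_prod, S.map_map]
      congr 1
      refine Finset.prod_congr rfl fun j _ => ?_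
      rw [map_mul, S.map_map, S.map_map]
      congr 2
      · congr 1
        funext i
        fin_cases i <;> rfl
      · congr 1
        funext i
        fin_cases i <;> rfl
    rw [h1] at he
    rw [Fin.prod_univ_castSucc, ← mul_assoc]
    refine he.trans ?_
    have h2 : S.map ![(Sum.inl (g (Fin.last r)) : V ⊕ Fin r), Sum.inl (h (Fin.last r))] p =
        S.map Sum.inl (S.map ![g (Fin.last r), h (Fin.last r)] p) := by
      rw [S.map_map]
      congr 2
      funext i
      fin_cases i <;> rfl
    rw [h2, mul_right_comm, ← map_mul, ih V (fun j => g j.castSucc) (fun j => h j.castSucc)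
      (P * S.map ![g (Fin.last r), h (Fin.last r)] p), Fin.prod_univ_castSucc]
    congr 1
    ring

end Pool.Agent.Lib.MP_4ca46c_ag.Nil
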