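import Pool.Agent.Lib.MP_4ca46c_ag.Nil.SpecL

/-!
# The sign operator of the tensor square
-/

set_option autoImplicit false

namespace Pool.Agent.Lib.MP_4ca46c_ag.Nil

open Module TensorProduct LinearMap Pool.Agent.Lib.MP_4ca46c_ag.Sign

theorem tEpsT : S_EpsT := by
  classical
  intro K V _ _ _ _ n pr out
  have out' : ∀ i, ¬ (i ∈ Finset.Icc (0 : ℤ) (2 * n)) → pr i = 0 := by
    intro i hi
    apply out
    simpa only [Finset.mem_Icc, not_and_or, not_le] using hi
  refine ⟨?_, fun i hi => ?_⟩
  · let c : ℤ → K := fun i => if Even i then (1 : K) else -1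
    have hc : ∀ i j, c i * c j = c (i + j) := by
      intro i j
      by_cases hi : Even i <;> by_cases hj : Even j <;> simp [c, hi, hj, Int.even_add]
    have h1 : TensorProduct.map (sgn n pr) (sgn n pr) = ∑ i ∈ Finset.Icc (0 : ℤ) (2 * n),
        ∑ j ∈ Finset.Icc (0 : ℤ) (2 * n), c (i + j) • TensorProduct.map (pr i) (pr j) := by
      have h2 : TensorProduct.map (sgn n pr) (sgn n pr) =
        TensorProduct.mapBilinear (RingHom.id K) V V V V (sgn n pr) (sgn n pr) := rfl
      rw [h2, sgn, map_sum, Finset.sum_comm]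
      refine Finset.sum_congr rfl fun j _ => ?_
      rw [map_smul, map_sum, LinearMap.sum_apply, Finset.smul_sum]
      refine Finset.sum_congr rfl fun i _ => ?_
      rw [map_smul, LinearMap.smul_apply, smul_smul, ← hc, mul_comm (c i)]
      rfl
    have h3 : sgn (2 * n) (prT n pr) = ∑ i ∈ Finset.Icc (0 : ℤ) (2 * n),
        ∑ k ∈ Finset.Icc (0 : ℤ) (2 * ((2 * n : ℕ) : ℤ)),
          c k • TensorProduct.map (pr i) (pr (k - i)) := by
      rw [sgn, Finset.sum_comm]
      refine Finset.sum_congr rfl fun k _ => ?_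
      rw [prT, Finset.smul_sum]
    rw [h1, h3]
    refine Finset.sum_congr rfl fun i hi => ?_
    rw [Finset.mem_Icc] at hi
    let G : ℤ → Module.End K (V ⊗[K] V) := fun k => c k • TensorProduct.map (pr i) (pr (k - i))
    have h4 : ∑ᶠ k : ℤ, G k = ∑ k ∈ Finset.Icc (0 : ℤ) (2 * ((2 * n : ℕ) : ℤ)), G k := by
      refine finsum_eq_sum_of_support_subset _ fun k hk => ?_
      by_contra hn
      apply hk
      simp only [G]
      rw [out' (k - i), TensorProduct.map_zero_right, smul_zero]
      intro h5
      apply hn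
      rw [Finset.mem_Icc] at h5
      rw [Finset.coe_Icc, Set.mem_Icc]
      push_cast
      omega
    have h6 : ∑ᶠ j : ℤ, G (i + j) = ∑ j ∈ Finset.Icc (0 : ℤ) (2 * n), G (i + j) := by
      refine finsum_eq_sum_of_support_subset _ fun k hk => ?_
      by_contra hn
      apply hk
      simp only [G]
      rw [out' (i + k - i), TensorProduct.map_zero_right, smul_zero]
      intro h5
      apply hn
      rw [Finset.mem_Icc] at h5
      rw [Finset.coe_Icc, Set.mem_Icc]
      omega
    have h7 : ∑ j ∈ Finset.Icc (0 : ℤ) (2 * n), c (i + j) • TensorProduct.map (pr i) (pr j) =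
        ∑ j ∈ Finset.Icc (0 : ℤ) (2 * n), G (i + j) := by
      refine Finset.sum_congr rfl fun j _ => ?_
      simp only [G]
      rw [add_sub_cancel_left]
    rw [h7, ← h6, ← h4]
    exact finsum_comp_equiv (Equiv.addLeft i) (f := G)
  · rw [prT]
    refine Finset.sum_eq_zero fun j hj => ?_
    rw [out' (i - j), TensorProduct.map_zero_right]
    rw [Finset.mem_Icc] at hj ⊢
    push_cast at hi
    omega

end Pool.Agent.Lib.MP_4ca46c_ag.Nil
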