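import Pool.Agent.Lib.MP_4ca46c_ag.Nil.SpecF

/-!
# Evaluation of one permutation
-/

set_option autoImplicit false

namespace Pool.Agent.Lib.MP_4ca46c_ag.Nil

theorem evS_c2 {α β : Type} (f : α → β) (a b : α) : f ∘ ![a, b] = ![f a, f b] := by
  funext i
  fin_cases i <;> rfl

section

variable {K : Type} [Field K] (S : Sys K)

theorem evS_sy {V : Type} [Finite V] (a b : V) : S.map ![a, b] S.e = S.map ![b, a] S.e := by
  conv_lhs => rw [← S.e_symm]
  rw [S.map_map, evS_c2]
  rfl

theorem evS_EF (r : ℕ) {κ : Type} [Finite κ] (f : Fin r ⊕ Fin r → κ) :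
    S.map f (S.EF r) = ∏ i : Fin r, S.map ![f (Sum.inl i), f (Sum.inr i)] S.e := by
  unfold Sys.EF
  rw [map_prod]
  refine Finset.prod_congr rfl fun i _ => ?_
  rw [S.map_map, evS_c2]

theorem evS_pw (x : S.C Unit) (r : ℕ) {κ : Type} [Finite κ] (f : Fin r → κ) :
    S.map f (S.pw x r) = ∏ j : Fin r, S.map (fun _ : Unit => f j) x := by
  unfold Sys.pw
  rw [map_prod]
  refine Finset.prod_congr rfl fun i _ => ?_
  rw [S.map_map]
  rfl

theorem evS_range {V : Type} [Finite V] (v₁ v₂ : V) {ι : Type} [Finite ι] (f : ι → V)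
    (hf : ∀ i, f i ≠ v₁ ∧ f i ≠ v₂) (u : S.C ι) :
    S.map f u ∈ (S.map (Subtype.val : {v : V // v ≠ v₁ ∧ v ≠ v₂} → V)).range :=
  ⟨S.map (fun i => (⟨f i, hf i⟩ : {v : V // v ≠ v₁ ∧ v ≠ v₂})) u, S.map_map _ _ _⟩

theorem evS_bij {V : Type} (v₁ v₂ : V) (h : v₁ ≠ v₂) : Function.Bijective
    (Sum.elim (Subtype.val : {v : V // v ≠ v₁ ∧ v ≠ v₂} → V) ![v₁, v₂]) := by
  constructor
  · rintro (⟨a, ha⟩ | a) (⟨b, hb⟩ | b) hab
    · exact congrArg Sum.inl (Subtype.ext hab)
    · exfalso
      fin_cases b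
      · exact ha.1 hab
      · exact ha.2 hab
    · exfalso
      fin_cases a
      · exact hb.1 hab.symm
      · exact hb.2 hab.symm
    · fin_cases a <;> fin_cases b
      · rfl
      · exact absurd hab h
      · exact absurd hab.symm h
      · rfl
  · intro v
    by_cases h1 : v = v₁
    · exact ⟨Sum.inr 0, h1.symm⟩
    · by_cases h2 : v = v₂
      · exact ⟨Sum.inr 1, h2.symm⟩
      · exact ⟨Sum.inl ⟨v, h1, h2⟩, rfl⟩

end

theorem tEvS (hElr : S_Elr) (hZero : S_Zero) : S_EvS := by
  classical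
  intro K _ S x hx hxx r σ
  by_cases hc : ∃ (i b b' : Fin r), σ (Sum.inl i) = Sum.inr b ∧ σ (Sum.inr i) = Sum.inr b'
  · obtain ⟨i, b, b', h1, h2⟩ := hc
    refine ⟨0, ?_, ?_⟩
    · intro h
      rw [h] at h1
      exact absurd h1 (by simp)
    intro y
    have hbb : b ≠ b' := by
      intro h
      rw [h, ← h2] at h1
      exact absurd (σ.injective h1) (by simp)
    have hv : (Sum.inr b : Fin r ⊕ Fin r) ≠ Sum.inr b' := fun h => hbb (Sum.inr_injective h)
    let R := (S.map (Subtype.val : {v : Fin r ⊕ Fin r // v ≠ Sum.inr b ∧ v ≠ Sum.inr b'} →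
      Fin r ⊕ Fin r)).range
    have m1 : ∏ k ∈ Finset.univ.erase i, S.map ![σ (Sum.inl k), σ (Sum.inr k)] S.e ∈ R := by
      refine Subalgebra.prod_mem _ fun k hk => ?_
      have hk := Finset.ne_of_mem_erase hk
      refine evS_range S _ _ _ (fun l => ?_) _
      fin_cases l
      · constructor
        · intro h
          exact hk (Sum.inl_injective (σ.injective (h.trans h1.symm)))
        · intro h
          exact absurd (σ.injective (h.trans h2.symm)) (by simp)
      · constructor
        · intro h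
          exact absurd (σ.injective (h.trans h1.symm)) (by simp)
        · intro h
          exact hk (Sum.inr_injective (σ.injective (h.trans h2.symm)))
    have m2 : ∏ k ∈ (Finset.univ.erase b).erase b', S.map (fun _ : Unit => (Sum.inr k :
        Fin r ⊕ Fin r)) x ∈ R := by
      refine Subalgebra.prod_mem _ fun k hk => ?_
      rw [Finset.mem_erase, Finset.mem_erase] at hk
      exact evS_range S _ _ _ (fun l => ⟨fun h => hk.2.1 (Sum.inr_injective h),
        fun h => hk.1 (Sum.inr_injective h)⟩) _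
    have m3 : S.map Sum.inl y ∈ R :=
      evS_range S _ _ _ (fun l => ⟨by simp, by simp⟩) _
    obtain ⟨P, hP⟩ := R.mul_mem (R.mul_mem m1 m2) m3
    have hz := hZero K S x hx hxx (Fin r ⊕ Fin r) _ Subtype.val _ _ (evS_bij _ _ hv) P
    have hP' : S.map (Subtype.val : {v : Fin r ⊕ Fin r // v ≠ Sum.inr b ∧ v ≠ Sum.inr b'} →
      Fin r ⊕ Fin r) P = (∏ k ∈ Finset.univ.erase i, S.map ![σ (Sum.inl k), σ (Sum.inr k)] S.e) *
      (∏ k ∈ (Finset.univ.erase b).erase b', S.map (fun _ : Unit => (Sum.inr k :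
        Fin r ⊕ Fin r)) x) * S.map Sum.inl y := hP
    rw [hP'] at hz
    rw [Nat.cast_zero, zero_mul, ← hz, evS_EF, evS_pw]
    congr 1
    rw [← Finset.mul_prod_erase Finset.univ _ (Finset.mem_univ i),
      ← Finset.mul_prod_erase Finset.univ (fun j => S.map (fun _ : Unit => (Sum.inr j :
        Fin r ⊕ Fin r)) x) (Finset.mem_univ b),
      ← Finset.mul_prod_erase (Finset.univ.erase b) (fun j => S.map (fun _ : Unit => (Sum.inr j :
        Fin r ⊕ Fin r)) x) (Finset.mem_erase.mpr ⟨hbb.symm, Finset.mem_univ b'⟩), h1, h2]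
    ring
  · refine ⟨1, fun _ => rfl, fun y => ?_⟩
    let τ : Fin r → Fin r := fun j => Sum.elim id id (σ.symm (Sum.inr j))
    have hπ : ∀ j, ∃ a : Fin r, (σ (Sum.inl (τ j)) = Sum.inl a ∧ σ (Sum.inr (τ j)) = Sum.inr j) ∨
        (σ (Sum.inr (τ j)) = Sum.inl a ∧ σ (Sum.inl (τ j)) = Sum.inr j) := by
      intro j
      rcases hj : σ.symm (Sum.inr j) with i | i
      · have hi : τ j = i := by
          show Sum.elim id id (σ.symm (Sum.inr j)) = i
          rw [hj]
          rfl
        have hi2 : σ (Sum.inl i) = Sum.inr j := by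
          rw [← hj, Equiv.apply_symm_apply]
        rw [hi]
        rcases ha : σ (Sum.inr i) with a | a
        · exact ⟨a, Or.inr ⟨rfl, hi2⟩⟩
        · exact absurd ⟨i, j, a, hi2, ha⟩ hc
      · have hi : τ j = i := by
          show Sum.elim id id (σ.symm (Sum.inr j)) = i
          rw [hj]
          rfl
        have hi2 : σ (Sum.inr i) = Sum.inr j := by
          rw [← hj, Equiv.apply_symm_apply]
        rw [hi]
        rcases ha : σ (Sum.inl i) with a | a
        · exact ⟨a, Or.inl ⟨rfl, hi2⟩⟩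
        · exact absurd ⟨i, a, j, ha, hi2⟩ hc
    choose π hπ using hπ
    have hτi : Function.Injective τ := by
      intro j j' h
      rcases hπ j with ⟨h1, h2⟩ | ⟨h1, h2⟩ <;> rcases hπ j' with ⟨h3, h4⟩ | ⟨h3, h4⟩
      · rw [h, h4] at h2
        exact (Sum.inr_injective h2).symm
      · rw [h, h4] at h1
        exact absurd h1 (by simp)
      · rw [h, h4] at h1
        exact absurd h1 (by simp)
      · rw [h, h4] at h2
        exact (Sum.inr_injective h2).symm
    have hπi : Function.Injective π := by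
      intro j j' h
      rcases hπ j with ⟨h1, h2⟩ | ⟨h1, h2⟩ <;> rcases hπ j' with ⟨h3, h4⟩ | ⟨h3, h4⟩
      · rw [h, ← h3] at h1
        exact hτi (Sum.inl_injective (σ.injective h1))
      · rw [h, ← h3] at h1
        exact absurd (σ.injective h1) (by simp)
      · rw [h, ← h3] at h1
        exact absurd (σ.injective h1) (by simp)
      · rw [h, ← h3] at h1
        exact hτi (Sum.inr_injective (σ.injective h1))
    have hτb : Function.Bijective τ := Finite.injective_iff_bijective.mp hτi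
    have hπb : Function.Bijective π := Finite.injective_iff_bijective.mp hπi
    have hE : S.map σ (S.EF r) = ∏ j : Fin r, S.map ![Sum.inl (π j), Sum.inr j] S.e := by
      rw [evS_EF, ← (Equiv.ofBijective τ hτb).prod_comp]
      refine Finset.prod_congr rfl fun j _ => ?_
      show S.map ![σ (Sum.inl (τ j)), σ (Sum.inr (τ j))] S.e = _
      rcases hπ j with ⟨h1, h2⟩ | ⟨h1, h2⟩
      · rw [h1, h2]
      · rw [h1, h2]
        exact evS_sy S _ _
    have hel := hElr K S x hx r (Fin r) π y
    rw [Finset.prod_mul_distrib] at hel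
    rw [hE, evS_pw]
    have h5 : (∏ j : Fin r, S.map ![Sum.inl (π j), Sum.inr j] S.e) *
        (∏ j : Fin r, S.map (fun _ : Unit => (Sum.inr j : Fin r ⊕ Fin r)) x) * S.map Sum.inl y =
        S.map Sum.inl y * ((∏ j : Fin r, S.map ![Sum.inl (π j), Sum.inr j] S.e) *
        (∏ j : Fin r, S.map (fun _ : Unit => (Sum.inr j : Fin r ⊕ Fin r)) x)) := by ring
    rw [h5, hel, Nat.cast_one, one_mul]
    have h6 : ∏ j : Fin r, S.map (fun _ : Unit => π j) x = S.pw x r := by
      unfold Sys.pw
      exact (Equiv.ofBijective π hπb).prod_comp (fun j => S.map (fun _ : Unit => j) x)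
    rw [h6, mul_comm]

end Pool.Agent.Lib.MP_4ca46c_ag.Nil
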