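import Pool.Agent.Lib.MP_4ca46c_ag.Nil.SpecD
import Pool.Agent.Lib.MP_4ca46c_ag.Nil.EvS

/-!
# Evaluation of one term (two columns)
-/

set_option autoImplicit false

namespace Pool.Agent.Lib.MP_4ca46c_ag.Nil

theorem ev2_l {r : ℕ} (R : Fin r → Bool) (σ τ : Equiv.Perm (Fin r)) (k : Fin r) :
    (sw R ∘ Sum.map σ τ) (Sum.inl k) = if R (σ k) then Sum.inr (σ k) else Sum.inl (σ k) := rfl

theorem ev2_r {r : ℕ} (R : Fin r → Bool) (σ τ : Equiv.Perm (Fin r)) (k : Fin r) :
    (sw R ∘ Sum.map σ τ) (Sum.inr k) = if R (τ k) then Sum.inl (τ k) else Sum.inr (τ k) := rfl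

theorem ev2_sw {r : ℕ} (R : Fin r → Bool) (x : Fin r ⊕ Fin r) : sw R (sw R x) = x := by
  rcases x with i | i
  · by_cases h : R i = true
    · simp [sw, h]
    · simp [sw, h]
  · by_cases h : R i = true
    · simp [sw, h]
    · simp [sw, h]

theorem ev2_inj {r : ℕ} (R : Fin r → Bool) (σ τ : Equiv.Perm (Fin r)) :
    Function.Injective (sw R ∘ Sum.map σ τ) := by
  have h1 : Function.Injective (sw R) := (Function.LeftInverse.injective (ev2_sw R))
  have h2 : Function.Injective (Sum.map σ τ : Fin r ⊕ Fin r → Fin r ⊕ Fin r) := by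
    rintro (a | a) (b | b) h
    · exact congrArg Sum.inl (σ.injective (Sum.inl_injective h))
    · exact absurd h (by simp)
    · exact absurd h (by simp)
    · exact congrArg Sum.inr (τ.injective (Sum.inr_injective h))
  exact h1.comp h2

theorem ev2_cnt {r : ℕ} (R : Fin r → Bool) (σ τ : Equiv.Perm (Fin r))
    (h : ∃ k, R (σ k) ≠ R (τ k)) : ∃ k, R (σ k) = true ∧ R (τ k) = false := by
  classical
  by_contra hc
  push Not at hc
  have hsub : (Finset.univ.filter fun k => R (σ k) = true) ⊆
      (Finset.univ.filter fun k => R (τ k) = true) := by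
    intro k hk
    rw [Finset.mem_filter] at hk ⊢
    exact ⟨hk.1, by simpa using hc k hk.2⟩
  have hc1 : ∀ ρ : Equiv.Perm (Fin r), (Finset.univ.filter fun k => R (ρ k) = true).card =
      (Finset.univ.filter fun k => R k = true).card := by
    intro ρ
    apply Finset.card_bij (fun k _ => ρ k)
    · intro k hk
      rw [Finset.mem_filter] at hk ⊢
      exact ⟨Finset.mem_univ _, hk.2⟩
    · intro a _ b _ hab
      exact ρ.injective hab
    · intro b hb
      rw [Finset.mem_filter] at hb
      refine ⟨ρ.symm b, ?_, by simp⟩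
      rw [Finset.mem_filter]
      exact ⟨Finset.mem_univ _, by simpa using hb.2⟩
  have heq := Finset.eq_of_subset_of_card_le hsub (by rw [hc1 σ, hc1 τ])
  obtain ⟨k, hk⟩ := h
  apply hk
  have h1 : (k ∈ (Finset.univ.filter fun k => R (σ k) = true)) ↔
      (k ∈ (Finset.univ.filter fun k => R (τ k) = true)) := by rw [heq]
  rw [Finset.mem_filter, Finset.mem_filter] at h1
  have h2 : R (σ k) = true ↔ R (τ k) = true := by simpa using h1
  exact Bool.eq_iff_iff.mpr h2

section

variable {K : Type} [Field K] (S : Sys K)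

theorem ev2_EF {r : ℕ} (R : Fin r → Bool) (σ τ : Equiv.Perm (Fin r)) :
    S.map (Sum.map Sum.inl id : Fin r ⊕ Fin r → (Fin r ⊕ Fin r) ⊕ Fin r)
      (S.map (sw R) (S.map (Sum.map σ τ) (S.EF r))) =
    ∏ k : Fin r, S.map ![(Sum.map Sum.inl id : Fin r ⊕ Fin r → (Fin r ⊕ Fin r) ⊕ Fin r)
      ((sw R ∘ Sum.map σ τ) (Sum.inl k)), (Sum.map Sum.inl id : Fin r ⊕ Fin r →
        (Fin r ⊕ Fin r) ⊕ Fin r) ((sw R ∘ Sum.map σ τ) (Sum.inr k))] S.e := by
  rw [S.map_map, S.map_map, evS_EF]
  rfl

end

theorem tEv2 (hElr : S_Elr2) (hPm : S_Pm) (hZe : S_Ze2) (hSg : S_Sg) : S_Ev2 := by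
  classical
  intro K _ _ S p hp hodd r R σ τ
  by_cases hc : ∃ k, R (σ k) ≠ R (τ k)
  · obtain ⟨i, hi1, hi2⟩ := ev2_cnt R σ τ hc
    refine ⟨0, ?_, ?_⟩
    · intro hR _ _
      rw [hR] at hi1
      exact absurd hi1 (by simp)
    intro y
    let m : Fin r ⊕ Fin r → (Fin r ⊕ Fin r) ⊕ Fin r := Sum.map Sum.inl id
    let θ : Fin r ⊕ Fin r → Fin r ⊕ Fin r := sw R ∘ Sum.map σ τ
    have hθ : Function.Injective θ := ev2_inj R σ τ
    have h1 : θ (Sum.inl i) = Sum.inr (σ i) := by
      show (sw R ∘ Sum.map σ τ) (Sum.inl i) = _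
      rw [ev2_l, hi1]
      rfl
    have h2 : θ (Sum.inr i) = Sum.inr (τ i) := by
      show (sw R ∘ Sum.map σ τ) (Sum.inr i) = _
      rw [ev2_r, hi2]
      rfl
    have hm : ∀ x b, m x = Sum.inr b → x = Sum.inr b := by
      rintro (x | x) b h
      · exact absurd h (by simp [m])
      · exact congrArg Sum.inr (Sum.inr_injective h)
    set b : Fin r := σ i with hb
    set b' : Fin r := τ i with hb'
    have hbb : b ≠ b' := by
      intro h
      rw [h, hi2] at hi1
      exact absurd hi1 (by simp)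
    have hv : (Sum.inr b : (Fin r ⊕ Fin r) ⊕ Fin r) ≠ Sum.inr b' :=
      fun h => hbb (Sum.inr_injective h)
    let Rg := (S.map (Subtype.val : {v : (Fin r ⊕ Fin r) ⊕ Fin r // v ≠ Sum.inr b ∧
      v ≠ Sum.inr b'} → (Fin r ⊕ Fin r) ⊕ Fin r)).range
    have m1 : ∏ k ∈ Finset.univ.erase i, S.map ![m (θ (Sum.inl k)), m (θ (Sum.inr k))] S.e ∈
        Rg := by
      refine Subalgebra.prod_mem _ fun k hk => ?_
      have hk := Finset.ne_of_mem_erase hk
      refine evS_range S _ _ _ (fun l => ?_) _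
      fin_cases l
      · constructor
        · intro h
          exact hk (Sum.inl_injective (hθ ((hm _ _ h).trans h1.symm)))
        · intro h
          exact absurd (hθ ((hm _ _ h).trans h2.symm)) (by simp)
      · constructor
        · intro h
          exact absurd (hθ ((hm _ _ h).trans h1.symm)) (by simp)
        · intro h
          exact hk (Sum.inr_injective (hθ ((hm _ _ h).trans h2.symm)))
    have m2 : ∏ k ∈ (Finset.univ.erase b).erase b', S.map ![(Sum.inr k :
        (Fin r ⊕ Fin r) ⊕ Fin r), Sum.inl (Sum.inr k)] p ∈ Rg := by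
      refine Subalgebra.prod_mem _ fun k hk => ?_
      rw [Finset.mem_erase, Finset.mem_erase] at hk
      refine evS_range S _ _ _ (fun l => ?_) _
      fin_cases l
      · exact ⟨fun h => hk.2.1 (Sum.inr_injective h), fun h => hk.1 (Sum.inr_injective h)⟩
      · exact ⟨fun h => absurd h (by simp), fun h => absurd h (by simp)⟩
    have m3 : S.map Sum.inl y ∈ Rg :=
      evS_range S _ _ _ (fun l => ⟨by simp, by simp⟩) _
    obtain ⟨P, hP⟩ := Rg.mul_mem (Rg.mul_mem m1 m2) m3
    have hz := hZe K S p hodd ((Fin r ⊕ Fin r) ⊕ Fin r) _ Subtype.val _ _ (evS_bij _ _ hv) P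
      ⟨Sum.inl (Sum.inr b), by simp, by simp⟩ ⟨Sum.inl (Sum.inr b'), by simp, by simp⟩
    have hP' : S.map (Subtype.val : {v : (Fin r ⊕ Fin r) ⊕ Fin r // v ≠ Sum.inr b ∧
      v ≠ Sum.inr b'} → (Fin r ⊕ Fin r) ⊕ Fin r) P =
      (∏ k ∈ Finset.univ.erase i, S.map ![m (θ (Sum.inl k)), m (θ (Sum.inr k))] S.e) *
      (∏ k ∈ (Finset.univ.erase b).erase b', S.map ![(Sum.inr k :
        (Fin r ⊕ Fin r) ⊕ Fin r), Sum.inl (Sum.inr k)] p) * S.map Sum.inl y := hP
    rw [hP'] at hz
    rw [Nat.cast_zero, zero_mul]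
    apply mul_eq_zero_of_right
    rw [← hz, ev2_EF]
    congr 1
    rw [← Finset.mul_prod_erase Finset.univ _ (Finset.mem_univ i),
      ← Finset.mul_prod_erase Finset.univ (fun j => S.map ![(Sum.inr j :
        (Fin r ⊕ Fin r) ⊕ Fin r), Sum.inl (Sum.inr j)] p) (Finset.mem_univ b),
      ← Finset.mul_prod_erase (Finset.univ.erase b) (fun j => S.map ![(Sum.inr j :
        (Fin r ⊕ Fin r) ⊕ Fin r), Sum.inl (Sum.inr j)] p)
        (Finset.mem_erase.mpr ⟨hbb.symm, Finset.mem_univ b'⟩)]
    have h1' : (Sum.map Sum.inl id : Fin r ⊕ Fin r → (Fin r ⊕ Fin r) ⊕ Fin r)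
      ((sw R ∘ Sum.map σ τ) (Sum.inl i)) = Sum.inr b := by
      show m (θ (Sum.inl i)) = _
      rw [h1]
      rfl
    have h2' : (Sum.map Sum.inl id : Fin r ⊕ Fin r → (Fin r ⊕ Fin r) ⊕ Fin r)
      ((sw R ∘ Sum.map σ τ) (Sum.inr i)) = Sum.inr b' := by
      show m (θ (Sum.inr i)) = _
      rw [h2]
      rfl
    rw [h1', h2']
    show _ * (∏ k ∈ Finset.univ.erase i, S.map ![m (θ (Sum.inl k)), m (θ (Sum.inr k))] S.e) *
      _ * _ = _
    ring
  · push Not at hc
    let π : Fin r → Fin r := fun i => if R i then τ (σ.symm i) else σ (τ.symm i)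
    have hπt : ∀ i, R i = true → π i = τ (σ.symm i) := fun i h => by
      show (if R i then τ (σ.symm i) else σ (τ.symm i)) = _
      rw [h]
      rfl
    have hπf : ∀ i, R i = false → π i = σ (τ.symm i) := fun i h => by
      show (if R i then τ (σ.symm i) else σ (τ.symm i)) = _
      rw [h]
      rfl
    have hR1 : ∀ i, R (σ (τ.symm i)) = R i := fun i => by
      have h := hc (τ.symm i)
      rw [Equiv.apply_symm_apply] at h
      exact h
    have hR2 : ∀ i, R (τ (σ.symm i)) = R i := fun i => by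
      have h := hc (σ.symm i)
      rw [Equiv.apply_symm_apply] at h
      exact h.symm
    have hRπ : ∀ i, R (π i) = R i := fun i => by
      cases h : R i with
      | true => rw [hπt i h, hR2, h]
      | false => rw [hπf i h, hR1, h]
    have hπi : Function.Injective π := by
      intro i j hij
      have hRR : R i = R j := by rw [← hRπ i, hij, hRπ j]
      cases h : R i with
      | true =>
        have h' : R j = true := by rw [← hRR, h]
        rw [hπt i h, hπt j h'] at hij
        exact σ.symm.injective (τ.injective hij)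
      | false =>
        have h' : R j = false := by rw [← hRR, h]
        rw [hπf i h, hπf j h'] at hij
        exact τ.symm.injective (σ.injective hij)
    have hπb : Function.Bijective π := Finite.injective_iff_bijective.mp hπi
    let πe : Equiv.Perm (Fin r) := Equiv.ofBijective π hπb
    have hπe : ∀ i, πe i = π i := fun i => rfl
    let κ : Fin r → Fin r := fun i => if R i then σ.symm i else τ.symm i
    have hκt : ∀ i, R i = true → κ i = σ.symm i := fun i h => by
      show (if R i then σ.symm i else τ.symm i) = _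
      rw [h]
      rfl
    have hκf : ∀ i, R i = false → κ i = τ.symm i := fun i h => by
      show (if R i then σ.symm i else τ.symm i) = _
      rw [h]
      rfl
    have hκi : Function.Injective κ := by
      intro i j hij
      cases h : R i with
      | true =>
        cases h' : R j with
        | true =>
          rw [hκt i h, hκt j h'] at hij
          exact σ.symm.injective hij
        | false =>
          exfalso
          rw [hκt i h, hκf j h'] at hij
          have h3 := hR2 i
          rw [hij, Equiv.apply_symm_apply, h, h'] at h3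
          exact absurd h3 (by simp)
      | false =>
        cases h' : R j with
        | true =>
          exfalso
          rw [hκf i h, hκt j h'] at hij
          have h3 := hR2 j
          rw [← hij, Equiv.apply_symm_apply, h, h'] at h3
          exact absurd h3 (by simp)
        | false =>
          rw [hκf i h, hκf j h'] at hij
          exact τ.symm.injective hij
    have hκb : Function.Bijective κ := Finite.injective_iff_bijective.mp hκi
    refine ⟨1, fun _ _ _ => rfl, fun y => ?_⟩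
    have hE : S.map (Sum.map Sum.inl id : Fin r ⊕ Fin r → (Fin r ⊕ Fin r) ⊕ Fin r)
        (S.map (sw R) (S.map (Sum.map σ τ) (S.EF r))) =
        ∏ j : Fin r, S.map ![Sum.inl (Sum.inl (π j)), Sum.inr j] S.e := by
      rw [ev2_EF, ← (Equiv.ofBijective κ hκb).prod_comp]
      refine Finset.prod_congr rfl fun j _ => ?_
      show S.map ![(Sum.map Sum.inl id : Fin r ⊕ Fin r → (Fin r ⊕ Fin r) ⊕ Fin r)
        ((sw R ∘ Sum.map σ τ) (Sum.inl (κ j))), (Sum.map Sum.inl id : Fin r ⊕ Fin r →
        (Fin r ⊕ Fin r) ⊕ Fin r) ((sw R ∘ Sum.map σ τ) (Sum.inr (κ j)))] S.e = _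
      rw [ev2_l, ev2_r]
      cases h : R j with
      | true =>
        rw [hκt j h, Equiv.apply_symm_apply, hR2 j, h, hπt j h]
        exact evS_sy S _ _
      | false =>
        rw [hκf j h, Equiv.apply_symm_apply, hR1 j, h, hπf j h]
        rfl
    have hel := hElr K S p hp r (Fin r ⊕ Fin r) (fun j => Sum.inl (π j)) (fun j => Sum.inr j) y
    rw [Finset.prod_mul_distrib] at hel
    rw [hE]
    have h5 : (∏ j : Fin r, S.map ![Sum.inl (Sum.inl (π j)), Sum.inr j] S.e) *
        (∏ j : Fin r, S.map ![(Sum.inr j : (Fin r ⊕ Fin r) ⊕ Fin r), Sum.inl (Sum.inr j)] p) *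
          S.map Sum.inl y =
        S.map Sum.inl y * ((∏ j : Fin r, S.map ![Sum.inl (Sum.inl (π j)), Sum.inr j] S.e) *
        (∏ j : Fin r, S.map ![(Sum.inr j : (Fin r ⊕ Fin r) ⊕ Fin r), Sum.inl (Sum.inr j)] p)) := by
      ring
    rw [h5, hel, Nat.cast_one, one_mul]
    have h6 : ∏ j : Fin r, S.map ![(Sum.inl (π j) : Fin r ⊕ Fin r), Sum.inr j] p =
        (((Equiv.Perm.sign πe : ℤˣ) : ℤ) : K) • S.pp p r :=
      hPm K S p hodd r (Fin r ⊕ Fin r) Sum.inl Sum.inr πe
    have h7 : Equiv.Perm.sign πe = Equiv.Perm.sign (σ * τ⁻¹) := by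
      refine hSg r R πe (σ * τ⁻¹) (fun i => hR1 i) (fun i h => hπf i h) (fun i h => ?_)
      have h8 : (σ * τ⁻¹) i = σ (τ.symm i) := rfl
      have h9 : R (σ (τ.symm i)) = true := by rw [hR1, h]
      rw [h8, hπe, hπt _ h9, Equiv.symm_apply_apply, Equiv.apply_symm_apply]
    have h10 : Equiv.Perm.sign (σ * τ⁻¹) = Equiv.Perm.sign σ * Equiv.Perm.sign τ := by
      rw [Equiv.Perm.sign_mul, Equiv.Perm.sign_inv]
    rw [h6, h7, h10, mul_smul_comm, map_smul, smul_eq_mul, ← mul_assoc]
    have h11 : (((Equiv.Perm.sign σ * Equiv.Perm.sign τ : ℤˣ) : ℤ) : K) *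
        (((Equiv.Perm.sign σ * Equiv.Perm.sign τ : ℤˣ) : ℤ) : K) = 1 := by
      rw [← Int.cast_mul, ← Units.val_mul, Int.units_mul_self]
      simp
    rw [h11, one_mul, mul_comm]

end Pool.Agent.Lib.MP_4ca46c_ag.Nil
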