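import Pool.Agent.Lib.MP_4ca46c_ag.Nil.SpecF

/-!
# The formal theorem
-/

set_option autoImplicit false

namespace Pool.Agent.Lib.MP_4ca46c_ag.Nil

open Function

theorem tFormal (hG : S_Gam) (hE : S_EvS) (hP : S_Pow) : S_Formal := by
  intro K _ _ S w hw hw0 m hd x y hx hxx hxy
  obtain ⟨hm, hnum⟩ := hG K S w hw hw0 m hd
  choose n h1 h2 using fun σ => hE K S x hx hxx (m + 1) σ
  have h3 := S.nil (S.Gam (m + 1)) hm hnum (S.pw x (m + 1)) ((∑ σ, n σ : ℕ) : K) (by
    intro y'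
    rw [Sys.Gam, Finset.sum_mul, Finset.sum_mul, map_sum, Nat.cast_sum, Finset.sum_mul]
    exact Finset.sum_congr rfl fun σ _ => h2 σ y')
  rcases h3 with h3 | h3
  · rw [Nat.cast_eq_zero, Finset.sum_eq_zero_iff] at h3
    have h4 := h3 1 (Finset.mem_univ _)
    rw [h1 1 rfl] at h4
    exact one_ne_zero h4
  · have h4 : S.pw x (m + 1) * S.pw y (m + 1) = S.pw (x * y) (m + 1) := by
      rw [Sys.pw, Sys.pw, Sys.pw, ← Finset.prod_mul_distrib]
      exact Finset.prod_congr rfl fun i _ => (map_mul _ _ _).symm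
    have h5 := hP K S (x * y) (m + 1)
    rw [← h4, h3, zero_mul, map_zero] at h5
    exact pow_ne_zero _ hxy h5.symm

end Pool.Agent.Lib.MP_4ca46c_ag.Nil
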