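import Pool.Agent.Lib.MP_4ca46c_ag.Nil.SpecD

/-!
# The second formal theorem
-/

set_option autoImplicit false

namespace Pool.Agent.Lib.MP_4ca46c_ag.Nil

open Function

theorem formal2_nn_sum {K : Type} [Field K] (S : Sys K) {r : ℕ} {ι : Type} (s : Finset ι)
    (u : ι → S.C (Fin r ⊕ Fin r)) : S.nn (∑ i ∈ s, u i) = ∑ i ∈ s, S.nn (u i) := by
  simp only [Sys.nn, map_sum, Finset.sum_mul]

theorem formal2_nn_smul {K : Type} [Field K] (S : Sys K) {r : ℕ} (c : K)
    (u : S.C (Fin r ⊕ Fin r)) : S.nn (c • u) = c • S.nn u := by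
  rw [Sys.nn, Sys.nn, map_smul, smul_mul_assoc]

theorem tFormal2 (hG : S_Gam2) (hN : S_NN) (hS : S_Spt) (hE : S_Ev2) (hP : S_Pow2) :
    S_Formal2 := by
  intro K _ _ S w hw hw0 m hd p q hp hpo hpq
  obtain ⟨hm, hnum⟩ := hG K S w hw hw0 m hd
  obtain ⟨hm', hnum'⟩ := hN K S (m + 1) (S.Ga (m + 1)) hm hnum
  choose n h1 h2 using fun R σ τ => hE K S p hp hpo (m + 1) R σ τ
  have h3 := S.nil (S.nn (S.Ga (m + 1))) hm' hnum' (S.pp p (m + 1))
    ((∑ R, ∑ σ, ∑ τ, n R σ τ : ℕ) : K) (by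
    intro y'
    rw [Sys.Ga, formal2_nn_sum, Finset.sum_mul, Finset.sum_mul, map_sum, Nat.cast_sum,
      Finset.sum_mul]
    refine Finset.sum_congr rfl fun R _ => ?_
    rw [formal2_nn_sum, Finset.sum_mul, Finset.sum_mul, map_sum, Nat.cast_sum, Finset.sum_mul]
    refine Finset.sum_congr rfl fun σ _ => ?_
    rw [formal2_nn_sum, Finset.sum_mul, Finset.sum_mul, map_sum, Nat.cast_sum, Finset.sum_mul]
    refine Finset.sum_congr rfl fun τ _ => ?_
    rw [formal2_nn_smul, smul_mul_assoc, smul_mul_assoc, map_smul, smul_eq_mul,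
      hS K S p hp (m + 1), h2 R σ τ y'])
  rcases h3 with h3 | h3
  · rw [Nat.cast_eq_zero, Finset.sum_eq_zero_iff] at h3
    have h4 := h3 (fun _ => false) (Finset.mem_univ _)
    rw [Finset.sum_eq_zero_iff] at h4
    have h5 := h4 1 (Finset.mem_univ _)
    rw [Finset.sum_eq_zero_iff] at h5
    have h6 := h5 1 (Finset.mem_univ _)
    rw [h1 (fun _ => false) 1 1 rfl rfl rfl] at h6
    exact one_ne_zero h6
  · have h4 : S.pp p (m + 1) * S.pp q (m + 1) = S.pp (p * q) (m + 1) := by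
      rw [Sys.pp, Sys.pp, Sys.pp, ← Finset.prod_mul_distrib]
      exact Finset.prod_congr rfl fun i _ => (map_mul _ _ _).symm
    have h5 := hP K S (p * q) (m + 1)
    rw [← h4, h3, zero_mul, map_zero] at h5
    exact pow_ne_zero _ hpq h5.symm

end Pool.Agent.Lib.MP_4ca46c_ag.Nil
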