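import Pool.Agent.Lib.MP_4ca46c_ag.Nil.SpecF

set_option autoImplicit false

namespace Pool.Agent.Lib.MP_4ca46c_ag.Nil

section g

variable {K : Type} [Field K] (S : Sys K)

theorem g_mul {V W : Type} [Finite V] [Finite W] (f : V → W) (u v : S.C V) :
    S.map f (u * v) = S.map f u * S.map f v := map_mul _ _ _

theorem g_pair {V W : Type} [Finite V] [Finite W] (a b : V) (f : V → W) (u : S.C (Fin 2)) :
    S.map f (S.map ![a, b] u) = S.map ![f a, f b] u := by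
  rw [S.map_map]
  have h : f ∘ ![a, b] = ![f a, f b] := by
    funext i
    fin_cases i <;> rfl
  rw [h]

theorem g_bij (J : Type) :
    Function.Bijective (Sum.elim (Sum.map Fin.castSucc id : Fin 4 ⊕ J → Fin 5 ⊕ J)
      (fun _ : Unit => Sum.inl 4)) := by
  have h : Function.Bijective (Sum.elim (Fin.castSucc : Fin 4 → Fin 5) (fun _ : Unit => 4)) := by
    decide
  constructor
  · rintro ((a | j) | a) ((b | k) | b) hab
    · have h1 : Fin.castSucc a = Fin.castSucc b := Sum.inl_injective hab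
      rw [Fin.castSucc_injective _ h1]
    · cases hab
    · have h1 : Fin.castSucc a = (4 : Fin 5) := Sum.inl_injective hab
      have h2 := h.1 (a₁ := Sum.inl a) (a₂ := Sum.inr ()) h1
      cases h2
    · cases hab
    · have h1 : j = k := Sum.inr_injective hab
      rw [h1]
    · cases hab
    · have h1 : (4 : Fin 5) = Fin.castSucc b := Sum.inl_injective hab
      have h2 := h.1 (a₁ := Sum.inr ()) (a₂ := Sum.inl b) h1
      cases h2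
    · cases hab
    · rfl
  · rintro (b | j)
    · obtain ⟨a, ha⟩ := h.2 b
      rcases a with a | a
      · exact ⟨Sum.inl (Sum.inl a), congrArg Sum.inl ha⟩
      · exact ⟨Sum.inr (), congrArg Sum.inl ha⟩
    · exact ⟨Sum.inl (Sum.inr j), rfl⟩

/-- the term of the place `i` -/
noncomputable def gT {J : Type} [Finite J] (w z : S.C (Fin 2)) (τ : S.C (Fin 2 ⊕ J))
    (h : Fin 2 ⊕ J → Fin 2 ⊕ J → (Fin 2 ⊕ J) ⊕ Unit) (i : Fin 2 ⊕ J) : K :=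
  S.tot (((Fin 2 ⊕ J) ⊕ Unit) ⊕ Unit)
    (S.map ![Sum.inl (Sum.inl i), Sum.inl (Sum.inr ())] w * S.map (Sum.inl ∘ h i) τ *
      (S.map ![Sum.inl (Sum.inl (Sum.inl 0)), Sum.inr ()] z *
        S.map (Sum.map Sum.inl id ∘ h (Sum.inl 0)) τ))

/-- the renaming for `Y` -/
def gEqY (J : Type) : Fin 4 ⊕ J ≃ ((Fin 2 ⊕ J) ⊕ Unit) ⊕ Unit where
  toFun := Sum.elim ![Sum.inl (Sum.inl (Sum.inl 1)), Sum.inl (Sum.inr ()),
    Sum.inl (Sum.inl (Sum.inl 0)), Sum.inr ()] (fun j => Sum.inl (Sum.inl (Sum.inr j)))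
  invFun := Sum.elim (Sum.elim (Sum.elim (fun k => Sum.inl ((![2, 0] : Fin 2 → Fin 4) k)) Sum.inr)
    (fun _ => Sum.inl 1)) (fun _ => Sum.inl 3)
  left_inv := by
    rintro (i | i)
    · fin_cases i <;> rfl
    · rfl
  right_inv := by
    rintro (((k | j) | k) | k)
    · fin_cases k <;> rfl
    · rfl
    · rfl
    · rfl

/-- the renaming for `X` -/
def gEqX (J : Type) : Fin 4 ⊕ J ≃ ((Fin 2 ⊕ J) ⊕ Unit) ⊕ Unit where
  toFun := Sum.elim ![Sum.inl (Sum.inl (Sum.inl 0)), Sum.inl (Sum.inr ()), Sum.inr (),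
    Sum.inl (Sum.inl (Sum.inl 1))] (fun j => Sum.inl (Sum.inl (Sum.inr j)))
  invFun := Sum.elim (Sum.elim (Sum.elim (fun k => Sum.inl ((![0, 3] : Fin 2 → Fin 4) k)) Sum.inr)
    (fun _ => Sum.inl 1)) (fun _ => Sum.inl 2)
  left_inv := by
    rintro (i | i)
    · fin_cases i <;> rfl
    · rfl
  right_inv := by
    rintro (((k | j) | k) | k)
    · fin_cases k <;> rfl
    · rfl
    · rfl
    · rfl

variable {J : Type} [Finite J] (w z : S.C (Fin 2)) (τ : S.C (Fin 2 ⊕ J))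
  (h : Fin 2 ⊕ J → Fin 2 ⊕ J → (Fin 2 ⊕ J) ⊕ Unit)

include S in
theorem g_swap (H1 : ∀ i, h i i = Sum.inr ()) (H2 : ∀ i j, j ≠ i → h i j = Sum.inl j)
    (hs : S.Sym τ) (i : Fin 2 ⊕ J) (hi : i ≠ Sum.inl 0) :
    gT S w z τ h i = gT S w z τ h (Sum.inl 1) := by
  classical
  let σ : Equiv.Perm (Fin 2 ⊕ J) := Equiv.swap (Sum.inl 1) i
  have s1 : σ (Sum.inl 1) = i := Equiv.swap_apply_left _ _
  have s0 : σ (Sum.inl 0) = Sum.inl 0 := Equiv.swap_apply_of_ne_of_ne (by simp) hi.symm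
  have hsig : ∀ j, σ j = i ↔ j = Sum.inl 1 := by
    intro j
    rw [← s1, σ.injective.eq_iff]
  have hsig0 : ∀ j, σ j = Sum.inl 0 ↔ j = Sum.inl 0 := by
    intro j
    conv_lhs => rw [← s0]
    rw [σ.injective.eq_iff]
  let σ' : Equiv.Perm (((Fin 2 ⊕ J) ⊕ Unit) ⊕ Unit) :=
    Equiv.sumCongr (Equiv.sumCongr σ 1) 1
  have e1 : σ' ∘ (Sum.inl ∘ h (Sum.inl 1)) = (Sum.inl ∘ h i) ∘ σ := by
    funext j
    simp only [Function.comp_apply]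
    by_cases hj : j = Sum.inl 1
    · subst hj
      rw [H1, s1, H1]
      rfl
    · rw [H2 _ _ hj, H2 i (σ j) (by rw [Ne, hsig]; exact hj)]
      rfl
  have e2 : σ' ∘ (Sum.map Sum.inl id ∘ h (Sum.inl 0)) =
      (Sum.map Sum.inl id ∘ h (Sum.inl 0)) ∘ σ := by
    funext j
    simp only [Function.comp_apply]
    by_cases hj : j = Sum.inl 0
    · subst hj
      rw [s0, H1]
      rfl
    · rw [H2 _ _ hj, H2 _ (σ j) (by rw [Ne, hsig0]; exact hj)]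
      rfl
  unfold gT
  conv_rhs => rw [← S.tot_equiv σ']
  rw [g_mul, g_mul, g_mul, g_pair, g_pair, S.map_map, S.map_map, e1, e2]
  rw [← S.map_map σ (Sum.inl ∘ h i), ← S.map_map σ (Sum.map Sum.inl id ∘ h (Sum.inl 0)), hs σ]
  have e3 : σ' (Sum.inl (Sum.inl (Sum.inl 1))) = Sum.inl (Sum.inl i) := by
    rw [← s1]
    rfl
  have e4 : σ' (Sum.inl (Sum.inl (Sum.inl 0))) = Sum.inl (Sum.inl (Sum.inl 0)) := by
    conv_rhs => rw [← s0]
    rfl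
  have e5 : σ' (Sum.inl (Sum.inr ())) = Sum.inl (Sum.inr ()) := rfl
  have e6 : σ' (Sum.inr ()) = Sum.inr () := rfl
  rw [e3, e4, e5, e6]

theorem g_Y (H1 : ∀ i, h i i = Sum.inr ()) (H2 : ∀ i j, j ≠ i → h i j = Sum.inl j)
    (Q : S.C (Fin 4)) (hQ : S.IsQ τ Q) : S.Y w z Q = gT S w z τ h (Sum.inl 1) := by
  unfold Sys.Y gT
  rw [hQ (Fin 4) ![2, 1, 3, 0], ← S.tot_equiv (gEqY J)]
  congr 1
  simp only [g_mul, S.map_map]
  have e1 : (gEqY J : Fin 4 ⊕ J → ((Fin 2 ⊕ J) ⊕ Unit) ⊕ Unit) ∘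
      Sum.elim (Sum.inl ∘ ![(![2, 1, 3, 0] : Fin 4 → Fin 4) 0, (![2, 1, 3, 0] : Fin 4 → Fin 4) 1])
        Sum.inr = Sum.inl ∘ h (Sum.inl 1) := by
    funext i
    rcases i with i | i
    · fin_cases i
      · exact congrArg Sum.inl (H2 (Sum.inl 1) (Sum.inl 0) (by simp)).symm
      · exact congrArg Sum.inl (H1 (Sum.inl 1)).symm
    · exact congrArg Sum.inl (H2 (Sum.inl 1) (Sum.inr i) (by simp)).symm
  have e2 : (gEqY J : Fin 4 ⊕ J → ((Fin 2 ⊕ J) ⊕ Unit) ⊕ Unit) ∘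
      Sum.elim (Sum.inl ∘ ![(![2, 1, 3, 0] : Fin 4 → Fin 4) 2, (![2, 1, 3, 0] : Fin 4 → Fin 4) 3])
        Sum.inr = Sum.map Sum.inl id ∘ h (Sum.inl 0) := by
    funext i
    rcases i with i | i
    · fin_cases i
      · exact congrArg (Sum.map Sum.inl id) (H1 (Sum.inl 0)).symm
      · exact congrArg (Sum.map Sum.inl id) (H2 (Sum.inl 0) (Sum.inl 1) (by simp)).symm
    · exact congrArg (Sum.map Sum.inl id) (H2 (Sum.inl 0) (Sum.inr i) (by simp)).symm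
  rw [e1, e2]
  have e3 : (gEqY J : Fin 4 ⊕ J → ((Fin 2 ⊕ J) ⊕ Unit) ⊕ Unit) ∘ Sum.inl ∘ ![0, 1] =
      ![Sum.inl (Sum.inl (Sum.inl 1)), Sum.inl (Sum.inr ())] := by
    funext i
    fin_cases i <;> rfl
  have e4 : (gEqY J : Fin 4 ⊕ J → ((Fin 2 ⊕ J) ⊕ Unit) ⊕ Unit) ∘ Sum.inl ∘ ![2, 3] =
      ![Sum.inl (Sum.inl (Sum.inl 0)), Sum.inr ()] := by
    funext i
    fin_cases i <;> rfl
  rw [e3, e4]
  ring

theorem g_X (H1 : ∀ i, h i i = Sum.inr ()) (H2 : ∀ i j, j ≠ i → h i j = Sum.inl j)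
    (hτ : τ ∈ S.T (Fin 2 ⊕ J)) (Q : S.C (Fin 4)) (hQ : S.IsQ τ Q) :
    S.X w z Q = gT S w z τ h (Sum.inl 0) := by
  unfold Sys.X gT
  rw [hQ (Fin 5) ![1, 3, 2, 4]]
  have e := S.elim (S.abs τ hτ) (Sum.map Fin.castSucc id : Fin 4 ⊕ J → Fin 5 ⊕ J)
    (Sum.inl 4) (g_bij J)
    (S.map ![Sum.inl 0, Sum.inl 1] w * S.map ![Sum.inl 0, Sum.inl 2] z *
      S.map (Sum.elim (Sum.inl ∘ ![1, 3]) Sum.inr) τ)
    (Sum.elim (Sum.inl ∘ ![2, 3]) Sum.inr) (Sum.elim (Sum.inl ∘ ![2, 4]) Sum.inr)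
    (Sum.inl 1) rfl (by
      rintro (j | j) hj
      · fin_cases j
        · rfl
        · exact absurd rfl hj
      · rfl)
  have f1 : (Sum.map Fin.castSucc id : Fin 4 ⊕ J → Fin 5 ⊕ J) ∘
      (Sum.elim (Sum.inl ∘ ![1, 3]) Sum.inr : Fin 2 ⊕ J → Fin 4 ⊕ J) =
      Sum.elim (Sum.inl ∘ ![1, 3]) Sum.inr := by
    funext i
    rcases i with i | i
    · fin_cases i <;> rfl
    · rfl
  rw [g_mul, g_mul, g_pair, g_pair, S.map_map, f1] at e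
  have f2 : S.map ![Sum.map Fin.castSucc id ((Sum.elim (Sum.inl ∘ ![2, 3]) Sum.inr :
      Fin 2 ⊕ J → Fin 4 ⊕ J) (Sum.inl 1)), (Sum.inl 4 : Fin 5 ⊕ J)] S.e =
      S.map ![Sum.inl 3, Sum.inl 4] S.e := rfl
  have f3 : S.map ![Sum.map Fin.castSucc id (Sum.inl 0 : Fin 4 ⊕ J),
      (Sum.map Fin.castSucc id (Sum.inl 1 : Fin 4 ⊕ J) : Fin 5 ⊕ J)] w =
      S.map ![Sum.inl 0, Sum.inl 1] w := rfl
  have f4 : S.map ![Sum.map Fin.castSucc id (Sum.inl 0 : Fin 4 ⊕ J),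
      (Sum.map Fin.castSucc id (Sum.inl 2 : Fin 4 ⊕ J) : Fin 5 ⊕ J)] z =
      S.map ![Sum.inl 0, Sum.inl 2] z := rfl
  rw [f2, f3, f4] at e
  have g1 : S.map Sum.inl (S.map ![0, 1] w * S.map ![0, 2] z * S.map ![3, 4] S.e) *
      (S.map (Sum.elim (Sum.inl ∘ ![(![1, 3, 2, 4] : Fin 4 → Fin 5) 0,
        (![1, 3, 2, 4] : Fin 4 → Fin 5) 1]) Sum.inr : Fin 2 ⊕ J → Fin 5 ⊕ J) τ *
      S.map (Sum.elim (Sum.inl ∘ ![(![1, 3, 2, 4] : Fin 4 → Fin 5) 2,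
        (![1, 3, 2, 4] : Fin 4 → Fin 5) 3]) Sum.inr : Fin 2 ⊕ J → Fin 5 ⊕ J) τ) =
      S.map ![Sum.inl 0, Sum.inl 1] w * S.map ![Sum.inl 0, Sum.inl 2] z *
        S.map (Sum.elim (Sum.inl ∘ ![1, 3]) Sum.inr) τ *
        (S.map ![Sum.inl 3, Sum.inl 4] S.e * S.map (Sum.elim (Sum.inl ∘ ![2, 4]) Sum.inr) τ) := by
    simp only [g_mul, g_pair]
    have h1 : (![1, 3, 2, 4] : Fin 4 → Fin 5) 0 = 1 := rfl
    have h2 : (![1, 3, 2, 4] : Fin 4 → Fin 5) 1 = 3 := rfl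
    have h3 : (![1, 3, 2, 4] : Fin 4 → Fin 5) 2 = 2 := rfl
    have h4 : (![1, 3, 2, 4] : Fin 4 → Fin 5) 3 = 4 := rfl
    rw [h1, h2, h3, h4]
    ring
  rw [g1, e, ← S.tot_equiv (gEqX J)]
  congr 1
  simp only [g_mul, S.map_map]
  have e1 : (gEqX J : Fin 4 ⊕ J → ((Fin 2 ⊕ J) ⊕ Unit) ⊕ Unit) ∘
      Sum.elim (Sum.inl ∘ ![1, 3]) Sum.inr = Sum.inl ∘ h (Sum.inl 0) := by
    funext i
    rcases i with i | i
    · fin_cases i
      · exact congrArg Sum.inl (H1 (Sum.inl 0)).symm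
      · exact congrArg Sum.inl (H2 (Sum.inl 0) (Sum.inl 1) (by simp)).symm
    · exact congrArg Sum.inl (H2 (Sum.inl 0) (Sum.inr i) (by simp)).symm
  have e2 : (gEqX J : Fin 4 ⊕ J → ((Fin 2 ⊕ J) ⊕ Unit) ⊕ Unit) ∘
      Sum.elim (Sum.inl ∘ ![2, 3]) Sum.inr = Sum.map Sum.inl id ∘ h (Sum.inl 0) := by
    funext i
    rcases i with i | i
    · fin_cases i
      · exact congrArg (Sum.map Sum.inl id) (H1 (Sum.inl 0)).symm
      · exact congrArg (Sum.map Sum.inl id) (H2 (Sum.inl 0) (Sum.inl 1) (by simp)).symm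
    · exact congrArg (Sum.map Sum.inl id) (H2 (Sum.inl 0) (Sum.inr i) (by simp)).symm
  rw [e1, e2]
  have e3 : (gEqX J : Fin 4 ⊕ J → ((Fin 2 ⊕ J) ⊕ Unit) ⊕ Unit) ∘ ![Sum.inl 0, Sum.inl 1] =
      ![Sum.inl (Sum.inl (Sum.inl 0)), Sum.inl (Sum.inr ())] := by
    funext i
    fin_cases i <;> rfl
  have e4 : (gEqX J : Fin 4 ⊕ J → ((Fin 2 ⊕ J) ⊕ Unit) ⊕ Unit) ∘ ![Sum.inl 0, Sum.inl 2] =
      ![Sum.inl (Sum.inl (Sum.inl 0)), Sum.inr ()] := by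
    funext i
    fin_cases i <;> rfl
  rw [e3, e4]
  ring

end g

theorem tG : S_G := by
  classical
  intro K _ S w hw J _ τ hτ hs Q hQ z
  let h : Fin 2 ⊕ J → Fin 2 ⊕ J → (Fin 2 ⊕ J) ⊕ Unit :=
    fun i j => if j = i then Sum.inr () else Sum.inl j
  have H1 : ∀ i, h i i = Sum.inr () := fun i => if_pos rfl
  have H2 : ∀ i j, j ≠ i → h i j = Sum.inl j := fun i j hj => if_neg hj
  let R : S.C ((Fin 2 ⊕ J) ⊕ Unit) :=
    S.map ![Sum.inl (Sum.inl 0), Sum.inr ()] z * S.map (h (Sum.inl 0)) τ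
  have hd := hw.deg τ hτ (S.int (Fin 2 ⊕ J) Unit R) h H1 H2
  have key : ∀ i, S.tot ((Fin 2 ⊕ J) ⊕ Unit) (S.map Sum.inl (S.int (Fin 2 ⊕ J) Unit R) *
      (S.map ![Sum.inl i, Sum.inr ()] w * S.map (h i) τ)) = gT S w z τ h i := by
    intro i
    rw [mul_comm, S.sub]
    unfold gT
    simp only [R, g_mul, S.map_map]
    have e1 : (Sum.inl ∘ ![Sum.inl i, Sum.inr ()] :
        Fin 2 → ((Fin 2 ⊕ J) ⊕ Unit) ⊕ Unit) =
        ![Sum.inl (Sum.inl i), Sum.inl (Sum.inr ())] := by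
      funext k
      fin_cases k <;> rfl
    have e2 : ((Sum.map Sum.inl id : (Fin 2 ⊕ J) ⊕ Unit → ((Fin 2 ⊕ J) ⊕ Unit) ⊕ Unit) ∘
        ![Sum.inl (Sum.inl 0), Sum.inr ()]) =
        ![Sum.inl (Sum.inl (Sum.inl 0)), Sum.inr ()] := by
      funext k
      fin_cases k <;> rfl
    rw [e1, e2]
  simp only [key] at hd
  rw [Fintype.sum_sum_type, Fin.sum_univ_two] at hd
  have hc : ∀ j : J, gT S w z τ h (Sum.inr j) = gT S w z τ h (Sum.inl 1) :=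
    fun j => g_swap S w z τ h H1 H2 hs _ (by simp)
  simp only [hc, Finset.sum_const, Finset.card_univ, nsmul_eq_mul] at hd
  rw [g_X S w z τ h H1 H2 hτ Q hQ, g_Y S w z τ h H1 H2 Q hQ]
  linear_combination hd

end Pool.Agent.Lib.MP_4ca46c_ag.Nil
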