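import Pool.Agent.Lib.MP_4ca46c_ag.Nil.SpecD
import Pool.Agent.Lib.MP_4ca46c_ag.Nil.G

set_option autoImplicit false

namespace Pool.Agent.Lib.MP_4ca46c_ag.Nil

section g2

variable {K : Type} [Field K] (S : Sys K)
variable {J : Type} [Finite J] (w z : S.C (Fin 2)) (ρ : S.C (Fin 2 ⊕ J))
  (h : Fin 2 ⊕ J → Fin 2 ⊕ J → (Fin 2 ⊕ J) ⊕ Unit)

include S in
/-- renaming of the variables by a transposition of two places different from the first one -/
theorem g2_gen [DecidableEq J] (H1 : ∀ i, h i i = Sum.inr ()) (H2 : ∀ i j, j ≠ i → h i j = Sum.inl j)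
    (i i' : Fin 2 ⊕ J) (hi : i ≠ Sum.inl 0) (hi' : i' ≠ Sum.inl 0) :
    gT S w z (S.map (Equiv.swap i' i) ρ) h i' = gT S w z ρ h i := by
  have s1 : Equiv.swap i' i i' = i := Equiv.swap_apply_left _ _
  have s0 : Equiv.swap i' i (Sum.inl 0) = Sum.inl 0 :=
    Equiv.swap_apply_of_ne_of_ne hi'.symm hi.symm
  have hinv : ∀ j, Equiv.swap i' i (Equiv.swap i' i j) = j := Equiv.swap_apply_self _ _
  have hsig : ∀ j, Equiv.swap i' i j = i' ↔ j = i := by
    intro j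
    constructor
    · intro hj
      rw [← hinv j, hj, s1]
    · intro hj
      rw [hj]
      exact Equiv.swap_apply_right _ _
  have hsig0 : ∀ j, Equiv.swap i' i j = Sum.inl 0 ↔ j = Sum.inl 0 := by
    intro j
    conv_lhs => rw [← s0]
    rw [(Equiv.swap i' i).injective.eq_iff]
  let σ' : Equiv.Perm (((Fin 2 ⊕ J) ⊕ Unit) ⊕ Unit) :=
    Equiv.sumCongr (Equiv.sumCongr (Equiv.swap i' i) 1) 1
  have e1 : σ' ∘ ((Sum.inl ∘ h i') ∘ Equiv.swap i' i) = Sum.inl ∘ h i := by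
    funext j
    simp only [Function.comp_apply]
    by_cases hj : j = i
    · rw [hj, (hsig i).2 rfl, H1, H1]
      rfl
    · rw [H2 _ _ (fun hc => hj ((hsig j).1 hc)), H2 _ _ hj]
      have : σ' (Sum.inl (Sum.inl (Equiv.swap i' i j))) =
          Sum.inl (Sum.inl (Equiv.swap i' i (Equiv.swap i' i j))) := rfl
      rw [this, hinv]
  have e2 : σ' ∘ ((Sum.map Sum.inl id ∘ h (Sum.inl 0)) ∘ Equiv.swap i' i) =
      Sum.map Sum.inl id ∘ h (Sum.inl 0) := by
    funext j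
    simp only [Function.comp_apply]
    by_cases hj : j = Sum.inl 0
    · subst hj
      rw [s0, H1]
      rfl
    · rw [H2 _ _ (fun hc => hj ((hsig0 j).1 hc)), H2 _ _ hj]
      have : σ' (Sum.map Sum.inl id (Sum.inl (Equiv.swap i' i j) : (Fin 2 ⊕ J) ⊕ Unit)) =
          Sum.inl (Sum.inl (Equiv.swap i' i (Equiv.swap i' i j))) := rfl
      rw [this, hinv]
      rfl
  unfold gT
  rw [← S.tot_equiv σ']
  rw [g_mul, g_mul, g_mul, g_pair, g_pair]
  rw [S.map_map (Equiv.swap i' i) (Sum.inl ∘ h i'),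
    S.map_map (Equiv.swap i' i) (Sum.map Sum.inl id ∘ h (Sum.inl 0)), S.map_map, S.map_map, e1, e2]
  have e3 : σ' (Sum.inl (Sum.inl i')) = Sum.inl (Sum.inl i) := by
    have : σ' (Sum.inl (Sum.inl i')) = Sum.inl (Sum.inl (Equiv.swap i' i i')) := rfl
    rw [this, s1]
  have e4 : σ' (Sum.inl (Sum.inl (Sum.inl 0))) = Sum.inl (Sum.inl (Sum.inl 0)) := by
    have : σ' (Sum.inl (Sum.inl (Sum.inl 0))) =
        Sum.inl (Sum.inl (Equiv.swap i' i (Sum.inl 0))) := rfl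
    rw [this, s0]
  have e5 : σ' (Sum.inl (Sum.inr ())) = Sum.inl (Sum.inr ()) := rfl
  have e6 : σ' (Sum.inr ()) = Sum.inr () := rfl
  rw [e3, e4, e5, e6]

theorem g2_neg (i : Fin 2 ⊕ J) : gT S w z (-ρ) h i = gT S w z ρ h i := by
  unfold gT
  congr 1
  rw [map_neg, map_neg]
  ring

theorem g2_eq [DecidableEq J] (H1 : ∀ i, h i i = Sum.inr ()) (H2 : ∀ i j, j ≠ i → h i j = Sum.inl j)
    (i i' : Fin 2 ⊕ J) (hi : i ≠ Sum.inl 0) (hi' : i' ≠ Sum.inl 0)
    (hs : S.map (Equiv.swap i' i) ρ = -ρ) : gT S w z ρ h i = gT S w z ρ h i' := by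
  rw [← g2_gen S w z ρ h H1 H2 i i' hi hi', hs, g2_neg]

end g2

theorem tG2 : S_G2 := by
  classical
  intro K _ S w hw J _ _ c ρ hρ hT Q hQ j₀ hj₀ Q₁ hQ₁ z
  let h : Fin 2 ⊕ J → Fin 2 ⊕ J → (Fin 2 ⊕ J) ⊕ Unit :=
    fun i j => if j = i then Sum.inr () else Sum.inl j
  have H1 : ∀ i, h i i = Sum.inr () := fun i => if_pos rfl
  have H2 : ∀ i j, j ≠ i → h i j = Sum.inl j := fun i j hj => if_neg hj
  let R : S.C ((Fin 2 ⊕ J) ⊕ Unit) :=
    S.map ![Sum.inl (Sum.inl 0), Sum.inr ()] z * S.map (h (Sum.inl 0)) ρ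
  have hd := hw.deg ρ hρ (S.int (Fin 2 ⊕ J) Unit R) h H1 H2
  have key : ∀ i, S.tot ((Fin 2 ⊕ J) ⊕ Unit) (S.map Sum.inl (S.int (Fin 2 ⊕ J) Unit R) *
      (S.map ![Sum.inl i, Sum.inr ()] w * S.map (h i) ρ)) = gT S w z ρ h i := by
    intro i
    rw [mul_comm, S.sub]
    unfold gT
    simp only [R, g_mul, S.map_map]
    have e1 : (Sum.inl ∘ ![Sum.inl i, Sum.inr ()] :
        Fin 2 → ((Fin 2 ⊕ J) ⊕ Unit) ⊕ Unit) =
        ![Sum.inl (Sum.inl i), Sum.inl (Sum.inr ())] := by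
      funext k
      fin_cases k <;> rfl
    have e2 : ((Sum.map Sum.inl id : (Fin 2 ⊕ J) ⊕ Unit → ((Fin 2 ⊕ J) ⊕ Unit) ⊕ Unit) ∘
        ![Sum.inl (Sum.inl 0), Sum.inr ()]) =
        ![Sum.inl (Sum.inl (Sum.inl 0)), Sum.inr ()] := by
      funext k
      fin_cases k <;> rfl
    rw [e1, e2]
  simp only [key] at hd
  rw [Fintype.sum_sum_type, Fin.sum_univ_two] at hd
  -- the column of the first variable
  have hf : ∀ j : J, c j = false → gT S w z ρ h (Sum.inr j) = S.Y w z Q₁ := by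
    intro j hj
    have h1 : gT S w z ρ h (Sum.inr j) = gT S w z ρ h (Sum.inr j₀) := by
      by_cases hjj : j = j₀
      · rw [hjj]
      · refine g2_eq S w z ρ h H1 H2 (Sum.inr j) (Sum.inr j₀) (by simp) (by simp) ?_
        refine hT.alt (Sum.inr j₀) (Sum.inr j) (fun hc => hjj (Sum.inr_injective hc).symm) ?_
        change c j₀ = c j
        rw [hj₀, hj]
    rw [h1, g_Y S w z _ h H1 H2 Q₁ hQ₁]
    exact (g2_gen S w z ρ h H1 H2 (Sum.inr j₀) (Sum.inl 1) (by simp) (by simp)).symm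
  have ht : ∀ j : J, c j = true → gT S w z ρ h (Sum.inr j) = S.Y w z Q := by
    intro j hj
    rw [g_Y S w z ρ h H1 H2 Q hQ]
    refine g2_eq S w z ρ h H1 H2 (Sum.inr j) (Sum.inl 1) (by simp) (by simp) ?_
    refine hT.alt (Sum.inl 1) (Sum.inr j) (by simp) ?_
    change true = c j
    rw [hj]
  have hsum : ∑ j : J, gT S w z ρ h (Sum.inr j) =
      ncol c false * S.Y w z Q₁ + ncol c true * S.Y w z Q := by
    have h1 : ∀ j : J, gT S w z ρ h (Sum.inr j) =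
        (if c j = false then S.Y w z Q₁ else 0) + (if c j = true then S.Y w z Q else 0) := by
      intro j
      cases hj : c j
      · rw [if_pos rfl, if_neg (by simp), add_zero, hf j hj]
      · rw [if_neg (by simp), if_pos rfl, zero_add, ht j hj]
    simp only [h1]
    rw [Finset.sum_add_distrib, ← Finset.sum_filter, ← Finset.sum_filter, Finset.sum_const,
      Finset.sum_const, nsmul_eq_mul, nsmul_eq_mul]
    rfl
  rw [hsum, ← g_X S w z ρ h H1 H2 hρ Q hQ, ← g_Y S w z ρ h H1 H2 Q hQ] at hd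
  linear_combination hd

end Pool.Agent.Lib.MP_4ca46c_ag.Nil
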