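import Pool.Agent.Lib.MP_4ca46c_ag.Nil.SpecF

/-!
# The numerically trivial class
-/

set_option autoImplicit false

namespace Pool.Agent.Lib.MP_4ca46c_ag.Nil

theorem gam_map_symm_map {K : Type} [Field K] (S : Sys K) {ι κ : Type} [Finite ι] [Finite κ]
    (f : ι ≃ κ) (u : S.C ι) : S.map f.symm (S.map f u) = u := by
  rw [S.map_map, Equiv.symm_comp_self, S.map_id]

theorem gam_tot_symm {K : Type} [Field K] (S : Sys K) {ι κ : Type} [Finite ι] [Finite κ]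
    (f : ι ≃ κ) (u : S.C ι) (v : S.C κ) :
    S.tot κ (S.map f u * v) = S.tot ι (u * S.map f.symm v) := by
  rw [← S.tot_equiv f.symm (S.map f u * v), map_mul, gam_map_symm_map]

theorem gam_sym_sum {K : Type} [Field K] (S : Sys K) {ι : Type} [Fintype ι] [DecidableEq ι]
    (g : S.C ι) : S.Sym (∑ σ : Equiv.Perm ι, S.map σ g) := by
  intro τ
  rw [map_sum]
  rw [← Equiv.sum_comp (Equiv.mulLeft τ) (fun σ : Equiv.Perm ι => S.map σ g)]
  refine Finset.sum_congr rfl fun σ _ => ?_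
  rw [S.map_map]
  rfl

theorem gam_sym_transport {K : Type} [Field K] (S : Sys K) {ι κ : Type} [Finite ι] [Finite κ]
    (f : ι ≃ κ) (u : S.C ι) (hu : S.Sym u) : S.Sym (S.map f u) := by
  intro σ
  have h := hu (f.trans (σ.trans f.symm))
  conv_rhs => rw [← h]
  rw [S.map_map, S.map_map]
  have e : (⇑σ ∘ ⇑f : ι → κ) = ⇑f ∘ ⇑(f.trans (σ.trans f.symm)) := by
    funext i
    simp
  rw [e]

theorem tGam (h1 : S_Chain) (h2 : S_EE) : S_Gam := by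
  intro K _ _ S w hw hw0 m hm
  obtain ⟨_, φ, hφ⟩ := h2 K S (m + 1)
  have hEF : S.EF (m + 1) ∈ S.T (Fin (m + 1) ⊕ Fin (m + 1)) := by
    rw [← hφ]
    exact S.T_equiv φ _ (h2 K S (m + 1)).1
  refine ⟨Submodule.sum_mem _ fun σ _ => S.T_equiv σ _ hEF, ?_⟩
  intro g hg
  let ρ' : S.C (Fin (m + 1) ⊕ Fin (m + 1)) :=
    ∑ σ : Equiv.Perm (Fin (m + 1) ⊕ Fin (m + 1)), S.map σ g
  have hρT : ρ' ∈ S.T (Fin (m + 1) ⊕ Fin (m + 1)) :=
    Submodule.sum_mem _ fun σ _ => S.T_equiv σ _ hg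
  have hρS : S.Sym ρ' := gam_sym_sum S g
  have e1 : S.tot (Fin (m + 1) ⊕ Fin (m + 1)) (S.Gam (m + 1) * g) =
      S.tot (Fin (m + 1) ⊕ Fin (m + 1)) (S.EF (m + 1) * ρ') := by
    unfold Sys.Gam
    rw [Finset.sum_mul, map_sum, Finset.mul_sum, map_sum]
    rw [← Equiv.sum_comp (Equiv.inv (Equiv.Perm (Fin (m + 1) ⊕ Fin (m + 1))))
      (fun σ => S.tot (Fin (m + 1) ⊕ Fin (m + 1)) (S.EF (m + 1) * S.map σ g))]
    refine Finset.sum_congr rfl fun σ _ => ?_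
    exact gam_tot_symm S σ (S.EF (m + 1)) g
  rw [e1, ← hφ, gam_tot_symm, mul_comm]
  exact h1 K S w hw hw0 m hm _ (S.T_equiv φ.symm _ hρT) (gam_sym_transport S φ.symm ρ' hρS)

end Pool.Agent.Lib.MP_4ca46c_ag.Nil
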