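import Pool.Agent.Lib.MP_4ca46c_ag.Nil.SpecD

/-!
# The Garnir relation and the scalar product
-/

set_option autoImplicit false

namespace Pool.Agent.Lib.MP_4ca46c_ag.Nil

theorem gar_card {J : Type} [Fintype J] (c : J → Bool) :
    (Finset.univ.filter fun x : Fin 2 ⊕ J => colS c x = false).card = ncol c false + 1 := by
  rw [Finset.card_filter, Fintype.sum_sum_type, Fin.sum_univ_two]
  unfold ncol
  rw [Finset.card_filter]
  simp only [colS, Sum.elim_inl, Sum.elim_inr, Matrix.cons_val_zero, Matrix.cons_val_one,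
    if_true, Bool.true_eq_false, if_false, add_zero]
  rw [add_comm]
  congr 1

theorem gar_term {K : Type} [Field K] (S : Sys K) {V : Type} [Fintype V] [DecidableEq V]
    (ρ : S.C V) (a b x : V) (hab : a ≠ b) (hxb : x ≠ b)
    (h : S.map (Equiv.swap a x) ρ = -ρ) :
    S.tot V (ρ * S.map (Equiv.swap x b) ρ) = S.tot V (ρ * S.map (Equiv.swap a b) ρ) := by
  have h1 : (Equiv.swap a x : V → V) ∘ (Equiv.swap x b : V → V) =
      (Equiv.swap a b : V → V) ∘ (Equiv.swap a x : V → V) := by
    have h2 : Equiv.swap a x * Equiv.swap x b = Equiv.swap a b * Equiv.swap a x := by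
      rw [Equiv.mul_swap_eq_swap_mul, Equiv.swap_apply_right,
        Equiv.swap_apply_of_ne_of_ne hab.symm hxb.symm]
    funext y
    exact congrArg (fun σ : Equiv.Perm V => σ y) h2
  rw [← S.tot_equiv (Equiv.swap a x), map_mul, h, S.map_map, h1, ← S.map_map, h, map_neg,
    neg_mul_neg]

/-- **The Garnir relation and the scalar product.** -/
theorem tGar : S_Gar := by
  intro K _ S J _ _ c ρ h
  have hg := h.garnir (Sum.inl 1) rfl
  have h0 : S.tot (Fin 2 ⊕ J) (ρ * ρ) = S.tot (Fin 2 ⊕ J)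
      (ρ * ∑ x with colS c x = false, S.map (Equiv.swap x (Sum.inl 1)) ρ) := by
    rw [hg]
  have h1 : ∀ x ∈ Finset.univ.filter (fun x : Fin 2 ⊕ J => colS c x = false),
      S.tot (Fin 2 ⊕ J) (ρ * S.map (Equiv.swap x (Sum.inl 1)) ρ) =
        S.tot (Fin 2 ⊕ J) (ρ * S.map (Equiv.swap (Sum.inl 0) (Sum.inl 1)) ρ) := by
    intro x hx
    have hx := (Finset.mem_filter.mp hx).2
    by_cases hxa : x = Sum.inl 0
    · rw [hxa]
    · refine gar_term S ρ (Sum.inl 0) (Sum.inl 1) x (by simp) ?_ ?_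
      · rintro rfl
        simp [colS] at hx
      · exact h.alt (Sum.inl 0) x (Ne.symm hxa) (by rw [hx]; rfl)
  rw [h0, Finset.mul_sum, map_sum, Finset.sum_congr rfl h1, Finset.sum_const, gar_card,
    nsmul_eq_mul]
  push_cast
  rfl

end Pool.Agent.Lib.MP_4ca46c_ag.Nil
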