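import Pool.Agent.Lib.MP_4ca46c_ag.Nil.SpecL

/-!
# The numerically trivial operators form an ideal
-/

set_option autoImplicit false

namespace Pool.Agent.Lib.MP_4ca46c_ag.Nil

open Module TensorProduct LinearMap Pool.Agent.Lib.MP_4ca46c_ag.Sign

/-- algebraic operators commute with the sign operator -/
theorem idl_comm {K V : Type} [Field K] [AddCommGroup V] [Module K V] {n : ℕ}
    {pr : ℤ → Module.End K V} {A : ℤ → AddSubgroup (Module.End K V)}
    (out : ∀ i, i < 0 ∨ 2 * (n : ℤ) < i → pr i = 0) (hA : RatAlg pr A) {s : ℤ}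
    {h : Module.End K V} (hh : h ∈ A s) : h * sgn n pr = sgn n pr * h := by
  classical
  let F : ℤ → Module.End K V := fun i => (if Even i then (1 : K) else -1) • (pr i * h)
  have h1 : h * sgn n pr = ∑ i ∈ Finset.Icc (0 : ℤ) (2 * n), F (i + 2 * s) := by
    rw [sgn, Finset.mul_sum]
    refine Finset.sum_congr rfl fun i _ => ?_
    have he : Even (i + 2 * s) ↔ Even i := by
      rw [Int.even_add]
      simp
    rw [mul_smul_comm, hA.comm s h hh i]
    simp only [F, he]
  have h2 : sgn n pr * h = ∑ i ∈ Finset.Icc (0 : ℤ) (2 * n), F i := by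
    rw [sgn, Finset.sum_mul]
    refine Finset.sum_congr rfl fun i _ => ?_
    rw [smul_mul_assoc]
  have h3 : ∑ᶠ i : ℤ, F (i + 2 * s) = ∑ i ∈ Finset.Icc (0 : ℤ) (2 * n), F (i + 2 * s) := by
    refine finsum_eq_sum_of_support_subset _ fun i hi => ?_
    by_contra hc
    apply hi
    have h0 : pr i = 0 := by
      apply out
      simp only [Finset.coe_Icc, Set.mem_Icc, not_and_or, not_le] at hc
      exact hc
    simp only [F]
    rw [← hA.comm s h hh i, h0, mul_zero, smul_zero]
  have h4 : ∑ᶠ i : ℤ, F i = ∑ i ∈ Finset.Icc (0 : ℤ) (2 * n), F i := by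
    refine finsum_eq_sum_of_support_subset _ fun i hi => ?_
    by_contra hc
    apply hi
    have h0 : pr i = 0 := by
      apply out
      simp only [Finset.coe_Icc, Set.mem_Icc, not_and_or, not_le] at hc
      exact hc
    simp only [F]
    rw [h0, zero_mul, smul_zero]
  rw [h1, h2, ← h3, ← h4]
  exact finsum_comp_equiv (Equiv.addRight (2 * s)) (f := F)

theorem tIdl : S_Idl := by
  intro K V _ _ _ _ n pr A out hA r s f g hf hg
  refine ⟨⟨hA.mul s r g hg f hf.1, fun h hh => ?_⟩, ⟨hA.mul r s f hf.1 g hg, fun h hh => ?_⟩⟩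
  · have h1 := hA.mul _ _ h hh g hg
    have e : -(s + r) + s = -r := by ring
    rw [e] at h1
    rw [← mul_assoc h g f]
    exact hf.2 _ h1
  · have h1 := hA.mul _ _ g hg h hh
    have e : s + -(r + s) = -r := by ring
    rw [e] at h1
    have h2 : h * (f * g) * sgn n pr = h * f * sgn n pr * g := by
      simp only [mul_assoc]
      rw [idl_comm out hA hg]
    rw [h2, LinearMap.trace_mul_comm]
    have h3 : g * (h * f * sgn n pr) = g * h * f * sgn n pr := by
      simp only [mul_assoc]
    rw [h3]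
    exact hf.2 _ h1

end Pool.Agent.Lib.MP_4ca46c_ag.Nil
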