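import Pool.Agent.Lib.MP_4ca46c_ag.Nil.Idl

/-!
# Splitting of the identity
-/

set_option autoImplicit false

namespace Pool.Agent.Lib.MP_4ca46c_ag.Nil

open Module TensorProduct LinearMap Pool.Agent.Lib.MP_4ca46c_ag.Sign

section

variable {K V : Type} [Field K] [AddCommGroup V] [Module K V] {n : ℕ} {pr : ℤ → Module.End K V}
  {L : Module.End K V} {A : ℤ → AddSubgroup (Module.End K V)}

theorem k12_mul (hA : RatAlg pr A) {r s t : ℤ} {f g : Module.End K V} (hf : f ∈ A r)
    (hg : g ∈ A s) (h : r + s = t) : f * g ∈ A t := h ▸ hA.mul r s f hf g hg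

theorem k12_comm0 (hA : RatAlg pr A) {f : Module.End K V} (hf : f ∈ A 0) (j : ℤ) :
    f * pr j = pr j * f := by
  have h := hA.comm 0 f hf j
  rwa [mul_zero, add_zero] at h

theorem k12_pow (hA : RatAlg pr A) (hL : L ∈ A 1) (m : ℕ) : L ^ m ∈ A m := by
  induction m with
  | zero =>
    rw [pow_zero, Nat.cast_zero]
    exact hA.one
  | succ m ih =>
    rw [pow_succ]
    exact k12_mul hA ih hL (by push_cast; ring)

theorem k12_snum {r r' : ℤ} {ε f : Module.End K V} (h : SNum A ε r f) (e : r = r') :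
    SNum A ε r' f := e ▸ h

/-- the ideals -/
def k12_p (hA : RatAlg pr A) (P : ℤ → Prop) : AddSubgroup (Module.End K V) where
  carrier := {x | x ∈ A 0 ∧ ∀ a ∈ A 0, ∀ j, P j → LinearMap.trace K V (x * a * pr j) = 0}
  add_mem' := by
    rintro x y ⟨hx, hx'⟩ ⟨hy, hy'⟩
    refine ⟨(A 0).add_mem hx hy, fun a ha j hj => ?_⟩
    rw [add_mul, add_mul, map_add, hx' a ha j hj, hy' a ha j hj, add_zero]
  zero_mem' := ⟨(A 0).zero_mem, fun a _ j _ => by rw [zero_mul, zero_mul, map_zero]⟩
  neg_mem' := by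
    rintro x ⟨hx, hx'⟩
    refine ⟨(A 0).neg_mem hx, fun a ha j hj => ?_⟩
    rw [neg_mul, neg_mul, map_neg, hx' a ha j hj, neg_zero]

theorem k12_smul (hA : RatAlg pr A) (P : ℤ → Prop) (q : ℚ) {x : Module.End K V}
    (hx : x ∈ k12_p hA P) : (q : K) • x ∈ k12_p hA P := by
  refine ⟨hA.smul 0 q x hx.1, fun a ha j hj => ?_⟩
  rw [smul_mul_assoc, smul_mul_assoc, map_smul, hx.2 a ha j hj, smul_zero]

theorem k12_left (hA : RatAlg pr A) (P : ℤ → Prop) {x a : Module.End K V}
    (hx : x ∈ k12_p hA P) (ha : a ∈ A 0) : a * x ∈ k12_p hA P := by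
  refine ⟨k12_mul hA ha hx.1 (by ring), fun c hc j hj => ?_⟩
  have h1 : a * x * c * pr j = a * (x * c * pr j) := by simp only [mul_assoc]
  rw [h1, LinearMap.trace_mul_comm]
  have h2 : x * c * pr j * a = x * (c * a) * pr j := by
    rw [mul_assoc (x * c), ← k12_comm0 hA ha]
    simp only [mul_assoc]
  rw [h2]
  exact hx.2 _ (k12_mul hA hc ha (by ring)) j hj

theorem k12_pow_zero (hA : RatAlg pr A) (hl : LefMod n pr L) (hL : L ∈ A 1) :
    L ^ (n + 1) = 0 := by
  have h2 := k12_pow hA hL (n + 1)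
  have h3 : L ^ (n + 1) = ∑ i ∈ Finset.Icc (0 : ℤ) (2 * n), L ^ (n + 1) * pr i := by
    rw [← Finset.mul_sum, hl.sum, mul_one]
  rw [h3]
  refine Finset.sum_eq_zero fun i hi => ?_
  rw [hA.comm _ _ h2, hl.out, zero_mul]
  right
  rw [Finset.mem_Icc] at hi
  push_cast
  omega

theorem k12_tr_nil [FiniteDimensional K V] {f g : Module.End K V} (h : Commute f g)
    (hf : IsNilpotent f) : LinearMap.trace K V (f * g) = 0 :=
  (LinearMap.isNilpotent_trace_of_isNilpotent (h.isNilpotent_mul_right hf)).eq_zero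

end

theorem tK12 (h1 : S_Idl) (h2 : S_Orth) : S_K12 := by
  intro K V _ _ _ _ _ n pr L A B hN hQ
  classical
  have hA : RatAlg pr A := hN.op.ratA
  have hl : LefMod n pr L := hN.op.lef
  have hL1 : L ∈ A 1 := hN.op.L_mem
  set ε : Module.End K V := sgn n pr with hε
  have hcε : ∀ {s : ℤ} {h : Module.End K V}, h ∈ A s → h * ε = ε * h := fun hh =>
    idl_comm hl.out hA hh
  have hidl : ∀ {r s t : ℤ} {f g : Module.End K V}, SNum A ε r f → g ∈ A s → r + s = t →
      SNum A ε t (f * g) := by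
    intro r s t f g hf hg e
    exact k12_snum (h1 K V n pr A hl.out hA r s f g hf hg).2 e
  set S : AddSubgroup (Module.End K V) := k12_p hA Odd ⊔ k12_p hA Even with hS
  have hSM : S ≤ A 0 := sup_le (fun x hx => hx.1) (fun x hx => hx.1)
  have hSq : ∀ (q : ℚ), ∀ f ∈ S, (q : K) • f ∈ S := by
    intro q f hf
    obtain ⟨x, hx, x', hx', rfl⟩ := AddSubgroup.mem_sup.1 hf
    rw [smul_add]
    exact AddSubgroup.mem_sup.2 ⟨_, k12_smul hA Odd q hx, _, k12_smul hA Even q hx', rfl⟩
  have hleft : ∀ a ∈ A 0, ∀ l ∈ S, a * l ∈ S := by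
    intro a ha l hl
    obtain ⟨x, hx, x', hx', rfl⟩ := AddSubgroup.mem_sup.1 hl
    rw [mul_add]
    exact AddSubgroup.mem_sup.2 ⟨_, k12_left hA Odd hx ha, _, k12_left hA Even hx' ha, rfl⟩
  suffices h1S : (1 : Module.End K V) ∈ S by
    obtain ⟨x, hx, x', hx', h⟩ := AddSubgroup.mem_sup.1 h1S
    exact ⟨x, hx.1, x', hx'.1, h, hx.2, hx'.2⟩
  by_contra h1S
  let F : Module.End K V →ₗ[K] K := LinearMap.trace K V ∘ₗ LinearMap.mulRight K ε
  have hFv : ∀ f, F f = LinearMap.trace K V (f * ε) := fun f => rfl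
  obtain ⟨e, heA, he, he1⟩ := h2 K V (A 0) S (hA.smul 0) hSq hSM F
    (fun x hx y hy => hN.op.trace _ (k12_mul hA hx hy (by ring)))
    (fun x hx hxy => by
      have hsn : SNum A ε 0 x := by
        refine ⟨hx, fun g hg => ?_⟩
        rw [neg_zero] at hg
        have h3 := hxy g hg
        rw [hFv, mul_assoc, hcε hg, ← mul_assoc, LinearMap.trace_mul_comm, ← mul_assoc] at h3
        exact h3
      have hp : x ∈ k12_p hA Odd := by
        refine ⟨hx, fun a ha j _ => ?_⟩
        have h3 : SNum A ε 0 (x * a) := hidl hsn ha (by ring)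
        exact k12_tr_nil (k12_comm0 hA h3.1 j) (hN.nilA _ h3)
      exact (le_sup_left : k12_p hA Odd ≤ S) hp) 1 hA.one h1S
  rw [hFv, one_mul] at he1
  have hN0 : ∀ l ∈ S, SNum A ε 0 (l * e) := by
    intro l hl
    refine ⟨k12_mul hA (hSM hl) heA (by ring), fun a ha => ?_⟩
    rw [neg_zero] at ha
    rw [← mul_assoc, ← hFv]
    exact he _ (hleft a ha l hl)
  -- the maximal `r`
  have hmax : ∃ r : ℕ, (∃ (s : ℤ) (x' : Module.End K V), x' ∈ A s ∧
      ¬ SNum A ε (r + s) (L ^ r * x' * e)) ∧ ∀ (s : ℤ) (x' : Module.End K V), x' ∈ A s →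
      SNum A ε ((r + 1 : ℕ) + s) (L ^ (r + 1) * x' * e) := by
    by_contra hcon
    push Not at hcon
    have hall : ∀ r : ℕ, ∃ (s : ℤ) (x' : Module.End K V), x' ∈ A s ∧
      ¬ SNum A ε (r + s) (L ^ r * x' * e) := by
      intro r
      induction r with
      | zero =>
        refine ⟨0, 1, hA.one, fun h => he1 ?_⟩
        have h3 := h.2 1 (by
          have h4 : (-(((0 : ℕ) : ℤ) + 0)) = 0 := by simp
          rw [h4]
          exact hA.one)
        rw [pow_zero, one_mul, one_mul, one_mul] at h3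
        exact h3
      | succ r ih =>
        obtain ⟨s, x', hx', h⟩ := hcon r ih
        exact ⟨s, x', hx', h⟩
    obtain ⟨s, x', hx', h⟩ := hall (n + 1)
    rw [k12_pow_zero hA hl hL1, zero_mul, zero_mul] at h
    refine h ⟨(A _).zero_mem, fun g _ => ?_⟩
    rw [mul_zero, zero_mul, map_zero]
  obtain ⟨r, ⟨s, x', hx', hr⟩, hr'⟩ := hmax
  have hxR : x' * e ∈ A s := k12_mul hA hx' heA (by ring)
  have hLr : L ^ r ∈ A r := k12_pow hA hL1 r
  have hLr1 : L ^ (r + 1) ∈ A ((r : ℤ) + 1) := by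
    have := k12_pow hA hL1 (r + 1)
    rwa [Nat.cast_add, Nat.cast_one] at this
  have hc : ∃ c ∈ A (-(r + s)), LinearMap.trace K V (c * (L ^ r * x' * e) * ε) ≠ 0 := by
    by_contra hcon
    push Not at hcon
    refine hr ⟨?_, hcon⟩
    rw [mul_assoc]
    exact k12_mul hA hLr hxR rfl
  obtain ⟨c, hc, hc1⟩ := hc
  set y : Module.End K V := c * (L ^ r * x' * e) with hy
  have hyA : y ∈ A 0 := by
    have h3 : L ^ r * x' * e ∈ A (r + s) := by
      rw [mul_assoc]
      exact k12_mul hA hLr hxR rfl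
    exact k12_mul hA hc h3 (by ring)
  have hb : c * L ^ r ∈ A (-s) := k12_mul hA hc hLr (by ring)
  have hg : x' * e * c ∈ A (-r) := k12_mul hA hxR hc (by ring)
  have hf : x' * e * c * L ^ r ∈ A 0 := k12_mul hA hg hLr (by ring)
  have hfN : SNum A ε (r + 1) (L ^ (r + 1) * (x' * e * c * L ^ r)) := by
    have h1 : L ^ (r + 1) * (x' * e * c * L ^ r) = L ^ (r + 1) * x' * e * (c * L ^ r) := by
      simp only [mul_assoc]
    rw [h1]
    exact hidl (hr' s x' hx') hb (by push_cast; ring)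
  have hgN : SNum A ε 1 (x' * e * c * L ^ (r + 1)) := by
    refine ⟨k12_mul hA hg hLr1 (by ring), fun y' hy' => ?_⟩
    have h1 : y' * (x' * e * c * L ^ (r + 1)) * ε = (y' * x' * e * c * ε) * L ^ (r + 1) := by
      rw [mul_assoc (y' * x' * e * c) ε, ← hcε hLr1]
      simp only [mul_assoc]
    have h2 : L ^ (r + 1) * (y' * x' * e * c * ε) = 1 * ((L ^ (r + 1) * (y' * x') * e) * c) *
        ε := by
      simp only [mul_assoc, one_mul]
    rw [h1, LinearMap.trace_mul_comm, h2]
    have h3 : SNum A ε 0 ((L ^ (r + 1) * (y' * x') * e) * c) :=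
      hidl (hr' (-1 + s) (y' * x') (k12_mul hA hy' hx' rfl)) hc (by push_cast; ring)
    refine h3.2 1 ?_
    rw [neg_zero]
    exact hA.one
  set l : Module.End K V := c * L ^ r * (x' * e * c) * L ^ r * (x' * e * c * L ^ r) * x' with hl'
  have hle : l * e = y ^ 3 := by
    rw [hl', hy, pow_succ, pow_succ, pow_one]
    simp only [mul_assoc]
  have hlR : l ∈ A 0 := by
    have h1 : c * L ^ r * (x' * e * c) ∈ A (-s + -r) := k12_mul hA hb hg rfl
    have h2 : c * L ^ r * (x' * e * c) * L ^ r ∈ A (-s) := k12_mul hA h1 hLr (by ring)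
    have h3 : c * L ^ r * (x' * e * c) * L ^ r * (x' * e * c * L ^ r) ∈ A (-s) :=
      k12_mul hA h2 hf (by ring)
    exact k12_mul hA h3 hx' (by ring)
  have hltr : ∀ a ∈ A 0, (∀ j, Even j → LinearMap.trace K V (l * a * pr j) = 0) ∨
      (∀ j, Odd j → LinearMap.trace K V (l * a * pr j) = 0) := by
    intro a ha
    have hxa : x' * a ∈ A s := k12_mul hA hx' ha (by ring)
    have hxab : x' * a * (c * L ^ r) ∈ A 0 := k12_mul hA hxa hb (by ring)
    have key : ∀ j, LinearMap.trace K V (l * a * pr j) = LinearMap.trace K V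
        ((x' * e * c) * L ^ r * ((x' * e * c * L ^ r) * (x' * a * (c * L ^ r))) *
          pr (j + 2 * s)) := by
      intro j
      have h1 : l * a * pr j = (c * L ^ r) * ((x' * e * c) * L ^ r * (x' * e * c * L ^ r) *
          (pr (j + 2 * s) * (x' * a))) := by
        rw [← hA.comm s _ hxa, hl']
        simp only [mul_assoc]
      have h2 : ((x' * e * c) * L ^ r * (x' * e * c * L ^ r) *
          (pr (j + 2 * s) * (x' * a))) * (c * L ^ r) =
          (x' * e * c) * L ^ r * ((x' * e * c * L ^ r) * (x' * a * (c * L ^ r))) *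
            pr (j + 2 * s) := by
        rw [mul_assoc _ _ (c * L ^ r), mul_assoc (pr (j + 2 * s)) _ (c * L ^ r),
          ← k12_comm0 hA hxab]
        simp only [mul_assoc]
      rw [h1, LinearMap.trace_mul_comm, h2]
    have hnum : SNum A ε (r + 1) (L ^ (r + 1) * ((x' * e * c * L ^ r) *
        (x' * a * (c * L ^ r)))) := by
      rw [← mul_assoc]
      exact hidl hfN hxab (by ring)
    rcases hQ r _ (k12_mul hA hf hxab (by ring)) _ hg hnum hgN with h | h
    · left
      intro j hj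
      rw [key]
      refine h _ ?_
      exact hj.add (even_two_mul s)
    · right
      intro j hj
      rw [key]
      refine h _ ?_
      exact hj.add_even (even_two_mul s)
  have hlS : l ∈ S := by
    by_contra hcon
    have hE : ¬ ∀ a ∈ A 0, ∀ j, Even j → LinearMap.trace K V (l * a * pr j) = 0 := fun h =>
      hcon ((le_sup_right : k12_p hA Even ≤ S) ⟨hlR, h⟩)
    have hO : ¬ ∀ a ∈ A 0, ∀ j, Odd j → LinearMap.trace K V (l * a * pr j) = 0 := fun h =>
      hcon ((le_sup_left : k12_p hA Odd ≤ S) ⟨hlR, h⟩)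
    push Not at hE hO
    obtain ⟨a, ha, j, hj, hja⟩ := hE
    obtain ⟨b, hb', k, hk, hkb⟩ := hO
    have hao : ∀ j, Odd j → LinearMap.trace K V (l * a * pr j) = 0 :=
      (hltr a ha).resolve_left fun h => hja (h j hj)
    have hbe : ∀ j, Even j → LinearMap.trace K V (l * b * pr j) = 0 :=
      (hltr b hb').resolve_right fun h => hkb (h k hk)
    rcases hltr (a + b) ((A 0).add_mem ha hb') with h | h
    · have h3 := h j hj
      rw [mul_add, add_mul, map_add, hbe j hj, add_zero] at h3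
      exact hja h3
    · have h3 := h k hk
      rw [mul_add, add_mul, map_add, hao k hk, zero_add] at h3
      exact hkb h3
  have h3 := hN.nilA _ (hN0 l hlS)
  rw [hle] at h3
  have h4 : IsNilpotent y := by
    obtain ⟨m, hm⟩ := h3
    exact ⟨3 * m, by rw [pow_mul, hm]⟩
  exact hc1 (k12_tr_nil (hcε hyA) h4)

end Pool.Agent.Lib.MP_4ca46c_ag.Nil
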