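import Pool.Agent.Lib.MP_4ca46c_ag.Nil.SpecL
import Pool.Agent.Lib.MP_4ca46c_ag.Sign.K2

/-!
# The sign operator is algebraic
-/

set_option autoImplicit false

namespace Pool.Agent.Lib.MP_4ca46c_ag.Nil

open Module TensorProduct LinearMap Pool.Agent.Lib.MP_4ca46c_ag.Sign

variable {K V : Type} [Field K] [AddCommGroup V] [Module K V]

/-- powers of algebraic operators of degree zero -/
theorem k22_pow_mem {pr : ℤ → Module.End K V} {A : ℤ → AddSubgroup (Module.End K V)}
    (hA : RatAlg pr A) {f : Module.End K V} (hf : f ∈ A 0) (m : ℕ) : f ^ m ∈ A 0 := by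
  induction m with
  | zero =>
    rw [pow_zero]
    exact hA.one
  | succ m ih =>
    rw [pow_succ]
    have h := hA.mul 0 0 _ ih _ hf
    rwa [add_zero] at h

theorem k22_comm {pr : ℤ → Module.End K V} {A : ℤ → AddSubgroup (Module.End K V)}
    (hA : RatAlg pr A) {f : Module.End K V} (hf : f ∈ A 0) (i : ℤ) : Commute f (pr i) := by
  have h := hA.comm 0 f hf i
  rw [mul_zero, add_zero] at h
  exact h

/-- the sum of orthogonal projectors -/
theorem k22_idem {n : ℕ} {pr : ℤ → Module.End K V} {L : Module.End K V} (hl : LefMod n pr L)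
    (s : Finset ℤ) : (∑ i ∈ s, pr i) * (∑ i ∈ s, pr i) = ∑ i ∈ s, pr i := by
  rw [Finset.sum_mul]
  refine Finset.sum_congr rfl fun i hi => ?_
  rw [Finset.mul_sum, Finset.sum_eq_single i]
  · rw [hl.pr_mul, if_pos rfl]
  · intro j _ hj
    rw [hl.pr_mul, if_neg (Ne.symm hj)]
  · intro h
    exact absurd hi h

/-- nilpotency from the vanishing of traces -/
theorem k22_nil [CharZero K] [FiniteDimensional K V] {n : ℕ} {pr : ℤ → Module.End K V}
    {L : Module.End K V} {A : ℤ → AddSubgroup (Module.End K V)} (hl : LefMod n pr L)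
    (hA : RatAlg pr A) {x : Module.End K V} (hx : x ∈ A 0) (s : Finset ℤ)
    (h : ∀ a ∈ A 0, ∀ j ∈ s, LinearMap.trace K V (x * a * pr j) = 0) :
    IsNilpotent (x * ∑ i ∈ s, pr i) := by
  refine isNilpotent_of_trace_pow _ fun m hm => ?_
  obtain ⟨m, rfl⟩ := Nat.exists_eq_succ_of_ne_zero hm.ne'
  have hc : Commute x (∑ i ∈ s, pr i) := Commute.sum_right _ _ _ fun i _ => k22_comm hA hx i
  rw [Nat.succ_eq_add_one, k2_pow (k22_idem hl s) hc, Finset.mul_sum, map_sum]
  refine Finset.sum_eq_zero fun j hj => ?_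
  rw [pow_succ']
  exact h _ (k22_pow_mem hA hx m) j hj

theorem tK22 : S_K22 := by
  intro K V _ _ _ _ _ n pr L A hl hA x hx x' hx' hsum ho he
  set s := (Finset.Icc (0 : ℤ) (2 * n)).filter fun i => Even i with hs
  set t := (Finset.Icc (0 : ℤ) (2 * n)).filter fun i => ¬ Even i with ht
  have hst : ∑ i ∈ s, pr i + ∑ i ∈ t, pr i = 1 := by
    rw [hs, ht, Finset.sum_filter_add_sum_filter_not, hl.sum]
  have hx1 : 1 - x = x' := by
    rw [← hsum, add_sub_cancel_left]
  have ht1 : 1 - ∑ i ∈ s, pr i = ∑ i ∈ t, pr i := by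
    rw [← hst, add_sub_cancel_left]
  obtain ⟨m1, hm1⟩ := k22_nil hl hA hx t fun a ha j hj =>
    ho a ha j (Int.not_even_iff_odd.1 (Finset.mem_filter.1 hj).2)
  obtain ⟨m2, hm2⟩ := k22_nil hl hA hx' s fun a ha j hj =>
    he a ha j (Finset.mem_filter.1 hj).2
  have hcQ : Commute x (∑ i ∈ t, pr i) := Commute.sum_right _ _ _ fun i _ => k22_comm hA hx i
  have hcP : Commute x' (∑ i ∈ s, pr i) := Commute.sum_right _ _ _ fun i _ => k22_comm hA hx' i
  have h1 : x ^ (m1 + m2 + 1) * (1 - ∑ i ∈ s, pr i) = 0 := by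
    rw [ht1, ← k2_pow (k22_idem hl t) hcQ]
    exact pow_eq_zero_of_le (by omega) hm1
  have h2 : (1 - x) ^ (m1 + m2 + 1) * ∑ i ∈ s, pr i = 0 := by
    rw [hx1, ← k2_pow (k22_idem hl s) hcP]
    exact pow_eq_zero_of_le (by omega) hm2
  have hP : ∑ i ∈ s, pr i ∈ A 0 := by
    rw [k2_ring h1 h2]
    exact (A 0).sub_mem hA.one
      (k22_pow_mem hA ((A 0).sub_mem hA.one (k22_pow_mem hA hx _)) _)
  have hsg : sgn n pr = (∑ i ∈ s, pr i) + (∑ i ∈ s, pr i) - 1 := by
    have h3 : sgn n pr = ∑ i ∈ s, pr i - ∑ i ∈ t, pr i := by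
      rw [sgn, ← Finset.sum_filter_add_sum_filter_not _ (fun i : ℤ => Even i), sub_eq_add_neg,
        ← Finset.sum_neg_distrib]
      congr 1
      · refine Finset.sum_congr rfl fun i hi => ?_
        rw [if_pos (Finset.mem_filter.1 hi).2, one_smul]
      · refine Finset.sum_congr rfl fun i hi => ?_
        rw [if_neg (Finset.mem_filter.1 hi).2, neg_one_smul]
    rw [h3, ← hst]
    abel
  rw [hsg]
  exact (A 0).sub_mem ((A 0).add_mem hP hP) hA.one

end Pool.Agent.Lib.MP_4ca46c_ag.Nil
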