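import Pool.Agent.Lib.MP_4ca46c_ag.Nil.SpecF

/-!
# The first kernel
-/

set_option autoImplicit false

namespace Pool.Agent.Lib.MP_4ca46c_ag.Nil

theorem ker1_c2 {α β : Type} (f : α → β) (a b : α) : f ∘ ![a, b] = ![f a, f b] := by
  funext i
  fin_cases i <;> rfl

theorem ker1_c4 {α β : Type} (f : α → β) (a b c d : α) :
    f ∘ ![a, b, c, d] = ![f a, f b, f c, f d] := by
  funext i
  fin_cases i <;> rfl

section

variable {K : Type} [Field K] (S : Sys K)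

theorem ker1_mm {ι κ : Type} [Finite ι] [Finite κ] (f : ι → κ) (u v : S.C ι) :
    S.map f (u * v) = S.map f u * S.map f v := map_mul _ _ _

theorem ker1_T2 {κ : Type} [Finite κ] (f : Fin 2 ⊕ Fin 2 → κ) (hf : Function.Bijective f)
    (u v : S.C (Fin 2)) (hu : u ∈ S.T (Fin 2)) (hv : v ∈ S.T (Fin 2)) :
    S.map (f ∘ Sum.inl) u * S.map (f ∘ Sum.inr) v ∈ S.T κ := by
  have h := S.T_equiv (Equiv.ofBijective f hf) _ (S.T_mul u hu v hv)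
  rw [ker1_mm, S.map_map, S.map_map] at h
  exact h

end

theorem tKer1 (hPc : S_Pc) : S_Ker1 := by
  intro K _ S ν hν hN
  obtain ⟨θ, hθ, hθf⟩ := hPc K S ν hν
  refine ⟨S.map ![Sum.inl 0, Sum.inr 0] S.e * S.map ![Sum.inr 1, Sum.inl 1] θ, ?_, ?_, ?_⟩
  · exact ker1_T2 S (Sum.elim ![Sum.inl 0, Sum.inr 0] ![Sum.inr 1, Sum.inl 1]) (by decide)
      S.e θ S.e_mem hθ
  · intro g hg
    let ψ : Fin 2 ⊕ Fin 2 → Fin 4 := Sum.elim ![1, 2] ![3, 0]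
    obtain ⟨γ, hγ, hγf⟩ := hPc K S (S.map ψ g)
      (S.T_equiv (Equiv.ofBijective ψ (by decide)) g hg)
    have h1 := hγf (Fin 4) ![0, 2] (ν * S.map ![1, 3] S.e)
    have h2 : S.tot (Fin 4) (ν * S.map ![1, 3] S.e * S.map ![0, 2] γ) = 0 := by
      rw [mul_assoc]
      exact hN _ (ker1_T2 S (Sum.elim ![1, 3] ![0, 2]) (by decide) S.e γ S.e_mem hγ)
    rw [h2] at h1
    have h3 := hθf (Fin 2 ⊕ Fin 2) ![Sum.inr 1, Sum.inl 1]
      (S.map ![Sum.inl 0, Sum.inr 0] S.e * g)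
    have h4 : S.map ![Sum.inl 0, Sum.inr 0] S.e * S.map ![Sum.inr 1, Sum.inl 1] θ * g =
        S.map ![Sum.inl 0, Sum.inr 0] S.e * g * S.map ![Sum.inr 1, Sum.inl 1] θ := by ring
    rw [h4, h3]
    let b : Fin 4 ⊕ Fin 2 → (Fin 2 ⊕ Fin 2) ⊕ Fin 2 :=
      Sum.elim ![Sum.inl (Sum.inr 1), Sum.inr 0, Sum.inl (Sum.inl 1), Sum.inr 1]
        ![Sum.inl (Sum.inl 0), Sum.inl (Sum.inr 0)]
    have hb : Function.Bijective b := by decide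
    rw [← S.tot_equiv (Equiv.ofBijective b hb)] at h1
    rw [h1]
    have hbc : ((Equiv.ofBijective b hb : (Fin 4 ⊕ Fin 2) ≃ (Fin 2 ⊕ Fin 2) ⊕ Fin 2) :
      Fin 4 ⊕ Fin 2 → (Fin 2 ⊕ Fin 2) ⊕ Fin 2) = b := rfl
    rw [hbc]
    simp only [ker1_mm, S.map_map]
    have e1 : b ∘ Sum.inl = ![Sum.inl (Sum.inr 1), Sum.inr 0, Sum.inl (Sum.inl 1), Sum.inr 1] := rfl
    have e2 : b ∘ Sum.inl ∘ ![1, 3] = ![Sum.inr 0, Sum.inr 1] := by
      rw [ker1_c2, ker1_c2]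
      rfl
    have e3 : b ∘ ![Sum.inl (![(0 : Fin 4), 2] 0), Sum.inr 0, Sum.inl (![(0 : Fin 4), 2] 1),
        Sum.inr 1] ∘ ψ = Sum.inl := by
      funext i
      rcases i with i | i <;> fin_cases i <;> rfl
    have e4 : b ∘ Sum.inr = ![Sum.inl (Sum.inl 0), Sum.inl (Sum.inr 0)] := rfl
    have e5 : Sum.inl ∘ ![Sum.inl 0, Sum.inr 0] =
        (![Sum.inl (Sum.inl 0), Sum.inl (Sum.inr 0)] : Fin 2 → (Fin 2 ⊕ Fin 2) ⊕ Fin 2) := by
      rw [ker1_c2]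
    have e6 : (![Sum.inl (![Sum.inr 1, Sum.inl 1] 0), Sum.inr 0,
        Sum.inl (![Sum.inr 1, Sum.inl 1] 1), Sum.inr 1] : Fin 4 → (Fin 2 ⊕ Fin 2) ⊕ Fin 2) =
        ![Sum.inl (Sum.inr 1), Sum.inr 0, Sum.inl (Sum.inl 1), Sum.inr 1] := rfl
    have e7 : S.map (Sum.inr : Fin 2 → (Fin 2 ⊕ Fin 2) ⊕ Fin 2) S.e =
        S.map ![Sum.inr 0, Sum.inr 1] S.e := by
      congr 2
      funext i
      fin_cases i <;> rfl
    rw [e1, e2, e3, e4, e5, e6, e7]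
    congr 1
    ring
  · intro w hw z
    have h3 := hθf (Fin 2 ⊕ Fin 2) ![Sum.inr 1, Sum.inl 1]
      (S.map ![Sum.inl 0, Sum.inr 0] S.e * S.map Sum.inr w * S.map Sum.inl z)
    have h4 : S.map ![Sum.inl 0, Sum.inr 0] S.e * S.map ![Sum.inr 1, Sum.inl 1] θ *
        S.map Sum.inr w * S.map Sum.inl z =
        S.map ![Sum.inl 0, Sum.inr 0] S.e * S.map Sum.inr w * S.map Sum.inl z *
        S.map ![Sum.inr 1, Sum.inl 1] θ := by ring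
    rw [h4, h3]
    let s : Fin 5 → (Fin 2 ⊕ Fin 2) ⊕ Fin 2 :=
      ![Sum.inl (Sum.inl 0), Sum.inl (Sum.inr 1), Sum.inl (Sum.inl 1), Sum.inr 0, Sum.inr 1]
    have h5 := S.elim hw s (Sum.inl (Sum.inr 0)) (by decide)
      (S.map ![0, 2] z * S.map ![3, 4] S.e * S.map ![1, 3, 2, 4] ν) ![0, 1]
      ![Sum.inl (Sum.inr 0), Sum.inl (Sum.inr 1)] 0 rfl (by
        intro j hj
        fin_cases j
        · exact absurd rfl hj
        · rfl)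
    unfold Sys.X
    have h6 : S.tot (Fin 5) (S.map ![0, 1] w * S.map ![0, 2] z * S.map ![3, 4] S.e *
        S.map ![1, 3, 2, 4] ν) = S.tot (Fin 5) (S.map ![0, 2] z * S.map ![3, 4] S.e *
        S.map ![1, 3, 2, 4] ν * S.map ![0, 1] w) := by
      congr 1
      ring
    rw [h6, ← h5]
    simp only [ker1_mm, S.map_map]
    have e1 : s ∘ ![0, 2] = ![Sum.inl (Sum.inl 0), Sum.inl (Sum.inl 1)] := by
      rw [ker1_c2]
      rfl
    have e2 : s ∘ ![3, 4] = ![Sum.inr 0, Sum.inr 1] := by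
      rw [ker1_c2]
      rfl
    have e3 : s ∘ ![1, 3, 2, 4] =
        ![Sum.inl (Sum.inr 1), Sum.inr 0, Sum.inl (Sum.inl 1), Sum.inr 1] := by
      rw [ker1_c4]
      rfl
    have e4 : (![s (![(0 : Fin 5), 1] 0), Sum.inl (Sum.inr 0)] :
        Fin 2 → (Fin 2 ⊕ Fin 2) ⊕ Fin 2) = ![Sum.inl (Sum.inl 0), Sum.inl (Sum.inr 0)] := rfl
    have e5 : Sum.inl ∘ ![Sum.inl 0, Sum.inr 0] =
        (![Sum.inl (Sum.inl 0), Sum.inl (Sum.inr 0)] : Fin 2 → (Fin 2 ⊕ Fin 2) ⊕ Fin 2) := by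
      rw [ker1_c2]
    have e6 : (![Sum.inl (![Sum.inr 1, Sum.inl 1] 0), Sum.inr 0,
        Sum.inl (![Sum.inr 1, Sum.inl 1] 1), Sum.inr 1] : Fin 4 → (Fin 2 ⊕ Fin 2) ⊕ Fin 2) =
        ![Sum.inl (Sum.inr 1), Sum.inr 0, Sum.inl (Sum.inl 1), Sum.inr 1] := rfl
    have e7 : S.map (Sum.inr : Fin 2 → (Fin 2 ⊕ Fin 2) ⊕ Fin 2) S.e =
        S.map ![Sum.inr 0, Sum.inr 1] S.e := by
      congr 2
      funext i
      fin_cases i <;> rfl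
    have e8 : (Sum.inl ∘ Sum.inr : Fin 2 → (Fin 2 ⊕ Fin 2) ⊕ Fin 2) =
        ![Sum.inl (Sum.inr 0), Sum.inl (Sum.inr 1)] := by
      funext i
      fin_cases i <;> rfl
    have e9 : (Sum.inl ∘ Sum.inl : Fin 2 → (Fin 2 ⊕ Fin 2) ⊕ Fin 2) =
        ![Sum.inl (Sum.inl 0), Sum.inl (Sum.inl 1)] := by
      funext i
      fin_cases i <;> rfl
    rw [e1, e2, e3, e4, e5, e6, e8, e9, e7]
    congr 1
    ring

end Pool.Agent.Lib.MP_4ca46c_ag.Nil
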