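import Pool.Agent.Lib.MP_4ca46c_ag.Nil.SpecF

/-!
# The second kernel

The class `ν(2, 1, 3, 0)` as a numerically trivial correspondence.
-/

set_option autoImplicit false

namespace Pool.Agent.Lib.MP_4ca46c_ag.Nil

/-- the bijection `0 ↦ inl 0`, `1 ↦ inr 1`, `2 ↦ inl 1`, `3 ↦ inr 0` -/
def ker2_eq : Fin 4 ≃ Fin 2 ⊕ Fin 2 where
  toFun := ![Sum.inl 0, Sum.inr 1, Sum.inl 1, Sum.inr 0]
  invFun := Sum.elim ![0, 2] ![3, 1]
  left_inv := by intro i; fin_cases i <;> rfl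
  right_inv := by rintro (i | i) <;> fin_cases i <;> rfl

/-- the bijection `inr 0 ↦ 0`, `inr 1 ↦ 1`, `inl 0 ↦ 2`, `inl 1 ↦ 3` -/
def ker2_eq' : Fin 2 ⊕ Fin 2 ≃ Fin 4 where
  toFun := Sum.elim ![2, 3] ![0, 1]
  invFun := ![Sum.inr 0, Sum.inr 1, Sum.inl 0, Sum.inl 1]
  left_inv := by rintro (i | i) <;> fin_cases i <;> rfl
  right_inv := by intro i; fin_cases i <;> rfl

/-- **The second kernel.** -/
theorem tKer2 : S_Ker2 := by
  intro K _ S ν hν hN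
  refine ⟨S.map ker2_eq ν, S.T_equiv ker2_eq ν hν, ?_, ?_⟩
  · intro g hg
    have h1 : S.map ker2_eq (S.map ker2_eq.symm g) = g := by
      rw [S.map_map, Equiv.self_comp_symm, S.map_id]
    rw [← h1, ← map_mul, S.tot_equiv]
    exact hN _ (S.T_equiv _ g hg)
  · intro w z
    unfold Sys.Y
    rw [← S.tot_equiv ker2_eq']
    simp only [map_mul, S.map_map]
    have e1 : (ker2_eq' : Fin 2 ⊕ Fin 2 → Fin 4) ∘ (ker2_eq : Fin 4 → Fin 2 ⊕ Fin 2) =
        ![2, 1, 3, 0] := by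
      funext i
      fin_cases i <;> rfl
    have e2 : (ker2_eq' : Fin 2 ⊕ Fin 2 → Fin 4) ∘ Sum.inr = ![0, 1] := by
      funext i
      fin_cases i <;> rfl
    have e3 : (ker2_eq' : Fin 2 ⊕ Fin 2 → Fin 4) ∘ Sum.inl = ![2, 3] := by
      funext i
      fin_cases i <;> rfl
    rw [e1, e2, e3]
    congr 1
    ring

end Pool.Agent.Lib.MP_4ca46c_ag.Nil
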