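import Pool.Agent.Lib.MP_4ca46c_ag.Nil.SpecF

/-!
# The key relation
-/

set_option autoImplicit false

namespace Pool.Agent.Lib.MP_4ca46c_ag.Nil

section

variable {K : Type} [Field K] (S : Sys K)

theorem lam_X_add (w z : S.C (Fin 2)) (Q Q' : S.C (Fin 4)) :
    S.X w z (Q + Q') = S.X w z Q + S.X w z Q' := by
  unfold Sys.X
  rw [map_add, mul_add, map_add]

theorem lam_X_smul (w z : S.C (Fin 2)) (c : K) (Q : S.C (Fin 4)) :
    S.X w z (c • Q) = c * S.X w z Q := by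
  unfold Sys.X
  rw [map_smul, mul_smul_comm, map_smul, smul_eq_mul]

theorem lam_Y_add (w z : S.C (Fin 2)) (Q Q' : S.C (Fin 4)) :
    S.Y w z (Q + Q') = S.Y w z Q + S.Y w z Q' := by
  unfold Sys.Y
  rw [map_add, mul_add, map_add]

theorem lam_Y_smul (w z : S.C (Fin 2)) (c : K) (Q : S.C (Fin 4)) :
    S.Y w z (c • Q) = c * S.Y w z Q := by
  unfold Sys.Y
  rw [map_smul, mul_smul_comm, map_smul, smul_eq_mul]

end

theorem tLam (hG : S_G) (hXY : S_XY) (hK1 : S_Ker1) (hK2 : S_Ker2) : S_Lam := by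
  intro K _ _ S w hw hw0 J _ τ hτ hsym Q hQ α β ν hν hnum hQe
  obtain ⟨n₁, hn₁, hnum₁, h₁⟩ := hK1 K S ν hν hnum
  obtain ⟨n₂, hn₂, hnum₂, h₂⟩ := hK2 K S ν hν hnum
  have key : ∀ z : S.C (Fin 2),
      (α + (S.delta + 1) * β + (Fintype.card J + 1) * (β - α)) * S.tot (Fin 2) (w * z) +
        (S.X w z ν + (Fintype.card J + 1) * S.Y w z ν) = 0 := by
    intro z
    have h := hG K S w hw J τ hτ hsym Q hQ z
    obtain ⟨x1, x2, x3, y1, y2, y3⟩ := hXY K S w z hw
    rw [hQe, lam_X_add, lam_X_add, lam_X_smul, lam_X_smul, lam_X_add, lam_Y_add, lam_Y_add,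
      lam_Y_smul, lam_Y_smul, lam_Y_add, x1, x2, x3, y1, y2, y3] at h
    linear_combination h
  have hc := S.nil (n₁ + ((Fintype.card J : K) + 1) • n₂)
    ((S.T (Fin 2 ⊕ Fin 2)).add_mem hn₁ ((S.T (Fin 2 ⊕ Fin 2)).smul_mem _ hn₂))
    (by
      intro g hg
      rw [add_mul, map_add, hnum₁ g hg, smul_mul_assoc, map_smul, hnum₂ g hg, smul_zero, add_zero])
    w (-(α + (S.delta + 1) * β + (Fintype.card J + 1) * (β - α)))
    (by
      intro z
      rw [add_mul, add_mul, map_add, h₁ w hw.abs z, smul_mul_assoc, smul_mul_assoc, map_smul,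
        h₂ w z, smul_eq_mul]
      linear_combination key z)
  rcases hc with hc | hc
  · exact neg_eq_zero.mp hc
  · exact absurd hc hw0

end Pool.Agent.Lib.MP_4ca46c_ag.Nil
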