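import Pool.Agent.Lib.MP_4ca46c_ag.Nil.SpecD
import Pool.Agent.Lib.MP_4ca46c_ag.Nil.Lam

/-!
# The key relation for two columns
-/

set_option autoImplicit false

namespace Pool.Agent.Lib.MP_4ca46c_ag.Nil

theorem lam2_Y_sub {K : Type} [Field K] (S : Sys K) (w z : S.C (Fin 2)) (Q Q' : S.C (Fin 4)) :
    S.Y w z (Q - Q') = S.Y w z Q - S.Y w z Q' := by
  unfold Sys.Y
  rw [map_sub, mul_sub, map_sub]

theorem tLam2 (hG : S_G2) (hXY : S_XY) (hK1 : S_Ker1) (hK2 : S_Ker2) : S_Lam2 := by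
  intro K _ _ S w hw hw0 J _ _ c ρ hρ htwo Q hQ j₀ hj₀ Q₁ hQ₁ α β γ β₁ ν hν hnum ν₁ hν₁ hnum₁
    hQe hQ₁e
  obtain ⟨n₁, hn₁, hm₁, h₁⟩ := hK1 K S ν hν hnum
  obtain ⟨n₂, hn₂, hm₂, h₂⟩ := hK2 K S ν₁ hν₁ hnum₁
  obtain ⟨n₃, hn₃, hm₃, h₃⟩ := hK2 K S ν hν hnum
  have key : ∀ z : S.C (Fin 2),
      ((α + S.delta * β + γ) - ncol c false * β₁ + (ncol c true + 1) * (γ - α)) *
          S.tot (Fin 2) (w * z) +
        (S.X w z ν + ncol c false * S.Y w z ν₁ + (ncol c true + 1) * S.Y w z ν) = 0 := by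
    intro z
    have h := hG K S w hw J c ρ hρ htwo Q hQ j₀ hj₀ Q₁ hQ₁ z
    obtain ⟨x1, x2, x3, y1, y2, y3⟩ := hXY K S w z hw
    rw [hQe, hQ₁e, lam_X_add, lam_X_add, lam_X_add, lam_X_smul, lam_X_smul, lam_X_smul,
      lam_Y_add, lam_Y_smul, lam2_Y_sub, lam_Y_add, lam_Y_add, lam_Y_add,
      lam_Y_smul, lam_Y_smul, lam_Y_smul, x1, x2, x3, y1, y2, y3] at h
    linear_combination h
  have hc := S.nil (n₁ + (ncol c false : K) • n₂ + ((ncol c true : K) + 1) • n₃)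
    ((S.T (Fin 2 ⊕ Fin 2)).add_mem ((S.T (Fin 2 ⊕ Fin 2)).add_mem hn₁
      ((S.T (Fin 2 ⊕ Fin 2)).smul_mem _ hn₂)) ((S.T (Fin 2 ⊕ Fin 2)).smul_mem _ hn₃))
    (by
      intro g hg
      rw [add_mul, add_mul, map_add, map_add, hm₁ g hg, smul_mul_assoc, map_smul, hm₂ g hg,
        smul_mul_assoc, map_smul, hm₃ g hg, smul_zero, smul_zero, add_zero, add_zero])
    w (-((α + S.delta * β + γ) - ncol c false * β₁ + (ncol c true + 1) * (γ - α)))
    (by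
      intro z
      rw [add_mul, add_mul, add_mul, add_mul, map_add, map_add, h₁ w hw.abs z, smul_mul_assoc,
        smul_mul_assoc, map_smul, h₂ w z, smul_mul_assoc, smul_mul_assoc, map_smul, h₃ w z,
        smul_eq_mul, smul_eq_mul]
      linear_combination key z)
  rcases hc with hc | hc
  · exact neg_eq_zero.mp hc
  · exact absurd hc hw0

end Pool.Agent.Lib.MP_4ca46c_ag.Nil
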