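import Pool.Agent.Lib.MP_4ca46c_ag.Nil.SpecF

set_option autoImplicit false

namespace Pool.Agent.Lib.MP_4ca46c_ag.Nil

section val

variable {K : Type} [Field K] (S : Sys K)

theorem val_mul {V W : Type} [Finite V] [Finite W] (f : V → W) (u v : S.C V) :
    S.map f (u * v) = S.map f u * S.map f v := map_mul _ _ _

theorem val_pair {V W : Type} [Finite V] [Finite W] (a b : V) (f : V → W) (u : S.C (Fin 2)) :
    S.map f (S.map ![a, b] u) = S.map ![f a, f b] u := by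
  rw [S.map_map]
  have h : f ∘ ![a, b] = ![f a, f b] := by
    funext i
    fin_cases i <;> rfl
  rw [h]

theorem val_bij {A B J : Type} (s : A → B) (v : B)
    (h : Function.Bijective (Sum.elim s (fun _ : Unit => v))) :
    Function.Bijective (Sum.elim (Sum.map s id : A ⊕ J → B ⊕ J) (fun _ : Unit => Sum.inl v)) := by
  constructor
  · rintro ((a | j) | a) ((b | k) | b) hab
    · have h1 : s a = s b := Sum.inl_injective hab
      have h2 := h.1 (a₁ := Sum.inl a) (a₂ := Sum.inl b) h1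
      rw [Sum.inl_injective h2]
    · cases hab
    · have h1 : s a = v := Sum.inl_injective hab
      have h2 := h.1 (a₁ := Sum.inl a) (a₂ := Sum.inr ()) h1
      cases h2
    · cases hab
    · have h1 : j = k := Sum.inr_injective hab
      rw [h1]
    · cases hab
    · have h1 : v = s b := Sum.inl_injective hab
      have h2 := h.1 (a₁ := Sum.inr ()) (a₂ := Sum.inl b) h1
      cases h2
    · cases hab
    · rfl
  · rintro (b | j)
    · obtain ⟨a, ha⟩ := h.2 b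
      rcases a with a | a
      · exact ⟨Sum.inl (Sum.inl a), congrArg Sum.inl ha⟩
      · exact ⟨Sum.inr (), congrArg Sum.inl ha⟩
    · exact ⟨Sum.inl (Sum.inr j), rfl⟩

theorem val_one {J : Type} [Finite J] (τ : S.C (Fin 2 ⊕ J)) (hτ : τ ∈ S.T (Fin 2 ⊕ J)) :
    S.tot (Fin 4 ⊕ J) (S.map Sum.inl S.M2 * (S.map (Sum.elim (Sum.inl ∘ ![0, 1]) Sum.inr) τ *
      S.map (Sum.elim (Sum.inl ∘ ![2, 3]) Sum.inr) τ)) = S.tot (Fin 2 ⊕ J) (τ * τ) := by
  have e1 := S.elim (S.abs τ hτ) (Sum.map Fin.castSucc id : Fin 3 ⊕ J → Fin 4 ⊕ J)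
    (Sum.inl 3) (val_bij (J := J) (Fin.castSucc : Fin 3 → Fin 4) 3 (by decide))
    (S.map ![Sum.inl 0, Sum.inl 2] S.e * S.map (Sum.elim (Sum.inl ∘ ![0, 1]) Sum.inr) τ)
    (Sum.elim (Sum.inl ∘ ![2, 1]) Sum.inr) (Sum.elim (Sum.inl ∘ ![2, 3]) Sum.inr)
    (Sum.inl 1) rfl (by
      rintro (j | j) hj
      · fin_cases j
        · rfl
        · exact absurd rfl hj
      · rfl)
  have e2 := S.elim (S.abs τ hτ) (Sum.map Fin.castSucc id : Fin 2 ⊕ J → Fin 3 ⊕ J)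
    (Sum.inl 2) (val_bij (J := J) (Fin.castSucc : Fin 2 → Fin 3) 2 (by decide)) τ
    id (Sum.elim (Sum.inl ∘ ![2, 1]) Sum.inr)
    (Sum.inl 0) rfl (by
      rintro (j | j) hj
      · fin_cases j
        · exact absurd rfl hj
        · rfl
      · rfl)
  rw [S.map_id] at e2
  rw [← e2]
  rw [val_mul, S.map_map, S.map_map] at e1
  have h1 : ((Sum.map Fin.castSucc id : Fin 3 ⊕ J → Fin 4 ⊕ J) ∘
      (![Sum.inl 0, Sum.inl 2] : Fin 2 → Fin 3 ⊕ J)) = ![Sum.inl 0, Sum.inl 2] := by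
    funext i
    fin_cases i <;> rfl
  have h2 : ((Sum.map Fin.castSucc id : Fin 3 ⊕ J → Fin 4 ⊕ J) ∘
      (Sum.elim (Sum.inl ∘ ![0, 1]) Sum.inr : Fin 2 ⊕ J → Fin 3 ⊕ J)) =
      Sum.elim (Sum.inl ∘ ![0, 1]) Sum.inr := by
    funext i
    rcases i with i | i
    · fin_cases i <;> rfl
    · rfl
  have h3 : (Sum.map Fin.castSucc id : Fin 2 ⊕ J → Fin 3 ⊕ J) =
      Sum.elim (Sum.inl ∘ ![0, 1]) Sum.inr := by
    funext i
    rcases i with i | i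
    · fin_cases i <;> rfl
    · rfl
  rw [h1, h2] at e1
  have h4 : S.map ![Sum.map Fin.castSucc id (id (Sum.inl 0 : Fin 2 ⊕ J)),
      (Sum.inl 2 : Fin 3 ⊕ J)] S.e = S.map ![Sum.inl 0, Sum.inl 2] S.e := rfl
  rw [h4]
  have h5 : S.map ![Sum.map Fin.castSucc id ((Sum.elim (Sum.inl ∘ ![2, 1]) Sum.inr :
      Fin 2 ⊕ J → Fin 3 ⊕ J) (Sum.inl 1)), (Sum.inl 3 : Fin 4 ⊕ J)] S.e =
      S.map ![Sum.inl 1, Sum.inl 3] S.e := rfl
  rw [h5] at e1
  rw [h3]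
  have h6 : S.map (Sum.elim (Sum.inl ∘ ![0, 1]) Sum.inr : Fin 2 ⊕ J → Fin 3 ⊕ J) τ *
      (S.map ![Sum.inl 0, Sum.inl 2] S.e *
        S.map (Sum.elim (Sum.inl ∘ ![2, 1]) Sum.inr : Fin 2 ⊕ J → Fin 3 ⊕ J) τ) =
      S.map ![Sum.inl 0, Sum.inl 2] S.e *
      S.map (Sum.elim (Sum.inl ∘ ![0, 1]) Sum.inr : Fin 2 ⊕ J → Fin 3 ⊕ J) τ *
        S.map (Sum.elim (Sum.inl ∘ ![2, 1]) Sum.inr : Fin 2 ⊕ J → Fin 3 ⊕ J) τ := by
    ring
  rw [h6, ← e1]
  congr 1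
  rw [Sys.M2, val_mul, val_pair, val_pair]
  ring

/-- the renaming of the variables -/
def valEq (J : Type) : Fin 4 ⊕ J ≃ (J ⊕ Fin 2) ⊕ Fin 2 where
  toFun := Sum.elim ![Sum.inl (Sum.inr 0), Sum.inl (Sum.inr 1), Sum.inr 0, Sum.inr 1]
    (fun j => Sum.inl (Sum.inl j))
  invFun := Sum.elim (Sum.elim Sum.inr (fun k => Sum.inl ((![0, 1] : Fin 2 → Fin 4) k)))
    (fun k => Sum.inl ((![2, 3] : Fin 2 → Fin 4) k))
  left_inv := by
    rintro (i | i)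
    · fin_cases i <;> rfl
    · rfl
  right_inv := by
    rintro ((j | k) | k)
    · rfl
    · fin_cases k <;> rfl
    · fin_cases k <;> rfl

theorem val_two {J : Type} [Finite J] (τ : S.C (Fin 2 ⊕ J))
    (h1 : ∀ (V : Type) [Finite V] (f : J → V) (P : S.C V), S.tot V (P * S.map f (S.contr τ)) =
      S.tot (V ⊕ Fin 2) (S.map Sum.inl P *
        (S.map (Sum.elim Sum.inr (Sum.inl ∘ f)) τ * S.map Sum.inr S.e))) :
    S.tot (Fin 4 ⊕ J) (S.map Sum.inl S.M1 * (S.map (Sum.elim (Sum.inl ∘ ![0, 1]) Sum.inr) τ *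
      S.map (Sum.elim (Sum.inl ∘ ![2, 3]) Sum.inr) τ)) =
      S.tot J (S.contr τ * S.contr τ) := by
  have e1 := h1 J id (S.contr τ)
  rw [S.map_id, mul_comm (S.map Sum.inl (S.contr τ))] at e1
  rw [e1, h1 (J ⊕ Fin 2) Sum.inl, ← S.tot_equiv (valEq J)]
  congr 1
  simp only [val_mul, S.map_map, Sys.M1]
  have g1 : (valEq J : Fin 4 ⊕ J → (J ⊕ Fin 2) ⊕ Fin 2) ∘ Sum.inl ∘ ![0, 1] =
      Sum.inl ∘ Sum.inr := by
    funext i
    fin_cases i <;> rfl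
  have g2 : (valEq J : Fin 4 ⊕ J → (J ⊕ Fin 2) ⊕ Fin 2) ∘ Sum.inl ∘ ![2, 3] = Sum.inr := by
    funext i
    fin_cases i <;> rfl
  have g3 : (valEq J : Fin 4 ⊕ J → (J ⊕ Fin 2) ⊕ Fin 2) ∘
      Sum.elim (Sum.inl ∘ ![0, 1]) Sum.inr = Sum.inl ∘ Sum.elim Sum.inr (Sum.inl ∘ id) := by
    funext i
    rcases i with i | i
    · fin_cases i <;> rfl
    · rfl
  have g4 : (valEq J : Fin 4 ⊕ J → (J ⊕ Fin 2) ⊕ Fin 2) ∘
      Sum.elim (Sum.inl ∘ ![2, 3]) Sum.inr = Sum.elim Sum.inr (Sum.inl ∘ Sum.inl) := by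
    funext i
    rcases i with i | i
    · fin_cases i <;> rfl
    · rfl
  rw [g1, g2, g3, g4]
  ring

end val

theorem tVal (h1 : S_Con) : S_Val := by
  intro K _ S J _ τ hτ Q hQ
  refine ⟨?_, ?_⟩
  · have h := hQ (Fin 4) id S.M2
    rw [S.map_id] at h
    rw [h]
    exact val_one S τ hτ
  · have h := hQ (Fin 4) id S.M1
    rw [S.map_id] at h
    rw [h]
    exact val_two S τ (h1 K S J τ).2.2

end Pool.Agent.Lib.MP_4ca46c_ag.Nil
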