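import Pool.Agent.Lib.MP_4ca46c_ag.Nil.SpecD
import Pool.Agent.Lib.MP_4ca46c_ag.Nil.Val
import Pool.Agent.Lib.MP_4ca46c_ag.Nil.Dia

/-!
# The third scalar product
-/

set_option autoImplicit false

namespace Pool.Agent.Lib.MP_4ca46c_ag.Nil

section m3

variable {K : Type} [Field K] (S : Sys K)

theorem m3_one {J : Type} [Finite J] (τ : S.C (Fin 2 ⊕ J)) (hτ : τ ∈ S.T (Fin 2 ⊕ J)) :
    S.tot (Fin 4 ⊕ J) (S.map Sum.inl S.M3 * (S.map (Sum.elim (Sum.inl ∘ ![0, 1]) Sum.inr) τ *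
      S.map (Sum.elim (Sum.inl ∘ ![2, 3]) Sum.inr) τ)) =
      S.tot (Fin 2 ⊕ J) (τ * S.map (Sum.elim (Sum.inl ∘ ![1, 0]) Sum.inr) τ) := by
  have e1 := S.elim (S.abs τ hτ) (Sum.map Fin.castSucc id : Fin 3 ⊕ J → Fin 4 ⊕ J)
    (Sum.inl 3) (val_bij (J := J) (Fin.castSucc : Fin 3 → Fin 4) 3 (by decide))
    (S.map ![Sum.inl 1, Sum.inl 2] S.e * S.map (Sum.elim (Sum.inl ∘ ![0, 1]) Sum.inr) τ)
    (Sum.elim (Sum.inl ∘ ![2, 0]) Sum.inr) (Sum.elim (Sum.inl ∘ ![2, 3]) Sum.inr)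
    (Sum.inl 1) rfl (by
      rintro (j | j) hj
      · fin_cases j
        · rfl
        · exact absurd rfl hj
      · rfl)
  have e2 := S.elim (S.abs τ hτ) (Sum.map Fin.castSucc id : Fin 2 ⊕ J → Fin 3 ⊕ J)
    (Sum.inl 2) (val_bij (J := J) (Fin.castSucc : Fin 2 → Fin 3) 2 (by decide)) τ
    (Sum.elim (Sum.inl ∘ ![1, 0]) Sum.inr) (Sum.elim (Sum.inl ∘ ![2, 0]) Sum.inr)
    (Sum.inl 0) rfl (by
      rintro (j | j) hj
      · fin_cases j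
        · exact absurd rfl hj
        · rfl
      · rfl)
  rw [← e2]
  rw [val_mul, S.map_map, S.map_map] at e1
  have h1 : ((Sum.map Fin.castSucc id : Fin 3 ⊕ J → Fin 4 ⊕ J) ∘
      (![Sum.inl 1, Sum.inl 2] : Fin 2 → Fin 3 ⊕ J)) = ![Sum.inl 1, Sum.inl 2] := by
    funext i
    fin_cases i <;> rfl
  have h2 : ((Sum.map Fin.castSucc id : Fin 3 ⊕ J → Fin 4 ⊕ J) ∘
      (Sum.elim (Sum.inl ∘ ![0, 1]) Sum.inr : Fin 2 ⊕ J → Fin 3 ⊕ J)) =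
      Sum.elim (Sum.inl ∘ ![0, 1]) Sum.inr := by
    funext i
    rcases i with i | i
    · fin_cases i <;> rfl
    · rfl
  have h3 : (Sum.map Fin.castSucc id : Fin 2 ⊕ J → Fin 3 ⊕ J) =
      Sum.elim (Sum.inl ∘ ![0, 1]) Sum.inr := by
    funext i
    rcases i with i | i
    · fin_cases i <;> rfl
    · rfl
  rw [h1, h2] at e1
  have h4 : S.map ![Sum.map Fin.castSucc id ((Sum.elim (Sum.inl ∘ ![1, 0]) Sum.inr :
      Fin 2 ⊕ J → Fin 2 ⊕ J) (Sum.inl 0)), (Sum.inl 2 : Fin 3 ⊕ J)] S.e =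
      S.map ![Sum.inl 1, Sum.inl 2] S.e := rfl
  rw [h4]
  have h5 : S.map ![Sum.map Fin.castSucc id ((Sum.elim (Sum.inl ∘ ![2, 0]) Sum.inr :
      Fin 2 ⊕ J → Fin 3 ⊕ J) (Sum.inl 1)), (Sum.inl 3 : Fin 4 ⊕ J)] S.e =
      S.map ![Sum.inl 0, Sum.inl 3] S.e := rfl
  rw [h5] at e1
  rw [h3]
  have h6 : S.map (Sum.elim (Sum.inl ∘ ![0, 1]) Sum.inr : Fin 2 ⊕ J → Fin 3 ⊕ J) τ *
      (S.map ![Sum.inl 1, Sum.inl 2] S.e *
        S.map (Sum.elim (Sum.inl ∘ ![2, 0]) Sum.inr : Fin 2 ⊕ J → Fin 3 ⊕ J) τ) =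
      S.map ![Sum.inl 1, Sum.inl 2] S.e *
      S.map (Sum.elim (Sum.inl ∘ ![0, 1]) Sum.inr : Fin 2 ⊕ J → Fin 3 ⊕ J) τ *
        S.map (Sum.elim (Sum.inl ∘ ![2, 0]) Sum.inr : Fin 2 ⊕ J → Fin 3 ⊕ J) τ := by
    ring
  rw [h6, ← e1]
  congr 1
  rw [Sys.M3, val_mul, val_pair, val_pair]
  ring

end m3

theorem tM3 (_h1 : S_Dia) : S_M3 := by
  intro K _ S
  refine ⟨?_, ?_⟩
  · have h : S.tot (Fin 4) (S.map ![0, 3] S.e * S.map ![0, 3] S.e *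
      (S.map ![1, 2] S.e * S.map ![1, 2] S.e)) = S.delta ^ 2 :=
      dia_two S (Equiv.ofBijective (Sum.elim ![0, 3] ![1, 2]) (by decide))
    rw [← h]
    simp only [Sys.M3]
    congr 1
    ring
  · intro J _ _ τ hτ Q hQ
    have h := hQ (Fin 4) id S.M3
    rw [S.map_id] at h
    rw [h]
    have h2 : ((Equiv.swap (Sum.inl 0) (Sum.inl 1) : Equiv.Perm (Fin 2 ⊕ J)) :
        Fin 2 ⊕ J → Fin 2 ⊕ J) = Sum.elim (Sum.inl ∘ ![1, 0]) Sum.inr := by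
      funext i
      rcases i with i | i
      · fin_cases i
        · exact Equiv.swap_apply_left _ _
        · exact Equiv.swap_apply_right _ _
      · exact Equiv.swap_apply_of_ne_of_ne Sum.inr_ne_inl Sum.inr_ne_inl
    rw [h2]
    exact m3_one S τ hτ

end Pool.Agent.Lib.MP_4ca46c_ag.Nil
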