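import Pool.Agent.Lib.MP_4ca46c_ag.Nil.SpecL

/-!
# Duality for a rational symmetric form
-/

set_option autoImplicit false

namespace Pool.Agent.Lib.MP_4ca46c_ag.Nil

open Module TensorProduct LinearMap Pool.Agent.Lib.MP_4ca46c_ag.Sign

section

variable {K V : Type} [Field K] [CharZero K] [AddCommGroup V] [Module K V]

/-- `End V` as a rational vector space -/
@[reducible] noncomputable def orth_mod : Module ℚ (Module.End K V) :=
  Module.compHom _ (algebraMap ℚ K)

theorem orth_smul (q : ℚ) (f : Module.End K V) :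
    @HSMul.hSMul ℚ (Module.End K V) (Module.End K V)
      (@instHSMul ℚ (Module.End K V) (orth_mod (K := K) (V := V)).toSMul) q f = (q : K) • f := by
  change (algebraMap ℚ K q) • f = (q : K) • f
  rw [eq_ratCast]

end

theorem orth_main {K V : Type} [Field K] [CharZero K] [AddCommGroup V] [Module K V]
    [FiniteDimensional K V] (M S : AddSubgroup (Module.End K V))
    (hM : ∀ (q : ℚ), ∀ f ∈ M, (q : K) • f ∈ M) (hS : ∀ (q : ℚ), ∀ f ∈ S, (q : K) • f ∈ S)
    (hSM : S ≤ M) (F : Module.End K V →ₗ[K] K)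
    (hF : ∀ x ∈ M, ∀ y ∈ M, ∃ q : ℚ, F (x * y) = q)
    (hrad : ∀ x ∈ M, (∀ y ∈ M, F (x * y) = 0) → x ∈ S) (x : Module.End K V) (hx : x ∈ M)
    (hxS : x ∉ S) : ∃ e ∈ M, (∀ l ∈ S, F (l * e) = 0) ∧ F (x * e) ≠ 0 := by
  classical
  let _ : Module ℚ (Module.End K V) := orth_mod
  have hsm : ∀ (q : ℚ) (f : Module.End K V), q • f = (q : K) • f := orth_smul
  let Mq : Submodule ℚ (Module.End K V) :=
    { carrier := M
      add_mem' := fun ha hb => M.add_mem ha hb
      zero_mem' := M.zero_mem
      smul_mem' := fun q f hf => by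
        rw [hsm]
        exact hM q f hf }
  let Sq : Submodule ℚ (Module.End K V) :=
    { carrier := S
      add_mem' := fun ha hb => S.add_mem ha hb
      zero_mem' := S.zero_mem
      smul_mem' := fun q f hf => by
        rw [hsm]
        exact hS q f hf }
  have hMq : ∀ f, f ∈ Mq ↔ f ∈ M := fun f => Iff.rfl
  have hSq : ∀ f, f ∈ Sq ↔ f ∈ S := fun f => Iff.rfl
  obtain ⟨φ, hφx, hφ⟩ := Submodule.exists_le_ker_of_notMem (p := Sq) (v := x) hxS
  -- the rational functionals
  choose q hq using fun (y : Mq) (g : M) => hF y y.2 g g.2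
  let ψ : M → (Mq →ₗ[ℚ] ℚ) := fun g =>
    { toFun := fun y => q y g
      map_add' := by
        intro y y'
        apply Rat.cast_injective (α := K)
        rw [Rat.cast_add, ← hq, ← hq, ← hq, Submodule.coe_add, add_mul, map_add]
      map_smul' := by
        intro c y
        apply Rat.cast_injective (α := K)
        rw [RingHom.id_apply, smul_eq_mul, Rat.cast_mul, ← hq, ← hq, Submodule.coe_smul, hsm,
          smul_mul_assoc, map_smul, smul_eq_mul] }
  have hψ : ∀ g y, ((ψ g y : ℚ) : K) = F (y * g) := fun g y => (hq y g).symm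
  -- finite test family
  obtain ⟨b, hb, hspan, hli⟩ := exists_linearIndependent K (M : Set (Module.End K V))
  have hfin : Finite b := hli.finite
  have htest : ∀ z : Module.End K V, (∀ k : b, F (z * k) = 0) → ∀ y ∈ M, F (z * y) = 0 := by
    intro z hz y hy
    have h1 : Submodule.span K b ≤ LinearMap.ker (F ∘ₗ LinearMap.mulLeft K z) := by
      rw [Submodule.span_le]
      intro w hw
      exact hz ⟨w, hw⟩
    have h2 : y ∈ Submodule.span K b := by
      rw [hspan]
      exact Submodule.subset_span hy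
    exact h1 h2
  have h1 : φ ∘ₗ Mq.subtype ∈ Submodule.span ℚ (Set.range fun k : b => ψ ⟨k, hb k.2⟩) := by
    refine mem_span_of_iInf_ker_le_ker fun z hz => ?_
    have hz' : ∀ k : b, F ((z : Module.End K V) * k) = 0 := by
      intro k
      have h2 := (Submodule.mem_iInf _).1 hz k
      rw [LinearMap.mem_ker] at h2
      rw [← hψ ⟨k, hb k.2⟩ z, h2, Rat.cast_zero]
    have h3 : (z : Module.End K V) ∈ S := hrad z z.2 (htest z hz')
    exact hφ h3
  have : Fintype b := Fintype.ofFinite b
  obtain ⟨c, hc⟩ := (Submodule.mem_span_range_iff_exists_fun ℚ).1 h1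
  have hval : ∀ y (hy : y ∈ M), F (y * ∑ k : b, ((c k : ℚ) : K) • (k : Module.End K V)) =
      ((φ y : ℚ) : K) := by
    intro y hy
    have h2 : φ y = ∑ k : b, c k * ψ ⟨k, hb k.2⟩ ⟨y, hy⟩ := by
      have h3 := congrArg (fun t => t (⟨y, hy⟩ : Mq)) hc
      simp only [LinearMap.sum_apply, LinearMap.smul_apply, smul_eq_mul, LinearMap.comp_apply,
        Submodule.subtype_apply] at h3
      exact h3.symm
    rw [h2, Rat.cast_sum, Finset.mul_sum, map_sum]
    refine Finset.sum_congr rfl fun k _ => ?_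
    rw [Rat.cast_mul, hψ, mul_smul_comm, map_smul, smul_eq_mul]
  refine ⟨∑ k : b, ((c k : ℚ) : K) • (k : Module.End K V), ?_, ?_, ?_⟩
  · exact M.sum_mem fun k _ => hM _ _ (hb k.2)
  · intro l hl
    rw [hval l (hSM hl)]
    have h4 : φ l = 0 := hφ hl
    rw [h4, Rat.cast_zero]
  · rw [hval x hx]
    intro h5
    exact hφx (Rat.cast_injective (α := K) (by rw [h5, Rat.cast_zero]))

theorem tOrth : S_Orth := by
  intro K V _ _ _ _ _ M S hM hS hSM F hF hrad x hx hxS
  exact orth_main M S hM hS hSM F hF hrad x hx hxS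

end Pool.Agent.Lib.MP_4ca46c_ag.Nil
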