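import Pool.Agent.Lib.MP_4ca46c_ag.Nil.SpecF

/-!
# Partial contraction
-/

set_option autoImplicit false

namespace Pool.Agent.Lib.MP_4ca46c_ag.Nil

open Function

/-- the bijection `0 ↦ inl 0`, `1 ↦ inr 0`, `2 ↦ inl 1`, `3 ↦ inr 1` -/
def pc_equiv : Fin 4 ≃ Fin 2 ⊕ Fin 2 where
  toFun := ![Sum.inl 0, Sum.inr 0, Sum.inl 1, Sum.inr 1]
  invFun := Sum.elim ![0, 2] ![1, 3]
  left_inv := by
    intro a
    fin_cases a <;> rfl
  right_inv := by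
    rintro (a | a) <;> fin_cases a <;> rfl

theorem tPc : S_Pc := by
  intro K _ S u hu
  have h1 : S.map pc_equiv u ∈ S.T (Fin 2 ⊕ Fin 2) := S.T_equiv pc_equiv u hu
  have h2 : S.map (Equiv.emptySum Empty (Fin 2)).symm S.e ∈ S.T (Empty ⊕ Fin 2) :=
    S.T_equiv (Equiv.emptySum Empty (Fin 2)).symm S.e S.e_mem
  have h3 := S.T_comp _ h1 _ h2
  refine ⟨_, S.T_equiv (Equiv.sumEmpty (Fin 2) Empty) _ h3, ?_⟩
  intro V _ f P
  rw [S.map_map, S.sub, map_mul (S.map (Sum.map (f ∘ (Equiv.sumEmpty (Fin 2) Empty)) id)),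
    S.map_map, S.map_map, S.map_map, S.map_map]
  have e1 : Sum.map (f ∘ (Equiv.sumEmpty (Fin 2) Empty)) id ∘
      Sum.map (Sum.inl : Fin 2 → Fin 2 ⊕ Empty) (id : Fin 2 → Fin 2) ∘ pc_equiv =
      ![Sum.inl (f 0), Sum.inr 0, Sum.inl (f 1), Sum.inr 1] := by
    funext a
    fin_cases a <;> rfl
  have e2 : Sum.map (f ∘ (Equiv.sumEmpty (Fin 2) Empty)) id ∘
      Sum.map (Sum.inr : Empty → Fin 2 ⊕ Empty) (id : Fin 2 → Fin 2) ∘
      (Equiv.emptySum Empty (Fin 2)).symm = Sum.inr := by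
    funext a
    rfl
  rw [comp_assoc, comp_assoc, e1, e2]

end Pool.Agent.Lib.MP_4ca46c_ag.Nil
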