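import Pool.Agent.Lib.MP_4ca46c_ag.Nil.SpecD

set_option autoImplicit false

namespace Pool.Agent.Lib.MP_4ca46c_ag.Nil

/-- the rule for two factors -/
private theorem pm_two {K : Type} [Field K] (S : Sys K) (p : S.C (Fin 2)) (hp : S.OddSq p)
    {V : Type} [Finite V] (a b c d : V) :
    S.map ![a, b] p * S.map ![c, d] p = -(S.map ![a, d] p * S.map ![c, b] p) := by
  have h := congrArg (S.map ![a, b, c, d]) hp
  rw [map_mul, map_neg, map_mul, S.map_map, S.map_map, S.map_map, S.map_map] at h
  have e1 : (![a, b, c, d] : Fin 4 → V) ∘ ![(0 : Fin 4), 1] = ![a, b] := by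
    funext i
    fin_cases i <;> rfl
  have e2 : (![a, b, c, d] : Fin 4 → V) ∘ ![(2 : Fin 4), 3] = ![c, d] := by
    funext i
    fin_cases i <;> rfl
  have e3 : (![a, b, c, d] : Fin 4 → V) ∘ ![(0 : Fin 4), 3] = ![a, d] := by
    funext i
    fin_cases i <;> rfl
  have e4 : (![a, b, c, d] : Fin 4 → V) ∘ ![(2 : Fin 4), 1] = ![c, b] := by
    funext i
    fin_cases i <;> rfl
  rw [e1, e2, e3, e4] at h
  exact h

/-- one transposition -/
private theorem pm_swap {K : Type} [Field K] (S : Sys K) (p : S.C (Fin 2)) (hp : S.OddSq p)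
    {r : ℕ} {V : Type} [Finite V] (f s : Fin r → V) (x y : Fin r) (hxy : x ≠ y) :
    ∏ i : Fin r, S.map ![f (Equiv.swap x y i), s i] p =
      -∏ i : Fin r, S.map ![f i, s i] p := by
  have hy : y ∈ Finset.univ.erase x := Finset.mem_erase.2 ⟨hxy.symm, Finset.mem_univ _⟩
  rw [← Finset.mul_prod_erase Finset.univ
      (fun i => S.map ![f (Equiv.swap x y i), s i] p) (Finset.mem_univ x),
    ← Finset.mul_prod_erase (Finset.univ.erase x)
      (fun i => S.map ![f (Equiv.swap x y i), s i] p) hy,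
    ← Finset.mul_prod_erase Finset.univ (fun i => S.map ![f i, s i] p) (Finset.mem_univ x),
    ← Finset.mul_prod_erase (Finset.univ.erase x) (fun i => S.map ![f i, s i] p) hy]
  have hrest : ∏ i ∈ (Finset.univ.erase x).erase y, S.map ![f (Equiv.swap x y i), s i] p =
      ∏ i ∈ (Finset.univ.erase x).erase y, S.map ![f i, s i] p := by
    refine Finset.prod_congr rfl fun i hi => ?_
    have hiy : i ≠ y := Finset.ne_of_mem_erase hi
    have hix : i ≠ x := Finset.ne_of_mem_erase (Finset.mem_of_mem_erase hi)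
    rw [Equiv.swap_apply_of_ne_of_ne hix hiy]
  have h2 := pm_two S p hp (f y) (s x) (f x) (s y)
  simp only [Equiv.swap_apply_left, Equiv.swap_apply_right]
  rw [hrest, ← mul_assoc, h2, ← mul_assoc, neg_mul, mul_comm (S.map ![f y, s y] p)]

theorem tPm : S_Pm := by
  intro K _ S p hp r V _ f s π
  revert f
  refine Equiv.Perm.swap_induction_on π ?_ ?_
  · intro f
    simp
  · intro π' x y hxy ih f
    have h := ih (fun i => f (Equiv.swap x y i))
    have e1 : ∏ i : Fin r, S.map ![f ((Equiv.swap x y * π') i), s i] p =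
        ∏ i : Fin r, S.map ![f (Equiv.swap x y (π' i)), s i] p := rfl
    rw [e1, h, pm_swap S p hp f s x y hxy, Equiv.Perm.sign_mul, Equiv.Perm.sign_swap hxy]
    push_cast
    rw [neg_one_mul, neg_smul, smul_neg]

end Pool.Agent.Lib.MP_4ca46c_ag.Nil
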