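import Pool.Agent.Lib.MP_4ca46c_ag.Nil.SpecF

/-!
# Powers
-/

set_option autoImplicit false

namespace Pool.Agent.Lib.MP_4ca46c_ag.Nil

open Function

theorem tPow : S_Pow := by
  intro K _ S z r
  induction r with
  | zero =>
    have h := S.tot_equiv (Equiv.equivOfIsEmpty Empty (Fin 0)) (1 : S.C Empty)
    rw [map_one] at h
    rw [Sys.pw, Finset.univ_eq_empty, Finset.prod_empty, pow_zero, h, S.tot_one]
  | succ r ih =>
    have hb : Function.Bijective
        (Sum.elim Fin.castSucc (fun _ : Unit => Fin.last r) : Fin r ⊕ Unit → Fin (r + 1)) := by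
      constructor
      · rintro (a | a) (b | b) hab
        · exact congrArg Sum.inl (Fin.castSucc_injective r hab)
        · exact absurd hab (Fin.castSucc_lt_last a).ne
        · exact absurd hab (Fin.castSucc_lt_last b).ne'
        · rfl
      · intro a
        rcases Fin.eq_castSucc_or_eq_last a with ⟨b, rfl⟩ | rfl
        · exact ⟨Sum.inl b, rfl⟩
        · exact ⟨Sum.inr (), rfl⟩
    have h := S.tot_equiv (Equiv.ofBijective _ hb) (S.map Sum.inl (S.pw z r) * S.map Sum.inr z)
    rw [S.tot_mul, ih] at h
    rw [pow_succ, ← h]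
    congr 1
    rw [Sys.pw, Fin.prod_univ_castSucc, map_mul, S.map_map, S.map_map, Sys.pw, map_prod]
    congr 1
    refine Finset.prod_congr rfl fun i _ => ?_
    rw [S.map_map]
    rfl

end Pool.Agent.Lib.MP_4ca46c_ag.Nil
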