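import Pool.Agent.Lib.MP_4ca46c_ag.Nil.SpecD

/-!
# Powers, second version
-/

set_option autoImplicit false

namespace Pool.Agent.Lib.MP_4ca46c_ag.Nil

open Function

/-- `Fin (r+1) ⊕ Fin (r+1)` without the last elements. -/
def pow2_f (r : ℕ) : (Fin r ⊕ Fin r) ⊕ Fin 2 → Fin (r + 1) ⊕ Fin (r + 1) :=
  Sum.elim (Sum.map Fin.castSucc Fin.castSucc) ![Sum.inl (Fin.last r), Sum.inr (Fin.last r)]

theorem pow2_bij (r : ℕ) : Function.Bijective (pow2_f r) := by
  constructor
  · rintro ((a | a) | a) ((b | b) | b) hab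
    · have h : (Sum.inl (Fin.castSucc a) : Fin (r + 1) ⊕ Fin (r + 1)) =
          Sum.inl (Fin.castSucc b) := hab
      rw [Sum.inl.injEq] at h
      rw [Fin.castSucc_injective r h]
    · exact absurd hab (by simp [pow2_f])
    · fin_cases b
      · have h : (Sum.inl (Fin.castSucc a) : Fin (r + 1) ⊕ Fin (r + 1)) =
          Sum.inl (Fin.last r) := hab
        rw [Sum.inl.injEq] at h
        exact absurd h (Fin.castSucc_lt_last a).ne
      · exact absurd hab (by simp [pow2_f])
    · exact absurd hab (by simp [pow2_f])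
    · have h : (Sum.inr (Fin.castSucc a) : Fin (r + 1) ⊕ Fin (r + 1)) =
          Sum.inr (Fin.castSucc b) := hab
      rw [Sum.inr.injEq] at h
      rw [Fin.castSucc_injective r h]
    · fin_cases b
      · exact absurd hab (by simp [pow2_f])
      · have h : (Sum.inr (Fin.castSucc a) : Fin (r + 1) ⊕ Fin (r + 1)) =
          Sum.inr (Fin.last r) := hab
        rw [Sum.inr.injEq] at h
        exact absurd h (Fin.castSucc_lt_last a).ne
    · fin_cases a
      · have h : (Sum.inl (Fin.last r) : Fin (r + 1) ⊕ Fin (r + 1)) =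
          Sum.inl (Fin.castSucc b) := hab
        rw [Sum.inl.injEq] at h
        exact absurd h (Fin.castSucc_lt_last b).ne'
      · exact absurd hab (by simp [pow2_f])
    · fin_cases a
      · exact absurd hab (by simp [pow2_f])
      · have h : (Sum.inr (Fin.last r) : Fin (r + 1) ⊕ Fin (r + 1)) =
          Sum.inr (Fin.castSucc b) := hab
        rw [Sum.inr.injEq] at h
        exact absurd h (Fin.castSucc_lt_last b).ne'
    · fin_cases a <;> fin_cases b
      · rfl
      · exact absurd hab (by simp [pow2_f])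
      · exact absurd hab (by simp [pow2_f])
      · rfl
  · rintro (a | a)
    · rcases Fin.eq_castSucc_or_eq_last a with ⟨b, rfl⟩ | rfl
      · exact ⟨Sum.inl (Sum.inl b), rfl⟩
      · exact ⟨Sum.inr 0, rfl⟩
    · rcases Fin.eq_castSucc_or_eq_last a with ⟨b, rfl⟩ | rfl
      · exact ⟨Sum.inl (Sum.inr b), rfl⟩
      · exact ⟨Sum.inr 1, rfl⟩

theorem tPow2 : S_Pow2 := by
  intro K _ S z r
  induction r with
  | zero =>
    have h := S.tot_equiv (Equiv.equivOfIsEmpty Empty (Fin 0 ⊕ Fin 0)) (1 : S.C Empty)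
    rw [map_one] at h
    rw [Sys.pp, Finset.univ_eq_empty, Finset.prod_empty, pow_zero, h, S.tot_one]
  | succ r ih =>
    have h := S.tot_equiv (Equiv.ofBijective _ (pow2_bij r))
      (S.map Sum.inl (S.pp z r) * S.map Sum.inr z)
    rw [S.tot_mul, ih] at h
    rw [pow_succ, ← h]
    congr 1
    rw [Sys.pp, Fin.prod_univ_castSucc, map_mul, S.map_map, S.map_map, Sys.pp, map_prod]
    congr 1
    refine Finset.prod_congr rfl fun i _ => ?_
    rw [S.map_map]
    have hf : (Equiv.ofBijective _ (pow2_bij r) ∘ Sum.inl) ∘ ![Sum.inl i, Sum.inr i] =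
        ![Sum.inl i.castSucc, Sum.inr i.castSucc] := by
      funext j
      fin_cases j <;> rfl
    rw [hf]

end Pool.Agent.Lib.MP_4ca46c_ag.Nil
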