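import Pool.Agent.Lib.MP_4ca46c_ag.Nil.SpecL
import Pool.Agent.Lib.MP_4ca46c_ag.Sign.Q
import Pool.Agent.Lib.MP_4ca46c_ag.Sign.Inj
import Pool.Agent.Lib.MP_4ca46c_ag.Sign.Surj
import Pool.Agent.Lib.MP_4ca46c_ag.Sign.Prim
import Pool.Agent.Lib.MP_4ca46c_ag.Sign.Span

/-!
# Lemma Q'
-/

set_option autoImplicit false

namespace Pool.Agent.Lib.MP_4ca46c_ag.Nil

open Module TensorProduct LinearMap Pool.Agent.Lib.MP_4ca46c_ag.Sign

section

variable {K V : Type} [Field K] [AddCommGroup V] [Module K V]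
  {A : ℤ → AddSubgroup (Module.End K V)} {ε : Module.End K V} {r : ℤ} {f g : Module.End K V}

theorem q2_add (hf : SNum A ε r f) (hg : SNum A ε r g) : SNum A ε r (f + g) := by
  refine ⟨(A r).add_mem hf.1 hg.1, fun a ha => ?_⟩
  rw [mul_add, add_mul, map_add, hf.2 a ha, hg.2 a ha, add_zero]

theorem q2_sign_mem (hf : f ∈ A r) (a : ℕ) : ((-1 : K) ^ a) • f ∈ A r := by
  rcases neg_one_pow_eq_or K a with h | h
  · rw [h, one_smul]
    exact hf
  · rw [h, neg_smul, one_smul]
    exact (A r).neg_mem hf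

theorem q2_sign (hf : SNum A ε r f) (a : ℕ) : SNum A ε r (((-1 : K) ^ a) • f) := by
  refine ⟨q2_sign_mem hf.1 a, fun b hb => ?_⟩
  rw [mul_smul_comm, smul_mul_assoc, map_smul, hf.2 b hb, smul_zero]

theorem q2_sum_mem (s : Finset ℕ) (F : ℕ → Module.End K V) (hF : ∀ a ∈ s, F a ∈ A r) :
    ∑ a ∈ s, F a ∈ A r := (A r).sum_mem hF

end

section

variable {K V : Type} [Field K] [AddCommGroup V] [Module K V] [FiniteDimensional K V]
  {n : ℕ} {pr : ℤ → Module.End K V} {L : Module.End K V}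
  {A : ℤ → AddSubgroup (Module.End K V)} {B : ℤ → AddSubgroup (Module.End K (V ⊗[K] V))}

theorem q2_mul (h : RatAlg pr A) {r s t : ℤ} {f g : Module.End K V} (hf : f ∈ A r)
    (hg : g ∈ A s) (hrs : r + s = t) : f * g ∈ A t := hrs ▸ h.mul r s f hf g hg

theorem q2_pow_mem (h : OpData n pr L A B) (a : ℕ) : L ^ a ∈ A a := by
  induction a with
  | zero => simpa using h.ratA.one
  | succ a ih =>
    rw [pow_succ]
    exact q2_mul h.ratA ih h.L_mem (by push_cast; ring)

theorem q2_LL_mem (h : OpData n pr L A B) : LL L ∈ B 1 := by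
  refine (B 1).add_mem ?_ ?_
  · simpa using h.tensor 1 0 L h.L_mem 1 h.ratA.one
  · simpa using h.tensor 0 1 1 h.ratA.one L h.L_mem

theorem q2_Om_mem (h : OpData n pr L A B) {f : Module.End K V} (hf : f ∈ A 0) (r : ℕ) :
    qOm L f r ∈ B r := by
  refine q2_sum_mem _ _ fun a ha => q2_sign_mem ?_ _
  have ha' : a ≤ r := Nat.lt_succ_iff.1 (Finset.mem_range.1 ha)
  have h1 := h.tensor _ _ _ (q2_mul h.ratA (q2_pow_mem h a) hf (add_zero _))
    _ (q2_mul h.ratA (q2_pow_mem h (r - a)) hf (add_zero _))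
  have h2 : (a : ℤ) + ((r - a : ℕ) : ℤ) = r := by omega
  rwa [h2] at h1

theorem q2_W_mem (h : OpData n pr L A B) (r : ℕ) {g : Module.End K V} (hg : g ∈ A (-r)) :
    qW L g r ∈ B (-r) := by
  refine q2_sum_mem _ _ fun a ha => q2_sign_mem ?_ _
  have ha' : a ≤ r := Nat.lt_succ_iff.1 (Finset.mem_range.1 ha)
  have h1 := h.tensor _ _ _ (q2_mul h.ratA hg (q2_pow_mem h a) rfl)
    _ (q2_mul h.ratA hg (q2_pow_mem h (r - a)) rfl)
  have h2 : (-(r : ℤ) + (a : ℤ)) + (-(r : ℤ) + ((r - a : ℕ) : ℤ)) = -r := by omega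
  rwa [h2] at h1

/-- the trace formula (*) -/
theorem q2_trace (h : OpData n pr L A B) (r : ℕ) {f g : Module.End K V} (hf : f ∈ A 0)
    (hg : g ∈ A (-r)) (c : ℤ) :
    LinearMap.trace K _ (qW L g r * qOm L f r * prT n pr c) =
      (-1 : K) ^ r * (r + 1) * ∑ i ∈ Finset.Icc (0 : ℤ) (2 * n),
        LinearMap.trace K V (g * L ^ r * f * pr i) *
          LinearMap.trace K V (g * L ^ r * f * pr (c - i)) := by
  classical
  have hT : ∀ a b : ℕ, ∀ i, LinearMap.trace K V (g * L ^ a * (L ^ b * f) * pr i) =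
      if a + b = r then LinearMap.trace K V (g * L ^ r * f * pr i) else 0 := by
    intro a b i
    have h1 : g * L ^ a * (L ^ b * f) = g * L ^ (a + b) * f := by
      rw [pow_add]
      simp only [mul_assoc]
    rw [h1]
    split_ifs with h'
    · rw [h']
    · have h2 : g * L ^ (a + b) * f ∈ A (-(r : ℤ) + ((a + b : ℕ) : ℤ)) :=
        q2_mul h.ratA (q2_mul h.ratA hg (q2_pow_mem h (a + b)) rfl) hf (add_zero _)
      let G : GrAlg K V := spanG pr A h.ratA h.lef.pr_mul
      have h3 : g * L ^ (a + b) * f ∈ G.R (-(r : ℤ) + ((a + b : ℕ) : ℤ)) :=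
        Submodule.subset_span h2
      refine GrAlg.trace_pr_of_ne h3 ?_ i
      intro h4
      apply h'
      omega
  have h1 : qW L g r * qOm L f r * prT n pr c =
      ∑ i ∈ Finset.Icc (0 : ℤ) (2 * n), ∑ a ∈ Finset.range (r + 1), ∑ b ∈ Finset.range (r + 1),
        ((-1 : K) ^ a * (-1 : K) ^ b) • TensorProduct.map (g * L ^ a * (L ^ b * f) * pr i)
          (g * L ^ (r - a) * (L ^ (r - b) * f) * pr (c - i)) := by
    rw [prT, Finset.mul_sum]
    refine Finset.sum_congr rfl fun i _ => ?_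
    rw [qW, qOm, Finset.sum_mul_sum, Finset.sum_mul]
    refine Finset.sum_congr rfl fun a _ => ?_
    rw [Finset.sum_mul]
    refine Finset.sum_congr rfl fun b _ => ?_
    rw [smul_mul_assoc, mul_smul_comm, smul_mul_assoc, smul_mul_assoc, smul_smul,
      ← TensorProduct.map_mul, ← TensorProduct.map_mul]
  rw [h1, map_sum, Finset.mul_sum]
  refine Finset.sum_congr rfl fun i _ => ?_
  rw [map_sum]
  have h2 : ∀ a ∈ Finset.range (r + 1), LinearMap.trace K (V ⊗[K] V)
      (∑ b ∈ Finset.range (r + 1), ((-1 : K) ^ a * (-1 : K) ^ b) •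
        TensorProduct.map (g * L ^ a * (L ^ b * f) * pr i)
          (g * L ^ (r - a) * (L ^ (r - b) * f) * pr (c - i))) =
      (-1 : K) ^ r * (LinearMap.trace K V (g * L ^ r * f * pr i) *
          LinearMap.trace K V (g * L ^ r * f * pr (c - i))) := by
    intro a ha
    have ha' : a ≤ r := Nat.lt_succ_iff.1 (Finset.mem_range.1 ha)
    rw [map_sum, Finset.sum_eq_single (r - a)]
    · rw [map_smul, LinearMap.trace_tensorProduct', hT, hT, if_pos (by omega),
        if_pos (by omega), ← pow_add, show a + (r - a) = r by omega, smul_eq_mul]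
    · intro b hb hba
      have hb' : b ≤ r := Nat.lt_succ_iff.1 (Finset.mem_range.1 hb)
      rw [map_smul, LinearMap.trace_tensorProduct', hT, if_neg (by omega), zero_mul, smul_zero]
    · intro h'
      exact absurd (Finset.mem_range.2 (by omega)) h'
  rw [Finset.sum_congr rfl h2, Finset.sum_const, Finset.card_range, nsmul_eq_mul]
  push_cast
  ring

/-- below the middle degree -/
theorem q2_low (h : OpData n pr L A B) {w : Module.End K (V ⊗[K] V)}
    (hw : w ∈ Submodule.span K (B (-1) : Set (Module.End K (V ⊗[K] V))))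
    (r : ℤ) {Om : Module.End K (V ⊗[K] V)} (hOm : Om ∈ B r) (c : ℤ)
    (hc : LL L * w * LL L * prT n pr (c + 2 * r) = LL L * prT n pr (c + 2 * r))
    (hlt : c + 2 * r < 2 * n) :
    Om * prT n pr c = w * (LL L * Om) * prT n pr c := by
  let Z : GrAlg K (V ⊗[K] V) := spanG (prT n pr) B h.ratB (span_prT_mul h.lef)
  have hOm' : Om ∈ Z.R r := Submodule.subset_span hOm
  have hLL' : LL L ∈ Z.R 1 := Submodule.subset_span (q2_LL_mem h)
  have hX : Om - w * (LL L * Om) ∈ Z.R r :=
    (Z.R r).sub_mem hOm' (Z.mul_mem' hw (Z.mul_mem' hLL' hOm' rfl) (by ring))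
  have hcX : (Om - w * (LL L * Om)) * prT n pr c =
      prT n pr (c + 2 * r) * (Om - w * (LL L * Om)) := Z.comm r _ hX c
  have hcO : Om * prT n pr c = prT n pr (c + 2 * r) * Om := Z.comm r _ hOm' c
  rw [← sub_eq_zero, ← sub_mul]
  refine LinearMap.ext fun z => ?_
  rw [LinearMap.zero_apply]
  refine tInj K V n pr L h.lef (c + 2 * r) hlt _ ?_ ?_
  · have h2 : prT n pr (c + 2 * r) * ((Om - w * (LL L * Om)) * prT n pr c) =
        (Om - w * (LL L * Om)) * prT n pr c := by
      have h4 : prT n pr c * prT n pr c = prT n pr c := Z.pr_idem c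
      rw [← mul_assoc, ← hcX, mul_assoc, h4]
    exact LinearMap.congr_fun h2 z
  · have h2 : LL L * ((Om - w * (LL L * Om)) * prT n pr c) = 0 := by
      have h3 : LL L * ((Om - w * (LL L * Om)) * prT n pr c) =
          LL L * (Om * prT n pr c) - LL L * w * LL L * (Om * prT n pr c) := by
        simp only [sub_mul, mul_sub, mul_assoc]
      rw [h3, hcO, ← mul_assoc, ← mul_assoc, hc, sub_self]
    exact LinearMap.congr_fun h2 z

/-- above the middle degree -/
theorem q2_high (h : OpData n pr L A B) {w : Module.End K (V ⊗[K] V)} (c : ℤ)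
    (hc : LL L * w * LL L * prT n pr (c - 2) = LL L * prT n pr (c - 2)) (hlt : 2 * n < c) :
    LL L * w * prT n pr c = prT n pr c := by
  refine LinearMap.ext fun z => ?_
  have h0 : prT n pr c * prT n pr c = prT n pr c := by
    rw [span_prT_mul h.lef, if_pos rfl]
  obtain ⟨y, hy1, hy2⟩ := tSurj tPrim K V n pr L h.lef c hlt (prT n pr c z)
    (LinearMap.congr_fun h0 z)
  have hev := LinearMap.congr_fun hc y
  have h3 : (LL L * w * LL L) y = LL L y := by
    have h4 : (LL L * w * LL L) (prT n pr (c - 2) y) = LL L (prT n pr (c - 2) y) := hev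
    rwa [hy1] at h4
  have h5 : (LL L * w) (LL L y) = LL L y := h3
  rw [hy2] at h5
  exact h5

/-- numerically trivial operators have trace zero on each graded piece -/
theorem q2_nil [CharZero K] (h2 : S_EpsT) (h : NilOp n pr L A B)
    {u : Module.End K (V ⊗[K] V)} (hu : SNum B (sgn (2 * n) (prT n pr)) 0 u) (c : ℤ) :
    LinearMap.trace K _ (u * prT n pr c) = 0 := by
  let Z : GrAlg K (V ⊗[K] V) := spanG (prT n pr) B h.op.ratB (span_prT_mul h.op.lef)
  rw [← (h2 K V n pr h.op.lef.out).1] at hu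
  have h3 : u ∈ Z.R 0 := Submodule.subset_span hu.1
  have h4 : LinearMap.trace K _ (prT n pr c * u) = 0 :=
    GrAlg.trace_pr_of_nilpotent (G := Z) h3 (h.nilB u hu) c
  rw [LinearMap.trace_mul_comm]
  exact h4

/-- below the middle degree, the trace -/
theorem q2_traceLow [CharZero K] (h1 : S_Idl) (h2 : S_EpsT) (h : NilOp n pr L A B)
    {w : Module.End K (V ⊗[K] V)}
    (hw : w ∈ Submodule.span K (B (-1) : Set (Module.End K (V ⊗[K] V)))) (r : ℕ)
    {W Om : Module.End K (V ⊗[K] V)} (hOm : Om ∈ B r) (hW : W ∈ B (-r))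
    (hHO : SNum B (sgn (2 * n) (prT n pr)) (r + 1) (LL L * Om)) (c : ℤ)
    (hc : LL L * w * LL L * prT n pr (c + 2 * r) = LL L * prT n pr (c + 2 * r))
    (hlt : c + 2 * r < 2 * n) : LinearMap.trace K _ (W * Om * prT n pr c) = 0 := by
  have h4 := q2_low h.op hw r hOm c hc hlt
  have h5 : W * Om * prT n pr c = W * w * (LL L * Om) * prT n pr c := by
    rw [mul_assoc, h4]
    simp only [mul_assoc]
  rw [h5]
  clear h4 h5 hc
  induction hw using Submodule.span_induction with
  | zero => rw [mul_zero, zero_mul, zero_mul, map_zero]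
  | add x y _ _ hx hy => rw [mul_add, add_mul, add_mul, map_add, hx, hy, add_zero]
  | smul a x _ hx => rw [mul_smul_comm, smul_mul_assoc, smul_mul_assoc, map_smul, hx, smul_zero]
  | mem x hx =>
    have h6 : W * x ∈ B (-r + -1) := h.op.ratB.mul _ _ _ hW _ hx
    have h7 := (h1 K (V ⊗[K] V) (2 * n) (prT n pr) B (h2 K V n pr h.op.lef.out).2 h.op.ratB
      _ _ _ _ hHO h6).1
    have h8 : (-(r : ℤ) + -1) + (r + 1) = 0 := by ring
    rw [h8] at h7
    exact q2_nil h2 h h7 c

/-- above the middle degree, the trace -/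
theorem q2_traceHigh [CharZero K] (h1 : S_Idl) (h2 : S_EpsT) (h : NilOp n pr L A B)
    {w : Module.End K (V ⊗[K] V)}
    (hw : w ∈ Submodule.span K (B (-1) : Set (Module.End K (V ⊗[K] V)))) (r : ℕ)
    {W Om : Module.End K (V ⊗[K] V)} (hOm : Om ∈ B r)
    (hWH : SNum B (sgn (2 * n) (prT n pr)) (-r + 1) (W * LL L)) (c : ℤ)
    (hc : LL L * w * LL L * prT n pr (c + 2 * r - 2) = LL L * prT n pr (c + 2 * r - 2))
    (hlt : 2 * n < c + 2 * r) : LinearMap.trace K _ (W * Om * prT n pr c) = 0 := by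
  let Z : GrAlg K (V ⊗[K] V) := spanG (prT n pr) B h.op.ratB (span_prT_mul h.op.lef)
  have hcO : Om * prT n pr c = prT n pr (c + 2 * r) * Om :=
    Z.comm r _ (Submodule.subset_span hOm) c
  have h4 := q2_high h.op (c + 2 * r) hc hlt
  have h5 : W * Om * prT n pr c = W * LL L * w * Om * prT n pr c := by
    rw [mul_assoc, hcO, ← h4]
    have h6 : W * LL L * w * Om * prT n pr c = W * LL L * w * (Om * prT n pr c) := by
      simp only [mul_assoc]
    rw [h6, hcO]
    simp only [mul_assoc]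
  rw [h5]
  clear h4 h5 hc
  induction hw using Submodule.span_induction with
  | zero => rw [mul_zero, zero_mul, zero_mul, map_zero]
  | add x y _ _ hx hy => rw [mul_add, add_mul, add_mul, map_add, hx, hy, add_zero]
  | smul a x _ hx => rw [mul_smul_comm, smul_mul_assoc, smul_mul_assoc, map_smul, hx, smul_zero]
  | mem x hx =>
    have h6 : x * Om ∈ B (-1 + r) := h.op.ratB.mul _ _ _ hx _ hOm
    have h7 := (h1 K (V ⊗[K] V) (2 * n) (prT n pr) B (h2 K V n pr h.op.lef.out).2 h.op.ratB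
      _ _ _ _ hWH h6).2
    have h8 : (-(r : ℤ) + 1) + (-1 + r) = 0 := by ring
    rw [h8, ← mul_assoc] at h7
    exact q2_nil h2 h h7 c

end

/-- `H Om` is numerically trivial. -/
theorem q2_HO {K V : Type} [Field K] [CharZero K] [AddCommGroup V] [Module K V]
    [FiniteDimensional K V] {n : ℕ} {pr : ℤ → Module.End K V} {L : Module.End K V}
    {A : ℤ → AddSubgroup (Module.End K V)} {B : ℤ → AddSubgroup (Module.End K (V ⊗[K] V))}
    (h2 : S_EpsT) (h3 : S_AB2) (h : OpData n pr L A B) (r : ℕ) {f : Module.End K V}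
    (hf : f ∈ A 0) (hLf : SNum A (sgn n pr) (r + 1) (L ^ (r + 1) * f)) :
    SNum B (sgn (2 * n) (prT n pr)) (r + 1) (LL L * qOm L f r) := by
  have h4 := h3 K V n pr L A B h _ _ _ _ hLf hf
  rw [add_zero, (h2 K V n pr h.lef.out).1] at h4
  rw [q_LL_Om]
  exact q2_add h4.2 (q2_sign h4.1 r)

/-- `W H` is numerically trivial. -/
theorem q2_WH {K V : Type} [Field K] [CharZero K] [AddCommGroup V] [Module K V]
    [FiniteDimensional K V] {n : ℕ} {pr : ℤ → Module.End K V} {L : Module.End K V}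
    {A : ℤ → AddSubgroup (Module.End K V)} {B : ℤ → AddSubgroup (Module.End K (V ⊗[K] V))}
    (h2 : S_EpsT) (h3 : S_AB2) (h : OpData n pr L A B) (r : ℕ) {g : Module.End K V}
    (hg : g ∈ A (-r)) (hgL : SNum A (sgn n pr) 1 (g * L ^ (r + 1))) :
    SNum B (sgn (2 * n) (prT n pr)) (-r + 1) (qW L g r * LL L) := by
  have h4 := h3 K V n pr L A B h _ _ _ _ hgL hg
  rw [(h2 K V n pr h.lef.out).1, show (1 : ℤ) + -(r : ℤ) = -r + 1 by ring] at h4
  rw [q_W_LL]
  exact q2_add h4.2 (q2_sign h4.1 r)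

/-- **Lemma Q'.** -/
theorem tQ2 (h1 : S_Idl) (h2 : S_EpsT) (h3 : S_AB2) : S_Q2 := by
  intro K V _ _ _ _ _ n pr L A B h w hw hev r f hf g hg hLf hgL
  classical
  set t : ℤ → K := fun i => LinearMap.trace K V (g * L ^ r * f * pr i) with ht
  have htr : ∀ c, LinearMap.trace K _ (qW L g r * qOm L f r * prT n pr c) =
      (-1 : K) ^ r * (r + 1) * ∑ i ∈ Finset.Icc (0 : ℤ) (2 * n), t i * t (c - i) := fun c =>
    q2_trace h.op r hf hg c
  have hOm := q2_Om_mem h.op hf r
  have hW := q2_W_mem h.op r hg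
  have hHO := q2_HO h2 h3 h.op r hf hLf
  have hWH := q2_WH h2 h3 h.op r hg hgL
  -- vanishing of the traces
  have hlow : ∀ i : ℤ, i < n - r →
      LinearMap.trace K _ (qW L g r * qOm L f r * prT n pr (2 * i)) = 0 := fun i hi =>
    q2_traceLow h1 h2 h hw r hOm hW hHO (2 * i)
      (hev _ ((even_two_mul i).add (even_two_mul _))) (by omega)
  have hhigh : ∀ i : ℤ, n - r < i →
      LinearMap.trace K _ (qW L g r * qOm L f r * prT n pr (2 * i)) = 0 := fun i hi =>
    q2_traceHigh h1 h2 h hw r hOm hWH (2 * i)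
      (hev _ (((even_two_mul i).add (even_two_mul _)).sub (by decide))) (by omega)
  -- the extremal indices
  have hout : ∀ i, i < 0 ∨ 2 * (n : ℤ) < i → t i = 0 := fun i hi => by
    show LinearMap.trace K V (g * L ^ r * f * pr i) = 0
    rw [h.op.lef.out i hi, mul_zero, map_zero]
  have hin : ∀ i, t i ≠ 0 → 0 ≤ i ∧ i ≤ 2 * n := fun i hi => by
    constructor
    · by_contra h'
      exact hi (hout i (Or.inl (by omega)))
    · by_contra h'
      exact hi (hout i (Or.inr (by omega)))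
  have hnz : ∀ i, t i ≠ 0 → (∀ k, k ≠ i → t k * t (2 * i - k) = 0) →
      LinearMap.trace K _ (qW L g r * qOm L f r * prT n pr (2 * i)) ≠ 0 := by
    intro i hi hk
    rw [htr, Finset.sum_eq_single i (fun k _ hki => hk k hki)
      (fun h' => absurd (Finset.mem_Icc.2 (hin i hi)) h'), show 2 * i - i = i by ring]
    refine mul_ne_zero (mul_ne_zero (pow_ne_zero _ (neg_ne_zero.2 one_ne_zero)) ?_)
      (mul_ne_zero hi hi)
    exact Nat.cast_add_one_ne_zero r
  by_contra hne
  rw [HalfZero, not_or] at hne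
  obtain ⟨hne1, hne2⟩ := hne
  push Not at hne1 hne2
  obtain ⟨i, hi, hti⟩ := hne1
  obtain ⟨j, hj, htj⟩ := hne2
  have hti' : t i ≠ 0 := hti
  have htj' : t j ≠ 0 := htj
  have hij : i ≠ j := by
    rintro rfl
    exact (Int.not_even_iff_odd.2 hj) hi
  set S : Finset ℤ := (Finset.Icc (0 : ℤ) (2 * n)).filter (fun i => t i ≠ 0) with hSdef
  have hmem : ∀ i, i ∈ S ↔ t i ≠ 0 := fun i => by
    rw [hSdef, Finset.mem_filter, Finset.mem_Icc]
    exact ⟨fun h' => h'.2, fun h' => ⟨hin i h', h'⟩⟩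
  have hSne : S.Nonempty := ⟨j, (hmem j).2 htj'⟩
  have hmM : S.min' hSne < S.max' hSne :=
    Finset.min'_lt_max' S ((hmem i).2 hti') ((hmem j).2 htj') hij
  have hmin : ∀ k, k < S.min' hSne → t k = 0 := fun k hk => by
    by_contra h'
    exact absurd (S.min'_le k ((hmem k).2 h')) (not_le.2 hk)
  have hmax : ∀ k, S.max' hSne < k → t k = 0 := fun k hk => by
    by_contra h'
    exact absurd (S.le_max' k ((hmem k).2 h')) (not_le.2 hk)
  have h0 : t (S.min' hSne) ≠ 0 := (hmem _).1 (S.min'_mem hSne)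
  have h0' : t (S.max' hSne) ≠ 0 := (hmem _).1 (S.max'_mem hSne)
  have hge : (n : ℤ) - r ≤ S.min' hSne := by
    by_contra h'
    refine hnz _ h0 ?_ (hlow _ (by omega))
    intro k hk
    rcases lt_or_gt_of_ne hk with h'' | h''
    · rw [hmin k h'', zero_mul]
    · rw [hmin (2 * S.min' hSne - k) (by omega), mul_zero]
  have hle : S.max' hSne ≤ (n : ℤ) - r := by
    by_contra h'
    refine hnz _ h0' ?_ (hhigh _ (by omega))
    intro k hk
    rcases lt_or_gt_of_ne hk with h'' | h''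
    · rw [hmax (2 * S.max' hSne - k) (by omega), mul_zero]
    · rw [hmax k h'', zero_mul]
  omega

end Pool.Agent.Lib.MP_4ca46c_ag.Nil
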