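import Pool.Agent.Lib.MP_4ca46c_ag.Nil.SpecL

/-!
# Specification L2: the last step, odd version
-/

set_option autoImplicit false

namespace Pool.Agent.Lib.MP_4ca46c_ag.Nil

open Module TensorProduct LinearMap Pool.Agent.Lib.MP_4ca46c_ag.Sign

/-- **The last step, odd version.** The statements `S_Q2o`, `S_K12`, `S_K22` are hypotheses;
assembly, exactly as `S_SgnN` (`Nil/SgnN.lean`). -/
def S_SgnO : Prop := ∀ (K V : Type) [Field K] [CharZero K] [AddCommGroup V] [Module K V]
  [FiniteDimensional K V] (n : ℕ) (pr : ℤ → Module.End K V) (L : Module.End K V)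
  (A : ℤ → AddSubgroup (Module.End K V)) (B : ℤ → AddSubgroup (Module.End K (V ⊗[K] V))),
  NilOp n pr L A B → ∀ w ∈ Submodule.span K (B (-1) : Set (Module.End K (V ⊗[K] V))),
  (∀ c, Odd c → LL L * w * LL L * prT n pr c = LL L * prT n pr c) → sgn n pr ∈ A 0

end Pool.Agent.Lib.MP_4ca46c_ag.Nil
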