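import Pool.Agent.Lib.MP_4ca46c_ag.Nil.Q2
import Pool.Agent.Lib.MP_4ca46c_ag.Nil.SpecL2

/-!
# Lemma Q', odd version
-/

set_option autoImplicit false

namespace Pool.Agent.Lib.MP_4ca46c_ag.Nil

open Module TensorProduct LinearMap Pool.Agent.Lib.MP_4ca46c_ag.Sign

/-- **Lemma Q', odd version.** -/
theorem tQ2o (h1 : S_Idl) (h2 : S_EpsT) (h3 : S_AB2) : S_Q2o := by
  intro K V _ _ _ _ _ n pr L A B h w hw hodd r f hf g hg hLf hgL
  classical
  set t : ℤ → K := fun i => LinearMap.trace K V (g * L ^ r * f * pr i) with ht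
  have htr : ∀ c, LinearMap.trace K _ (qW L g r * qOm L f r * prT n pr c) =
      (-1 : K) ^ r * (r + 1) * ∑ i ∈ Finset.Icc (0 : ℤ) (2 * n), t i * t (c - i) := fun c =>
    q2_trace h.op r hf hg c
  have hOm := q2_Om_mem h.op hf r
  have hW := q2_W_mem h.op r hg
  have hHO := q2_HO h2 h3 h.op r hf hLf
  have hWH := q2_WH h2 h3 h.op r hg hgL
  -- vanishing of the traces
  have hz : ∀ c : ℤ, Odd c →
      LinearMap.trace K _ (qW L g r * qOm L f r * prT n pr c) = 0 := by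
    intro c hc
    have ho : Odd (c + 2 * (r : ℤ)) := hc.add_even (even_two_mul _)
    have hne : c + 2 * (r : ℤ) ≠ 2 * n := by
      intro he
      rw [he] at ho
      exact (Int.not_even_iff_odd.2 ho) (even_two_mul _)
    rcases lt_or_gt_of_ne hne with hlt | hlt
    · exact q2_traceLow h1 h2 h hw r hOm hW hHO c (hodd _ ho) hlt
    · exact q2_traceHigh h1 h2 h hw r hOm hWH c (hodd _ (ho.sub_even (by decide))) hlt
  have hout : ∀ i, i < 0 ∨ 2 * (n : ℤ) < i → t i = 0 := fun i hi => by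
    show LinearMap.trace K V (g * L ^ r * f * pr i) = 0
    rw [h.op.lef.out i hi, mul_zero, map_zero]
  have hin : ∀ i, t i ≠ 0 → 0 ≤ i ∧ i ≤ 2 * n := fun i hi => by
    constructor
    · by_contra h'
      exact hi (hout i (Or.inl (by omega)))
    · by_contra h'
      exact hi (hout i (Or.inr (by omega)))
  by_contra hne
  rw [HalfZero, not_or] at hne
  obtain ⟨hne1, hne2⟩ := hne
  push Not at hne1 hne2
  obtain ⟨i, hi, hti⟩ := hne1
  obtain ⟨j, hj, htj⟩ := hne2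
  have hti' : t i ≠ 0 := hti
  have htj' : t j ≠ 0 := htj
  set S₀ : Finset ℤ := (Finset.Icc (0 : ℤ) (2 * n)).filter (fun i => t i ≠ 0 ∧ Even i) with hS₀
  set S₁ : Finset ℤ := (Finset.Icc (0 : ℤ) (2 * n)).filter (fun i => t i ≠ 0 ∧ Odd i) with hS₁
  have hmem₀ : ∀ i, i ∈ S₀ ↔ t i ≠ 0 ∧ Even i := fun i => by
    rw [hS₀, Finset.mem_filter, Finset.mem_Icc]
    exact ⟨fun h' => h'.2, fun h' => ⟨hin i h'.1, h'⟩⟩
  have hmem₁ : ∀ i, i ∈ S₁ ↔ t i ≠ 0 ∧ Odd i := fun i => by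
    rw [hS₁, Finset.mem_filter, Finset.mem_Icc]
    exact ⟨fun h' => h'.2, fun h' => ⟨hin i h'.1, h'⟩⟩
  have hne₀ : S₀.Nonempty := ⟨i, (hmem₀ i).2 ⟨hti', hi⟩⟩
  have hne₁ : S₁.Nonempty := ⟨j, (hmem₁ j).2 ⟨htj', hj⟩⟩
  obtain ⟨h0, he0⟩ := (hmem₀ _).1 (S₀.min'_mem hne₀)
  obtain ⟨h1', ho1⟩ := (hmem₁ _).1 (S₁.min'_mem hne₁)
  set a := S₀.min' hne₀ with ha
  set b := S₁.min' hne₁ with hb
  have hmin₀ : ∀ k, Even k → k < a → t k = 0 := fun k hk hka => by
    by_contra h'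
    exact absurd (S₀.min'_le k ((hmem₀ k).2 ⟨h', hk⟩)) (not_le.2 hka)
  have hmin₁ : ∀ k, Odd k → k < b → t k = 0 := fun k hk hkb => by
    by_contra h'
    exact absurd (S₁.min'_le k ((hmem₁ k).2 ⟨h', hk⟩)) (not_le.2 hkb)
  have hab : a ≠ b := by
    intro he
    rw [← he] at ho1
    exact (Int.not_even_iff_odd.2 ho1) he0
  have hsum : ∑ k ∈ Finset.Icc (0 : ℤ) (2 * n), t k * t (a + b - k) = 2 * (t a * t b) := by
    rw [← Finset.sum_subset (s₁ := {a, b})]
    · rw [Finset.sum_pair hab, add_sub_cancel_left, add_sub_cancel_right]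
      ring
    · intro k hk
      rw [Finset.mem_insert, Finset.mem_singleton] at hk
      rcases hk with rfl | rfl
      · exact Finset.mem_Icc.2 (hin _ h0)
      · exact Finset.mem_Icc.2 (hin _ h1')
    · intro k _ hk
      rw [Finset.mem_insert, Finset.mem_singleton, not_or] at hk
      rcases Int.even_or_odd k with hke | hko
      · rcases lt_or_gt_of_ne hk.1 with h4 | h4
        · rw [hmin₀ k hke h4, zero_mul]
        · rw [hmin₁ (a + b - k) ((he0.add_odd ho1).sub_even hke) (by omega), mul_zero]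
      · rcases lt_or_gt_of_ne hk.2 with h4 | h4
        · rw [hmin₁ k hko h4, zero_mul]
        · rw [hmin₀ (a + b - k) ((he0.add_odd ho1).sub_odd hko) (by omega), mul_zero]
  have h5 := hz (a + b) (he0.add_odd ho1)
  rw [htr, hsum] at h5
  refine (mul_ne_zero (mul_ne_zero (pow_ne_zero _ (neg_ne_zero.2 one_ne_zero)) ?_)
      (mul_ne_zero two_ne_zero (mul_ne_zero h0 h1'))) h5
  exact Nat.cast_add_one_ne_zero r

end Pool.Agent.Lib.MP_4ca46c_ag.Nil
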