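import Pool.Agent.Lib.MP_4ca46c_ag.Nil.SpecF

/-!
# The form of `Q` for symmetric tensors

`Q` is invariant under the exchange of the first two variables, and this involution exchanges
`M2` and `M3`.
-/

set_option autoImplicit false

namespace Pool.Agent.Lib.MP_4ca46c_ag.Nil

/-- the exchange of the first two variables -/
def q4_p : Fin 4 ≃ Fin 4 where
  toFun := ![1, 0, 2, 3]
  invFun := ![1, 0, 2, 3]
  left_inv := by intro i; fin_cases i <;> rfl
  right_inv := by intro i; fin_cases i <;> rfl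

section

variable {K : Type} [Field K] (S : Sys K)

theorem q4_invol (u : S.C (Fin 4)) : S.map q4_p (S.map q4_p u) = u := by
  rw [S.map_map]
  have h : (q4_p : Fin 4 → Fin 4) ∘ (q4_p : Fin 4 → Fin 4) = id := by
    funext i
    fin_cases i <;> rfl
  rw [h, S.map_id]

theorem q4_inv {J : Type} [Finite J] (τ : S.C (Fin 2 ⊕ J)) (hs : S.Sym τ) (Q : S.C (Fin 4))
    (hQ : S.IsQ τ Q) : S.map q4_p Q = Q := by
  refine S.ext_tot fun w => ?_
  have h1 := hQ (Fin 4) q4_p w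
  have h2 := hQ (Fin 4) id w
  rw [S.map_id] at h2
  rw [h1, h2]
  have h3 : S.map (Sum.elim (Sum.inl ∘ ![q4_p 0, q4_p 1]) Sum.inr : Fin 2 ⊕ J → Fin 4 ⊕ J) τ =
      S.map (Sum.elim (Sum.inl ∘ ![id 0, id 1]) Sum.inr : Fin 2 ⊕ J → Fin 4 ⊕ J) τ := by
    conv_rhs => rw [← hs (Equiv.sumCongr (Equiv.swap 0 1) (Equiv.refl J)), S.map_map]
    congr 2
    funext i
    rcases i with i | i
    · fin_cases i <;> rfl
    · rfl
  have h4 : (Sum.elim (Sum.inl ∘ ![q4_p 2, q4_p 3]) Sum.inr : Fin 2 ⊕ J → Fin 4 ⊕ J) =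
      Sum.elim (Sum.inl ∘ ![id 2, id 3]) Sum.inr := by
    funext i
    rcases i with i | i
    · fin_cases i <;> rfl
    · rfl
  rw [h3, h4]

theorem q4_esymm {V : Type} [Finite V] (a b : V) : S.map ![a, b] S.e = S.map ![b, a] S.e := by
  conv_rhs => rw [← S.e_symm, S.map_map]
  congr 2
  funext i
  fin_cases i <;> rfl

theorem q4_M1 : S.map q4_p S.M1 = S.M1 := by
  unfold Sys.M1
  simp only [map_mul, S.map_map]
  have h1 : (q4_p : Fin 4 → Fin 4) ∘ ![0, 1] = ![1, 0] := by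
    funext i
    fin_cases i <;> rfl
  have h2 : (q4_p : Fin 4 → Fin 4) ∘ ![2, 3] = ![2, 3] := by
    funext i
    fin_cases i <;> rfl
  rw [h1, h2, q4_esymm S 1 0]

theorem q4_M2 : S.map q4_p S.M2 = S.M3 := by
  unfold Sys.M2 Sys.M3
  simp only [map_mul, S.map_map]
  have h1 : (q4_p : Fin 4 → Fin 4) ∘ ![0, 2] = ![1, 2] := by
    funext i
    fin_cases i <;> rfl
  have h2 : (q4_p : Fin 4 → Fin 4) ∘ ![1, 3] = ![0, 3] := by
    funext i
    fin_cases i <;> rfl
  rw [h1, h2, mul_comm]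

theorem q4_M3 : S.map q4_p S.M3 = S.M2 := by
  rw [← q4_M2, q4_invol]

end

/-- **The form of `Q` for symmetric tensors.** -/
theorem tQ4 : S_Q4 := by
  intro K _ _ S J _ τ _ hs Q hQT hQ
  have hp := q4_inv S τ hs Q hQ
  obtain ⟨a, b, c, ν₀, hν, hN, h⟩ := S.four Q hQT
  have h : Q = a • S.M1 + b • S.M2 + c • S.M3 + ν₀ := h
  have hp2 : Q = a • S.M1 + b • S.M3 + c • S.M2 + S.map q4_p ν₀ := by
    conv_lhs => rw [← hp, h]
    simp only [map_add, map_smul, q4_M1, q4_M2, q4_M3]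
  have hN2 : S.Num (S.map q4_p ν₀) := by
    intro g hg
    rw [← q4_invol S g, ← map_mul, S.tot_equiv]
    exact hN _ (S.T_equiv q4_p g hg)
  refine ⟨a, (b + c) / 2, (1 / 2 : K) • (ν₀ + S.map q4_p ν₀), ?_, ?_, ?_⟩
  · exact Submodule.smul_mem _ _ (Submodule.add_mem _ hν (S.T_equiv q4_p _ hν))
  · intro g hg
    rw [smul_mul_assoc, map_smul, add_mul, map_add, hN g hg, hN2 g hg, add_zero, smul_zero]
  · have h2 : Q = (1 / 2 : K) • (Q + Q) := by
      rw [← two_smul K Q, smul_smul]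
      norm_num
    rw [h2]
    conv_lhs =>
      arg 2
      arg 1
      rw [h]
    conv_lhs =>
      arg 2
      arg 2
      rw [hp2]
    module

end Pool.Agent.Lib.MP_4ca46c_ag.Nil
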