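import Pool.Agent.Lib.MP_4ca46c_ag.Nil.SpecD
import Pool.Agent.Lib.MP_4ca46c_ag.Nil.Q4

/-!
# The form of `Q` for antisymmetric tensors

`Q` changes its sign under the exchange of the first two variables, and this involution exchanges
`M2` and `M3`.
-/

set_option autoImplicit false

namespace Pool.Agent.Lib.MP_4ca46c_ag.Nil

theorem qa_inv {K : Type} [Field K] (S : Sys K) {J : Type} [Finite J] [DecidableEq J]
    (τ : S.C (Fin 2 ⊕ J)) (hs : S.map (Equiv.swap (Sum.inl 0) (Sum.inl 1)) τ = -τ)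
    (Q : S.C (Fin 4)) (hQ : S.IsQ τ Q) : S.map q4_p Q = -Q := by
  refine S.ext_tot fun w => ?_
  have h1 := hQ (Fin 4) q4_p w
  have h2 := hQ (Fin 4) id w
  rw [S.map_id] at h2
  rw [mul_neg, map_neg, h1, h2]
  have h3 : S.map (Sum.elim (Sum.inl ∘ ![q4_p 0, q4_p 1]) Sum.inr : Fin 2 ⊕ J → Fin 4 ⊕ J) τ =
      -S.map (Sum.elim (Sum.inl ∘ ![id 0, id 1]) Sum.inr : Fin 2 ⊕ J → Fin 4 ⊕ J) τ := by
    rw [← map_neg, ← hs, S.map_map]
    congr 2
    funext i
    rcases i with i | i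
    · fin_cases i
      · simp [q4_p]
      · simp [q4_p]
    · rw [Function.comp_apply, Equiv.swap_apply_of_ne_of_ne Sum.inr_ne_inl Sum.inr_ne_inl]
      rfl
  have h4 : (Sum.elim (Sum.inl ∘ ![q4_p 2, q4_p 3]) Sum.inr : Fin 2 ⊕ J → Fin 4 ⊕ J) =
      Sum.elim (Sum.inl ∘ ![id 2, id 3]) Sum.inr := by
    funext i
    rcases i with i | i
    · fin_cases i <;> rfl
    · rfl
  rw [h3, h4, neg_mul, mul_neg, map_neg]

/-- **The form of `Q` for antisymmetric `τ`.** -/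
theorem tQa : S_Qa := by
  intro K _ _ S J _ _ τ _ hs Q hQT hQ
  have hp := qa_inv S τ hs Q hQ
  obtain ⟨a, b, c, ν₀, hν, hN, h⟩ := S.four Q hQT
  have h : Q = a • S.M1 + b • S.M2 + c • S.M3 + ν₀ := h
  have hp2 : -Q = a • S.M1 + b • S.M3 + c • S.M2 + S.map q4_p ν₀ := by
    conv_lhs => rw [← hp, h]
    simp only [map_add, map_smul, q4_M1, q4_M2, q4_M3]
  have hN2 : S.Num (S.map q4_p ν₀) := by
    intro g hg
    rw [← q4_invol S g, ← map_mul, S.tot_equiv]
    exact hN _ (S.T_equiv q4_p g hg)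
  refine ⟨(b - c) / 2, (1 / 2 : K) • (ν₀ - S.map q4_p ν₀), ?_, ?_, ?_⟩
  · exact Submodule.smul_mem _ _ (Submodule.sub_mem _ hν (S.T_equiv q4_p _ hν))
  · intro g hg
    rw [smul_mul_assoc, map_smul, sub_mul, map_sub, hN g hg, hN2 g hg, sub_zero, smul_zero]
  · have h2 : Q = (1 / 2 : K) • (Q - -Q) := by
      rw [sub_neg_eq_add, ← two_smul K Q, smul_smul]
      norm_num
    rw [h2]
    conv_lhs =>
      arg 2
      arg 1
      rw [h]
    conv_lhs =>
      arg 2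
      arg 2
      rw [hp2]
    module

end Pool.Agent.Lib.MP_4ca46c_ag.Nil
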