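import Pool.Agent.Lib.MP_4ca46c_ag.Nil.SpecF

/-!
# The relation of the scalar products
-/

set_option autoImplicit false

namespace Pool.Agent.Lib.MP_4ca46c_ag.Nil

theorem rel_tot {K : Type} [Field K] (S : Sys K) (M Q ν : S.C (Fin 4)) (α β : K)
    (hM : M ∈ S.T (Fin 4)) (hν : S.Num ν)
    (hQ : Q = α • S.M1 + β • (S.M2 + S.M3) + ν) :
    S.tot (Fin 4) (M * Q) = α * S.tot (Fin 4) (M * S.M1) +
      β * (S.tot (Fin 4) (M * S.M2) + S.tot (Fin 4) (M * S.M3)) := by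
  have h0 : S.tot (Fin 4) (M * ν) = 0 := by
    rw [mul_comm]
    exact hν M hM
  rw [hQ, mul_add, mul_add, mul_smul_comm, mul_smul_comm, mul_add, map_add, map_add, map_smul,
    map_smul, map_add, h0, smul_eq_mul, smul_eq_mul, add_zero]

theorem tRel (h1 : S_Dia) (h2 : S_Qex) (h3 : S_Q4) (h4 : S_Val) (h5 : S_Lam) : S_Rel := by
  intro K _ _ S w hw hw0 J _ τ hτ hs
  obtain ⟨Q, hQT, hQ⟩ := h2 K S J τ hτ
  obtain ⟨α, β, ν, hν, hnum, hQe⟩ := h3 K S J τ hτ hs Q hQT hQ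
  obtain ⟨v1, v2⟩ := h4 K S J τ hτ Q hQ
  obtain ⟨m1, m2, m3, d11, d12, d13, d21, d22, d23⟩ := h1 K S
  have hl := h5 K S w hw hw0 J τ hτ hs Q hQ α β ν hν hnum hQe
  have e1 := rel_tot S S.M1 Q ν α β m1 hnum hQe
  have e2 := rel_tot S S.M2 Q ν α β m2 hnum hQe
  rw [d11, d12, d13] at e1
  rw [d21, d22, d23] at e2
  rw [← v1, ← v2, e1, e2]
  linear_combination (-(S.delta * (S.delta - 1))) * hl

end Pool.Agent.Lib.MP_4ca46c_ag.Nil
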