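import Pool.Agent.Lib.MP_4ca46c_ag.Nil.SpecD

/-!
# The relation of the scalar products for two columns
-/

set_option autoImplicit false

namespace Pool.Agent.Lib.MP_4ca46c_ag.Nil

section rel2

variable {K : Type} [Field K] (S : Sys K)

theorem rel2_tot (M Q ν : S.C (Fin 4)) (α β γ : K)
    (hM : M ∈ S.T (Fin 4)) (hν : S.Num ν)
    (hQ : Q = α • S.M1 + β • S.M2 + γ • S.M3 + ν) :
    S.tot (Fin 4) (M * Q) = α * S.tot (Fin 4) (M * S.M1) + β * S.tot (Fin 4) (M * S.M2) +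
      γ * S.tot (Fin 4) (M * S.M3) := by
  have h0 : S.tot (Fin 4) (M * ν) = 0 := by
    rw [mul_comm]
    exact hν M hM
  rw [hQ, mul_add, mul_add, mul_add, mul_smul_comm, mul_smul_comm, mul_smul_comm, map_add,
    map_add, map_add, map_smul, map_smul, map_smul, h0, smul_eq_mul, smul_eq_mul, smul_eq_mul,
    add_zero]

theorem rel2_tot1 (M Q ν : S.C (Fin 4)) (β : K) (hM : M ∈ S.T (Fin 4)) (hν : S.Num ν)
    (hQ : Q = β • (S.M2 - S.M3) + ν) :
    S.tot (Fin 4) (M * Q) = β * (S.tot (Fin 4) (M * S.M2) - S.tot (Fin 4) (M * S.M3)) := by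
  have h0 : S.tot (Fin 4) (M * ν) = 0 := by
    rw [mul_comm]
    exact hν M hM
  rw [hQ, mul_add, mul_smul_comm, mul_sub, map_add, map_smul, map_sub, h0, smul_eq_mul, add_zero]

/-- a class on two variables which is fixed by the exchange is symmetric -/
theorem rel2_sym {J : Type} [Fintype J] [IsEmpty J] [DecidableEq (Fin 2 ⊕ J)]
    (ρ : S.C (Fin 2 ⊕ J))
    (h : S.map (Equiv.swap (Sum.inl 0 : Fin 2 ⊕ J) (Sum.inl 1)) ρ = ρ) : S.Sym ρ := by
  have h2 : ∀ y : Fin 2 ⊕ J, y = Sum.inl 0 ∨ y = Sum.inl 1 := by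
    rintro (i | j)
    · fin_cases i
      · exact Or.inl rfl
      · exact Or.inr rfl
    · exact isEmptyElim j
  intro σ
  have hne : (Sum.inl 0 : Fin 2 ⊕ J) ≠ Sum.inl 1 := fun h => by
    have := Sum.inl_injective h
    exact absurd this (by decide)
  rcases h2 (σ (Sum.inl 0)) with h3 | h3
  · have h4 : σ (Sum.inl 1) = Sum.inl 1 := (h2 (σ (Sum.inl 1))).resolve_left fun h' =>
      hne (σ.injective (h3.trans h'.symm))
    have h5 : (σ : Fin 2 ⊕ J → Fin 2 ⊕ J) = id := by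
      funext y
      rcases h2 y with rfl | rfl
      · exact h3
      · exact h4
    rw [h5, S.map_id]
  · have h4 : σ (Sum.inl 1) = Sum.inl 0 := (h2 (σ (Sum.inl 1))).resolve_right fun h' =>
      hne (σ.injective (h3.trans h'.symm))
    have h5 : (σ : Fin 2 ⊕ J → Fin 2 ⊕ J) = Equiv.swap (Sum.inl 0) (Sum.inl 1) := by
      funext y
      rcases h2 y with rfl | rfl
      · rw [h3, Equiv.swap_apply_left]
      · rw [h4, Equiv.swap_apply_right]
    rw [h5, h]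

/-- the case of no other variables -/
theorem rel2_zero {J : Type} [Fintype J] [IsEmpty J] (c : J → Bool) (ρ : S.C (Fin 2 ⊕ J))
    (hρ : S.Two (colS c) ρ) : S.Sym ρ := by
  classical
  refine rel2_sym S ρ ?_
  have h := hρ.garnir (Sum.inl 1) rfl
  have h1 : (Finset.univ.filter fun x : Fin 2 ⊕ J => colS c x = false) = {Sum.inl 0} := by
    ext x
    rw [Finset.mem_filter, Finset.mem_singleton]
    rcases x with i | j
    · fin_cases i
      · exact ⟨fun _ => rfl, fun _ => ⟨Finset.mem_univ _, rfl⟩⟩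
      · refine ⟨fun h' => ?_, fun h' => ?_⟩
        · have h3 : (true : Bool) = false := h'.2
          exact absurd h3 (by decide)
        · exact absurd (Sum.inl_injective h') (by decide)
    · exact isEmptyElim j
  rw [h1, Finset.sum_singleton] at h
  exact h

theorem rel2_empty {J : Type} [Fintype J] (c : J → Bool) (h0 : ncol c false = 0)
    (h1 : ncol c true = 0) : IsEmpty J := by
  refine ⟨fun j => ?_⟩
  unfold ncol at h0 h1
  rw [Finset.card_eq_zero, Finset.filter_eq_empty_iff] at h0 h1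
  cases hc : c j with
  | false => exact h0 (Finset.mem_univ j) hc
  | true => exact h1 (Finset.mem_univ j) hc

/-- the exchanged class is antisymmetric in the first two variables -/
theorem rel2_anti {J : Type} [Fintype J] [DecidableEq J] (c : J → Bool) (ρ : S.C (Fin 2 ⊕ J))
    (hρ : S.Two (colS c) ρ) (j₀ : J) (hj : c j₀ = false) :
    S.map (Equiv.swap (Sum.inl 0) (Sum.inl 1)) (S.map (Equiv.swap (Sum.inl 1) (Sum.inr j₀)) ρ) =
      -S.map (Equiv.swap (Sum.inl 1) (Sum.inr j₀)) ρ := by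
  have hne : (Sum.inl 0 : Fin 2 ⊕ J) ≠ Sum.inl 1 := fun h => by
    have := Sum.inl_injective h
    exact absurd this (by decide)
  have h1 : ((Equiv.swap (Sum.inl 0) (Sum.inl 1) : Equiv.Perm (Fin 2 ⊕ J)) :
      Fin 2 ⊕ J → Fin 2 ⊕ J) ∘ Equiv.swap (Sum.inl 1) (Sum.inr j₀) =
      (Equiv.swap (Sum.inl 1) (Sum.inr j₀) : Equiv.Perm (Fin 2 ⊕ J)) ∘
        Equiv.swap (Sum.inl 0) (Sum.inr j₀) := by
    funext y
    simp only [Function.comp_apply]
    rcases y with i | j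
    · fin_cases i
      · change Equiv.swap (Sum.inl 0) (Sum.inl 1) (Equiv.swap (Sum.inl 1) (Sum.inr j₀)
          (Sum.inl 0)) = Equiv.swap (Sum.inl 1) (Sum.inr j₀) (Equiv.swap (Sum.inl 0)
          (Sum.inr j₀) (Sum.inl 0))
        rw [Equiv.swap_apply_left, Equiv.swap_apply_right,
          Equiv.swap_apply_of_ne_of_ne hne Sum.inl_ne_inr, Equiv.swap_apply_left]
      · change Equiv.swap (Sum.inl 0) (Sum.inl 1) (Equiv.swap (Sum.inl 1) (Sum.inr j₀)
          (Sum.inl 1)) = Equiv.swap (Sum.inl 1) (Sum.inr j₀) (Equiv.swap (Sum.inl 0)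
          (Sum.inr j₀) (Sum.inl 1))
        rw [Equiv.swap_apply_left, Equiv.swap_apply_of_ne_of_ne Sum.inr_ne_inl Sum.inr_ne_inl,
          Equiv.swap_apply_of_ne_of_ne hne.symm Sum.inl_ne_inr, Equiv.swap_apply_left]
    · by_cases h : j = j₀
      · subst h
        rw [Equiv.swap_apply_right, Equiv.swap_apply_right, Equiv.swap_apply_right,
          Equiv.swap_apply_of_ne_of_ne hne Sum.inl_ne_inr]
      · have h3 : (Sum.inr j : Fin 2 ⊕ J) ≠ Sum.inr j₀ := fun h' => h (Sum.inr_injective h')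
        rw [Equiv.swap_apply_of_ne_of_ne Sum.inr_ne_inl h3,
          Equiv.swap_apply_of_ne_of_ne Sum.inr_ne_inl Sum.inr_ne_inl,
          Equiv.swap_apply_of_ne_of_ne Sum.inr_ne_inl h3,
          Equiv.swap_apply_of_ne_of_ne Sum.inr_ne_inl h3]
  rw [S.map_map, h1, ← S.map_map, hρ.alt (Sum.inl 0) (Sum.inr j₀) Sum.inl_ne_inr hj.symm, map_neg]

end rel2

theorem tRel2 (h1 : S_Dia) (h2 : S_Qex) (h3 : S_Val) (h4 : S_M3) (h5 : S_Qa) (h6 : S_Gar)
    (h7 : S_Lam2) (h8 : S_Rel) : S_Rel2 := by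
  intro K _ _ S w hw hw0 J _ c hc ρ hρT hρ
  classical
  rcases Nat.eq_zero_or_pos (ncol c false) with h0 | h0
  · have hJ : IsEmpty J := rel2_empty c h0 (hc ▸ h0)
    have hs := rel2_zero S c ρ hρ
    have h := h8 K S w hw hw0 J ρ hρT hs
    have hcard : Fintype.card J = 0 := Fintype.card_eq_zero
    rw [hcard, Nat.cast_zero, zero_add, add_zero] at h
    rw [h0, Nat.cast_zero, zero_add, sub_zero]
    exact h
  · obtain ⟨j₀, hj₀⟩ := Finset.card_pos.1 h0
    rw [Finset.mem_filter] at hj₀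
    have hj := hj₀.2
    set ρ₁ : S.C (Fin 2 ⊕ J) := S.map (Equiv.swap (Sum.inl 1) (Sum.inr j₀)) ρ with hρ₁
    have hρ₁T : ρ₁ ∈ S.T (Fin 2 ⊕ J) := S.T_equiv _ ρ hρT
    have hN1 : S.tot (Fin 2 ⊕ J) (ρ₁ * ρ₁) = S.tot (Fin 2 ⊕ J) (ρ * ρ) := by
      rw [hρ₁, ← map_mul, S.tot_equiv]
    have hanti := rel2_anti S c ρ hρ j₀ hj
    rw [← hρ₁] at hanti
    obtain ⟨Q, hQT, hQ⟩ := h2 K S J ρ hρT
    obtain ⟨Q₁, hQ₁T, hQ₁⟩ := h2 K S J ρ₁ hρ₁T
    obtain ⟨α, β, γ, ν, hν, hnum, hQe⟩ := S.four Q hQT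
    have hQe' : Q = α • S.M1 + β • S.M2 + γ • S.M3 + ν := hQe
    have hnum' : S.Num ν := hnum
    obtain ⟨β₁, ν₁, hν₁, hnum₁, hQ₁e⟩ := h5 K S J ρ₁ hρ₁T hanti Q₁ hQ₁T hQ₁
    obtain ⟨m1, m2, m3, d11, d12, d13, d21, d22, d23⟩ := h1 K S
    obtain ⟨v1, v2⟩ := h3 K S J ρ hρT Q hQ
    obtain ⟨v1', -⟩ := h3 K S J ρ₁ hρ₁T Q₁ hQ₁
    obtain ⟨d33, hM3⟩ := h4 K S
    have v3 := hM3 J ρ hρT Q hQ
    have d31 : S.tot (Fin 4) (S.M3 * S.M1) = S.delta := by rw [mul_comm]; exact d13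
    have d32 : S.tot (Fin 4) (S.M3 * S.M2) = S.delta := by rw [mul_comm]; exact d23
    have e1 := rel2_tot S S.M1 Q ν α β γ m1 hnum' hQe'
    have e2 := rel2_tot S S.M2 Q ν α β γ m2 hnum' hQe'
    have e3 := rel2_tot S S.M3 Q ν α β γ m3 hnum' hQe'
    have e4 := rel2_tot1 S S.M2 Q₁ ν₁ β₁ m2 hnum₁ hQ₁e
    rw [d11, d12, d13, v2] at e1
    rw [d21, d22, d23, v1] at e2
    rw [d31, d32, d33, v3] at e3
    rw [d22, d23, v1', hN1] at e4
    have hG := h6 K S J c ρ hρ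
    have hL := h7 K S w hw hw0 J c ρ hρT hρ Q hQ j₀ hj Q₁ hQ₁ α β γ β₁ ν hν hnum' ν₁ hν₁ hnum₁
      hQe' hQ₁e
    rw [← hc] at hL
    linear_combination ((ncol c false : K) + 1) * e1 - ((ncol c false : K) + 1) * e3 - hG -
      S.delta * (S.delta - 1) * hL - (S.delta - 1) * e2 + (ncol c false : K) * e4

end Pool.Agent.Lib.MP_4ca46c_ag.Nil
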