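import Pool.Agent.Lib.MP_4ca46c_ag.Nil.SpecD

/-!
# The sign of a permutation (Specification D, `S_Sg`)
-/

set_option autoImplicit false

namespace Pool.Agent.Lib.MP_4ca46c_ag.Nil

theorem tSg : S_Sg := by
  intro r R π π₀ h0 hf ht
  have hA : ∀ i, R (π₀ i) = true ↔ R i = true := fun i => by rw [h0]
  let ψ : Equiv.Perm (Fin r) := Equiv.Perm.ofSubtype (π₀.subtypePerm (p := fun i => R i = true) hA)
  have hψt : ∀ i, R i = true → ψ i = π₀ i := by
    intro i hi
    exact Equiv.Perm.ofSubtype_apply_of_mem (p := fun i => R i = true)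
      (π₀.subtypePerm (p := fun i => R i = true) hA) hi
  have hψf : ∀ i, R i = false → ψ i = i := by
    intro i hi
    refine Equiv.Perm.ofSubtype_apply_of_not_mem (p := fun i => R i = true)
      (π₀.subtypePerm (p := fun i => R i = true) hA) ?_
    rw [hi]
    exact Bool.false_ne_true
  have key : π * ψ * ψ = π₀ := by
    ext i
    rw [Equiv.Perm.mul_apply, Equiv.Perm.mul_apply]
    rcases hi : R i with _ | _
    · rw [hψf i hi, hψf i hi, hf i hi]
    · have h1 : R (π₀ i) = true := (hA i).2 hi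
      rw [hψt i hi, hψt _ h1, ht _ h1]
  rw [← key, Equiv.Perm.sign_mul, Equiv.Perm.sign_mul, mul_assoc, Int.units_mul_self, mul_one]

end Pool.Agent.Lib.MP_4ca46c_ag.Nil
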