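import Pool.Agent.Lib.MP_4ca46c_ag.Nil.SpecL

set_option autoImplicit false

namespace Pool.Agent.Lib.MP_4ca46c_ag.Nil

open Module TensorProduct LinearMap Pool.Agent.Lib.MP_4ca46c_ag.Sign

/-- **The last step**: the sign operator is algebraic. -/
theorem tSgnN (hQ : S_Q2) (hK1 : S_K12) (hK2 : S_K22) : S_SgnN := by
  intro K V _ _ _ _ _ n pr L A B h w hw hev
  obtain ⟨x, hx, x', hx', hs, ho, he⟩ :=
    hK1 K V n pr L A B h (hQ K V n pr L A B h w hw hev)
  exact hK2 K V n pr L A h.op.lef h.op.ratA x hx x' hx' hs ho he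

end Pool.Agent.Lib.MP_4ca46c_ag.Nil
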