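import Pool.Agent.Lib.MP_4ca46c_ag.Nil.SpecD

/-!
# Elimination of the input spectators
-/

set_option autoImplicit false

namespace Pool.Agent.Lib.MP_4ca46c_ag.Nil

/-- the class `p` with exchanged variables -/
theorem spt_swap {K : Type} [Field K] (S : Sys K) (p : S.C (Fin 2)) {V : Type} [Finite V]
    (a b : V) : S.map ![a, b] (S.map ![(1 : Fin 2), 0] p) = S.map ![b, a] p := by
  rw [S.map_map]
  congr 2
  funext i
  fin_cases i <;> rfl

theorem spt_comp {K : Type} [Field K] (S : Sys K) (p : S.C (Fin 2)) {V W : Type} [Finite V]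
    [Finite W] (f : V → W) (a b : V) : S.map f (S.map ![a, b] p) = S.map ![f a, f b] p := by
  rw [S.map_map]
  congr 2
  funext i
  fin_cases i <;> rfl

theorem spt_abs (h2 : S_AbE) {K : Type} [Field K] (S : Sys K) (p : S.C (Fin 2))
    (hp : S.Abs S.e p) : S.Abs S.e (S.map ![(1 : Fin 2), 0] p) := by
  have h := h2 K S.toCal (Fin 2) (Fin 2) (Equiv.swap 0 1) S.e p hp
  have h3 : (![1, 0] : Fin 2 → Fin 2) = ⇑(Equiv.swap (0 : Fin 2) 1) := by
    funext i
    fin_cases i <;> rfl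
  rw [h3]
  exact h

theorem tSpt (h1 : S_Elr2) (h2 : S_AbE) : S_Spt := by
  intro K _ S p hp r u y
  have hp' := spt_abs h2 S p hp
  have key := h1 K S (S.map ![(1 : Fin 2), 0] p) hp' r ((Fin r ⊕ Fin r) ⊕ Fin r)
    (fun i => Sum.inl (Sum.inr i)) (fun i => Sum.inr i)
    (S.map (Sum.map Sum.inl id) u * S.map Sum.inl y)
  have h3 : S.tot ((Fin r ⊕ Fin r) ⊕ Fin r) (S.map (Sum.map Sum.inl id) u *
      (∏ i : Fin r, S.map ![Sum.inr i, Sum.inl (Sum.inr i)] p) * S.map Sum.inl y) =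
      S.tot ((Fin r ⊕ Fin r) ⊕ Fin r) (S.map (Sum.map Sum.inl id) u * S.map Sum.inl y *
        ∏ j : Fin r, S.map ![Sum.inl (Sum.inr j), Sum.inr j] (S.map ![(1 : Fin 2), 0] p)) := by
    congr 1
    rw [mul_right_comm]
    congr 1
    exact Finset.prod_congr rfl fun i _ => (spt_swap S p _ _).symm
  rw [h3, ← key, ← S.tot_equiv (Equiv.sumAssoc (Fin r ⊕ Fin r) (Fin r) (Fin r))]
  congr 1
  have e1 : (⇑(Equiv.sumAssoc (Fin r ⊕ Fin r) (Fin r) (Fin r)) ∘ Sum.inl) ∘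
      (Sum.map Sum.inl id : Fin r ⊕ Fin r → (Fin r ⊕ Fin r) ⊕ Fin r) =
      Sum.map Sum.inl Sum.inl := by
    funext i
    rcases i with i | i <;> rfl
  have e2 : (⇑(Equiv.sumAssoc (Fin r ⊕ Fin r) (Fin r) (Fin r)) ∘ Sum.inl) ∘
      (Sum.inl : Fin r ⊕ Fin r → (Fin r ⊕ Fin r) ⊕ Fin r) = Sum.inl := by
    funext i
    rfl
  rw [map_mul, map_mul, map_mul, S.map_map, S.map_map, S.map_map, S.map_map, map_prod]
  rw [e1, e2]
  unfold Sys.nn Sys.pp Sys.EF
  rw [map_prod, map_prod, Finset.prod_congr rfl (fun i _ => spt_comp S S.e _ _ _),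
    Finset.prod_congr rfl (fun i _ => spt_comp S p _ _ _)]
  have h4 : (∏ x : Fin r, S.map ⇑(Equiv.sumAssoc (Fin r ⊕ Fin r) (Fin r) (Fin r))
      (S.map ![Sum.inl (Sum.inl (Sum.inr x)), Sum.inr x] S.e *
        S.map ![Sum.inr x, Sum.inl (Sum.inr x)] (S.map ![(1 : Fin 2), 0] p))) =
      (∏ i : Fin r, S.map ![Sum.inl (Sum.inr i), Sum.inr (Sum.inr i)] S.e) *
        ∏ i : Fin r, S.map ![Sum.inr (Sum.inl i), Sum.inr (Sum.inr i)] p := by
    rw [← Finset.prod_mul_distrib]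
    refine Finset.prod_congr rfl fun i _ => ?_
    rw [map_mul, spt_swap, spt_comp, spt_comp]
    rfl
  refine Eq.trans ?_ (congrArg (fun t => S.map (Sum.map Sum.inl Sum.inl) u *
    S.map Sum.inl y * t) h4.symm)
  simp only [Sum.map_inl, Sum.map_inr]
  ring

end Pool.Agent.Lib.MP_4ca46c_ag.Nil
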