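import Pool.Agent.Lib.MP_4ca46c_ag.Nil.SpecF

/-!
# The diagrams with `w`
-/

set_option autoImplicit false

namespace Pool.Agent.Lib.MP_4ca46c_ag.Nil

theorem xY_c2 {α β : Type} (f : α → β) (a b : α) : f ∘ ![a, b] = ![f a, f b] := by
  funext i
  fin_cases i <;> rfl

theorem xY_c4 {α β : Type} (f : α → β) (a b c d : α) :
    f ∘ ![a, b, c, d] = ![f a, f b, f c, f d] := by
  funext i
  fin_cases i <;> rfl

section

variable {K : Type} [Field K] (S : Sys K)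

theorem xY_mm {ι κ : Type} [Finite ι] [Finite κ] (f : ι → κ) (u v : S.C ι) :
    S.map f (u * v) = S.map f u * S.map f v := map_mul _ _ _

theorem xY_sy {V : Type} [Finite V] (a b : V) : S.map ![a, b] S.e = S.map ![b, a] S.e := by
  conv_lhs => rw [← S.e_symm]
  rw [S.map_map, xY_c2]
  rfl

theorem xY_el1 {n : ℕ} {u : S.C (Fin 2)} (hu : S.Abs S.e u) (p : Fin (n + 1)) (P : S.C (Fin n))
    (c d : Fin n) : S.tot (Fin (n + 1)) (S.map p.succAbove P *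
      (S.map ![p.succAbove c, p] S.e * S.map ![p.succAbove d, p] u)) =
      S.tot (Fin n) (P * S.map ![d, c] u) := by
  refine S.elimF hu p P ![d, c] ![p.succAbove d, p] 1 rfl ?_
  intro j hj
  fin_cases j
  · rfl
  · exact absurd rfl hj

theorem xY_el0 {n : ℕ} {u : S.C (Fin 2)} (hu : S.Abs S.e u) (p : Fin (n + 1)) (P : S.C (Fin n))
    (c d : Fin n) : S.tot (Fin (n + 1)) (S.map p.succAbove P *
      (S.map ![p.succAbove c, p] S.e * S.map ![p, p.succAbove d] u)) =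
      S.tot (Fin n) (P * S.map ![c, d] u) := by
  refine S.elimF hu p P ![c, d] ![p, p.succAbove d] 0 rfl ?_
  intro j hj
  fin_cases j
  · exact absurd rfl hj
  · rfl

theorem xY_id (u : S.C (Fin 2)) : S.map ![0, 1] u = u := by
  have h : (![0, 1] : Fin 2 → Fin 2) = id := by
    funext i
    fin_cases i <;> rfl
  rw [h, S.map_id]

/-- the last diagram: `∫ w(0,1) z(0,2) e(1,2)` -/
theorem xY_tri (w z : S.C (Fin 2)) (hw : S.Abs S.e w) :
    S.tot (Fin 3) (S.map ![0, 1] w * S.map ![0, 2] z * S.map ![1, 2] S.e) =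
      S.tot (Fin 2) (w * z) := by
  have h := xY_el1 S hw (1 : Fin 3) z 1 0
  have e1 : S.map (1 : Fin 3).succAbove z = S.map ![0, 2] z := by
    congr 2
    funext i
    fin_cases i <;> rfl
  have e2 : S.map ![(1 : Fin 3).succAbove 1, 1] S.e = S.map ![1, 2] S.e := xY_sy S _ _
  have e3 : S.map ![(1 : Fin 3).succAbove 0, 1] w = S.map ![0, 1] w := rfl
  rw [e1, e2, e3, xY_id] at h
  rw [mul_comm w z, ← h]
  congr 1
  ring

/-- `∫ w(0,1) z(0,2) e(1,3) e(3,2)` -/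
theorem xY_four (w z : S.C (Fin 2)) (hw : S.Abs S.e w) :
    S.tot (Fin 4) (S.map ![0, 1] w * S.map ![0, 2] z * S.map ![1, 3] S.e * S.map ![3, 2] S.e) =
      S.tot (Fin 2) (w * z) := by
  have he : S.Abs S.e S.e := S.abs S.e S.e_mem
  have h := xY_el0 S he (3 : Fin 4) (S.map ![0, 1] w * S.map ![0, 2] z) 1 2
  rw [xY_mm, S.map_map, S.map_map, xY_c2, xY_c2, xY_tri S w z hw] at h
  rw [← h]
  have e1 : S.map ![(3 : Fin 4).succAbove 0, (3 : Fin 4).succAbove 1] w = S.map ![0, 1] w := rfl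
  have e2 : S.map ![(3 : Fin 4).succAbove 0, (3 : Fin 4).succAbove 2] z = S.map ![0, 2] z := rfl
  have e3 : S.map ![(3 : Fin 4).succAbove 1, 3] S.e = S.map ![1, 3] S.e := rfl
  have e4 : S.map ![3, (3 : Fin 4).succAbove 2] S.e = S.map ![3, 2] S.e := rfl
  rw [e1, e2, e3, e4]
  congr 1
  ring

theorem xY_XM1 (w z : S.C (Fin 2)) (hw : S.Abs S.e w) :
    S.X w z S.M1 = S.tot (Fin 2) (w * z) := by
  have he : S.Abs S.e S.e := S.abs S.e S.e_mem
  have h := xY_el1 S he (4 : Fin 5) (S.map ![0, 1] w * S.map ![0, 2] z * S.map ![1, 3] S.e) 2 3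
  rw [xY_mm, xY_mm, S.map_map, S.map_map, S.map_map, xY_c2, xY_c2, xY_c2,
    xY_four S w z hw] at h
  have e1 : S.map ![(4 : Fin 5).succAbove 0, (4 : Fin 5).succAbove 1] w = S.map ![0, 1] w := rfl
  have e2 : S.map ![(4 : Fin 5).succAbove 0, (4 : Fin 5).succAbove 2] z = S.map ![0, 2] z := rfl
  have e3 : S.map ![(4 : Fin 5).succAbove 1, (4 : Fin 5).succAbove 3] S.e = S.map ![1, 3] S.e := rfl
  have e4 : S.map ![(4 : Fin 5).succAbove 2, 4] S.e = S.map ![2, 4] S.e := rfl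
  have e5 : S.map ![(4 : Fin 5).succAbove 3, 4] S.e = S.map ![3, 4] S.e := rfl
  rw [e1, e2, e3, e4, e5] at h
  rw [← h]
  have e6 : S.map ![1, 3, 2, 4] S.M1 = (S.map ![1, 3] S.e * S.map ![2, 4] S.e : S.C (Fin 5)) := by
    unfold Sys.M1
    rw [map_mul, S.map_map, S.map_map, xY_c2, xY_c2]
    rfl
  unfold Sys.X
  rw [e6]
  congr 1
  ring

theorem xY_XM2 (w z : S.C (Fin 2)) (hw : S.Abs S.e w) :
    S.X w z S.M2 = S.delta * S.tot (Fin 2) (w * z) := by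
  have h := S.tot_mul (S.map ![0, 1] w * S.map ![0, 2] z * S.map ![1, 2] S.e : S.C (Fin 3))
    (S.e * S.e)
  rw [xY_tri S w z hw, ← S.tot_equiv (finSumFinEquiv : Fin 3 ⊕ Fin 2 ≃ Fin 5)] at h
  simp only [map_mul, S.map_map, xY_c2, Function.comp_apply] at h
  have e1 : S.map ((finSumFinEquiv : Fin 3 ⊕ Fin 2 ≃ Fin 5) ∘ Sum.inr) S.e =
      S.map ![3, 4] S.e := by
    congr 2
    funext i
    fin_cases i <;> rfl
  have e2 : S.map ![(finSumFinEquiv : Fin 3 ⊕ Fin 2 ≃ Fin 5) (Sum.inl 0),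
      (finSumFinEquiv : Fin 3 ⊕ Fin 2 ≃ Fin 5) (Sum.inl 1)] w = S.map ![0, 1] w := rfl
  have e3 : S.map ![(finSumFinEquiv : Fin 3 ⊕ Fin 2 ≃ Fin 5) (Sum.inl 0),
      (finSumFinEquiv : Fin 3 ⊕ Fin 2 ≃ Fin 5) (Sum.inl 2)] z = S.map ![0, 2] z := rfl
  have e4 : S.map ![(finSumFinEquiv : Fin 3 ⊕ Fin 2 ≃ Fin 5) (Sum.inl 1),
      (finSumFinEquiv : Fin 3 ⊕ Fin 2 ≃ Fin 5) (Sum.inl 2)] S.e = S.map ![1, 2] S.e := rfl
  rw [e1, e2, e3, e4] at h
  have e6 : S.map ![1, 3, 2, 4] S.M2 = (S.map ![1, 2] S.e * S.map ![3, 4] S.e : S.C (Fin 5)) := by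
    unfold Sys.M2
    rw [map_mul, S.map_map, S.map_map, xY_c2, xY_c2]
    rfl
  unfold Sys.X Sys.delta
  rw [e6, mul_comm (S.tot (Fin 2) (S.e * S.e)), ← h]
  congr 1
  ring

theorem xY_XM3 (w z : S.C (Fin 2)) (hw : S.Abs S.e w) :
    S.X w z S.M3 = S.tot (Fin 2) (w * z) := by
  have he : S.Abs S.e S.e := S.abs S.e S.e_mem
  have h := xY_el1 S he (4 : Fin 5) (S.map ![0, 1] w * S.map ![0, 2] z * S.map ![3, 2] S.e) 1 3
  rw [xY_mm, xY_mm, S.map_map, S.map_map, S.map_map, xY_c2, xY_c2, xY_c2] at h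
  have e0 : S.tot (Fin 4) (S.map ![0, 1] w * S.map ![0, 2] z * S.map ![3, 2] S.e *
      S.map ![3, 1] S.e) = S.tot (Fin 2) (w * z) := by
    rw [← xY_four S w z hw, xY_sy S (3 : Fin 4) 1]
    congr 1
    ring
  rw [e0] at h
  have e1 : S.map ![(4 : Fin 5).succAbove 0, (4 : Fin 5).succAbove 1] w = S.map ![0, 1] w := rfl
  have e2 : S.map ![(4 : Fin 5).succAbove 0, (4 : Fin 5).succAbove 2] z = S.map ![0, 2] z := rfl
  have e3 : S.map ![(4 : Fin 5).succAbove 3, (4 : Fin 5).succAbove 2] S.e = S.map ![3, 2] S.e := rfl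
  have e4 : S.map ![(4 : Fin 5).succAbove 1, 4] S.e = S.map ![1, 4] S.e := rfl
  have e5 : S.map ![(4 : Fin 5).succAbove 3, 4] S.e = S.map ![3, 4] S.e := rfl
  rw [e1, e2, e3, e4, e5] at h
  rw [← h]
  have e6 : S.map ![1, 3, 2, 4] S.M3 = (S.map ![1, 4] S.e * S.map ![3, 2] S.e : S.C (Fin 5)) := by
    unfold Sys.M3
    rw [map_mul, S.map_map, S.map_map, xY_c2, xY_c2]
    rfl
  unfold Sys.X
  rw [e6]
  congr 1
  ring

theorem xY_YM1 (w z : S.C (Fin 2)) (hw : S.Abs S.e w) (hs : S.map ![1, 0] w = -w) :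
    S.Y w z S.M1 = -S.tot (Fin 2) (w * z) := by
  have h := xY_el1 S hw (1 : Fin 4) (S.map ![1, 2] z * S.map ![2, 0] S.e) 1 0
  have h' := xY_el0 S hw (0 : Fin 3) z 1 0
  have f1 : S.map (0 : Fin 3).succAbove z = S.map ![1, 2] z := by
    congr 2
    funext i
    fin_cases i <;> rfl
  have f2 : S.map ![(0 : Fin 3).succAbove 1, 0] S.e = S.map ![2, 0] S.e := rfl
  have f3 : S.map ![0, (0 : Fin 3).succAbove 0] w = S.map ![0, 1] w := rfl
  rw [f1, f2, f3, hs] at h'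
  rw [xY_mm, S.map_map, S.map_map, xY_c2, xY_c2] at h
  have e1 : S.map ![(1 : Fin 4).succAbove 1, (1 : Fin 4).succAbove 2] z = S.map ![2, 3] z := rfl
  have e2 : S.map ![(1 : Fin 4).succAbove 2, (1 : Fin 4).succAbove 0] S.e =
    S.map ![3, 0] S.e := rfl
  have e3 : S.map ![(1 : Fin 4).succAbove 1, 1] S.e = S.map ![2, 1] S.e := rfl
  have e4 : S.map ![(1 : Fin 4).succAbove 0, 1] w = S.map ![0, 1] w := rfl
  rw [e1, e2, e3, e4] at h
  have e6 : S.map ![2, 1, 3, 0] S.M1 = (S.map ![2, 1] S.e * S.map ![3, 0] S.e : S.C (Fin 4)) := by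
    unfold Sys.M1
    rw [map_mul, S.map_map, S.map_map, xY_c2, xY_c2]
    rfl
  unfold Sys.Y
  rw [e6]
  have g1 : S.tot (Fin 4) (S.map ![0, 1] w * S.map ![2, 3] z *
      (S.map ![2, 1] S.e * S.map ![3, 0] S.e)) = S.tot (Fin 4) (S.map ![2, 3] z *
        S.map ![3, 0] S.e * (S.map ![2, 1] S.e * S.map ![0, 1] w)) := by
    congr 1
    ring
  rw [g1, h, mul_assoc, h', mul_neg, map_neg, mul_comm z w]

theorem xY_YM3 (w z : S.C (Fin 2)) (hw : S.Abs S.e w) :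
    S.Y w z S.M3 = S.tot (Fin 2) (w * z) := by
  have h := xY_el0 S hw (0 : Fin 4) (S.map ![1, 2] z * S.map ![0, 2] S.e) 1 0
  have h' := xY_el1 S hw (0 : Fin 3) z 1 0
  have f1 : S.map (0 : Fin 3).succAbove z = S.map ![1, 2] z := by
    congr 2
    funext i
    fin_cases i <;> rfl
  have f2 : S.map ![(0 : Fin 3).succAbove 1, 0] S.e = S.map ![0, 2] S.e := xY_sy S _ _
  have f3 : S.map ![(0 : Fin 3).succAbove 0, 0] w = S.map ![1, 0] w := rfl
  rw [f1, f2, f3, xY_id] at h'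
  rw [xY_mm, S.map_map, S.map_map, xY_c2, xY_c2] at h
  have e1 : S.map ![(0 : Fin 4).succAbove 1, (0 : Fin 4).succAbove 2] z = S.map ![2, 3] z := rfl
  have e2 : S.map ![(0 : Fin 4).succAbove 0, (0 : Fin 4).succAbove 2] S.e =
    S.map ![1, 3] S.e := rfl
  have e3 : S.map ![(0 : Fin 4).succAbove 1, 0] S.e = S.map ![2, 0] S.e := rfl
  have e4 : S.map ![0, (0 : Fin 4).succAbove 0] w = S.map ![0, 1] w := rfl
  rw [e1, e2, e3, e4] at h
  have e6 : S.map ![2, 1, 3, 0] S.M3 = (S.map ![2, 0] S.e * S.map ![1, 3] S.e : S.C (Fin 4)) := by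
    unfold Sys.M3
    rw [map_mul, S.map_map, S.map_map, xY_c2, xY_c2]
    rfl
  unfold Sys.Y
  rw [e6]
  have g1 : S.tot (Fin 4) (S.map ![0, 1] w * S.map ![2, 3] z *
      (S.map ![2, 0] S.e * S.map ![1, 3] S.e)) = S.tot (Fin 4) (S.map ![2, 3] z *
        S.map ![1, 3] S.e * (S.map ![2, 0] S.e * S.map ![0, 1] w)) := by
    congr 1
    ring
  rw [g1, h, mul_assoc, h', mul_comm z w]

theorem xY_YM2 [CharZero K] (w z : S.C (Fin 2)) (hs : S.map ![1, 0] w = -w) :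
    S.Y w z S.M2 = 0 := by
  have h0 : S.tot (Fin 2) (w * S.e) = 0 := by
    have h := S.tot_equiv (Equiv.swap (0 : Fin 2) 1) (w * S.e)
    have e1 : ((Equiv.swap (0 : Fin 2) 1 : Fin 2 ≃ Fin 2) : Fin 2 → Fin 2) = ![1, 0] := by
      funext i
      fin_cases i <;> rfl
    rw [e1, map_mul, hs, S.e_symm, neg_mul, map_neg] at h
    have h2 : (2 : K) * S.tot (Fin 2) (w * S.e) = 0 := by linear_combination -h
    exact (mul_eq_zero.mp h2).resolve_left two_ne_zero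
  have h := S.tot_mul (w * S.e) (z * S.e)
  rw [h0, zero_mul, ← S.tot_equiv (finSumFinEquiv : Fin 2 ⊕ Fin 2 ≃ Fin 4)] at h
  simp only [map_mul, S.map_map] at h
  have e0 : ((finSumFinEquiv : Fin 2 ⊕ Fin 2 ≃ Fin 4) ∘ Sum.inl) = ![0, 1] := by
    funext i
    fin_cases i <;> rfl
  have e1 : ((finSumFinEquiv : Fin 2 ⊕ Fin 2 ≃ Fin 4) ∘ Sum.inr) = ![2, 3] := by
    funext i
    fin_cases i <;> rfl
  rw [e0, e1] at h
  have e6 : S.map ![2, 1, 3, 0] S.M2 = (S.map ![2, 3] S.e * S.map ![0, 1] S.e : S.C (Fin 4)) := by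
    unfold Sys.M2
    rw [map_mul, S.map_map, S.map_map, xY_c2, xY_c2, xY_sy S (0 : Fin 4) 1]
    rfl
  unfold Sys.Y
  rw [e6, ← h]
  congr 1
  ring

end

theorem tXY : S_XY := by
  intro K _ _ S w z hw
  exact ⟨xY_XM1 S w z hw.abs, xY_XM2 S w z hw.abs, xY_XM3 S w z hw.abs,
    xY_YM1 S w z hw.abs hw.symm, xY_YM2 S w z hw.symm, xY_YM3 S w z hw.abs⟩

end Pool.Agent.Lib.MP_4ca46c_ag.Nil
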