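import Pool.Agent.Lib.MP_4ca46c_ag.Nil.SpecD

/-!
# The Young symmetrizer

The class `yng g` is antisymmetric in the columns and satisfies the Garnir relations.
-/

set_option autoImplicit false

namespace Pool.Agent.Lib.MP_4ca46c_ag.Nil

section

variable {K : Type} [Field K] (S : Sys K) {r : ℕ}

theorem yng_act {V : Type} [Finite V] (p q : Equiv.Perm V) (u : S.C V) :
    S.map p (S.map q u) = S.map (p * q : Equiv.Perm V) u := by
  rw [S.map_map]
  rfl

/-- the exchange of rows as a permutation -/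
def yng_sw (R : Fin r → Bool) : Equiv.Perm (Fin r ⊕ Fin r) where
  toFun := sw R
  invFun := sw R
  left_inv := by
    rintro (i | i) <;> by_cases h : R i <;> simp [sw, h]
  right_inv := by
    rintro (i | i) <;> by_cases h : R i <;> simp [sw, h]

/-- change of the value at one place -/
def yng_upd (k : Fin r) : Equiv.Perm (Fin r → Bool) :=
  Function.Involutive.toPerm (fun R => Function.update R k (!R k)) (by
    intro R
    funext i
    by_cases h : i = k
    · subst h
      simp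
    · simp [Function.update_of_ne h])

theorem yng_swap_sw (k : Fin r) (R : Fin r → Bool) :
    (Equiv.swap (Sum.inl k) (Sum.inr k) : Fin r ⊕ Fin r → Fin r ⊕ Fin r) ∘ sw R =
      sw (yng_upd k R) := by
  funext x
  have hu : ∀ i, yng_upd k R i = if i = k then !R k else R i := by
    intro i
    change Function.update R k (!R k) i = _
    rw [Function.update_apply]
  rcases x with i | i
  · by_cases h : i = k
    · subst h
      cases hR : R i <;> simp [sw, hu, hR]
    · cases hR : R i <;> simp [sw, hu, hR, h, Equiv.swap_apply_def]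
  · by_cases h : i = k
    · subst h
      cases hR : R i <;> simp [sw, hu, hR]
    · cases hR : R i <;> simp [sw, hu, hR, h, Equiv.swap_apply_def]

/-- symmetrization over the rows -/
noncomputable def yng_h (g : S.C (Fin r ⊕ Fin r)) : S.C (Fin r ⊕ Fin r) :=
  ∑ R : Fin r → Bool, S.map (sw R) g

theorem yng_h_inv (g : S.C (Fin r ⊕ Fin r)) (k : Fin r) :
    S.map (Equiv.swap (Sum.inl k) (Sum.inr k)) (yng_h S g) = yng_h S g := by
  unfold yng_h
  rw [map_sum]
  refine Fintype.sum_equiv (yng_upd k) _ _ fun R => ?_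
  rw [S.map_map, yng_swap_sw]

/-- the sign of a permutation in `K` -/
noncomputable def yng_sg (K : Type) [Field K] (σ : Equiv.Perm (Fin r)) : K :=
  ((Equiv.Perm.sign σ : ℤ) : K)

theorem yng_sg_mul (σ τ : Equiv.Perm (Fin r)) :
    yng_sg K (σ * τ) = yng_sg K σ * yng_sg K τ := by
  unfold yng_sg
  rw [map_mul, Units.val_mul, Int.cast_mul]

theorem yng_sg_swap {i j : Fin r} (h : i ≠ j) : yng_sg K (Equiv.swap i j) = -1 := by
  unfold yng_sg
  rw [Equiv.Perm.sign_swap h]
  simp

/-- the permutation of the two columns -/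
def yng_E (σ τ : Equiv.Perm (Fin r)) : Equiv.Perm (Fin r ⊕ Fin r) := Equiv.sumCongr σ τ

theorem yng_E_coe (σ τ : Equiv.Perm (Fin r)) :
    (yng_E σ τ : Fin r ⊕ Fin r → Fin r ⊕ Fin r) = Sum.map σ τ := rfl

theorem yng_E_mul (σ τ σ' τ' : Equiv.Perm (Fin r)) :
    yng_E σ τ * yng_E σ' τ' = yng_E (σ * σ') (τ * τ') := by
  ext x
  rcases x with x | x <;> rfl

theorem yng_E_swap_left (i j : Fin r) :
    (Equiv.swap (Sum.inl i) (Sum.inl j) : Equiv.Perm (Fin r ⊕ Fin r)) =
      yng_E (Equiv.swap i j) 1 := by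
  ext x
  rcases x with x | x
  · simp only [yng_E_coe, Sum.map_inl, Equiv.swap_apply_def, Sum.inl.injEq]
    split_ifs <;> rfl
  · simp only [yng_E_coe, Sum.map_inr, Equiv.swap_apply_def, reduceCtorEq, if_false]
    rfl

theorem yng_E_swap_right (i j : Fin r) :
    (Equiv.swap (Sum.inr i) (Sum.inr j) : Equiv.Perm (Fin r ⊕ Fin r)) =
      yng_E 1 (Equiv.swap i j) := by
  ext x
  rcases x with x | x
  · simp only [yng_E_coe, Sum.map_inl, Equiv.swap_apply_def, reduceCtorEq, if_false]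
    rfl
  · simp only [yng_E_coe, Sum.map_inr, Equiv.swap_apply_def, Sum.inr.injEq]
    split_ifs <;> rfl

/-- antisymmetrization in the left column -/
noncomputable def yng_A (u : S.C (Fin r ⊕ Fin r)) : S.C (Fin r ⊕ Fin r) :=
  ∑ σ : Equiv.Perm (Fin r), yng_sg K σ • S.map (yng_E σ 1) u

theorem yng_A_zero [CharZero K] (v : S.C (Fin r ⊕ Fin r)) (k l : Fin r) (hkl : k ≠ l)
    (hv : S.map (Equiv.swap (Sum.inl k) (Sum.inl l)) v = v) : yng_A S v = 0 := by
  have h1 : yng_A S v = - yng_A S v := by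
    conv_lhs => unfold yng_A
    unfold yng_A
    rw [← Finset.sum_neg_distrib]
    refine Fintype.sum_equiv (Equiv.mulRight (Equiv.swap k l)) _ _ fun σ => ?_
    rw [Equiv.coe_mulRight, yng_sg_mul, yng_sg_swap hkl, mul_neg, mul_one, neg_smul, neg_neg]
    congr 1
    conv_lhs => rw [← hv]
    rw [yng_act, yng_E_swap_left, yng_E_mul, mul_one]
  have h2 : (2 : K) • yng_A S v = 0 := by
    rw [two_smul]
    nth_rewrite 1 [h1]
    rw [neg_add_cancel]
  exact (smul_eq_zero.1 h2).resolve_left two_ne_zero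

theorem yng_A_garnir [CharZero K] (u : S.C (Fin r ⊕ Fin r)) (k₀ j₀ : Fin r)
    (hu : S.map (Equiv.swap (Sum.inl k₀) (Sum.inr j₀)) u = u) :
    ∑ i : Fin r, S.map (Equiv.swap (Sum.inl i) (Sum.inr j₀)) (yng_A S u) = yng_A S u := by
  have h1 : ∀ i : Fin r, S.map (Equiv.swap (Sum.inl i) (Sum.inr j₀)) (yng_A S u) =
      ∑ σ : Equiv.Perm (Fin r), yng_sg K σ • S.map (yng_E σ 1)
        (S.map (Equiv.swap (Sum.inl (σ⁻¹ i)) (Sum.inr j₀)) u) := by
    intro i
    unfold yng_A
    rw [map_sum]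
    refine Finset.sum_congr rfl fun σ _ => ?_
    have h2 : (yng_E σ 1 : Equiv.Perm (Fin r ⊕ Fin r)) (Sum.inl (σ⁻¹ i)) = Sum.inl i :=
      congrArg Sum.inl (σ.apply_symm_apply i)
    have h3 : (yng_E σ 1 : Equiv.Perm (Fin r ⊕ Fin r)) (Sum.inr j₀) = Sum.inr j₀ := rfl
    rw [map_smul, yng_act, yng_act, Equiv.mul_swap_eq_swap_mul, h2, h3]
  have h2 : ∑ i : Fin r, S.map (Equiv.swap (Sum.inl i) (Sum.inr j₀)) (yng_A S u) =
      ∑ l : Fin r, yng_A S (S.map (Equiv.swap (Sum.inl l) (Sum.inr j₀)) u) := by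
    rw [Finset.sum_congr rfl fun i _ => h1 i, Finset.sum_comm]
    unfold yng_A
    rw [Finset.sum_comm (s := (Finset.univ : Finset (Fin r)))]
    refine Finset.sum_congr rfl fun σ _ => ?_
    exact Fintype.sum_equiv σ⁻¹ _ _ fun i => rfl
  rw [h2, Finset.sum_eq_single k₀]
  · rw [hu]
  · intro l _ hl
    refine yng_A_zero S _ k₀ l hl.symm ?_
    rw [yng_act]
    have h3 : (Equiv.swap (Sum.inl k₀) (Sum.inl l) : Equiv.Perm (Fin r ⊕ Fin r)) *
        Equiv.swap (Sum.inl l) (Sum.inr j₀) =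
        Equiv.swap (Sum.inl l) (Sum.inr j₀) * Equiv.swap (Sum.inl k₀) (Sum.inr j₀) := by
      rw [Equiv.mul_swap_eq_swap_mul (Equiv.swap (Sum.inl l) (Sum.inr j₀)) (Sum.inl k₀)
        (Sum.inr j₀), Equiv.swap_apply_right, Equiv.swap_apply_of_ne_of_ne]
      · intro h
        exact hl (Sum.inl.inj h).symm
      · intro h
        exact Sum.inl_ne_inr h
    rw [h3, ← yng_act, hu]
  · intro h
    exact absurd (Finset.mem_univ k₀) h

theorem yng_eq (g : S.C (Fin r ⊕ Fin r)) : S.yng g =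
    ∑ τ : Equiv.Perm (Fin r), yng_sg K τ • yng_A S (S.map (yng_E 1 τ) (yng_h S g)) := by
  unfold Sys.yng yng_A
  rw [Finset.sum_comm]
  refine Finset.sum_congr rfl fun τ _ => ?_
  rw [Finset.smul_sum]
  refine Finset.sum_congr rfl fun σ _ => ?_
  rw [smul_smul, yng_act, yng_E_mul, mul_one, one_mul, yng_E_coe, mul_comm (yng_sg K τ)]
  unfold yng_sg yng_h
  rw [Units.val_mul, Int.cast_mul]

end

/-- **The Young symmetrizer.** -/
theorem tYng : S_Yng := by
  intro K _ _ S r g hg
  refine ⟨?_, ?_, ?_⟩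
  · unfold Sys.yng
    refine Submodule.sum_mem _ fun σ _ => Submodule.sum_mem _ fun τ _ =>
      Submodule.smul_mem _ _ ?_
    refine S.T_equiv (yng_E σ τ) _ (Submodule.sum_mem _ fun R _ => ?_)
    exact S.T_equiv (yng_sw R) _ hg
  · intro inst x y hxy hc
    have hi : inst = instDecidableEqSum := Subsingleton.elim _ _
    subst hi
    rcases x with i | i <;> rcases y with j | j
    · have hij : i ≠ j := fun h => hxy (congrArg Sum.inl h)
      unfold Sys.yng
      rw [map_sum, ← Finset.sum_neg_distrib]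
      refine Fintype.sum_equiv (Equiv.mulLeft (Equiv.swap i j)) _ _ fun σ => ?_
      rw [map_sum, ← Finset.sum_neg_distrib]
      refine Finset.sum_congr rfl fun τ _ => ?_
      rw [map_smul, Equiv.coe_mulLeft, ← neg_smul, ← yng_E_coe, ← yng_E_coe, yng_act,
        yng_E_swap_left, yng_E_mul, one_mul]
      congr 1
      rw [map_mul, Equiv.Perm.sign_swap hij]
      simp
    · exact absurd hc (by simp)
    · exact absurd hc (by simp)
    · have hij : i ≠ j := fun h => hxy (congrArg Sum.inr h)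
      unfold Sys.yng
      rw [map_sum, ← Finset.sum_neg_distrib]
      refine Finset.sum_congr rfl fun σ _ => ?_
      rw [map_sum, ← Finset.sum_neg_distrib]
      refine Fintype.sum_equiv (Equiv.mulLeft (Equiv.swap i j)) _ _ fun τ => ?_
      rw [map_smul, Equiv.coe_mulLeft, ← neg_smul, ← yng_E_coe, ← yng_E_coe, yng_act,
        yng_E_swap_right, yng_E_mul, one_mul]
      congr 1
      rw [map_mul, Equiv.Perm.sign_swap hij]
      simp
  · intro inst b hb
    have hi : inst = instDecidableEqSum := Subsingleton.elim _ _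
    subst hi
    rcases b with j₀ | j₀
    · exact absurd hb (by simp)
    have h1 : ∑ x with Sum.isRight x = false, S.map (Equiv.swap x (Sum.inr j₀)) (S.yng g) =
        ∑ i : Fin r, S.map (Equiv.swap (Sum.inl i) (Sum.inr j₀)) (S.yng g) := by
      rw [Finset.sum_filter, Fintype.sum_sum_type]
      simp
    rw [h1, yng_eq]
    have h2 : ∀ i : Fin r, S.map (Equiv.swap (Sum.inl i) (Sum.inr j₀))
        (∑ τ : Equiv.Perm (Fin r), yng_sg K τ • yng_A S (S.map (yng_E 1 τ) (yng_h S g))) =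
        ∑ τ : Equiv.Perm (Fin r), yng_sg K τ • S.map (Equiv.swap (Sum.inl i) (Sum.inr j₀))
          (yng_A S (S.map (yng_E 1 τ) (yng_h S g))) := by
      intro i
      rw [map_sum]
      exact Finset.sum_congr rfl fun τ _ => map_smul _ _ _
    rw [Finset.sum_congr rfl fun i _ => h2 i, Finset.sum_comm]
    refine Finset.sum_congr rfl fun τ _ => ?_
    rw [← Finset.smul_sum, yng_A_garnir S _ (τ⁻¹ j₀) j₀]
    rw [yng_act]
    have h3 : (Equiv.swap (Sum.inl (τ⁻¹ j₀)) (Sum.inr j₀) : Equiv.Perm (Fin r ⊕ Fin r)) *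
        yng_E 1 τ = yng_E 1 τ * Equiv.swap (Sum.inl (τ⁻¹ j₀)) (Sum.inr (τ⁻¹ j₀)) := by
      have h4 : (yng_E 1 τ : Equiv.Perm (Fin r ⊕ Fin r)) (Sum.inr (τ⁻¹ j₀)) = Sum.inr j₀ :=
        congrArg Sum.inr (τ.apply_symm_apply j₀)
      have h5 : (yng_E 1 τ : Equiv.Perm (Fin r ⊕ Fin r)) (Sum.inl (τ⁻¹ j₀)) =
        Sum.inl (τ⁻¹ j₀) := rfl
      rw [Equiv.mul_swap_eq_swap_mul, h4, h5]
    rw [h3, ← yng_act, yng_h_inv]

end Pool.Agent.Lib.MP_4ca46c_ag.Nil
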