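import Pool.Agent.Lib.MP_4ca46c_ag.Nil.SpecF

/-!
# A pair of input variables gives zero
-/

set_option autoImplicit false

namespace Pool.Agent.Lib.MP_4ca46c_ag.Nil

theorem zero_two {K : Type} [Field K] (S : Sys K) (x : S.C Unit) (hx : S.Abs S.e x)
    (h0 : S.tot Unit (x * x) = 0) :
    S.tot (Fin 2) (S.e * S.map (fun _ : Unit => (0 : Fin 2)) x *
      S.map (fun _ : Unit => (1 : Fin 2)) x) = 0 := by
  have hb : Function.Bijective (Sum.elim (fun _ : Unit => (0 : Fin 2)) (fun _ : Unit => 1)) := by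
    constructor
    · rintro (a | a) (b | b) hab
      · rfl
      · simp at hab
      · simp at hab
      · rfl
    · intro a
      fin_cases a
      · exact ⟨Sum.inl (), rfl⟩
      · exact ⟨Sum.inr (), rfl⟩
  have h := S.elim hx (fun _ : Unit => (0 : Fin 2)) 1 hb x id (fun _ => 1) () rfl
    (fun j hj => (hj rfl).elim)
  rw [S.map_id, h0] at h
  rw [← h]
  congr 1
  have h2 : (![0, 1] : Fin 2 → Fin 2) = id := by
    funext i
    fin_cases i <;> rfl
  rw [h2, S.map_id]
  ring

theorem tZero : S_Zero := by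
  intro K _ S x hx h0 V V' _ _ s v₁ v₂ hb P
  set φ := Equiv.ofBijective _ hb with hφ
  have h1 : S.map s P = S.map φ (S.map Sum.inl P) := by
    rw [S.map_map]
    rfl
  have h2 : S.map ![v₁, v₂] S.e = S.map φ (S.map Sum.inr S.e) := by
    rw [S.map_map]
    rfl
  have h3 : S.map (fun _ : Unit => v₁) x =
      S.map φ (S.map Sum.inr (S.map (fun _ : Unit => (0 : Fin 2)) x)) := by
    rw [S.map_map, S.map_map]
    rfl
  have h4 : S.map (fun _ : Unit => v₂) x =
      S.map φ (S.map Sum.inr (S.map (fun _ : Unit => (1 : Fin 2)) x)) := by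
    rw [S.map_map, S.map_map]
    rfl
  rw [h1, h2, h3, h4, ← map_mul, ← map_mul, ← map_mul, S.tot_equiv, ← map_mul, ← map_mul,
    S.tot_mul, zero_two S x hx h0, mul_zero]

end Pool.Agent.Lib.MP_4ca46c_ag.Nil
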