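import Pool.Agent.Lib.MP_4ca46c_ag.Nil.AB2
import Pool.Agent.Lib.MP_4ca46c_ag.Nil.AbE
import Pool.Agent.Lib.MP_4ca46c_ag.Nil.Chain
import Pool.Agent.Lib.MP_4ca46c_ag.Nil.Chain2
import Pool.Agent.Lib.MP_4ca46c_ag.Nil.Con2
import Pool.Agent.Lib.MP_4ca46c_ag.Nil.Contr
import Pool.Agent.Lib.MP_4ca46c_ag.Nil.Dia
import Pool.Agent.Lib.MP_4ca46c_ag.Nil.EE
import Pool.Agent.Lib.MP_4ca46c_ag.Nil.EE2
import Pool.Agent.Lib.MP_4ca46c_ag.Nil.Elr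
import Pool.Agent.Lib.MP_4ca46c_ag.Nil.Elr2
import Pool.Agent.Lib.MP_4ca46c_ag.Nil.EpsT
import Pool.Agent.Lib.MP_4ca46c_ag.Nil.Ev2
import Pool.Agent.Lib.MP_4ca46c_ag.Nil.EvS
import Pool.Agent.Lib.MP_4ca46c_ag.Nil.Formal
import Pool.Agent.Lib.MP_4ca46c_ag.Nil.Formal2
import Pool.Agent.Lib.MP_4ca46c_ag.Nil.G
import Pool.Agent.Lib.MP_4ca46c_ag.Nil.G2
import Pool.Agent.Lib.MP_4ca46c_ag.Nil.Gam
import Pool.Agent.Lib.MP_4ca46c_ag.Nil.Gam2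
import Pool.Agent.Lib.MP_4ca46c_ag.Nil.Gar
import Pool.Agent.Lib.MP_4ca46c_ag.Nil.Idl
import Pool.Agent.Lib.MP_4ca46c_ag.Nil.K12
import Pool.Agent.Lib.MP_4ca46c_ag.Nil.K22
import Pool.Agent.Lib.MP_4ca46c_ag.Nil.Ker1
import Pool.Agent.Lib.MP_4ca46c_ag.Nil.Ker2
import Pool.Agent.Lib.MP_4ca46c_ag.Nil.Lam
import Pool.Agent.Lib.MP_4ca46c_ag.Nil.Lam2
import Pool.Agent.Lib.MP_4ca46c_ag.Nil.M3
import Pool.Agent.Lib.MP_4ca46c_ag.Nil.NN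
import Pool.Agent.Lib.MP_4ca46c_ag.Nil.Orth
import Pool.Agent.Lib.MP_4ca46c_ag.Nil.Pc
import Pool.Agent.Lib.MP_4ca46c_ag.Nil.Pm
import Pool.Agent.Lib.MP_4ca46c_ag.Nil.Pow
import Pool.Agent.Lib.MP_4ca46c_ag.Nil.Pow2
import Pool.Agent.Lib.MP_4ca46c_ag.Nil.Q2
import Pool.Agent.Lib.MP_4ca46c_ag.Nil.Q2o
import Pool.Agent.Lib.MP_4ca46c_ag.Nil.Q4
import Pool.Agent.Lib.MP_4ca46c_ag.Nil.Qa
import Pool.Agent.Lib.MP_4ca46c_ag.Nil.Qex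
import Pool.Agent.Lib.MP_4ca46c_ag.Nil.Rel
import Pool.Agent.Lib.MP_4ca46c_ag.Nil.Rel2
import Pool.Agent.Lib.MP_4ca46c_ag.Nil.Sg
import Pool.Agent.Lib.MP_4ca46c_ag.Nil.SgnN
import Pool.Agent.Lib.MP_4ca46c_ag.Nil.SgnO
import Pool.Agent.Lib.MP_4ca46c_ag.Nil.Spt
import Pool.Agent.Lib.MP_4ca46c_ag.Nil.Val
import Pool.Agent.Lib.MP_4ca46c_ag.Nil.XY
import Pool.Agent.Lib.MP_4ca46c_ag.Nil.Yng
import Pool.Agent.Lib.MP_4ca46c_ag.Nil.Ze2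
import Pool.Agent.Lib.MP_4ca46c_ag.Nil.Zero

/-!
# Assembly of the formal part

All statements of `Nil/SpecF.lean`, `Nil/SpecD.lean`, `Nil/SpecL.lean` and `Nil/SpecL2.lean`.
-/

set_option autoImplicit false

namespace Pool.Agent.Lib.MP_4ca46c_ag.Nil

theorem allVal : S_Val := tVal tCon
theorem allKer1 : S_Ker1 := tKer1 tPc
theorem allLam : S_Lam := tLam tG tXY allKer1 tKer2
theorem allRel : S_Rel := tRel tDia tQex tQ4 allVal allLam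
theorem allChain : S_Chain := tChain tCon allRel
theorem allGam : S_Gam := tGam allChain tEE
theorem allEvS : S_EvS := tEvS tElr tZero
theorem allFormal : S_Formal := tFormal allGam allEvS tPow
theorem allM3 : S_M3 := tM3 tDia
theorem allLam2 : S_Lam2 := tLam2 tG2 tXY allKer1 tKer2
theorem allRel2 : S_Rel2 := tRel2 tDia tQex allVal allM3 tQa tGar allLam2 allRel
theorem allChain2 : S_Chain2 := tChain2 tCon tCon2 allRel2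
theorem allGam2 : S_Gam2 := tGam2 allChain2 tEE tEE2 tYng
theorem allNN : S_NN := tNN tEE
theorem allSpt : S_Spt := tSpt tElr2 tAbE
theorem allEv2 : S_Ev2 := tEv2 tElr2 tPm tZe2 tSg
theorem allFormal2 : S_Formal2 := tFormal2 allGam2 allNN allSpt allEv2 tPow2
theorem allAB2 : S_AB2 := tAB2 tIdl tEpsT
theorem allQ2 : S_Q2 := tQ2 tIdl tEpsT allAB2
theorem allK12 : S_K12 := tK12 tIdl tOrth
theorem allSgnN : S_SgnN := tSgnN allQ2 allK12 tK22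
theorem allQ2o : S_Q2o := tQ2o tIdl tEpsT allAB2
theorem allSgnO : S_SgnO := tSgnO allQ2o allK12 tK22

end Pool.Agent.Lib.MP_4ca46c_ag.Nil
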