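import Mathlib

/-!
# A sign-free calculus for the even cohomology of the powers of a variety

`C ι` stands for the even part of the cohomology of `Y^ι` (`ι` a finite set), `map f` for the
pull-back along `Y^κ → Y^ι`, `y ↦ y ∘ f`, `tot ι` for the trace of `Y^ι`, and `int ι J` for
the push-forward along the projection `Y^(ι ⊕ J) → Y^ι`. All classes have even degree, so no signs
occur.
-/

set_option autoImplicit false

namespace Pool.Agent.Lib.MP_4ca46c_ag.Nil

/-- Even cohomology of the powers of a variety. -/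
structure Cal (K : Type) [Field K] where
  C : (ι : Type) → [Finite ι] → Type
  [ring : ∀ (ι : Type) [Finite ι], CommRing (C ι)]
  [algebra : ∀ (ι : Type) [Finite ι], Algebra K (C ι)]
  /-- pull-back along `Y^κ → Y^ι` -/
  map : ∀ {ι κ : Type} [Finite ι] [Finite κ], (ι → κ) → C ι →ₐ[K] C κ
  map_id : ∀ {ι : Type} [Finite ι] (u : C ι), map id u = u
  map_map : ∀ {ι κ μ : Type} [Finite ι] [Finite κ] [Finite μ] (f : ι → κ) (g : κ → μ) (u : C ι),
    map g (map f u) = map (g ∘ f) u
  /-- the trace -/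
  tot : ∀ (ι : Type) [Finite ι], C ι →ₗ[K] K
  tot_equiv : ∀ {ι κ : Type} [Finite ι] [Finite κ] (f : ι ≃ κ) (u : C ι),
    tot κ (map f u) = tot ι u
  tot_one : tot Empty 1 = 1
  /-- push-forward along `Y^(ι ⊕ J) → Y^ι` -/
  int : ∀ (ι J : Type) [Finite ι] [Finite J], C (ι ⊕ J) →ₗ[K] C ι
  /-- projection formula and base change -/
  sub : ∀ {ι J V : Type} [Finite ι] [Finite J] [Finite V] (f : ι → V) (P : C V) (R : C (ι ⊕ J)),
    tot V (P * map f (int ι J R)) = tot (V ⊕ J) (map Sum.inl P * map (Sum.map f id) R)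
  /-- the cohomology of the point is `K` -/
  const : ∀ u : C Empty, u = algebraMap K (C Empty) (tot Empty u)
  /-- Poincaré duality -/
  dual : ∀ {ι : Type} [Finite ι] (u : C ι), (∀ v, tot ι (u * v) = 0) → u = 0

namespace Cal

attribute [instance] ring algebra

variable {K : Type} [Field K] (S : Cal K)

theorem ext_tot {ι : Type} [Finite ι] {u v : S.C ι} (h : ∀ w, S.tot ι (w * u) = S.tot ι (w * v)) :
    u = v := by
  rw [← sub_eq_zero]
  refine S.dual _ fun w => ?_
  rw [_root_.sub_mul, map_sub, mul_comm u, mul_comm v, h, sub_self]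

/-- the trace of the push-forward -/
theorem tot_int {ι J : Type} [Finite ι] [Finite J] (R : S.C (ι ⊕ J)) :
    S.tot ι (S.int ι J R) = S.tot (ι ⊕ J) R := by
  have h := S.sub id (1 : S.C ι) R
  rw [one_mul, S.map_id, map_one, one_mul, Sum.map_id_id, S.map_id] at h
  exact h

/-- projection formula -/
theorem sub_id {ι J : Type} [Finite ι] [Finite J] (P : S.C ι) (R : S.C (ι ⊕ J)) :
    S.tot ι (P * S.int ι J R) = S.tot (ι ⊕ J) (S.map Sum.inl P * R) := by
  have h := S.sub id P R
  rwa [S.map_id, Sum.map_id_id, S.map_id] at h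

/-- base change -/
theorem map_int {ι J κ : Type} [Finite ι] [Finite J] [Finite κ] (f : ι → κ) (R : S.C (ι ⊕ J)) :
    S.map f (S.int ι J R) = S.int κ J (S.map (Sum.map f id) R) := by
  refine S.ext_tot fun w => ?_
  rw [S.sub, S.sub_id]

/-- projection formula -/
theorem mul_int {ι J : Type} [Finite ι] [Finite J] (P : S.C ι) (R : S.C (ι ⊕ J)) :
    P * S.int ι J R = S.int ι J (S.map Sum.inl P * R) := by
  refine S.ext_tot fun w => ?_
  rw [S.sub_id, ← mul_assoc, S.sub_id, map_mul (S.map Sum.inl), mul_assoc]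

theorem tot_empty_left {J : Type} [Finite J] (R : S.C J) :
    S.tot (Empty ⊕ J) (S.map Sum.inr R) = S.tot J R :=
  S.tot_equiv (Equiv.emptySum Empty J).symm R

/-- Fubini -/
theorem tot_mul {V J : Type} [Finite V] [Finite J] (P : S.C V) (R : S.C J) :
    S.tot (V ⊕ J) (S.map Sum.inl P * S.map Sum.inr R) = S.tot V P * S.tot J R := by
  have h := S.sub (Empty.elim : Empty → V) P (S.map (Sum.inr : J → Empty ⊕ J) R)
  have h1 : S.int Empty J (S.map (Sum.inr : J → Empty ⊕ J) R) =
      algebraMap K (S.C Empty) (S.tot J R) := by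
    rw [S.const (S.int Empty J _), S.tot_int, S.tot_empty_left]
  rw [h1, AlgHom.commutes, S.map_map] at h
  have h2 : Sum.map (Empty.elim : Empty → V) (id : J → J) ∘ Sum.inr = Sum.inr := rfl
  rw [h2] at h
  rw [← h, mul_comm P, ← Algebra.smul_def, map_smul, smul_eq_mul, mul_comm]

/-- The class `u` absorbs `e`: `∫_c e(i, c) u(.. c ..) = u(.. i ..)` for every place `i`. -/
def Abs {ι : Type} [Finite ι] (e : S.C (Fin 2)) (u : S.C ι) : Prop :=
  ∀ (i : ι) (h : ι → ι ⊕ Unit), h i = Sum.inr () → (∀ j, j ≠ i → h j = Sum.inl j) →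
    u = S.int ι Unit (S.map ![Sum.inl i, Sum.inr ()] e * S.map h u)

/-- elimination of the variable `v`, which occurs only in `e(g i₀, v)` and at the place `i₀`
of `u` -/
theorem elim {ι V V' : Type} [Finite ι] [Finite V] [Finite V'] {e : S.C (Fin 2)} {u : S.C ι}
    (hu : S.Abs e u) (s : V' → V) (v : V)
    (hs : Function.Bijective (Sum.elim s (fun _ : Unit => v))) (P : S.C V') (g : ι → V')
    (h : ι → V) (i₀ : ι) (h0 : h i₀ = v) (h1 : ∀ j, j ≠ i₀ → h j = s (g j)) :
    S.tot V (S.map s P * (S.map ![s (g i₀), v] e * S.map h u)) = S.tot V' (P * S.map g u) := by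
  classical
  let k : ι → ι ⊕ Unit := fun j => if j = i₀ then Sum.inr () else Sum.inl j
  have hk := hu i₀ k (if_pos rfl) (fun j hj => if_neg hj)
  conv_rhs => rw [hk, S.sub]
  rw [← S.tot_equiv (Equiv.ofBijective _ hs)]
  congr 1
  simp only [map_mul, S.map_map]
  congr 2
  · congr 2
    ext i
    fin_cases i <;> rfl
  · congr 2
    ext j
    by_cases hj : j = i₀
    · subst hj
      simp [k, h0]
    · simp [k, hj, h1]

/-- elimination of the variable `p` in `Fin (n + 1)` -/
theorem elimF {ι : Type} [Finite ι] {n : ℕ} {e : S.C (Fin 2)} {u : S.C ι}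
    (hu : S.Abs e u) (p : Fin (n + 1)) (P : S.C (Fin n)) (g : ι → Fin n)
    (h : ι → Fin (n + 1)) (i₀ : ι) (h0 : h i₀ = p) (h1 : ∀ j, j ≠ i₀ → h j = p.succAbove (g j)) :
    S.tot (Fin (n + 1)) (S.map p.succAbove P * (S.map ![p.succAbove (g i₀), p] e * S.map h u)) =
      S.tot (Fin n) (P * S.map g u) := by
  refine S.elim hu p.succAbove p ?_ P g h i₀ h0 h1
  constructor
  · rintro (a | a) (b | b) hab
    · exact congrArg Sum.inl (Fin.succAbove_right_injective hab)
    · exact absurd hab (Fin.succAbove_ne p a)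
    · exact absurd hab.symm (Fin.succAbove_ne p b)
    · rfl
  · intro a
    by_cases ha : a = p
    · exact ⟨Sum.inr (), ha.symm⟩
    · obtain ⟨b, hb⟩ := Fin.exists_succAbove_eq ha
      exact ⟨Sum.inl b, hb⟩

end Cal

/-- The system of the `e`-parts: `T ι` is the space of algebraic classes of the middle codimension
on `Y^ι` (with coefficients in `K`) which absorb the symmetric idempotent `e`. -/
structure Sys (K : Type) [Field K] extends Cal K where
  /-- the idempotent -/
  e : C (Fin 2)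
  T : ∀ (ι : Type) [Finite ι], Submodule K (C ι)
  abs : ∀ {ι : Type} [Finite ι], ∀ u ∈ T ι, toCal.Abs e u
  e_mem : e ∈ T (Fin 2)
  e_symm : map ![1, 0] e = e
  T_equiv : ∀ {ι κ : Type} [Finite ι] [Finite κ] (f : ι ≃ κ), ∀ u ∈ T ι, map f u ∈ T κ
  T_one : (1 : C Empty) ∈ T Empty
  T_mul : ∀ {ι κ : Type} [Finite ι] [Finite κ], ∀ u ∈ T ι, ∀ v ∈ T κ,
    map Sum.inl u * map Sum.inr v ∈ T (ι ⊕ κ)
  T_comp : ∀ {ι κ J : Type} [Finite ι] [Finite κ] [Finite J], ∀ u ∈ T (ι ⊕ J),
    ∀ v ∈ T (κ ⊕ J), int (ι ⊕ κ) J (map (Sum.map Sum.inl id) u * map (Sum.map Sum.inr id) v) ∈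
      T (ι ⊕ κ)
  /-- the spreading argument for four points -/
  four : ∀ Q ∈ T (Fin 4), ∃ a b c : K, ∃ ν ∈ T (Fin 4),
    (∀ g ∈ T (Fin 4), tot (Fin 4) (ν * g) = 0) ∧
    Q = a • (map ![0, 1] e * map ![2, 3] e) + b • (map ![0, 2] e * map ![1, 3] e) +
      c • (map ![0, 3] e * map ![1, 2] e) + ν
  /-- numerically trivial correspondences are nilpotent -/
  nil : ∀ {ι : Type} [Finite ι], ∀ n ∈ T (ι ⊕ ι), (∀ g ∈ T (ι ⊕ ι), tot (ι ⊕ ι) (n * g) = 0) →
    ∀ (x : C ι) (c : K), (∀ y : C ι, tot (ι ⊕ ι) (n * map Sum.inr x * map Sum.inl y) =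
      c * tot ι (x * y)) → c = 0 ∨ x = 0

namespace Sys

variable {K : Type} [Field K] (S : Sys K)

/-- the class `e(a, b)` -/
noncomputable abbrev E {V : Type} [Finite V] (a b : V) : S.C V := S.map ![a, b] S.e

/-- the number `δ` (the superdimension of `e`) -/
noncomputable def delta : K := S.tot (Fin 2) (S.e * S.e)

/-- numerically trivial classes -/
def Num {ι : Type} [Finite ι] (u : S.C ι) : Prop := ∀ g ∈ S.T ι, S.tot ι (u * g) = 0

/-- symmetric classes -/
def Sym {ι : Type} [Finite ι] (u : S.C ι) : Prop := ∀ σ : Equiv.Perm ι, S.map σ u = u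

/-- the contraction of the first two variables with `e` -/
noncomputable def contr {J : Type} [Finite J] (τ : S.C (Fin 2 ⊕ J)) : S.C J :=
  S.int J (Fin 2) (S.map Sum.swap τ * S.map Sum.inr S.e)

/-- `w` is the operator `degree - D` on the `e`-part of the cohomology of `Y`: it acts
as a derivation, and it kills the middle degree of `Y^ι`. -/
structure IsGrad (w : S.C (Fin 2)) : Prop where
  symm : S.map ![1, 0] w = -w
  abs : S.Abs S.e w
  deg : ∀ {ι : Type} [Fintype ι], ∀ τ ∈ S.T ι, ∀ (P : S.C ι) (h : ι → ι → ι ⊕ Unit),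
    (∀ i, h i i = Sum.inr ()) → (∀ i j, j ≠ i → h i j = Sum.inl j) →
    ∑ i, S.tot (ι ⊕ Unit) (S.map Sum.inl P * (S.map ![Sum.inl i, Sum.inr ()] w *
      S.map (h i) τ)) = 0

end Sys

end Pool.Agent.Lib.MP_4ca46c_ag.Nil
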