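import Pool.Agent.Lib.MP_4ca46c_ag.Nil.P.Tens

/-!
# The even part of the cohomology, and the powers of a variety
-/

set_option autoImplicit false

open CategoryTheory Limits MonoidalCategory CartesianMonoidalCategory TensorProduct

namespace Pool.Agent.Lib.MP_4ca46c_ag.Nil

universe v u w

namespace PreWeil

section Even

variable {K : Type w} [Field K] [CharZero K] {𝒱 : Type u} [Category.{v} 𝒱]
  [CartesianMonoidalCategory 𝒱] (W : PreWeil K 𝒱) {X Y : 𝒱}

theorem eps_mul (x y : W.H X) : W.eps X (x * y) = W.eps X x * W.eps X y := by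
  refine W.ind (P := fun x => W.eps X (x * y) = W.eps X x * W.eps X y) x (by simp)
    (fun i x hx => ?_) (fun a b ha hb => by rw [add_mul, map_add, ha, hb, map_add, add_mul])
  refine W.ind (P := fun y => W.eps X (x * y) = W.eps X x * W.eps X y) y (by simp)
    (fun j y hy => ?_) (fun a b ha hb => by rw [mul_add, map_add, ha, hb, map_add, mul_add])
  rw [W.eps_gr (SetLike.mul_mem_graded hx hy), W.eps_gr hx, W.eps_gr hy, smul_mul_smul_comm,
    pow_add]

theorem eps_one : W.eps X (1 : W.H X) = 1 := by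
  rw [W.eps_gr (SetLike.one_mem_graded (W.gr X)), pow_zero, one_smul]

/-- The even part of the cohomology. -/
noncomputable def Ev (X : 𝒱) : Subalgebra K (W.H X) where
  carrier := {x | W.eps X x = x}
  mul_mem' {x y} hx hy := by
    simp only [Set.mem_ofPred_eq] at hx hy ⊢
    rw [eps_mul, hx, hy]
  add_mem' {x y} hx hy := by
    simp only [Set.mem_ofPred_eq] at hx hy ⊢
    rw [map_add, hx, hy]
  algebraMap_mem' r := by
    simp only [Set.mem_ofPred_eq]
    rw [Algebra.algebraMap_eq_smul_one, map_smul, eps_one]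

theorem mem_Ev {x : W.H X} : x ∈ W.Ev X ↔ W.eps X x = x := Iff.rfl

theorem Ev_of_gr {i : ℕ} {x : W.H X} (hx : x ∈ W.gr X i) (hi : Even i) : x ∈ W.Ev X := by
  rw [mem_Ev, W.eps_gr hx, hi.neg_one_pow, one_smul]

/-- Even classes commute with all classes. -/
theorem Ev_comm {x : W.H X} (hx : x ∈ W.Ev X) (y : W.H X) : x * y = y * x := by
  have h : ∀ x : W.H X, W.even X x * y = y * W.even X x := by
    intro x
    refine W.ind (P := fun x => W.even X x * y = y * W.even X x) x (by simp)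
      (fun i x hx => ?_) (fun a b ha hb => by rw [map_add, add_mul, ha, hb, mul_add])
    rcases Nat.even_or_odd i with hi | hi
    · rw [W.even_even hx hi]
      refine W.ind (P := fun y => x * y = y * x) y (by simp) (fun j y hy => ?_)
        (fun a b ha hb => by rw [mul_add, ha, hb, add_mul])
      rw [W.comm_smul hx hy, (hi.mul_right j).neg_one_pow, one_smul]
    · rw [W.even_odd hx hi, zero_mul, mul_zero]
  have h1 : W.even X x = x := by
    have h2 := W.eps_eq (X := X)
    have h3 : W.eps X x = (2 : K) • W.even X x - x := by rw [h2]; rfl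
    rw [W.mem_Ev.1 hx] at h3
    have h4 : (2 : K) • W.even X x = (2 : K) • x := by
      rw [two_smul K x]
      exact (sub_eq_iff_eq_add.1 h3.symm)
    exact smul_right_injective _ (two_ne_zero : (2 : K) ≠ 0) h4
  have := h x
  rwa [h1] at this

noncomputable instance (X : 𝒱) : CommRing (W.Ev X) :=
  { (inferInstance : Ring (W.Ev X)) with
    mul_comm := fun x y => Subtype.ext (W.Ev_comm x.2 y.1) }

theorem eps_pull (f : X ⟶ Y) (y : W.H Y) : W.eps X (W.pull f y) = W.pull f (W.eps Y y) := by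
  refine W.ind (P := fun y => W.eps X (W.pull f y) = W.pull f (W.eps Y y)) y (by simp)
    (fun i y hy => ?_) (fun a b ha hb => by simp only [map_add, ha, hb])
  rw [W.eps_gr hy, W.eps_gr (W.pull_gr f hy), map_smul]

theorem pull_Ev (f : X ⟶ Y) {y : W.H Y} (hy : y ∈ W.Ev Y) : W.pull f y ∈ W.Ev X := by
  rw [mem_Ev, eps_pull, W.mem_Ev.1 hy]

/-- pull-back on the even part -/
noncomputable def pullE (f : X ⟶ Y) : W.Ev Y →ₐ[K] W.Ev X :=
  ((W.pull f).comp (W.Ev Y).val).codRestrict (W.Ev X) fun y => W.pull_Ev f y.2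

theorem pullE_coe (f : X ⟶ Y) (y : W.Ev Y) : (W.pullE f y : W.H X) = W.pull f y := rfl

/-- the trace of an odd class is zero -/
theorem tr_eps_self (x : W.H X) : W.tr X (W.eps X x) = W.tr X x := by
  refine W.ind (P := fun x => W.tr X (W.eps X x) = W.tr X x) x (by simp)
    (fun i x hx => ?_) (fun a b ha hb => by simp only [map_add, ha, hb])
  rw [W.eps_gr hx, map_smul]
  by_cases h : i = 2 * W.dim X
  · rw [h, Even.neg_one_pow ⟨W.dim X, by ring⟩, one_smul]
  · rw [W.tr_gr hx h, smul_zero]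

theorem eps_push (f : X ⟶ Y) (x : W.H X) : W.eps Y (W.push f x) = W.push f (W.eps X x) := by
  refine W.ext_tr fun y => ?_
  rw [push_spec]
  obtain ⟨z, rfl⟩ : ∃ z, W.eps Y z = y := ⟨W.eps Y y, LinearMap.congr_fun W.eps_eps y⟩
  rw [← eps_mul, tr_eps_self, push_spec, ← eps_pull, ← eps_mul, tr_eps_self]

theorem push_Ev (f : X ⟶ Y) {x : W.H X} (hx : x ∈ W.Ev X) : W.push f x ∈ W.Ev Y := by
  rw [mem_Ev, eps_push, W.mem_Ev.1 hx]

/-- push-forward on the even part -/
noncomputable def pushE (f : X ⟶ Y) : W.Ev X →ₗ[K] W.Ev Y :=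
  ((W.push f).comp (W.Ev X).val.toLinearMap).codRestrict (Subalgebra.toSubmodule (W.Ev Y))
    fun x => W.push_Ev f x.2

theorem pushE_coe (f : X ⟶ Y) (x : W.Ev X) : (W.pushE f x : W.H Y) = W.push f x := rfl

/-- the trace on the even part -/
noncomputable def trE (X : 𝒱) : W.Ev X →ₗ[K] K := (W.tr X).comp (W.Ev X).val.toLinearMap

theorem trE_apply (x : W.Ev X) : W.trE X x = W.tr X x := rfl

theorem dualE {x : W.Ev X} (h : ∀ y : W.Ev X, W.trE X (x * y) = 0) : x = 0 := by
  refine Subtype.ext (W.duality _ fun y => ?_)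
  have h1 : W.tr X (x * y) = W.tr X (x * W.eps X y) := by
    rw [← tr_eps_self, eps_mul, W.mem_Ev.1 x.2]
  have h2 : y + W.eps X y ∈ W.Ev X := by
    rw [mem_Ev, map_add, add_comm]
    congr 1
    exact LinearMap.congr_fun W.eps_eps y
  have h3 := h ⟨_, h2⟩
  rw [trE_apply] at h3
  have h4 : W.tr X (x * (y + W.eps X y)) = 0 := h3
  rw [mul_add, map_add, ← h1, ← two_mul] at h4
  exact (mul_eq_zero.1 h4).resolve_left two_ne_zero

end Even

section Powers

variable {𝒱 : Type u} [Category.{v} 𝒱] [CartesianMonoidalCategory 𝒱] (Y : 𝒱)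

/-- the power `Y^ι` -/
noncomputable def pw (ι : Type) [Finite ι] : 𝒱 := ∏ᶜ fun _ : ι => Y

variable {ι κ μ J : Type} [Finite ι] [Finite κ] [Finite μ] [Finite J]

/-- the projections -/
noncomputable def pj (i : ι) : pw Y ι ⟶ Y := Pi.π (fun _ : ι => Y) i

variable {Y} in
/-- the morphism into the power with given components -/
noncomputable def pl {T : 𝒱} (g : ι → (T ⟶ Y)) : T ⟶ pw Y ι := Pi.lift g

theorem pl_pj {T : 𝒱} (g : ι → (T ⟶ Y)) (i : ι) : pl g ≫ pj Y i = g i := Pi.lift_π _ _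

theorem pw_ext {T : 𝒱} {f g : T ⟶ pw Y ι} (h : ∀ i, f ≫ pj Y i = g ≫ pj Y i) : f = g :=
  Pi.hom_ext _ _ h

/-- the morphism `y ↦ y ∘ f` -/
noncomputable def pm (f : ι → κ) : pw Y κ ⟶ pw Y ι := pl fun i => pj Y (f i)

theorem pm_pj (f : ι → κ) (i : ι) : pm Y f ≫ pj Y i = pj Y (f i) := pl_pj _ _ _

theorem pm_id : pm Y (id : ι → ι) = 𝟙 _ := pw_ext Y fun i => by
  rw [pm_pj, Category.id_comp]
  rfl

theorem pm_comp (f : ι → κ) (g : κ → μ) : pm Y g ≫ pm Y f = pm Y (g ∘ f) := pw_ext Y fun i => by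
  rw [Category.assoc, pm_pj, pm_pj, pm_pj]
  rfl

/-- `Y^ι` depends only on the cardinality of `ι` -/
noncomputable def pmIso (f : ι ≃ κ) : pw Y κ ≅ pw Y ι where
  hom := pm Y f
  inv := pm Y f.symm
  hom_inv_id := by rw [pm_comp, Equiv.self_comp_symm, pm_id]
  inv_hom_id := by rw [pm_comp, Equiv.symm_comp_self, pm_id]

/-- `Y^(ι ⊕ J) = Y^ι × Y^J` -/
noncomputable def pwSum (ι J : Type) [Finite ι] [Finite J] :
    pw Y (ι ⊕ J) ≅ pw Y ι ⊗ pw Y J where
  hom := lift (pm Y Sum.inl) (pm Y Sum.inr)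
  inv := pl (Sum.elim (fun i => fst _ _ ≫ pj Y i) (fun j => snd _ _ ≫ pj Y j))
  hom_inv_id := by
    refine pw_ext Y fun i => ?_
    rw [Category.assoc, Category.id_comp, pl_pj]
    rcases i with i | j
    · rw [Sum.elim_inl, lift_fst_assoc, pm_pj]
    · rw [Sum.elim_inr, lift_snd_assoc, pm_pj]
  inv_hom_id := by
    ext
    · rw [Category.assoc, lift_fst, Category.id_comp]
      refine pw_ext Y fun i => ?_
      rw [Category.assoc, pm_pj, pl_pj, Sum.elim_inl]
    · rw [Category.assoc, lift_snd, Category.id_comp]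
      refine pw_ext Y fun i => ?_
      rw [Category.assoc, pm_pj, pl_pj, Sum.elim_inr]

/-- `Y^1 = Y` -/
noncomputable def pwUnit : pw Y Unit ≅ Y where
  hom := pj Y ()
  inv := pl fun _ => 𝟙 Y
  hom_inv_id := by
    refine pw_ext Y fun i => ?_
    rw [Category.assoc, pl_pj, Category.comp_id, Category.id_comp]
  inv_hom_id := pl_pj _ _ _

/-- `Y^0` is the point -/
noncomputable def pwEmpty : pw Y Empty ≅ 𝟙_ 𝒱 where
  hom := toUnit _
  inv := pl fun i => i.elim
  hom_inv_id := pw_ext Y fun i => i.elim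
  inv_hom_id := toUnit_unique _ _

/-- `Y^2 = Y × Y` -/
noncomputable def pwTwo : pw Y (Fin 2) ≅ Y ⊗ Y where
  hom := lift (pj Y 0) (pj Y 1)
  inv := pl ![fst Y Y, snd Y Y]
  hom_inv_id := by
    refine pw_ext Y fun i => ?_
    rw [Category.assoc, pl_pj, Category.id_comp]
    fin_cases i
    · exact lift_fst _ _
    · exact lift_snd _ _
  inv_hom_id := by
    ext
    · rw [Category.assoc, lift_fst, pl_pj, Category.id_comp]; rfl
    · rw [Category.assoc, lift_snd, pl_pj, Category.id_comp]; rfl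

end Powers

end PreWeil

end Pool.Agent.Lib.MP_4ca46c_ag.Nil
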