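import Pool.Agent.Lib.MP_4ca46c_ag.Nil.Cal
import Pool.Agent.Lib.MP_4ca46c_ag.Nil.Ev

/-!
# The calculus of the powers of a variety
-/

set_option autoImplicit false

open CategoryTheory Limits MonoidalCategory CartesianMonoidalCategory TensorProduct

namespace Pool.Agent.Lib.MP_4ca46c_ag.Nil

universe v u

namespace PreWeil

variable {K : Type} [Field K] [CharZero K] {𝒱 : Type u} [Category.{v} 𝒱]
  [CartesianMonoidalCategory 𝒱] (W : PreWeil K 𝒱) (Y : 𝒱)
  {ι κ J : Type} [Finite ι] [Finite κ] [Finite J]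

theorem tr_pwSum (a : W.H (pw Y ι)) (b : W.H (pw Y J)) (y : W.H (pw Y ι)) :
    W.tr (pw Y (ι ⊕ J)) (W.pull (pm Y Sum.inl) a * W.pull (pm Y Sum.inr) b *
      W.pull (pm Y Sum.inl) y) = W.tr _ (a * y) * W.tr _ b := by
  rw [← W.tr_snd a b y, ← W.tr_iso (pwSum Y ι J)]
  simp only [map_mul, ← W.pull_comp]
  have h1 : (pwSum Y ι J).hom ≫ fst _ _ = pm Y Sum.inl := lift_fst _ _
  have h2 : (pwSum Y ι J).hom ≫ snd _ _ = pm Y Sum.inr := lift_snd _ _
  rw [h1, h2]

/-- integration over the second group of variables -/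
theorem push_inl (a : W.H (pw Y ι)) (b : W.H (pw Y J)) :
    W.push (pm Y Sum.inl) (W.pull (pm Y Sum.inl) a * W.pull (pm Y Sum.inr) b) =
      W.tr _ b • a := by
  refine W.push_eq _ _ _ fun y => ?_
  rw [tr_pwSum, smul_mul_assoc, map_smul, smul_eq_mul, mul_comm]

/-- Künneth: induction -/
theorem ind_sum {P : W.H (pw Y (ι ⊕ J)) → Prop} (R : W.H (pw Y (ι ⊕ J))) (h0 : P 0)
    (ht : ∀ a b, P (W.pull (pm Y Sum.inl) a * W.pull (pm Y Sum.inr) b))
    (ha : ∀ u v, P u → P v → P (u + v)) : P R := by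
  have h : ∀ u : W.H (pw Y ι ⊗ pw Y J), P (W.pull (pwSum Y ι J).hom u) := by
    intro u
    refine W.ind_tm (P := fun u => P (W.pull (pwSum Y ι J).hom u)) u (by rwa [map_zero])
      (fun a b => ?_) (fun u v hu hv => by rw [map_add]; exact ha _ _ hu hv)
    have h1 : (pwSum Y ι J).hom ≫ fst _ _ = pm Y Sum.inl := lift_fst _ _
    have h2 : (pwSum Y ι J).hom ≫ snd _ _ = pm Y Sum.inr := lift_snd _ _
    rw [tm, map_mul, ← W.pull_comp, ← W.pull_comp, h1, h2]
    exact ht a b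
  have h3 := h (W.pull (pwSum Y ι J).inv R)
  rwa [← W.pull_comp, Iso.hom_inv_id, W.pull_id] at h3

/-- base change -/
theorem pull_push (f : ι → κ) (R : W.H (pw Y (ι ⊕ J))) :
    W.pull (pm Y f) (W.push (pm Y Sum.inl) R) =
      W.push (pm Y Sum.inl) (W.pull (pm Y (Sum.map f (id : J → J))) R) := by
  refine W.ind_sum Y (P := fun R => W.pull (pm Y f) (W.push (pm Y Sum.inl) R) =
      W.push (pm Y Sum.inl) (W.pull (pm Y (Sum.map f (id : J → J))) R)) R (by simp)
    (fun a b => ?_) (fun u v hu hv => by simp only [map_add, hu, hv])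
  have h1 : pm Y (Sum.map f (id : J → J)) ≫ pm Y Sum.inl = pm Y Sum.inl ≫ pm Y f := by
    rw [pm_comp, pm_comp]; rfl
  have h2 : pm Y (Sum.map f (id : J → J)) ≫ pm Y Sum.inr = pm Y (Sum.inr : J → κ ⊕ J) := by
    rw [pm_comp]; rfl
  rw [push_inl, map_smul, map_mul, ← W.pull_comp, ← W.pull_comp, h1, h2, W.pull_comp, push_inl]

theorem gr_unit {i : ℕ} {x : W.H (𝟙_ 𝒱)} (hx : x ∈ W.gr _ i) (hi : i ≠ 0) : x = 0 := by
  have hu : W.dim (𝟙_ 𝒱) = 0 := by
    by_contra h
    have h1 : W.tr (𝟙_ 𝒱) (1 : W.H (𝟙_ 𝒱)) = 0 :=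
      W.tr_gr (SetLike.one_mem_graded (W.gr (𝟙_ 𝒱))) (by omega)
    rw [W.tr_unit] at h1
    exact one_ne_zero h1
  exact W.gr_top hx (by omega)

theorem unit_const (x : W.H (𝟙_ 𝒱)) : x = algebraMap K _ (W.tr _ x) := by
  refine W.ind (P := fun x => x = algebraMap K _ (W.tr _ x)) x (by simp) (fun i x hx => ?_)
    (fun a b ha hb => by rw [map_add, map_add, ← ha, ← hb])
  by_cases hi : i = 0
  · subst hi
    obtain ⟨a, rfl⟩ := W.connected hx
    rw [Algebra.algebraMap_eq_smul_one, map_smul, W.tr_unit, smul_eq_mul, mul_one,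
      Algebra.algebraMap_eq_smul_one]
  · rw [W.gr_unit hx hi, map_zero, map_zero]

theorem empty_const (x : W.H (pw Y Empty)) : x = algebraMap K _ (W.tr _ x) := by
  have h := W.unit_const (W.pull (pwEmpty Y).inv x)
  have h1 := congrArg (W.pull (pwEmpty Y).hom) h
  rw [← W.pull_comp, Iso.hom_inv_id, W.pull_id, AlgHom.commutes] at h1
  rw [← W.tr_iso (pwEmpty Y), ← W.pull_comp, Iso.hom_inv_id, W.pull_id] at h1
  exact h1

theorem dim_unit : W.dim (𝟙_ 𝒱) = 0 := by
  by_contra h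
  have h1 : W.tr (𝟙_ 𝒱) (1 : W.H (𝟙_ 𝒱)) = 0 :=
    W.tr_gr (SetLike.one_mem_graded (W.gr (𝟙_ 𝒱))) (by omega)
  rw [W.tr_unit] at h1
  exact one_ne_zero h1

/-- the dimension of the powers -/
theorem dim_pw (ι : Type) [Finite ι] : W.dim (pw Y ι) = Nat.card ι * W.dim Y := by
  have h : ∀ [Finite ι], W.dim (pw Y ι) = Nat.card ι * W.dim Y := by
    refine Finite.induction_empty_option
      (P := fun ι => ∀ [Finite ι], W.dim (pw Y ι) = Nat.card ι * W.dim Y) ?_ ?_ ?_ ι
    · intro α β e ih _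
      have : Finite α := Finite.of_equiv _ e.symm
      rw [← Nat.card_congr e, ← ih, W.dim_iso (pmIso Y e)]
    · intro _
      have e : PEmpty.{1} ≃ Empty := Equiv.equivOfIsEmpty _ _
      rw [W.dim_iso (pmIso Y e.symm), W.dim_iso (pwEmpty Y), dim_unit]
      simp
    · intro α _ ih _
      rw [W.dim_iso (pmIso Y (Equiv.optionEquivSumPUnit α).symm), W.dim_iso (pwSum Y α PUnit),
        W.dim_tensor, ih]
      have h1 : W.dim (pw Y PUnit) = W.dim Y := W.dim_iso (pwUnit Y)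
      rw [h1, Nat.card_eq_fintype_card, Nat.card_eq_fintype_card, Fintype.card_option]
      ring
  exact h

/-- the calculus of even classes on the powers of `Y` -/
noncomputable def calOf : Cal K where
  C ι _ := W.Ev (pw Y ι)
  ring _ _ := inferInstance
  algebra _ _ := inferInstance
  map f := W.pullE (pm Y f)
  map_id u := Subtype.ext (by rw [pullE_coe, pm_id, W.pull_id])
  map_map f g u := Subtype.ext (by
    rw [pullE_coe, pullE_coe, pullE_coe, ← W.pull_comp, pm_comp])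
  tot ι _ := W.trE (pw Y ι)
  tot_equiv f u := W.tr_iso (pmIso Y f) u.1
  tot_one := by
    have h := W.tr_iso (pwEmpty Y) 1
    rw [map_one, W.tr_unit] at h
    exact h
  int ι J _ _ := W.pushE (pm Y Sum.inl)
  sub f P R := by
    have h1 : W.pull (pm Y f) (W.push (pm Y Sum.inl) R.1) = _ := W.pull_push Y f R.1
    change W.tr _ (P.1 * W.pull (pm Y f) (W.push (pm Y Sum.inl) R.1)) =
      W.tr _ (W.pull (pm Y Sum.inl) P.1 * W.pull (pm Y (Sum.map f id)) R.1)
    rw [h1, W.Ev_comm P.2, push_spec, ← W.Ev_comm (W.pull_Ev _ P.2)]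
  const u := Subtype.ext (W.empty_const Y u.1)
  dual u h := W.dualE h

end PreWeil

end Pool.Agent.Lib.MP_4ca46c_ag.Nil
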