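import Pool.Agent.Lib.MP_4ca46c_ag.Nil.SpecL
import Pool.Agent.Lib.MP_4ca46c_ag.Sign.Span

set_option autoImplicit false

namespace Pool.Agent.Lib.MP_4ca46c_ag.Nil

open Module TensorProduct LinearMap Pool.Agent.Lib.MP_4ca46c_ag.Sign

/-- Powers of an algebraic operator of degree `0` are algebraic. -/
theorem conv_pow {K V : Type} [Field K] [AddCommGroup V] [Module K V]
    {pr : ℤ → Module.End K V} {A : ℤ → AddSubgroup (Module.End K V)} (hA : RatAlg pr A)
    {f : Module.End K V} (hf : f ∈ A 0) (m : ℕ) : f ^ m ∈ A 0 := by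
  induction m with
  | zero => simpa using hA.one
  | succ m ih =>
    have h := hA.mul 0 0 (f ^ m) ih f hf
    rw [add_zero] at h
    rw [pow_succ]
    exact h

/-- An algebraic operator of degree `0` commutes with the sign operator. -/
theorem conv_comm {K V : Type} [Field K] [AddCommGroup V] [Module K V] {n : ℕ}
    {pr : ℤ → Module.End K V} {A : ℤ → AddSubgroup (Module.End K V)} (hA : RatAlg pr A)
    {f : Module.End K V} (hf : f ∈ A 0) : f * sgn n pr = sgn n pr * f := by
  unfold sgn
  rw [Finset.mul_sum, Finset.sum_mul]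
  refine Finset.sum_congr rfl fun i _ => ?_
  rw [mul_smul_comm, smul_mul_assoc]
  have h := hA.comm 0 f hf i
  rw [mul_zero, add_zero] at h
  rw [h]

/-- **`C⁺` implies nilpotence.** -/
theorem tConv : S_Conv := by
  intro K V _ _ _ _ _ n pr L A hL hA hs f hf
  refine isNilpotent_of_trace_pow f fun m hm => ?_
  obtain ⟨k, rfl⟩ : ∃ k, m = k + 1 := ⟨m - 1, by omega⟩
  have hg : f ^ k * sgn n pr ∈ A (-0) := by
    have h := hA.mul 0 0 (f ^ k) (conv_pow hA hf.1 k) (sgn n pr) hs
    simpa using h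
  have h1 := hf.2 (f ^ k * sgn n pr) hg
  have h2 : f ^ k * sgn n pr * f * sgn n pr = f ^ (k + 1) := by
    rw [mul_assoc (f ^ k), mul_assoc (f ^ k), ← conv_comm hA hf.1, mul_assoc f,
      span_sgn_sgn hL, mul_one, pow_succ]
  rw [h2] at h1
  exact h1

end Pool.Agent.Lib.MP_4ca46c_ag.Nil
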