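import Pool.Agent.Lib.MP_4ca46c_ag.Nil.SpecF

/-!
# Elimination of `r` variables
-/

set_option autoImplicit false

namespace Pool.Agent.Lib.MP_4ca46c_ag.Nil

theorem elr_bij {V : Type} (r : ℕ) : Function.Bijective
    (Sum.elim (Sum.map id Fin.castSucc : V ⊕ Fin r → V ⊕ Fin (r + 1))
      (fun _ : Unit => Sum.inr (Fin.last r))) := by
  constructor
  · rintro ((a | a) | a) ((b | b) | b) hab
    · simpa using hab
    · simp at hab
    · simp at hab
    · simp at hab
    · simpa using hab
    · simp only [Sum.elim_inl, Sum.map_inr, Sum.elim_inr, Sum.inr.injEq] at hab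
      exact absurd hab (Fin.castSucc_lt_last a).ne
    · simp at hab
    · simp only [Sum.elim_inl, Sum.map_inr, Sum.elim_inr, Sum.inr.injEq] at hab
      exact absurd hab.symm (Fin.castSucc_lt_last b).ne
    · rfl
  · rintro (a | a)
    · exact ⟨Sum.inl (Sum.inl a), rfl⟩
    · refine Fin.lastCases ?_ (fun j => ?_) a
      · exact ⟨Sum.inr (), rfl⟩
      · exact ⟨Sum.inl (Sum.inr j), rfl⟩

theorem tElr : S_Elr := by
  intro K _ S x hx r
  induction r with
  | zero =>
    intro V _ π P
    rw [Finset.univ_eq_empty, Finset.prod_empty, mul_one, Finset.prod_empty, mul_one]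
    exact S.tot_equiv (Equiv.sumEmpty V (Fin 0)).symm P
  | succ r ih =>
    intro V _ π P
    have h := S.elim hx (Sum.map id Fin.castSucc : V ⊕ Fin r → V ⊕ Fin (r + 1))
      (Sum.inr (Fin.last r)) (elr_bij r)
      (S.map Sum.inl P * ∏ j : Fin r, (S.map ![Sum.inl (π j.castSucc), Sum.inr j] S.e *
        S.map (fun _ : Unit => (Sum.inr j : V ⊕ Fin r)) x))
      (fun _ => Sum.inl (π (Fin.last r))) (fun _ => Sum.inr (Fin.last r)) () rfl
      (fun j hj => (hj rfl).elim)
    have h1 : S.map (Sum.map id Fin.castSucc : V ⊕ Fin r → V ⊕ Fin (r + 1))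
        (S.map Sum.inl P * ∏ j : Fin r, (S.map ![Sum.inl (π j.castSucc), Sum.inr j] S.e *
          S.map (fun _ : Unit => (Sum.inr j : V ⊕ Fin r)) x)) =
        S.map Sum.inl P * ∏ j : Fin r, (S.map ![Sum.inl (π j.castSucc),
          Sum.inr j.castSucc] S.e * S.map (fun _ : Unit =>
            (Sum.inr j.castSucc : V ⊕ Fin (r + 1))) x) := by
      rw [map_mul, map_prod, S.map_map]
      congr 1
      refine Finset.prod_congr rfl fun j _ => ?_
      rw [map_mul, S.map_map, S.map_map]
      congr 2
      congr 1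
      funext i
      fin_cases i <;> rfl
    rw [h1] at h
    rw [Fin.prod_univ_castSucc, ← mul_assoc]
    refine h.trans ?_
    have h2 : S.map (fun _ : Unit => (Sum.inl (π (Fin.last r)) : V ⊕ Fin r)) x =
        S.map Sum.inl (S.map (fun _ : Unit => π (Fin.last r)) x) := by
      rw [S.map_map]
      rfl
    rw [h2, mul_right_comm, ← map_mul, ih V (fun j => π j.castSucc)
      (P * S.map (fun _ : Unit => π (Fin.last r)) x), Fin.prod_univ_castSucc]
    congr 1
    ring

end Pool.Agent.Lib.MP_4ca46c_ag.Nil
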