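import Pool.Agent.Lib.MP_4ca46c_ag.Nil.SpecD

/-!
# The numerically trivial class, two columns
-/

set_option autoImplicit false

namespace Pool.Agent.Lib.MP_4ca46c_ag.Nil

open Function

private theorem gam2_tot_symm {K : Type} [Field K] (S : Sys K) {ι κ : Type} [Finite ι] [Finite κ]
    (f : ι ≃ κ) (u : S.C ι) (v : S.C κ) :
    S.tot κ (S.map f u * v) = S.tot ι (u * S.map f.symm v) := by
  rw [← S.tot_equiv f.symm (S.map f u * v), map_mul, S.map_map, Equiv.symm_comp_self, S.map_id]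

/-- Transport of `Two` along a bijection which respects the columns. -/
private theorem gam2_two {K : Type} [Field K] (S : Sys K) {V V' : Type} [Fintype V] [Fintype V']
    (col : V → Bool) (col' : V' → Bool) (ψ : V ≃ V') (hψ : ∀ x, col' (ψ x) = col x)
    (ρ : S.C V) (h : S.Two col ρ) : S.Two col' (S.map ψ ρ) := by
  classical
  have hψ' : ∀ y, col (ψ.symm y) = col' y := fun y => by
    rw [← hψ, Equiv.apply_symm_apply]
  have key : ∀ (inst : DecidableEq V') (x y : V'), S.map (@Equiv.swap V' inst x y) (S.map ψ ρ) =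
      S.map ψ (S.map (Equiv.swap (ψ.symm x) (ψ.symm y)) ρ) := by
    intro inst x y
    rw [S.map_map, S.map_map]
    have e : (⇑(@Equiv.swap V' inst x y) ∘ ⇑ψ : V → V') =
        ⇑ψ ∘ ⇑(Equiv.swap (ψ.symm x) (ψ.symm y)) := by
      funext v
      rw [comp_apply, comp_apply]
      by_cases h1 : v = ψ.symm x
      · rw [h1, Equiv.apply_symm_apply, Equiv.swap_apply_left, Equiv.swap_apply_left,
          Equiv.apply_symm_apply]
      · by_cases h2 : v = ψ.symm y
        · rw [h2, Equiv.apply_symm_apply, Equiv.swap_apply_right, Equiv.swap_apply_right,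
            Equiv.apply_symm_apply]
        · rw [Equiv.swap_apply_of_ne_of_ne h1 h2, Equiv.swap_apply_of_ne_of_ne]
          · exact fun h3 => h1 (by rw [← h3, Equiv.symm_apply_apply])
          · exact fun h3 => h2 (by rw [← h3, Equiv.symm_apply_apply])
    rw [e]
  constructor
  · intro inst x y hxy hc
    rw [key inst x y, h.alt (ψ.symm x) (ψ.symm y) (fun h1 => hxy (ψ.symm.injective h1))
      (by rw [hψ', hψ', hc]), map_neg]
  · intro inst b hb
    have h1 := h.garnir (ψ.symm b) (by rw [hψ', hb])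
    conv_rhs => rw [← h1]
    rw [map_sum]
    refine Finset.sum_equiv ψ.symm ?_ ?_
    · intro x
      rw [Finset.mem_filter, Finset.mem_filter, hψ']
      simp
    · intro x _
      exact key inst x b

/-- `sw R` as a permutation. -/
private def gam2_sw {r : ℕ} (R : Fin r → Bool) : Equiv.Perm (Fin r ⊕ Fin r) :=
  Involutive.toPerm (sw R) (by
    rintro (i | i)
    · by_cases h : R i = true <;> simp [sw, h]
    · by_cases h : R i = true <;> simp [sw, h])

private theorem gam2_sw_symm {r : ℕ} (R : Fin r → Bool) :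
    (⇑(gam2_sw R).symm : Fin r ⊕ Fin r → Fin r ⊕ Fin r) = sw R := rfl

private theorem gam2_sw_coe {r : ℕ} (R : Fin r → Bool) :
    (⇑(gam2_sw R) : Fin r ⊕ Fin r → Fin r ⊕ Fin r) = sw R := rfl

private theorem gam2_term {K : Type} [Field K] (S : Sys K) {r : ℕ} (R : Fin r → Bool)
    (σ τ : Equiv.Perm (Fin r)) (u g : S.C (Fin r ⊕ Fin r)) :
    S.tot (Fin r ⊕ Fin r) (S.map (sw R) (S.map (Sum.map σ τ) u) * g) =
      S.tot (Fin r ⊕ Fin r) (u * S.map (Sum.map σ.symm τ.symm) (S.map (sw R) g)) := by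
  have h1 := gam2_tot_symm S (gam2_sw R) (S.map (Sum.map σ τ) u) g
  rw [gam2_sw_coe, gam2_sw_symm] at h1
  have h2 := gam2_tot_symm S (Equiv.sumCongr σ τ) u (S.map (sw R) g)
  exact h1.trans h2

theorem tGam2 (h1 : S_Chain2) (h2 : S_EE) (h3 : S_EE2) (h4 : S_Yng) : S_Gam2 := by
  intro K _ _ S w hw hw0 n hn
  obtain ⟨hEE, φ₀, hφ₀⟩ := h2 K S (n + 1)
  have hEF : S.EF (n + 1) ∈ S.T (Fin (n + 1) ⊕ Fin (n + 1)) := by
    rw [← hφ₀]
    exact S.T_equiv φ₀ _ hEE
  constructor
  · unfold Sys.Ga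
    refine Submodule.sum_mem _ fun R _ => Submodule.sum_mem _ fun σ _ =>
      Submodule.sum_mem _ fun τ _ => Submodule.smul_mem _ _ ?_
    exact S.T_equiv (gam2_sw R) _ (S.T_equiv (Equiv.sumCongr σ τ) _ hEF)
  · intro g hg
    have e1 : S.tot (Fin (n + 1) ⊕ Fin (n + 1)) (S.Ga (n + 1) * g) =
        S.tot (Fin (n + 1) ⊕ Fin (n + 1)) (S.EF (n + 1) * S.yng g) := by
      let F : Equiv.Perm (Fin (n + 1)) → Equiv.Perm (Fin (n + 1)) → (Fin (n + 1) → Bool) → K :=
        fun σ τ R => (((Equiv.Perm.sign σ * Equiv.Perm.sign τ : ℤˣ) : ℤ) : K) *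
          S.tot (Fin (n + 1) ⊕ Fin (n + 1))
            (S.EF (n + 1) * S.map (Sum.map σ τ) (S.map (sw R) g))
      have a1 : S.tot (Fin (n + 1) ⊕ Fin (n + 1)) (S.Ga (n + 1) * g) =
          ∑ R, ∑ σ : Equiv.Perm (Fin (n + 1)), ∑ τ : Equiv.Perm (Fin (n + 1)),
            F σ.symm τ.symm R := by
        unfold Sys.Ga
        simp only [Finset.sum_mul, map_sum, smul_mul_assoc, map_smul, smul_eq_mul, gam2_term]
        refine Finset.sum_congr rfl fun R _ => Finset.sum_congr rfl fun σ _ =>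
          Finset.sum_congr rfl fun τ _ => ?_
        change _ = (((Equiv.Perm.sign σ.symm * Equiv.Perm.sign τ.symm : ℤˣ) : ℤ) : K) * _
        rw [Equiv.Perm.sign_symm, Equiv.Perm.sign_symm]
      have a2 : S.tot (Fin (n + 1) ⊕ Fin (n + 1)) (S.EF (n + 1) * S.yng g) =
          ∑ σ : Equiv.Perm (Fin (n + 1)), ∑ τ : Equiv.Perm (Fin (n + 1)), ∑ R, F σ τ R := by
        unfold Sys.yng
        simp only [Finset.mul_sum, map_sum, mul_smul_comm, map_smul, smul_eq_mul, F]
      have a3 : ∀ G : Equiv.Perm (Fin (n + 1)) → K,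
          ∑ σ : Equiv.Perm (Fin (n + 1)), G σ.symm = ∑ σ : Equiv.Perm (Fin (n + 1)), G σ := fun G =>
        Equiv.sum_comp (Equiv.inv (Equiv.Perm (Fin (n + 1)))) G
      rw [a1, a2, Finset.sum_comm]
      rw [a3 (fun σ => ∑ R, ∑ τ : Equiv.Perm (Fin (n + 1)), F σ τ.symm R)]
      refine Finset.sum_congr rfl fun σ _ => ?_
      rw [Finset.sum_comm]
      exact a3 (fun τ => ∑ R, F σ τ R)
    obtain ⟨φ, hφ, hcol⟩ := h3 K S (n + 1)
    obtain ⟨hyT, hy2⟩ := h4 K S (n + 1) g hg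
    rw [e1, ← hφ, gam2_tot_symm, mul_comm]
    refine h1 K S w hw hw0 n hn _ (S.T_equiv φ.symm _ hyT) ?_
    refine gam2_two S Sum.isRight (colJ (n + 1)) φ.symm ?_ _ hy2
    intro x
    rw [← hcol, Equiv.apply_symm_apply]

end Pool.Agent.Lib.MP_4ca46c_ag.Nil
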