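import Pool.Agent.Lib.MP_4ca46c_ag.Nil.CalOf

/-!
# Generic sections in a Weil cohomology theory: definitions

`Y` is a generic section of `Z` (in the category of varieties over a field), `r : Y ⟶ Z`.
-/

set_option autoImplicit false

open CategoryTheory Limits MonoidalCategory CartesianMonoidalCategory TensorProduct

namespace Pool.Agent.Lib.MP_4ca46c_ag.Nil

universe v u

namespace Cal

variable {K : Type} [Field K] (S : Cal K)

/-- The classes which absorb `e`. -/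
def absSub (e : S.C (Fin 2)) (ι : Type) [Finite ι] : Submodule K (S.C ι) where
  carrier := {u | S.Abs e u}
  add_mem' {u v} hu hv := by
    intro i h h0 h1
    have e1 := hu i h h0 h1
    have e2 := hv i h h0 h1
    conv_lhs => rw [e1, e2]
    rw [← map_add, ← mul_add, ← map_add]
  zero_mem' := by
    intro i h h0 h1
    rw [map_zero, mul_zero, map_zero]
  smul_mem' a u hu := by
    intro i h h0 h1
    have e1 := hu i h h0 h1
    conv_lhs => rw [e1]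
    rw [map_smul, mul_smul_comm, map_smul]

theorem mem_absSub {e : S.C (Fin 2)} {ι : Type} [Finite ι] {u : S.C ι} :
    u ∈ S.absSub e ι ↔ S.Abs e u := Iff.rfl

end Cal

namespace PreWeil

variable {K : Type} [Field K] [CharZero K] {𝒱 : Type u} [Category.{v} 𝒱]
  [CartesianMonoidalCategory 𝒱] (W : PreWeil K 𝒱)

/-- `K`-combinations of algebraic classes -/
def AK (X : 𝒱) (c : ℕ) : Submodule K (W.H X) := Submodule.span K (W.Alg X c : Set (W.H X))

/-- `K`-combinations of algebraic correspondences of degree `r` -/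
def CK (X Y : 𝒱) (r : ℤ) : Submodule K (W.H Y →ₗ[K] W.H X) :=
  Submodule.span K (W.Cor X Y r : Set (W.H Y →ₗ[K] W.H X))

/-- the operators on `H(Y)` of the form `r^* s r_*` with `s` algebraic of degree `-1` on `Z` -/
noncomputable def JK {Y Z : 𝒱} (r : Y ⟶ Z) : Submodule K (W.H Y →ₗ[K] W.H Y) where
  carrier := {f | ∃ s ∈ W.CK Z Z (-1), f = (W.pull r).toLinearMap ∘ₗ s ∘ₗ W.push r}
  add_mem' := by
    rintro _ _ ⟨s, hs, rfl⟩ ⟨s', hs', rfl⟩
    exact ⟨s + s', Submodule.add_mem _ hs hs', by rw [LinearMap.add_comp, LinearMap.comp_add]⟩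
  zero_mem' := ⟨0, Submodule.zero_mem _, by rw [LinearMap.zero_comp, LinearMap.comp_zero]⟩
  smul_mem' := by
    rintro a _ ⟨s, hs, rfl⟩
    exact ⟨a • s, Submodule.smul_mem _ _ hs, by rw [LinearMap.smul_comp, LinearMap.comp_smul]⟩

/-- the class of the diagonal of the variables `k`, `l` -/
noncomputable def dg (Y : 𝒱) {ι : Type} [Finite ι] (k l : ι) : W.H (pw Y ι) :=
  W.pull (lift (pj Y k) (pj Y l)) (W.graph (𝟙 Y))

/-- the map `Y^4 ⟶ Y^3 × Z` which is `r` in the variable `i` -/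
noncomputable def th {Y Z : 𝒱} (r : Y ⟶ Z) (i : Fin 4) : pw Y (Fin 4) ⟶ pw Y (Fin 3) ⊗ Z :=
  lift (pm Y i.succAbove) (pj Y i ≫ r)

/-- `Y` is a generic section of `Z`: the spreading arguments for two and for four points. -/
structure Sec4 {Y Z : 𝒱} (r : Y ⟶ Z) : Prop where
  odd : Odd (W.dim Y)
  dim : W.dim Z = W.dim Y + 1
  step0 : ∀ u ∈ W.Alg (Y ⊗ Y) (W.dim Y), ∃ κ : K, W.op u - κ • LinearMap.id ∈ W.JK r
  four : ∀ a ∈ W.Alg (pw Y (Fin 4)) (2 * W.dim Y), ∃ (x : Fin 3 → K)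
    (b : Fin 4 → W.H (pw Y (Fin 3) ⊗ Z)), (∀ i, b i ∈ W.AK _ (2 * W.dim Y)) ∧
    a = x 0 • (W.dg Y 0 1 * W.dg Y 2 3) + x 1 • (W.dg Y 0 2 * W.dg Y 1 3) +
      x 2 • (W.dg Y 0 3 * W.dg Y 1 2) + ∑ i, W.pull (th r i) (b i)

/-- Numerically trivial correspondences of degree `0` of the powers of `Y` are nilpotent. -/
def NilPow (Y : 𝒱) : Prop := ∀ (ι : Type) [Finite ι],
  ∀ n ∈ W.AK (pw Y ι ⊗ pw Y ι) (W.dim (pw Y ι)),
    (∀ g ∈ W.AK (pw Y ι ⊗ pw Y ι) (W.dim (pw Y ι)), W.tr _ (n * g) = 0) →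
    IsNilpotent (W.op n : Module.End K (W.H (pw Y ι)))

/-- The minimal symmetric idempotent `e` of the algebra of correspondences of `Y`. -/
structure IsE {Y Z : 𝒱} (r : Y ⟶ Z) (e : Module.End K (W.H Y)) : Prop where
  mem : e ∈ W.CK Y Y 0
  idem : e * e = e
  symm : ∀ a b, W.tr Y (e a * b) = W.tr Y (a * e b)
  one_sub : 1 - e ∈ W.JK r
  ker : ∀ x ∈ W.JK r, IsNilpotent (e * x * e)

/-- algebraic classes of the middle codimension on `Y^ι` -/
noncomputable def midAlg (Y : 𝒱) (ι : Type) [Finite ι] : Submodule K (W.H (pw Y ι)) :=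
  if 2 ∣ Nat.card ι * W.dim Y then W.AK (pw Y ι) (Nat.card ι * W.dim Y / 2) else ⊥

/-- the spaces `T ι` -/
noncomputable def TT (Y : 𝒱) (e : (W.calOf Y).C (Fin 2)) (ι : Type) [Finite ι] :
    Submodule K ((W.calOf Y).C ι) :=
  (W.midAlg Y ι).comap (W.Ev (pw Y ι)).val.toLinearMap ⊓ (W.calOf Y).absSub e ι

/-- `u` is the class of the operator `φ` -/
def IsCls (Y : 𝒱) (φ : Module.End K (W.H Y)) (u : (W.calOf Y).C (Fin 2)) : Prop :=
  W.op (W.pull (pwTwo Y).inv (u : W.Ev (pw Y (Fin 2))).1) = φ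

/-- The action of a class `u` on `Y × Y` in the variable `i`: `τ ↦ ∫_c u(i, c) τ(.. c ..)`, where
`h` puts the new variable at the place `i`. -/
noncomputable def plc (Y : 𝒱) (u : W.H (pw Y (Fin 2))) {ι : Type} [Finite ι] (i : ι)
    (h : ι → ι ⊕ Unit) : W.H (pw Y ι) →ₗ[K] W.H (pw Y ι) :=
  W.push (pm Y Sum.inl) ∘ₗ
    LinearMap.mulLeft K (W.pull (pm Y ![(Sum.inl i : ι ⊕ Unit), Sum.inr ()]) u) ∘ₗ
      (W.pull (pm Y h)).toLinearMap

/-- The degree operator on `H(X)`. -/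
noncomputable def degOp (X : 𝒱) : Module.End K (W.H X) :=
  ∑ i ∈ Finset.range (2 * W.dim X + 1), (i : K) • W.pi X i

/-- `h` puts the new variable at the place `i`. -/
def IsPl {ι : Type} (i : ι) (h : ι → ι ⊕ Unit) : Prop :=
  h i = Sum.inr () ∧ ∀ j, j ≠ i → h j = Sum.inl j

/-- The axioms of a system for the spaces `TT`. -/
structure IsSys (Y : 𝒱) (e : (W.calOf Y).C (Fin 2)) : Prop where
  e_mem : e ∈ W.TT Y e (Fin 2)
  e_symm : (W.calOf Y).map ![1, 0] e = e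
  T_equiv : ∀ {ι κ : Type} [Finite ι] [Finite κ] (f : ι ≃ κ), ∀ u ∈ W.TT Y e ι,
    (W.calOf Y).map f u ∈ W.TT Y e κ
  T_one : (1 : (W.calOf Y).C Empty) ∈ W.TT Y e Empty
  T_mul : ∀ {ι κ : Type} [Finite ι] [Finite κ], ∀ u ∈ W.TT Y e ι, ∀ v ∈ W.TT Y e κ,
    (W.calOf Y).map Sum.inl u * (W.calOf Y).map Sum.inr v ∈ W.TT Y e (ι ⊕ κ)
  T_comp : ∀ {ι κ J : Type} [Finite ι] [Finite κ] [Finite J], ∀ u ∈ W.TT Y e (ι ⊕ J),
    ∀ v ∈ W.TT Y e (κ ⊕ J), (W.calOf Y).int (ι ⊕ κ) J ((W.calOf Y).map (Sum.map Sum.inl id) u *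
      (W.calOf Y).map (Sum.map Sum.inr id) v) ∈ W.TT Y e (ι ⊕ κ)
  four : ∀ Q ∈ W.TT Y e (Fin 4), ∃ a b c : K, ∃ ν ∈ W.TT Y e (Fin 4),
    (∀ g ∈ W.TT Y e (Fin 4), (W.calOf Y).tot (Fin 4) (ν * g) = 0) ∧
    Q = a • ((W.calOf Y).map ![0, 1] e * (W.calOf Y).map ![2, 3] e) +
      b • ((W.calOf Y).map ![0, 2] e * (W.calOf Y).map ![1, 3] e) +
      c • ((W.calOf Y).map ![0, 3] e * (W.calOf Y).map ![1, 2] e) + ν
  nil : ∀ {ι : Type} [Finite ι], ∀ n ∈ W.TT Y e (ι ⊕ ι),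
    (∀ g ∈ W.TT Y e (ι ⊕ ι), (W.calOf Y).tot (ι ⊕ ι) (n * g) = 0) →
    ∀ (x : (W.calOf Y).C ι) (c : K), (∀ y : (W.calOf Y).C ι, (W.calOf Y).tot (ι ⊕ ι)
      (n * (W.calOf Y).map Sum.inr x * (W.calOf Y).map Sum.inl y) =
        c * (W.calOf Y).tot ι (x * y)) → c = 0 ∨ x = 0

/-- The system of the `e`-parts of the cohomology of the powers of `Y`. -/
noncomputable def sysOf (Y : 𝒱) (e : (W.calOf Y).C (Fin 2)) (h : W.IsSys Y e) : Sys K where
  toCal := W.calOf Y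
  e := e
  T ι _ := W.TT Y e ι
  abs _ hu := hu.2
  e_mem := h.e_mem
  e_symm := h.e_symm
  T_equiv := h.T_equiv
  T_one := h.T_one
  T_mul := h.T_mul
  T_comp := h.T_comp
  four := h.four
  nil := h.nil

end PreWeil

end Pool.Agent.Lib.MP_4ca46c_ag.Nil
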