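import Pool.Agent.Lib.MP_4ca46c_ag.Nil.SpecI

/-!
# Algebraic classes of the middle codimension
-/

set_option autoImplicit false

open CategoryTheory Limits MonoidalCategory CartesianMonoidalCategory TensorProduct

namespace Pool.Agent.Lib.MP_4ca46c_ag.Nil

universe v u

namespace PreWeil

variable {K : Type} [Field K] [CharZero K] {𝒱 : Type u} [Category.{v} 𝒱]
  [CartesianMonoidalCategory 𝒱] (W : PreWeil K 𝒱)

theorem mid_pull {X X' : 𝒱} (f : X' ⟶ X) {c : ℕ} {x : W.H X} (hx : x ∈ W.AK X c) :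
    W.pull f x ∈ W.AK X' c := by
  unfold AK at hx ⊢
  induction hx using Submodule.span_induction with
  | mem x h => exact Submodule.subset_span (W.alg_pull f h)
  | zero => rw [map_zero]; exact Submodule.zero_mem _
  | add x y _ _ hx hy => rw [map_add]; exact Submodule.add_mem _ hx hy
  | smul a x _ hx => rw [map_smul]; exact Submodule.smul_mem _ _ hx

theorem mid_mul {X : 𝒱} {c d : ℕ} {x y : W.H X} (hx : x ∈ W.AK X c) (hy : y ∈ W.AK X d) :
    x * y ∈ W.AK X (c + d) := by
  unfold AK at hx hy ⊢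
  induction hx using Submodule.span_induction with
  | mem x h =>
    induction hy using Submodule.span_induction with
    | mem y h' => exact Submodule.subset_span (W.alg_mul h h')
    | zero => rw [mul_zero]; exact Submodule.zero_mem _
    | add y y' _ _ hy hy' => rw [mul_add]; exact Submodule.add_mem _ hy hy'
    | smul a y _ hy => rw [mul_smul_comm]; exact Submodule.smul_mem _ _ hy
  | zero => rw [zero_mul]; exact Submodule.zero_mem _
  | add x x' _ _ hx hx' => rw [add_mul]; exact Submodule.add_mem _ hx hx'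
  | smul a x _ hx => rw [smul_mul_assoc]; exact Submodule.smul_mem _ _ hx

theorem mid_push {X X' : 𝒱} (f : X ⟶ X') {c e : ℕ} {x : W.H X} (hx : x ∈ W.AK X c)
    (h : c + W.dim X' = e + W.dim X) : W.push f x ∈ W.AK X' e := by
  unfold AK at hx ⊢
  induction hx using Submodule.span_induction with
  | mem x h' => exact Submodule.subset_span (W.push_alg f h' h)
  | zero => rw [map_zero]; exact Submodule.zero_mem _
  | add x y _ _ hx hy => rw [map_add]; exact Submodule.add_mem _ hx hy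
  | smul a x _ hx => rw [map_smul]; exact Submodule.smul_mem _ _ hx

theorem mid_gr {X : 𝒱} {c : ℕ} {x : W.H X} (hx : x ∈ W.AK X c) : x ∈ W.gr X (2 * c) := by
  unfold AK at hx
  have h : Submodule.span K (W.Alg X c : Set (W.H X)) ≤ W.gr X (2 * c) :=
    Submodule.span_le.2 fun y hy => W.alg_gr hy
  exact h hx

theorem mid_mem {Y : 𝒱} {ι : Type} [Finite ι] {x : W.H (pw Y ι)} :
    x ∈ W.midAlg Y ι ↔ x = 0 ∨ ∃ c : ℕ, 2 * c = Nat.card ι * W.dim Y ∧ x ∈ W.AK (pw Y ι) c := by
  unfold midAlg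
  split_ifs with h
  · constructor
    · intro hx
      exact Or.inr ⟨_, Nat.mul_div_cancel' h, hx⟩
    · rintro (rfl | ⟨c, hc, hx⟩)
      · exact Submodule.zero_mem _
      · have h1 : Nat.card ι * W.dim Y / 2 = c := by omega
        rwa [h1]
  · rw [Submodule.mem_bot]
    constructor
    · exact Or.inl
    · rintro (rfl | ⟨c, hc, hx⟩)
      · rfl
      · exact absurd ⟨c, hc.symm⟩ h

end PreWeil

open PreWeil

theorem tMid : S_Mid := by
  intro K _ _ 𝒱 _ _ W Y
  refine ⟨?_, ?_, ?_, ?_, ?_, ?_, ?_⟩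
  · intro ι κ _ _ f u hu
    rcases W.mid_mem.1 hu with rfl | ⟨c, hc, hu⟩
    · rw [map_zero]
      exact Submodule.zero_mem _
    · refine W.mid_mem.2 (Or.inr ⟨c, ?_, W.mid_pull _ hu⟩)
      rw [hc, Nat.card_congr f]
  · refine W.mid_mem.2 (Or.inr ⟨0, ?_, Submodule.subset_span (W.alg_one _)⟩)
    rw [Nat.card_of_isEmpty, zero_mul, mul_zero]
  · intro ι κ _ _ u hu v hv
    rcases W.mid_mem.1 hu with rfl | ⟨c, hc, hu⟩
    · rw [map_zero, zero_mul]
      exact Submodule.zero_mem _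
    rcases W.mid_mem.1 hv with rfl | ⟨d, hd, hv⟩
    · rw [map_zero, mul_zero]
      exact Submodule.zero_mem _
    refine W.mid_mem.2 (Or.inr ⟨c + d, ?_, W.mid_mul (W.mid_pull _ hu) (W.mid_pull _ hv)⟩)
    rw [Nat.card_sum, mul_add, hc, hd, add_mul]
  · intro ι κ J _ _ _ u hu v hv
    rcases W.mid_mem.1 hu with rfl | ⟨c, hc, hu⟩
    · rw [map_zero, zero_mul, map_zero]
      exact Submodule.zero_mem _
    rcases W.mid_mem.1 hv with rfl | ⟨d, hd, hv⟩
    · rw [map_zero, mul_zero, map_zero]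
      exact Submodule.zero_mem _
    have h1 : Nat.card (ι ⊕ κ) * W.dim Y = Nat.card ι * W.dim Y + Nat.card κ * W.dim Y := by
      rw [Nat.card_sum, add_mul]
    have h2 : Nat.card ((ι ⊕ κ) ⊕ J) * W.dim Y = Nat.card ι * W.dim Y + Nat.card κ * W.dim Y +
        Nat.card J * W.dim Y := by
      rw [Nat.card_sum, add_mul, h1]
    rw [Nat.card_sum, add_mul] at hc hd
    refine W.mid_mem.2 (Or.inr ⟨c + d - Nat.card J * W.dim Y, ?_,
      W.mid_push _ (W.mid_mul (W.mid_pull _ hu) (W.mid_pull _ hv)) ?_⟩)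
    · rw [h1]
      omega
    · rw [W.dim_pw, W.dim_pw, h1, h2]
      omega
  · intro ι _ i h u hu τ hτ
    show W.push (pm Y Sum.inl) (W.pull (pm Y ![(Sum.inl i : ι ⊕ Unit), Sum.inr ()]) u *
      W.pull (pm Y h) τ) ∈ W.midAlg Y ι
    rcases W.mid_mem.1 hu with rfl | ⟨c, hc, hu⟩
    · rw [map_zero, zero_mul, map_zero]
      exact Submodule.zero_mem _
    rcases W.mid_mem.1 hτ with rfl | ⟨d, hd, hτ⟩
    · rw [map_zero, mul_zero, map_zero]
      exact Submodule.zero_mem _
    rw [Nat.card_fin] at hc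
    refine W.mid_mem.2 (Or.inr ⟨d, hd,
      W.mid_push _ (W.mid_mul (W.mid_pull _ hu) (W.mid_pull _ hτ)) ?_⟩)
    have h2 : Nat.card (ι ⊕ Unit) * W.dim Y = Nat.card ι * W.dim Y + W.dim Y := by
      rw [Nat.card_sum, add_mul, Nat.card_unique (α := Unit), one_mul]
    rw [W.dim_pw, W.dim_pw, h2]
    omega
  · intro ι _ u hu
    rcases W.mid_mem.1 hu with rfl | ⟨c, hc, hu⟩
    · exact Submodule.zero_mem _
    · rw [← hc]
      exact W.mid_gr hu
  · intro ι _ u hu
    rcases W.mid_mem.1 hu with rfl | ⟨c, hc, hu⟩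
    · exact Subalgebra.zero_mem _
    · exact W.Ev_of_gr (W.mid_gr hu) ⟨c, by ring⟩

end Pool.Agent.Lib.MP_4ca46c_ag.Nil
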