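import Pool.Agent.Lib.MP_4ca46c_ag.Nil.SpecD

/-!
# Spectators
-/

set_option autoImplicit false

namespace Pool.Agent.Lib.MP_4ca46c_ag.Nil

section nN

variable {K : Type} [Field K] (S : Sys K)

/-- the exchange of the middle parts -/
def nN_phi (r : ℕ) : (Fin r ⊕ Fin r) ⊕ (Fin r ⊕ Fin r) ≃ (Fin r ⊕ Fin r) ⊕ (Fin r ⊕ Fin r) :=
  Equiv.sumSumSumComm (Fin r) (Fin r) (Fin r) (Fin r)

theorem nN_inl (r : ℕ) : (nN_phi r : (Fin r ⊕ Fin r) ⊕ (Fin r ⊕ Fin r) → _) ∘ Sum.inl =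
    Sum.map Sum.inl Sum.inl := by
  funext i
  rcases i with i | i <;> rfl

theorem nN_inr (r : ℕ) : (nN_phi r : (Fin r ⊕ Fin r) ⊕ (Fin r ⊕ Fin r) → _) ∘ Sum.inr =
    Sum.map Sum.inr Sum.inr := by
  funext i
  rcases i with i | i <;> rfl

theorem nN_eq {r : ℕ} (u : S.C (Fin r ⊕ Fin r)) :
    S.nn u = S.map (nN_phi r) (S.map Sum.inl u * S.map Sum.inr (S.EF r)) := by
  rw [map_mul, S.map_map, S.map_map, nN_inl, nN_inr]
  rfl

/-- partial integral against a class of the second factor -/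
theorem nN_int {I : Type} [Finite I] (w : S.C I) (hw : w ∈ S.T I) (g : S.C (I ⊕ I))
    (hg : g ∈ S.T (I ⊕ I)) : S.int I I (g * S.map Sum.inr w) ∈ S.T I := by
  have hv : S.map (Sum.inr : I → Empty ⊕ I) w ∈ S.T (Empty ⊕ I) :=
    S.T_equiv (Equiv.emptySum Empty I).symm w hw
  have h := S.T_comp _ hg _ hv
  have h2 := S.T_equiv (Equiv.sumEmpty I Empty) _ h
  have h3 : S.map (Equiv.sumEmpty I Empty) (S.int (I ⊕ Empty) I
      (S.map (Sum.map Sum.inl id) g *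
        S.map (Sum.map Sum.inr id) (S.map (Sum.inr : I → Empty ⊕ I) w))) =
      S.int I I (g * S.map Sum.inr w) := by
    rw [S.map_int]
    congr 1
    simp only [map_mul, S.map_map]
    congr 1
    have h4 : Sum.map (Equiv.sumEmpty I Empty : I ⊕ Empty → I) (id : I → I) ∘
        (Sum.map Sum.inl id : I ⊕ I → (I ⊕ Empty) ⊕ I) = id := by
      funext i
      rcases i with i | i <;> rfl
    rw [h4, S.map_id]
  rwa [h3] at h2

end nN

theorem tNN (h1 : S_EE) : S_NN := by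
  intro K _ S r u hu hnum
  have hEF : S.EF r ∈ S.T (Fin r ⊕ Fin r) := by
    obtain ⟨hT, φ, hφ⟩ := h1 K S r
    rw [← hφ]
    exact S.T_equiv φ _ hT
  refine ⟨?_, ?_⟩
  · rw [nN_eq]
    exact S.T_equiv (nN_phi r) _ (S.T_mul u hu _ hEF)
  · intro g hg
    have hg' : S.map (nN_phi r).symm g ∈ S.T ((Fin r ⊕ Fin r) ⊕ (Fin r ⊕ Fin r)) :=
      S.T_equiv (nN_phi r).symm g hg
    have e1 : S.nn u * g = S.map (nN_phi r) ((S.map Sum.inl u * S.map Sum.inr (S.EF r)) *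
        S.map (nN_phi r).symm g) := by
      rw [map_mul (S.map (nN_phi r)), ← nN_eq, S.map_map]
      have h2 : ((nN_phi r : (Fin r ⊕ Fin r) ⊕ (Fin r ⊕ Fin r) → _) ∘ (nN_phi r).symm) = id := by
        funext i
        exact (nN_phi r).apply_symm_apply i
      rw [h2, S.map_id]
    have e2 : S.map Sum.inl u * S.map Sum.inr (S.EF r) * S.map (nN_phi r).symm g =
        S.map Sum.inl u * (S.map (nN_phi r).symm g * S.map Sum.inr (S.EF r)) := by ring
    rw [e1, S.tot_equiv, e2, ← S.sub_id]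
    exact hnum _ (nN_int S _ hEF _ hg')

end Pool.Agent.Lib.MP_4ca46c_ag.Nil
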