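import Pool.Agent.Lib.MP_4ca46c_ag.Nil.P.Weil
import Pool.Agent.Lib.MP_4ca46c_ag.Std.GenClass

/-!
# The cohomology of varieties over a field which is not algebraically closed

`H(X)` is the cohomology of the base change of `X` to the algebraically closed field `F'`, and
algebraic classes are the classes of the base changes of cycles over `F`.
-/

set_option autoImplicit false

open CategoryTheory Limits AlgebraicGeometry MonoidalCategory CartesianMonoidalCategory
  TensorProduct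
open Pool.Agent.Lib.MP_4ca46c_ag.Sign

namespace Pool.Agent.Lib.MP_4ca46c_ag.Nil

section BaseChange

variable {k₀ : Type} [Field k₀] {F : Type} [Field F] [Algebra k₀ F] (F' : Type) [Field F']
  [Algebra k₀ F'] [Algebra F F'] [IsScalarTower k₀ F F']

/-- `Spec F' ⟶ Spec F` -/
noncomputable abbrev bcS (k₀ F F' : Type) [Field k₀] [Field F] [Algebra k₀ F] [Field F']
    [Algebra k₀ F'] [Algebra F F'] [IsScalarTower k₀ F F'] : pt k₀ F' ⟶ pt k₀ F :=
  ptMap k₀ (IsScalarTower.toAlgHom k₀ F F')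

/-- the base change of `X` to `F'` -/
noncomputable def bcX (X : Var k₀ F) : Sch k₀ := pullback X.str (bcS k₀ F F')

/-- the projection to `X` -/
noncomputable def bcPr (X : Var k₀ F) : bcX F' X ⟶ X.X := pullback.fst X.str (bcS k₀ F F')

/-- the structure morphism -/
noncomputable def bcStr (X : Var k₀ F) : bcX F' X ⟶ pt k₀ F' := pullback.snd X.str (bcS k₀ F F')

theorem bc_sq (X : Var k₀ F) : IsPullback (bcPr F' X) (bcStr F' X) X.str (bcS k₀ F F') :=
  IsPullback.of_hasPullback _ _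

theorem bc_var (X : Var k₀ F) : IsVar (bcStr F' X) X.dim :=
  Std.genclass_var (bc_sq F' X) X.isVar

theorem bc_flat (X : Var k₀ F) : Flat (bcPr F' X).left :=
  MorphismProperty.of_isPullback (P := @Flat) ((bc_sq F' X).map (Over.forget _)).flip
    Std.genclass_flat_field

/-- the base change of a morphism -/
noncomputable def bcM {X Y : Var k₀ F} (f : X ⟶ Y) : bcX F' X ⟶ bcX F' Y :=
  pullback.lift (bcPr F' X ≫ f.hom) (bcStr F' X) (by
    rw [Category.assoc, f.comm]
    exact (bc_sq F' X).w)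

variable {X Y Z : Var k₀ F}

theorem bcM_pr (f : X ⟶ Y) : bcM F' f ≫ bcPr F' Y = bcPr F' X ≫ f.hom := pullback.lift_fst _ _ _

theorem bcM_str (f : X ⟶ Y) : bcM F' f ≫ bcStr F' Y = bcStr F' X := pullback.lift_snd _ _ _

theorem bc_ext {A : Sch k₀} {f g : A ⟶ bcX F' X} (h : f ≫ bcPr F' X = g ≫ bcPr F' X)
    (h' : f ≫ bcStr F' X = g ≫ bcStr F' X) : f = g := pullback.hom_ext h h'

theorem bcM_id : bcM F' (𝟙 X) = 𝟙 _ := by
  apply bc_ext
  · rw [bcM_pr, Var.id_hom, Category.comp_id, Category.id_comp]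
  · rw [bcM_str, Category.id_comp]

theorem bcM_comp (f : X ⟶ Y) (g : Y ⟶ Z) : bcM F' (f ≫ g) = bcM F' f ≫ bcM F' g := by
  apply bc_ext
  · rw [Category.assoc, bcM_pr, bcM_pr, ← Category.assoc, bcM_pr, Var.comp_hom, Category.assoc]
  · rw [Category.assoc, bcM_str, bcM_str, bcM_str]

theorem bcM_iso (f : X ≅ Y) : IsIso (bcM F' f.hom) :=
  ⟨bcM F' f.inv, by rw [← bcM_comp, f.hom_inv_id, bcM_id], by
    rw [← bcM_comp, f.inv_hom_id, bcM_id]⟩

theorem bcM_sq (f : X ⟶ Y) : IsPullback (bcPr F' X) (bcM F' f) f.hom (bcPr F' Y) := by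
  refine IsPullback.of_bot ?_ (bcM_pr F' f).symm (bc_sq F' Y)
  rw [bcM_str, f.comm]
  exact bc_sq F' X

theorem bcM_prod (X Y : Var k₀ F) : IsPullback (bcM F' (fst X Y)) (bcM F' (snd X Y))
    (bcStr F' X) (bcStr F' Y) := by
  have h1 : IsPullback (bcPr F' (X ⊗ Y)) (bcM F' (fst X Y)) (fst X Y).hom (bcPr F' X) :=
    bcM_sq F' (fst X Y)
  have h2 : IsPullback (snd X Y).hom (fst X Y).hom Y.str X.str :=
    (IsPullback.of_hasPullback X.str Y.str).flip
  have h3 := h1.paste_horiz h2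
  rw [← bcM_pr, (bc_sq F' X).w] at h3
  refine (IsPullback.of_right h3 ?_ (bc_sq F' Y)).flip
  rw [bcM_str, bcM_str]

end BaseChange

section Pre

variable {k₀ : Type} [Field k₀] {K : Type} [Field K] [CharZero K] (T : WeilTheory k₀ K)
  {F : Type} [Field F] [Algebra k₀ F] (F' : Type) [Field F']
  [Algebra k₀ F'] [Algebra F F'] [IsScalarTower k₀ F F'] [IsAlgClosed F']

include T F' in
theorem bc_dim_iso {X Y : Var k₀ F} (f : X ≅ Y) : X.dim = Y.dim := by
  by_contra hne
  have hX := bc_var F' X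
  have hY := bc_var F' Y
  have hi := bcM_iso F' f
  have h0 : ∀ u, T.tr (bcX F' Y) u = 0 := by
    intro u
    have hint := T.internal _ hY.isWeil
    let _ := hint.chooseDecomposition
    refine DirectSum.Decomposition.inductionOn (T.deg (bcX F' Y))
      (motive := fun u => T.tr (bcX F' Y) u = 0) (map_zero _) (fun {i} m => ?_)
      (fun a b ha hb => by rw [map_add, ha, hb, add_zero]) u
    by_cases h : i = 2 * Y.dim
    · rw [← T.tr_iso (bcM F' f.hom) hi hX.isWeil hY.isWeil]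
      exact T.tr_eq_zero _ _ hX i (by omega) _
        (T.pullH_mem _ hX.isWeil hY.isWeil i _ m.2)
    · exact T.tr_eq_zero _ _ hY i h _ m.2
  have h1 : (1 : T.H (bcX F' Y)) = 0 := T.poincare _ hY.isWeil _ fun v => h0 _
  obtain ⟨q, -⟩ := hY.exists_point
  have h2 := congrArg (T.pullH q) h1
  rw [map_one, map_zero] at h2
  have h3 := T.tr_pt (k := F')
  rw [h2, map_zero] at h3
  exact zero_ne_one h3

/-- The cohomology theory on the category of varieties over `F`. -/
noncomputable def pre : PreWeil K (Var k₀ F) where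
  dim X := X.dim
  dim_tensor _ _ := rfl
  dim_iso f := bc_dim_iso T F' f
  H X := T.H (bcX F' X)
  ring X := T.ringH (bcX F' X)
  algebra X := T.algebraH (bcX F' X)
  finite X := T.finite _ (bc_var F' X).isWeil
  gr X := T.deg (bcX F' X)
  graded X :=
    letI : SetLike.GradedMonoid (T.deg (bcX F' X)) :=
      { one_mem := T.oneH_mem _ (bc_var F' X).isWeil
        mul_mem := fun {i j u v} hu hv => T.mulH_mem _ (bc_var F' X).isWeil i j u hu v hv }
    letI : DirectSum.Decomposition (T.deg (bcX F' X)) :=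
      (T.internal _ (bc_var F' X).isWeil).chooseDecomposition
    { }
  comm {X i j x y} hx hy := T.comm _ (bc_var F' X).isWeil i j x hx y hy
  pull f := T.pullH (bcM F' f)
  pull_id {X} x := by rw [bcM_id]; exact T.pullH_id (bc_var F' X).isWeil x
  pull_comp {X Y Z} f g z := by
    rw [bcM_comp]
    exact T.pullH_comp _ _ (bc_var F' X).isWeil (bc_var F' Y).isWeil (bc_var F' Z).isWeil z
  pull_gr {X Y} f {i y} hy := T.pullH_mem _ (bc_var F' X).isWeil (bc_var F' Y).isWeil i y hy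
  tr X := T.tr (bcX F' X)
  tr_gr {X i x} hx hi := T.tr_eq_zero _ X.dim (bc_var F' X) i hi x hx
  duality {X} := T.poincare _ (bc_var F' X).isWeil
  connected {X x} hx := by
    obtain ⟨c, hc⟩ := T.deg_zero _ (bc_var F' X).isWeil x hx
    exact ⟨c, by rw [hc, Algebra.smul_def, mul_one]⟩
  kunneth X Y := T.kunneth (bcStr F' X) (bcStr F' Y) _ _ X.dim Y.dim (bc_var F' X) (bc_var F' Y)
    (bcM_prod F' X Y)
  tr_tensor {X Y} x y := T.tr_kunneth (bcStr F' X) (bcStr F' Y) _ _ X.dim Y.dim (bc_var F' X)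
    (bc_var F' Y) (bcM_prod F' X Y) x y
  tr_unit := by
    have h : IsIso (bcStr F' (𝟙_ (Var k₀ F))) := by
      have h1 := (bc_sq F' (𝟙_ (Var k₀ F))).flip
      have h2 : IsIso (𝟙_ (Var k₀ F)).str := inferInstanceAs (IsIso (𝟙 (pt k₀ F)))
      exact h1.isIso_fst_of_isIso
    have h1 := T.tr_iso (bcStr F' (𝟙_ (Var k₀ F))) h (bc_var F' _).isWeil
      (Var.isVar_pt (k₀ := k₀) (k := F')).isWeil 1
    rw [map_one, T.tr_pt] at h1
    exact h1
  tr_iso {X Y} f y := T.tr_iso _ (bcM_iso F' f) (bc_var F' X).isWeil (bc_var F' Y).isWeil y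
  Alg X p := (T.codim X.X p).toAddSubgroup.map
    ((T.cl (bcX F' X)).toAddMonoidHom.comp (T.pull (bcPr F' X)).toRingHom.toAddMonoidHom)
  alg_gr {X c x} := by
    rintro ⟨a, ha, rfl⟩
    exact T.cl_mem _ (bc_var F' X).isWeil c _
      (T.pull_mem _ (bc_var F' X).sm X.isVar.sm c a ha)
  alg_rat {X c x} q := by
    rintro ⟨a, ha, rfl⟩
    refine ⟨q • a, (T.codim X.X c).smul_mem q ha, ?_⟩
    change T.cl _ (T.pull (bcPr F' X) (q • a)) = (q : K) • T.cl _ (T.pull (bcPr F' X) a)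
    rw [map_smul, cl_smul T]
  alg_one X := ⟨1, T.one_mem _, by
    change T.cl _ (T.pull (bcPr F' X) 1) = 1
    rw [map_one, map_one]⟩
  alg_mul {X c d x y} := by
    rintro ⟨a, ha, rfl⟩ ⟨b, hb, rfl⟩
    refine ⟨a * b, T.mul_mem _ _ _ _ ha _ hb, ?_⟩
    change T.cl _ (T.pull (bcPr F' X) (a * b)) =
      T.cl _ (T.pull (bcPr F' X) a) * T.cl _ (T.pull (bcPr F' X) b)
    rw [map_mul, map_mul]
  alg_pull {X Y} f {c y} := by
    rintro ⟨a, ha, rfl⟩
    refine ⟨T.pull f.hom a, T.pull_mem f.hom X.isVar.sm Y.isVar.sm c a ha, ?_⟩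
    change T.cl _ (T.pull (bcPr F' X) (T.pull f.hom a)) =
      T.pullH (bcM F' f) (T.cl _ (T.pull (bcPr F' Y) a))
    rw [← T.cl_pull _ (bc_var F' X).isWeil (bc_var F' Y).isWeil,
      ← T.pull_comp _ _ (bc_var F' X).sm X.isVar.sm Y.isVar.sm,
      ← T.pull_comp _ _ (bc_var F' X).sm (bc_var F' Y).sm Y.isVar.sm, bcM_pr]
  alg_push {X Y} f {c e x z} := by
    rintro ⟨a, ha, rfl⟩ h hz
    refine ⟨T.push f.hom a, T.push_mem X.str Y.str f.hom f.comm X.isVar.isSm Y.isVar.isSm
      (Var.isProper f) X.dim Y.dim X.isVar.smooth Y.isVar.smooth c e h a ha, ?_⟩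
    have h2 := T.push_baseChange f.hom (bcM F' f) (bcPr F' X) (bcPr F' Y) (bcM_sq F' f)
      X.isVar.sm Y.isVar.sm (bc_var F' X).sm (bc_var F' Y).sm (Var.isProper f)
      (bc_flat F' Y) a
    change T.cl _ (T.pull (bcPr F' Y) (T.push f.hom a)) = z
    rw [h2]
    have h1 := T.cl_push (bcStr F' X) (bcStr F' Y) (bcM F' f) (bcM_str F' f) X.dim Y.dim
      (bc_var F' X) (bc_var F' Y) (T.pull (bcPr F' X) a)
    rw [← sub_eq_zero]
    refine T.poincare _ (bc_var F' Y).isWeil _ fun v => ?_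
    rw [sub_mul, map_sub, h1, sub_eq_zero]
    exact (hz v).symm
  alg_tr {X x} := by
    rintro ⟨a, ha, rfl⟩
    exact T.tr_cl _ (bc_var F' X).isWeil _

end Pre

end Pool.Agent.Lib.MP_4ca46c_ag.Nil
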