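import Pool.Agent.Lib.MP_4ca46c_ag.Nil.SpecF

/-!
# Existence of the class `Q`
-/

set_option autoImplicit false

namespace Pool.Agent.Lib.MP_4ca46c_ag.Nil

theorem tQex : S_Qex := by
  intro K _ S J _ τ hτ
  let s : Fin 2 ⊕ Fin 2 ≃ Fin 4 := finSumFinEquiv
  let R : S.C ((Fin 2 ⊕ Fin 2) ⊕ J) := S.map (Sum.map Sum.inl id) τ * S.map (Sum.map Sum.inr id) τ
  refine ⟨S.map s (S.int (Fin 2 ⊕ Fin 2) J R), S.T_equiv s _ (S.T_comp τ hτ τ hτ), ?_⟩
  intro V _ f P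
  have e1 : Sum.map (f ∘ s) (id : J → J) ∘ Sum.map Sum.inl id =
      Sum.elim (Sum.inl ∘ ![f 0, f 1]) Sum.inr := by
    funext i
    rcases i with i | i
    · fin_cases i <;> rfl
    · rfl
  have e2 : Sum.map (f ∘ s) (id : J → J) ∘ Sum.map Sum.inr id =
      Sum.elim (Sum.inl ∘ ![f 2, f 3]) Sum.inr := by
    funext i
    rcases i with i | i
    · fin_cases i <;> rfl
    · rfl
  rw [S.map_map, S.sub, map_mul (S.map (Sum.map (f ∘ s) id)), S.map_map, S.map_map, e1, e2]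

end Pool.Agent.Lib.MP_4ca46c_ag.Nil
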