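import Pool.Agent.Lib.MP_4ca46c_ag.Nil.SpecF

/-!
# Specification D: the formal part for two columns

As in Specification F everything takes place in a system `S : Sys K`. Now we consider classes with
the symmetry of a Young diagram with two columns. This gives the case `δ > 0`.
-/

set_option autoImplicit false

namespace Pool.Agent.Lib.MP_4ca46c_ag.Nil

open Function

namespace Sys

variable {K : Type} [Field K] (S : Sys K)

/-- Classes with the symmetry of the Young diagram with two columns: `col` is the column of a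
variable, `ρ` is antisymmetric in the variables of a column and satisfies the Garnir relations. -/
structure Two {V : Type} [Fintype V] (col : V → Bool) (ρ : S.C V) : Prop where
  alt : ∀ [DecidableEq V] (x y : V), x ≠ y → col x = col y → S.map (Equiv.swap x y) ρ = -ρ
  garnir : ∀ [DecidableEq V] (b : V), col b = true →
    ∑ x with col x = false, S.map (Equiv.swap x b) ρ = ρ

end Sys

/-- the columns of `Fin 2 ⊕ J` -/
def colS {J : Type} (c : J → Bool) : Fin 2 ⊕ J → Bool := Sum.elim ![false, true] c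

/-- the columns of `JJ r` -/
def colJ : ∀ r : ℕ, JJ r → Bool
  | 0 => (Empty.elim : Empty → Bool)
  | (r + 1) => (colS (colJ r) : Fin 2 ⊕ JJ r → Bool)

/-- the number of elements of a column -/
def ncol {J : Type} [Fintype J] (c : J → Bool) (b : Bool) : ℕ :=
  (Finset.univ.filter fun j => c j = b).card

/-- Exchange `inl i` and `inr i` for all `i` with `R i = true`. -/
def sw {r : ℕ} (R : Fin r → Bool) : Fin r ⊕ Fin r → Fin r ⊕ Fin r :=
  Sum.elim (fun i => if R i then Sum.inr i else Sum.inl i)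
    (fun i => if R i then Sum.inl i else Sum.inr i)

namespace Sys

variable {K : Type} [Field K] (S : Sys K)

/-- the Young symmetrizer (first rows, then columns) -/
noncomputable def yng {r : ℕ} (g : S.C (Fin r ⊕ Fin r)) : S.C (Fin r ⊕ Fin r) :=
  ∑ σ : Equiv.Perm (Fin r), ∑ τ : Equiv.Perm (Fin r),
    (((Equiv.Perm.sign σ * Equiv.Perm.sign τ : ℤˣ) : ℤ) : K) •
      S.map (Sum.map σ τ) (∑ R : Fin r → Bool, S.map (sw R) g)

/-- the class `a b EF` -/
noncomputable def Ga (r : ℕ) : S.C (Fin r ⊕ Fin r) :=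
  ∑ R : Fin r → Bool, ∑ σ : Equiv.Perm (Fin r), ∑ τ : Equiv.Perm (Fin r),
    (((Equiv.Perm.sign σ * Equiv.Perm.sign τ : ℤˣ) : ℤ) : K) •
      S.map (sw R) (S.map (Sum.map σ τ) (S.EF r))

/-- the product of `r` copies of a class with two variables -/
noncomputable def pp (p : S.C (Fin 2)) (r : ℕ) : S.C (Fin r ⊕ Fin r) :=
  ∏ i : Fin r, S.map ![Sum.inl i, Sum.inr i] p

/-- the class `u` with `r` spectators -/
noncomputable def nn {r : ℕ} (u : S.C (Fin r ⊕ Fin r)) :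
    S.C ((Fin r ⊕ Fin r) ⊕ (Fin r ⊕ Fin r)) :=
  S.map (Sum.map Sum.inl Sum.inl) u * S.map (Sum.map Sum.inr Sum.inr) (S.EF r)

/-- `p = y ⊗ y'` with odd classes `y`, `y'`: exchanging the first variables of two copies of `p`
changes the sign. -/
def OddSq (p : S.C (Fin 2)) : Prop :=
  S.map ![(0 : Fin 4), 1] p * S.map ![2, 3] p = -(S.map ![(0 : Fin 4), 3] p * S.map ![2, 1] p)

end Sys

section Statements

/-- **The third scalar product.**

PROOF. (1) `M3 = map σ M1` for the permutation `σ = ![0, 3, 2, 1]` of `Fin 4` (`e_symm`), so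
`∫ M3 M3 = ∫ M1 M1 = δ²` (`tot_equiv`; the value of `∫ M1 M1` is in `S_Dia`, theorem `tDia` of
`Nil/Dia.lean`, take `S_Dia` as a hypothesis). (2) `∫ M3 Q = ∫_(Fin 4 ⊕ J) e(0,3) e(1,2)
τ(0,1,J) τ(2,3,J)` (`IsQ` with `V = Fin 4`, `f = id`). Eliminate the variable `3` (in `e(0,3)` and
`τ(2,3,J)`): `∫_(Fin 3 ⊕ J) e(1,2) τ(0,1,J) τ(2,0,J)`, then `2`:
`∫_(Fin 2 ⊕ J) τ(0,1,J) τ(1,0,J)`. Compare `Nil/Val.lean`. -/
def S_M3 : Prop := ∀ (K : Type) [Field K] (S : Sys K),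
  S.tot (Fin 4) (S.M3 * S.M3) = S.delta ^ 2 ∧ ∀ (J : Type) [Finite J] [DecidableEq J],
  ∀ τ ∈ S.T (Fin 2 ⊕ J), ∀ Q : S.C (Fin 4), S.IsQ τ Q → S.tot (Fin 4) (S.M3 * Q) =
    S.tot (Fin 2 ⊕ J) (τ * S.map (Equiv.swap (Sum.inl 0) (Sum.inl 1)) τ)

/-- **The form of `Q` for antisymmetric `τ`.**

PROOF. As in `S_Q4` (`Nil/Q4.lean`). Let `p = map ![1, 0, 2, 3]`. `p Q = -Q`: by `ext_tot` and
`IsQ` (with `f = ![1, 0, 2, 3]` and `f = id`) it is enough that
`map (Sum.elim (inl ∘ ![1, 0]) inr) τ = - map (Sum.elim (inl ∘ ![0, 1]) inr) τ`, which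
follows from the hypothesis. By `S.four`, `Q = a M1 + b M2 + c M3 + ν₀`. `p M1 = M1`,
`p M2 = M3`, `p M3 = M2` (`e_symm`). So `Q = (Q - p Q)/2 = ((b-c)/2) (M2 - M3) +
(ν₀ - p ν₀)/2`, and `p ν₀` is in `T` and numerically trivial. -/
def S_Qa : Prop := ∀ (K : Type) [Field K] [CharZero K] (S : Sys K) (J : Type) [Finite J]
  [DecidableEq J], ∀ τ ∈ S.T (Fin 2 ⊕ J), S.map (Equiv.swap (Sum.inl 0) (Sum.inl 1)) τ = -τ →
  ∀ Q ∈ S.T (Fin 4), S.IsQ τ Q →
    ∃ β : K, ∃ ν ∈ S.T (Fin 4), S.Num ν ∧ Q = β • (S.M2 - S.M3) + ν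

/-- **The grading relation for two columns.**

PROOF. As in `S_G` (`Nil/G.lean`). Write `A = Fin 2 ⊕ J`, `a = inl 0`, `b = inl 1`, and
`h_i : A → A ⊕ Unit` for `i ∈ A`: `h_i i = inr ()`, `h_i j = inl j` for `j ≠ i`. Put
`P = int A Unit (map ![inl a, inr ()] z * map h_a ρ)`. The rule `deg` says `∑_(i ∈ A) t(i) = 0`,
`t(i) = ∫_V w(x_i, c) ρ(x with c at the place i) z(x_a, b') ρ(x with b' at the place a)`,
`V = (A ⊕ Unit) ⊕ Unit`, `c = inl (inr ())`, `b' = inr ()`.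
(1) If `i`, `i'` are different from `a` and in the same column then `t(i) = t(i')`: use
`tot_equiv` for the permutation `σ' = (σ ⊕ 1) ⊕ 1` of `V`, `σ = swap i i'`; both classes `ρ`
are replaced by `map σ ρ = -ρ`.
(2) `t(b) = Y_Q(z)` and `t(a) = X_Q(z)`, exactly as in `S_G` (no symmetry of `ρ` is used there).
(3) `t(inr j₀) = Y_(Q₁)(z)`: by `IsQ` for `ρ₁ = map (swap (inl 1) (inr j₀)) ρ` with `V = Fin 4`,
`f = ![2, 1, 3, 0]`, `Y_(Q₁)(z) = ∫_(Fin 4 ⊕ J) w(0,1) z(2,3) ρ₁(2,1,J) ρ₁(3,0,J)`, where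
`ρ₁(u, v, J)` is `ρ(u, x_(j₀), J with v at the place j₀)`; use the bijection `0 ↦ x_(j₀)`,
`1 ↦ c`, `2 ↦ x_a`, `3 ↦ b'`, `j₀ ↦ x_b`, `j ↦ x_j` for the other `j ∈ J`.
The column `false` consists of `a` and the `inr j` with `c j = false`, the column `true` of `b` and
the `inr j` with `c j = true`. So the sum of the `t(i)` is
`X_Q + ncol c false * Y_(Q₁) + (ncol c true + 1) * Y_Q`. -/
def S_G2 : Prop := ∀ (K : Type) [Field K] (S : Sys K) (w : S.C (Fin 2)), S.IsGrad w →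
  ∀ (J : Type) [Fintype J] [DecidableEq J] (c : J → Bool), ∀ ρ ∈ S.T (Fin 2 ⊕ J),
  S.Two (colS c) ρ → ∀ Q : S.C (Fin 4), S.IsQ ρ Q → ∀ j₀ : J, c j₀ = false →
  ∀ Q₁ : S.C (Fin 4), S.IsQ (S.map (Equiv.swap (Sum.inl 1) (Sum.inr j₀)) ρ) Q₁ →
  ∀ z : S.C (Fin 2), S.X w z Q + ncol c false * S.Y w z Q₁ + (ncol c true + 1) * S.Y w z Q = 0

/-- **The Garnir relation and the scalar product.**

PROOF. By `garnir` for `b = inl 1`, `∫ ρ ρ = ∑_x ∫ ρ (map (swap x b) ρ)`, the sum over the `x` with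
`colS c x = false`, i.e. `x = a = inl 0` and `x = inr j` with `c j = false`. For `x = inr j`:
`tot_equiv` for `swap a x` gives `∫ ρ (map (swap x b) ρ) = ∫ (map (swap a x) ρ)
(map (swap a x ∘ swap x b) ρ)`, and `swap a x ∘ swap x b = swap a b ∘ swap a x`, so with
`map (swap a x) ρ = -ρ` this is `∫ (-ρ) (map (swap a b) (-ρ)) = ∫ ρ (map (swap a b) ρ)`. -/
def S_Gar : Prop := ∀ (K : Type) [Field K] (S : Sys K) (J : Type) [Fintype J] [DecidableEq J]
  (c : J → Bool) (ρ : S.C (Fin 2 ⊕ J)), S.Two (colS c) ρ →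
  S.tot (Fin 2 ⊕ J) (ρ * ρ) = (ncol c false + 1) *
    S.tot (Fin 2 ⊕ J) (ρ * S.map (Equiv.swap (Sum.inl 0) (Sum.inl 1)) ρ)

/-- **The key relation.** The statements `S_G2`, `S_XY`, `S_Ker1`, `S_Ker2` are hypotheses.

PROOF. As in `S_Lam` (`Nil/Lam.lean`). For all `z`, with `W = ∫ w z`, the functions `X`, `Y` are
linear in `Q`, so by `S_G2` and `S_XY`
`0 = X_Q + s Y_(Q₁) + (t + 1) Y_Q = λ W + X_ν + s Y_(ν₁) + (t + 1) Y_ν`, where `s = ncol c false`,
`t = ncol c true`, `λ = (α + δ β + γ) - s β₁ + (t + 1) (γ - α)`. Let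
`n = n₁ + s n₂ + (t + 1) n₃` with `n₁` from `S_Ker1` for `ν` and `n₂`, `n₃` from `S_Ker2` for `ν₁`,
`ν`; it is in `T` and numerically trivial, and `∫ n w(inr) z(inl) = -λ ∫ w z`. By `S.nil`
(`x = w`, `c = -λ`) and `w ≠ 0`: `λ = 0`. -/
def S_Lam2 : Prop := ∀ (K : Type) [Field K] [CharZero K] (S : Sys K) (w : S.C (Fin 2)),
  S.IsGrad w → w ≠ 0 → ∀ (J : Type) [Fintype J] [DecidableEq J] (c : J → Bool),
  ∀ ρ ∈ S.T (Fin 2 ⊕ J), S.Two (colS c) ρ → ∀ Q : S.C (Fin 4), S.IsQ ρ Q →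
  ∀ j₀ : J, c j₀ = false → ∀ Q₁ : S.C (Fin 4),
  S.IsQ (S.map (Equiv.swap (Sum.inl 1) (Sum.inr j₀)) ρ) Q₁ →
  ∀ (α β γ β₁ : K), ∀ ν ∈ S.T (Fin 4), S.Num ν → ∀ ν₁ ∈ S.T (Fin 4), S.Num ν₁ →
  Q = α • S.M1 + β • S.M2 + γ • S.M3 + ν → Q₁ = β₁ • (S.M2 - S.M3) + ν₁ →
  (α + S.delta * β + γ) - ncol c false * β₁ + (ncol c true + 1) * (γ - α) = 0

/-- **(REL2)** The statements `S_Dia`, `S_Qex`, `S_Val`, `S_M3`, `S_Qa`, `S_Gar`, `S_Lam2`,
`S_Rel` are hypotheses.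

PROOF. Let `s = ncol c false = ncol c true`. CASE `s = 0`: `J` is empty. `garnir` for `b = inl 1`
says `map (swap (inl 0) (inl 1)) ρ = ρ`, so `ρ` is symmetric (a permutation of `Fin 2 ⊕ J` is `1`
or this swap), and the claim is `S_Rel`. CASE `s > 0`: choose `j₀` with `c j₀ = false` and put
`ρ₁ = map (swap (inl 1) (inr j₀)) ρ`. It is in `T` (`T_equiv`), `∫ ρ₁ ρ₁ = ∫ ρ ρ =: N`
(`tot_equiv`), and it is antisymmetric in the first two variables: `swap (inl 0) (inl 1) ∘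
swap (inl 1) (inr j₀) = swap (inl 1) (inr j₀) ∘ swap (inl 0) (inr j₀)` and `inl 0`, `inr j₀` are
in the same column. Let `Q`, `Q₁` be from `S_Qex` for `ρ`, `ρ₁`. `S.four` gives
`Q = α M1 + β M2 + γ M3 + ν`, `S_Qa` gives `Q₁ = β₁ (M2 - M3) + ν₁`. Let `C = ∫ (contr ρ)²`,
`P = ∫ ρ (map (swap (inl 0) (inl 1)) ρ)`. By `S_Val`, `S_M3`, `S_Dia` (`∫ M_i ν = 0`):
`N = α δ + β δ² + γ δ`, `C = α δ² + β δ + γ δ`, `P = α δ + β δ + γ δ²`,
`N = β₁ (δ² - δ)` (`∫ M2 Q₁`; here `S_Val` for `ρ₁`), and `N = (s+1) P` (`S_Gar`),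
`(α + δ β + γ) - s β₁ + (s+1) (γ - α) = 0` (`S_Lam2`). Then
`(s+1) C = (s+1) P + (s+1) δ (δ-1) (α - γ) = N + (δ - 1 - s) N = (δ - s) N`: the last relation
multiplied by `δ (δ-1)` is `(δ-1) N - s N + (s+1) δ (δ-1) (γ - α) = 0` (`linear_combination`). -/
def S_Rel2 : Prop := ∀ (K : Type) [Field K] [CharZero K] (S : Sys K) (w : S.C (Fin 2)),
  S.IsGrad w → w ≠ 0 → ∀ (J : Type) [Fintype J] (c : J → Bool), ncol c false = ncol c true →
  ∀ ρ ∈ S.T (Fin 2 ⊕ J), S.Two (colS c) ρ →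
  (ncol c false + 1) * S.tot J (S.contr ρ * S.contr ρ) =
    (S.delta - ncol c false) * S.tot (Fin 2 ⊕ J) (ρ * ρ)

/-- **Contraction and two columns.**

PROOF. `contr` is linear. (1) `map σ (contr u) = contr (map (Sum.map id σ) u)` for permutations `σ`
of `J` (by `map_int`, as in `S_Con`, see `Nil/Contr.lean`), and `Sum.map id (swap x y)` is
`swap (inr x) (inr y)` as a function. This gives `alt`. (2) `contr (map (swap (inl 0) (inl 1)) u) =
contr u`: by `e_symm`; in `∫_J int J (Fin 2) (..)` apply `ext_tot`, `sub_id` and `tot_equiv` for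
the permutation `1 ⊕ swap 0 1` of `J ⊕ Fin 2`. (3) Let `c j' = true`. Then
`contr (map (swap (inl 0) (inr j')) ρ) = 0`: put `u = map (swap (inl 0) (inr j')) ρ`.
`map (swap (inl 0) (inl 1)) u = map (swap (inl 0) (inr j')) (map (swap (inl 1) (inr j')) ρ) = -u`
because `swap (inl 0) (inl 1) ∘ swap (inl 0) (inr j') = swap (inl 0) (inr j') ∘
swap (inl 1) (inr j')` and `inl 1`, `inr j'` are in the column `true`; so `contr u = -contr u` by
(2), and `contr u = 0` in characteristic zero. (4) `garnir` for `ρ` and `b = inr j'`: the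
`x` with `colS c x = false` are `inl 0` and the `inr j` with `c j = false`; apply `contr`. -/
def S_Con2 : Prop := ∀ (K : Type) [Field K] [CharZero K] (S : Sys K) (J : Type) [Fintype J]
  (c : J → Bool) (ρ : S.C (Fin 2 ⊕ J)), S.Two (colS c) ρ → S.Two c (S.contr ρ)

/-- **The chain for two columns.** The statements `S_Con`, `S_Con2`, `S_Rel2` are hypotheses.

PROOF. As in `S_Chain` (`Nil/Chain.lean`, where the rule for `∫ (contr ρ) EE_r` is proved:
`chain_contr`). `ncol (colJ r) false = ncol (colJ r) true = r` by induction. (A) For every `r`: if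
`ρ ∈ T (JJ r)` has the symmetry `Two (colJ r)` and `∫ ρ² = 0` then `∫ ρ EE_r = 0`. Induction on
`r`: for `r + 1`, `S_Rel2` gives `(r+1) ∫ (contr ρ)² = 0`, so `∫ (contr ρ)² = 0`.
(B) `ρ ∈ T (JJ (n+1))`: `S_Rel2` gives `(n+1) ∫ (contr ρ)² = (δ - n) ∫ ρ² = 0`; now apply (A) to
`contr ρ`. -/
def S_Chain2 : Prop := ∀ (K : Type) [Field K] [CharZero K] (S : Sys K) (w : S.C (Fin 2)),
  S.IsGrad w → w ≠ 0 → ∀ n : ℕ, S.delta = n →
  ∀ ρ ∈ S.T (JJ (n + 1)), S.Two (colJ (n + 1)) ρ → S.tot (JJ (n + 1)) (ρ * S.EE (n + 1)) = 0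

/-- **The bijection of `JJ r` respects the columns.**

PROOF. As `S_EE` (`Nil/EE.lean`: `eE_fun`, `eE_bij`, `eE_step`): the bijection constructed there
satisfies `(φ x).isRight = colJ r x`, by induction. -/
def S_EE2 : Prop := ∀ (K : Type) [Field K] (S : Sys K) (r : ℕ),
  ∃ φ : JJ r ≃ Fin r ⊕ Fin r, S.map φ (S.EE r) = S.EF r ∧ ∀ x, (φ x).isRight = colJ r x

/-- **The Young symmetrizer.**

PROOF. `sw R` is an involution (a permutation of `Fin r ⊕ Fin r`), `Sum.map σ τ` is a permutation; so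
`yng g ∈ T`. Put `h = ∑_R map (sw R) g`. For every `k`,
(0) `map (swap (inl k) (inr k)) h = h` (`swap (inl k) (inr k) ∘ sw R = sw R'`, `R'` is `R` with
the value at `k` changed). `alt`: let `x = inl i`, `y = inl j`; `swap x y = Sum.map (swap i j) id`
and `swap x y ∘ Sum.map σ τ = Sum.map (swap i j * σ) τ`; reindex the sum over `σ`, the sign
changes. The same for `inr`. `garnir`: let `b = inr j₀` (`isRight b = true`); the `x` with
`isRight x = false` are the `inl i`. For fixed `τ` let `h' = map (Sum.map id τ) h` and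
`k₀ = τ⁻¹ j₀`. By (0), `map (swap (inl k₀) (inr j₀)) h' = h'`. CLAIM:
`∑_i ∑_σ sign σ • map (swap (inl i) (inr j₀) ∘ Sum.map σ id) h' = ∑_σ sign σ • map (Sum.map σ id) h'`.
Since `swap (inl i) (inr j₀) ∘ Sum.map σ id = Sum.map σ id ∘ swap (inl (σ⁻¹ i)) (inr j₀)`, the left
side is `∑_l ∑_σ sign σ • map (Sum.map σ id) (u_l)`, `u_l = map (swap (inl l) (inr j₀)) h'`
(substitute `i = σ l`). `u_(k₀) = h'` gives the right side. For `l ≠ k₀`:
`swap (inl l) (inr j₀) ∘ swap (inl k₀) (inr j₀) = swap (inl k₀) (inl l) ∘ swap (inl l) (inr j₀)`, so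
`u_l = map (swap (inl k₀) (inl l)) u_l`, and `∑_σ sign σ • map (Sum.map σ id) u_l = 0` by
reindexing `σ ↦ σ * swap k₀ l` (it is equal to its negative, characteristic zero). Multiply by
`sign τ` and sum over `τ`. -/
def S_Yng : Prop := ∀ (K : Type) [Field K] [CharZero K] (S : Sys K) (r : ℕ),
  ∀ g ∈ S.T (Fin r ⊕ Fin r), S.yng g ∈ S.T (Fin r ⊕ Fin r) ∧ S.Two Sum.isRight (S.yng g)

/-- **The numerically trivial class.** The statements `S_Chain2`, `S_EE`, `S_EE2`, `S_Yng` are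
hypotheses.

PROOF. `EF ∈ T` by `S_EE` and `T_equiv`, so `Ga ∈ T`. Let `g ∈ T (Fin r ⊕ Fin r)`, `r = n + 1`.
`∫ (map θ u) g = ∫ u (map θ⁻¹ g)` for permutations `θ` (`tot_equiv`). So
`∫ Ga g = ∑_(R,σ,τ) sign σ sign τ ∫ EF (map (Sum.map σ⁻¹ τ⁻¹) (map (sw R) g)) = ∫ EF (yng g)`
(`sw R` is an involution; reindex `σ ↦ σ⁻¹`, `τ ↦ τ⁻¹`). Let `φ` be from `S_EE2` and
`ρ = map φ.symm (yng g) ∈ T (JJ r)`; it has the symmetry `Two (colJ r)` (transport of `Two` along a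
bijection which respects the columns: `swap x y` is conjugated to `swap (φ x) (φ y)`), and
`∫ EF (yng g) = ∫ (map φ EE) (yng g) = ∫ EE ρ = 0` by `S_Chain2`. -/
def S_Gam2 : Prop := ∀ (K : Type) [Field K] [CharZero K] (S : Sys K) (w : S.C (Fin 2)),
  S.IsGrad w → w ≠ 0 → ∀ n : ℕ, S.delta = n →
  S.Ga (n + 1) ∈ S.T (Fin (n + 1) ⊕ Fin (n + 1)) ∧ S.Num (S.Ga (n + 1))

/-- **Spectators.** The statement `S_EE` is a hypothesis.

PROOF. `EF ∈ T` (`S_EE`, `T_equiv`). `nn u ∈ T` by `T_mul` (a class on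
`(Fin r ⊕ Fin r) ⊕ (Fin r ⊕ Fin r)`) and `T_equiv` for the permutation `inl (inl i) ↦ inl (inl i)`,
`inl (inr i) ↦ inr (inl i)`, `inr (inl i) ↦ inl (inr i)`, `inr (inr i) ↦ inr (inr i)`
(`Equiv.sumSumSumComm`). Let `g ∈ T`. After this permutation, with `I = Fin r ⊕ Fin r`,
`∫ (nn u) g = ∫_(I ⊕ I) u(inl) EF(inr) g'`, `g' ∈ T (I ⊕ I)`, which is `∫_I u v` with
`v = int I I (EF(inr) g')` (`sub_id`), and `v ∈ T I` by `T_comp` with `ι = I`, `κ = Empty`,
`J = I` as in `S_Con`. So it is `0` by `Num u`. -/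
def S_NN : Prop := ∀ (K : Type) [Field K] (S : Sys K) (r : ℕ), ∀ u ∈ S.T (Fin r ⊕ Fin r),
  S.Num u → S.nn u ∈ S.T ((Fin r ⊕ Fin r) ⊕ (Fin r ⊕ Fin r)) ∧ S.Num (S.nn u)

/-- **Absorption is invariant under bijections.**

PROOF. Let `i' = f i`, and let `h'` be given for `κ` and `i'`. `map f u`, by `Abs e u` for `i` and
`h = (inl or inr)`: `h i = inr ()`, `h j = inl j` for `j ≠ i`, is
`map f (int ι Unit (e(inl i, inr ()) * map h u)) = int κ Unit (map (Sum.map f id) (..))`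
(`map_int`), and `Sum.map f id ∘ h = h' ∘ f`. -/
def S_AbE : Prop := ∀ (K : Type) [Field K] (S : Cal K) (ι κ : Type) [Finite ι] [Finite κ]
  (f : ι ≃ κ) (e : S.C (Fin 2)) (u : S.C ι), S.Abs e u → S.Abs e (S.map f u)

/-- **Elimination of `r` variables, second version.**

PROOF. Induction on `r`, as `S_Elr` (`Nil/Elr.lean`): split off the last variable; it occurs only
in `e(inl (g last), inr last)` and at the place `0` of `p`, and `Cal.elim` (`ι = Fin 2`,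
`u = p`, `i₀ = 0`) replaces the two factors by `p(inl (g last), inl (h last))`, which goes into
`P`. -/
def S_Elr2 : Prop := ∀ (K : Type) [Field K] (S : Sys K) (p : S.C (Fin 2)), S.Abs S.e p →
  ∀ (r : ℕ) (V : Type) [Finite V] (g h : Fin r → V) (P : S.C V),
  S.tot (V ⊕ Fin r) (S.map Sum.inl P * ∏ j : Fin r, (S.map ![Sum.inl (g j), Sum.inr j] S.e *
    S.map ![Sum.inr j, Sum.inl (h j)] p)) = S.tot V (P * ∏ j : Fin r, S.map ![g j, h j] p)

/-- **Elimination of the input spectators.** The statements `S_Elr2`, `S_AbE` are hypotheses.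

PROOF. The left side is the integral over `(Fin r ⊕ Fin r) ⊕ (Fin r ⊕ Fin r)`, with variables
`o_i = inl (inl i)`, `s_i = inl (inr i)`, `a_i = inr (inl i)`, `t_i = inr (inr i)`, of
`u(o, a) ∏ e(s_i, t_i) ∏ p(a_i, t_i) y(o, s)`. Let `p' = map ![1, 0] p`; it absorbs `e` (`S_AbE`),
and `p(a_i, t_i) = p'(t_i, a_i)`. Use the bijection
`((Fin r ⊕ Fin r) ⊕ Fin r) ⊕ Fin r ≃ (Fin r ⊕ Fin r) ⊕ (Fin r ⊕ Fin r)` (`Equiv.sumAssoc`) and
`S_Elr2` with `V = (Fin r ⊕ Fin r) ⊕ Fin r`, `g i = s_i`, `h i = a_i`, and `p'`: the result is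
`∏ p'(s_i, a_i) = ∏ p(a_i, s_i)`. -/
def S_Spt : Prop := ∀ (K : Type) [Field K] (S : Sys K) (p : S.C (Fin 2)), S.Abs S.e p →
  ∀ (r : ℕ) (u y : S.C (Fin r ⊕ Fin r)),
  S.tot ((Fin r ⊕ Fin r) ⊕ (Fin r ⊕ Fin r))
    (S.nn u * S.map Sum.inr (S.pp p r) * S.map Sum.inl y) =
  S.tot ((Fin r ⊕ Fin r) ⊕ Fin r) (S.map (Sum.map Sum.inl id) u *
    (∏ i : Fin r, S.map ![Sum.inr i, Sum.inl (Sum.inr i)] p) * S.map Sum.inl y)

/-- **Permutations of the factors.**

PROOF. (1) For all `a b c d : V`, `p(a, b) p(c, d) = - p(a, d) p(c, b)`: apply `map ![a, b, c, d]`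
to `OddSq`. (2) Induction on `π` (`Equiv.Perm.swap_induction_on`): for `π = swap x y * π'`
use the induction hypothesis for `f ∘ swap x y` in place of `f`, and (1) for the two factors
`i = x, y` of `∏ p(f (swap x y i), s i)`. -/
def S_Pm : Prop := ∀ (K : Type) [Field K] (S : Sys K) (p : S.C (Fin 2)), S.OddSq p →
  ∀ (r : ℕ) (V : Type) [Finite V] (f s : Fin r → V) (π : Equiv.Perm (Fin r)),
  ∏ i : Fin r, S.map ![f (π i), s i] p =
    (((Equiv.Perm.sign π : ℤˣ) : ℤ) : K) • ∏ i : Fin r, S.map ![f i, s i] p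

/-- **A pair of input variables gives zero, second version.**

PROOF. Let `θ` be the permutation of `V` which exchanges `v₁` and `v₂`. By `tot_equiv` for `θ`
(`θ ∘ s = s`) the integral is `∫ P e(v₂, v₁) p(v₂, s b₁) p(v₁, s b₂)`, and
`p(v₂, s b₁) p(v₁, s b₂) = p(v₁, s b₂) p(v₂, s b₁) = - p(v₁, s b₁) p(v₂, s b₂)` (`OddSq` transported
by `map ![v₁, s b₂, v₂, s b₁]`), `e(v₂, v₁) = e(v₁, v₂)`. So the integral is equal to its
negative. -/
def S_Ze2 : Prop := ∀ (K : Type) [Field K] [CharZero K] (S : Sys K) (p : S.C (Fin 2)),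
  S.OddSq p → ∀ (V V' : Type) [Finite V] [Finite V'] (s : V' → V) (v₁ v₂ : V),
  Function.Bijective (Sum.elim s ![v₁, v₂]) → ∀ (P : S.C V') (b₁ b₂ : V'),
  S.tot V (S.map s P * (S.map ![v₁, v₂] S.e * S.map ![v₁, s b₁] p * S.map ![v₂, s b₂] p)) = 0

/-- **The sign.**

PROOF. Let `A = {i | R i = true}`; `π₀` preserves `A` and its complement. Let `ψ` be the
permutation which is `π₀` on `A` and the identity on the complement
(`Equiv.Perm.ofSubtype (π₀.subtypePerm _)`). Then `π = π₀ * ψ⁻¹ * ψ⁻¹`, so the signs of `π` and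
`π₀` are equal. -/
def S_Sg : Prop := ∀ (r : ℕ) (R : Fin r → Bool) (π π₀ : Equiv.Perm (Fin r)),
  (∀ i, R (π₀ i) = R i) → (∀ i, R i = false → π i = π₀ i) → (∀ i, R i = true → π (π₀ i) = i) →
  Equiv.Perm.sign π = Equiv.Perm.sign π₀

/-- **Evaluation of one term.** The statements `S_Elr2`, `S_Pm`, `S_Ze2`, `S_Sg` are hypotheses.

PROOF. Let `θ = sw R ∘ Sum.map σ τ`. `map (sw R) (map (Sum.map σ τ) (EF r)) =
∏_k e(θ (inl k), θ (inr k))`. In `V = (Fin r ⊕ Fin r) ⊕ Fin r` write `o_i = inl (inl i)`,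
`s_i = inl (inr i)`, `a_i = inr i`; `Sum.map inl id` sends `inl i` to `o_i` and `inr i` to `a_i`.
CASE 1: there is `k` with `R (σ k) ≠ R (τ k)`. `θ (inl k)` is in the left part (of
`Fin r ⊕ Fin r`) iff `R (σ k) = false` and `θ (inr k)` is in the left part iff `R (τ k) = true`. So
for this `k` both are in the left part or both are in the right part. As the `r` pairs
`{θ (inl k), θ (inr k)}` are a partition of `Fin r ⊕ Fin r`, there is a `k'` such that both are in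
the right part (count). So there is a factor `e(a_b, a_b')` with `b ≠ b'`; the product is
`e(a_b, a_b') p(a_b, s_b) p(a_b', s_b')` times a product of classes which do not involve `a_b`,
`a_b'`; the integral is `0` by `S_Ze2`. Take `n = 0`. CASE 2: `R (σ k) = R (τ k)` for all `k`. Then
the pair is `{inl (σ k), inr (τ k)}` if `R (σ k) = false` and `{inr (σ k), inl (τ k)}` if it is
true. Define `π : Fin r → Fin r` by: `π i = σ (τ⁻¹ i)` if `R i = false` and `π i = τ (σ⁻¹ i)` if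
`R i = true`; it is a permutation (it preserves `R`, since `R ∘ σ = R ∘ τ`), and, using
`e_symm` and reindexing the product, `∏_k e(θ (inl k), θ (inr k)) = ∏_i e(inl (π i), inr i)`. By
`S_Elr2` with `V = Fin r ⊕ Fin r`, `g i = inl (π i)`, `h i = inr i`, `P = y` the integral is
`∫ y ∏_i p(inl (π i), inr i) = sign π ∫ (pp p r) y` (`S_Pm`), and
`sign π = sign (σ * τ⁻¹) = sign σ sign τ` by `S_Sg` for `π₀ = σ * τ⁻¹` (if `R i = true` then
`π (π₀ i) = τ (σ⁻¹ (σ (τ⁻¹ i))) = i`). So the value is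
`sign σ sign τ sign π ∫ (pp p r) y = ∫ (pp p r) y`. Take `n = 1`. For `R = fun _ => false`,
`σ = τ = 1` we are in CASE 2. -/
def S_Ev2 : Prop := ∀ (K : Type) [Field K] [CharZero K] (S : Sys K) (p : S.C (Fin 2)),
  S.Abs S.e p → S.OddSq p → ∀ (r : ℕ) (R : Fin r → Bool) (σ τ : Equiv.Perm (Fin r)), ∃ n : ℕ,
  ((R = fun _ => false) → σ = 1 → τ = 1 → n = 1) ∧ ∀ y : S.C (Fin r ⊕ Fin r),
    (((Equiv.Perm.sign σ * Equiv.Perm.sign τ : ℤˣ) : ℤ) : K) *
      S.tot ((Fin r ⊕ Fin r) ⊕ Fin r) (S.map (Sum.map Sum.inl id)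
        (S.map (sw R) (S.map (Sum.map σ τ) (S.EF r))) *
        (∏ i : Fin r, S.map ![Sum.inr i, Sum.inl (Sum.inr i)] p) * S.map Sum.inl y) =
      n * S.tot (Fin r ⊕ Fin r) (S.pp p r * y)

/-- **Powers.**

PROOF. `pp z r` is the product of `r` copies of `z` on disjoint pairs of variables. Induction on `r`:
`Fin (r+1) ⊕ Fin (r+1) ≃ (Fin r ⊕ Fin r) ⊕ Fin 2` (`inl (castSucc i)`, `inr (castSucc i)`;
`inl last ↦ 0`, `inr last ↦ 1`), `Fin.prod_univ_castSucc`, `tot_mul`, `tot_equiv`; for `r = 0`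
`Fin 0 ⊕ Fin 0 ≃ Empty` and `tot_one`. Compare `Nil/Pow.lean`. -/
def S_Pow2 : Prop := ∀ (K : Type) [Field K] (S : Sys K) (z : S.C (Fin 2)) (r : ℕ),
  S.tot (Fin r ⊕ Fin r) (S.pp z r) = (S.tot (Fin 2) z) ^ r

/-- **The second formal theorem.** The statements `S_Gam2`, `S_NN`, `S_Spt`, `S_Ev2`, `S_Pow2` are
hypotheses.

PROOF. Let `r = n + 1`, `X = pp p r`. `X ≠ 0`: `pp p r * pp q r = pp (p * q) r` has
`∫` equal to `(∫ p q)^r ≠ 0` by `S_Pow2`. `nn` is linear, so by `S_Spt` and `S_Ev2`: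
`∫ (nn Ga) X(inr) y(inl) = N ∫ X y` for all `y`, with `N` the sum of the `n_(R,σ,τ)`, `N ≥ 1`. By
`S_Gam2`, `S_NN` and `S.nil` (`n = nn (Ga r)`, `x = X`, `c = N`): `N = 0` or `X = 0`, a
contradiction. Compare `Nil/Formal.lean`. -/
def S_Formal2 : Prop := ∀ (K : Type) [Field K] [CharZero K] (S : Sys K) (w : S.C (Fin 2)),
  S.IsGrad w → w ≠ 0 → ∀ n : ℕ, S.delta = n → ∀ p q : S.C (Fin 2), S.Abs S.e p →
  S.OddSq p → S.tot (Fin 2) (p * q) ≠ 0 → False

end Statements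

end Pool.Agent.Lib.MP_4ca46c_ag.Nil
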