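import Pool.Agent.Lib.MP_4ca46c_ag.Nil.Cal

/-!
# Specification F: the formal part

Everything takes place in a system `S : Sys K` (file `Nil/Cal.lean`; the basic rules `tot_int`,
`sub`, `sub_id`, `map_int`, `mul_int`, `tot_mul`, `elim`, `elimF`, `ext_tot` are proved there).
We write `u(a, b, ..)` for `S.map ![a, b, ..] u` and `∫` for `tot`. All classes commute, there are
no signs. ELIMINATION (`Cal.elim`, `Cal.elimF`): if the variable `v` occurs only in `e(c, v)`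
(or `e(v, c)`, by `e_symm`) and at one place of a class `u` which absorbs `e`, then `∫` is
not changed if `v` and `e(c, v)` are removed and `c` is put at this place of `u`. Every element
of `S.T ι` absorbs `e` (`S.abs`).
-/

set_option autoImplicit false

namespace Pool.Agent.Lib.MP_4ca46c_ag.Nil

open Function

namespace Sys

variable {K : Type} [Field K] (S : Sys K)

/-- `e₁₂ e₃₄` -/
noncomputable def M1 : S.C (Fin 4) := S.map ![0, 1] S.e * S.map ![2, 3] S.e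

/-- `e₁₃ e₂₄` -/
noncomputable def M2 : S.C (Fin 4) := S.map ![0, 2] S.e * S.map ![1, 3] S.e

/-- `e₁₄ e₂₃` -/
noncomputable def M3 : S.C (Fin 4) := S.map ![0, 3] S.e * S.map ![1, 2] S.e

/-- `Q(a, b, c, d) = ∫_J τ(a, b, J) τ(c, d, J)` -/
def IsQ {J : Type} [Finite J] (τ : S.C (Fin 2 ⊕ J)) (Q : S.C (Fin 4)) : Prop :=
  ∀ (V : Type) [Finite V] (f : Fin 4 → V) (P : S.C V), S.tot V (P * S.map f Q) =
    S.tot (V ⊕ J) (S.map Sum.inl P *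
      (S.map (Sum.elim (Sum.inl ∘ ![f 0, f 1]) Sum.inr) τ *
        S.map (Sum.elim (Sum.inl ∘ ![f 2, f 3]) Sum.inr) τ))

/-- `X_Q(z) = ∫ w(a, c) z(a, d) e(p, q) Q(c, p, d, q)`, with `(a, c, d, p, q) = (0, .., 4)` -/
noncomputable def X (w z : S.C (Fin 2)) (Q : S.C (Fin 4)) : K :=
  S.tot (Fin 5) (S.map ![0, 1] w * S.map ![0, 2] z * S.map ![3, 4] S.e * S.map ![1, 3, 2, 4] Q)

/-- `Y_Q(z) = ∫ w(s, c) z(a, b) Q(a, c, b, s)`, with `(s, c, a, b) = (0, .., 3)` -/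
noncomputable def Y (w z : S.C (Fin 2)) (Q : S.C (Fin 4)) : K :=
  S.tot (Fin 4) (S.map ![0, 1] w * S.map ![2, 3] z * S.map ![2, 1, 3, 0] Q)

/-- the product `∏ e(i, i')` on two copies of `Fin r` -/
noncomputable def EF (r : ℕ) : S.C (Fin r ⊕ Fin r) :=
  ∏ i : Fin r, S.map ![Sum.inl i, Sum.inr i] S.e

/-- the symmetrization of `EF` -/
noncomputable def Gam (r : ℕ) : S.C (Fin r ⊕ Fin r) :=
  ∑ σ : Equiv.Perm (Fin r ⊕ Fin r), S.map σ (S.EF r)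

/-- `x ⊗ ... ⊗ x` -/
noncomputable def pw (x : S.C Unit) (r : ℕ) : S.C (Fin r) :=
  ∏ j : Fin r, S.map (fun _ : Unit => j) x

end Sys

/-- the set with `2 r` elements -/
def JJ : ℕ → Type
  | 0 => Empty
  | (r + 1) => Fin 2 ⊕ JJ r

instance instFintypeJJ : ∀ r, Fintype (JJ r)
  | 0 => inferInstanceAs (Fintype Empty)
  | (r + 1) => by
    haveI := instFintypeJJ r
    exact inferInstanceAs (Fintype (Fin 2 ⊕ JJ r))

theorem card_JJ (r : ℕ) : Fintype.card (JJ r) = 2 * r := by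
  induction r with
  | zero => rfl
  | succ r ih =>
    have : Fintype.card (JJ (r + 1)) = Fintype.card (Fin 2 ⊕ JJ r) := rfl
    rw [this, Fintype.card_sum, ih, Fintype.card_fin]
    ring

namespace Sys

variable {K : Type} [Field K] (S : Sys K)

/-- the product of the `e`'s over the pairs of `JJ r` -/
noncomputable def EE : ∀ r : ℕ, S.C (JJ r)
  | 0 => (1 : S.C Empty)
  | (r + 1) => (S.map Sum.inl S.e * S.map Sum.inr (EE r) : S.C (Fin 2 ⊕ JJ r))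

end Sys

section Statements

/-- **Closed diagrams.** `M_i` and `M_j` glued give one circle (`δ`) if `i ≠ j` and two circles
(`δ²`) if `i = j`; and the `M_i` are in `T (Fin 4)`.

PROOF. Memberships: `T_mul` for `e`, `e` gives `e(inl 0, inl 1) e(inr 0, inr 1)` in
`T (Fin 2 ⊕ Fin 2)`, then `T_equiv`. Different matchings, e.g. `∫ M1 M2 =
∫ e(0,1) e(2,3) e(0,2) e(1,3)`: eliminate the variable `3` (`elimF` with `p = 3`, `u = e(2,3)`;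
the other factor is `e(1,3)`): `∫ e(0,1) e(0,2) e(2,1)`; eliminate `2`
(`u = e(2,1)`, the other factor is `e(0,2)`): `∫ e(0,1) e(0,1) = δ`. The other pairs are the same
up to a permutation of the variables (`tot_equiv`). Equal matchings:
`∫ e(0,1) e(0,1) e(2,3) e(2,3) = δ²` by `tot_mul` (`Fin 4 ≃ Fin 2 ⊕ Fin 2`). -/
def S_Dia : Prop := ∀ (K : Type) [Field K] (S : Sys K),
  S.M1 ∈ S.T (Fin 4) ∧ S.M2 ∈ S.T (Fin 4) ∧ S.M3 ∈ S.T (Fin 4) ∧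
  S.tot (Fin 4) (S.M1 * S.M1) = S.delta ^ 2 ∧ S.tot (Fin 4) (S.M1 * S.M2) = S.delta ∧
  S.tot (Fin 4) (S.M1 * S.M3) = S.delta ∧ S.tot (Fin 4) (S.M2 * S.M1) = S.delta ∧
  S.tot (Fin 4) (S.M2 * S.M2) = S.delta ^ 2 ∧ S.tot (Fin 4) (S.M2 * S.M3) = S.delta

/-- **Existence of `Q`.**

PROOF. `R = map (Sum.map inl id) τ * map (Sum.map inr id) τ` in `C ((Fin 2 ⊕ Fin 2) ⊕ J)`,
`Q' = int (Fin 2 ⊕ Fin 2) J R ∈ T (Fin 2 ⊕ Fin 2)` by `T_comp`, `Q = map s Q'` where `s` is the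
equivalence `inl i ↦ i`, `inr i ↦ i + 2`. Then `map f Q = map (f ∘ s) Q'` and `sub` gives
`tot V (P * map f Q) = tot (V ⊕ J) (map inl P * map (Sum.map (f ∘ s) id) R)`; check that
`Sum.map (f ∘ s) id ∘ Sum.map inl id = Sum.elim (inl ∘ ![f 0, f 1]) inr`, etc. -/
def S_Qex : Prop := ∀ (K : Type) [Field K] (S : Sys K) (J : Type) [Finite J],
  ∀ τ ∈ S.T (Fin 2 ⊕ J), ∃ Q ∈ S.T (Fin 4), S.IsQ τ Q

/-- **The form of `Q` for symmetric `τ`.**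

PROOF. Let `p = map ![1, 0, 2, 3]`. `p Q = Q`: by `ext_tot` and `IsQ` (with `f = ![1, 0, 2, 3]`
and `f = id`) it is enough that `map (Sum.elim (inl ∘ ![1, 0]) inr) τ =
map (Sum.elim (inl ∘ ![0, 1]) inr) τ`, which is the symmetry of `τ` under the permutation
`Equiv.sumCongr (Equiv.swap 0 1) 1` of `Fin 2 ⊕ J`. By `S.four`, `Q = a M1 + b M2 + c M3 + ν₀`.
`p M1 = M1`, `p M2 = M3`, `p M3 = M2` (`e_symm`). So
`Q = (Q + p Q)/2 = a M1 + ((b+c)/2) (M2 + M3) + (ν₀ + p ν₀)/2`. `p ν₀` is in `T` (`T_equiv`)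
and numerically trivial: `∫ (p ν₀) g = ∫ ν₀ (p g)` since `p` comes from an involution
(`tot_equiv`, `map_map`). -/
def S_Q4 : Prop := ∀ (K : Type) [Field K] [CharZero K] (S : Sys K) (J : Type) [Finite J],
  ∀ τ ∈ S.T (Fin 2 ⊕ J), S.Sym τ → ∀ Q ∈ S.T (Fin 4), S.IsQ τ Q →
    ∃ α β : K, ∃ ν ∈ S.T (Fin 4), S.Num ν ∧ Q = α • S.M1 + β • (S.M2 + S.M3) + ν

/-- **The contraction.**

PROOF. (1) `T_comp` with `ι = J`, `κ = Empty`, `J = Fin 2`, `u = map Sum.swap τ` (`T_equiv`),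
`v = map inr e ∈ T (Empty ⊕ Fin 2)` (`T_equiv`): the class
`int (J ⊕ Empty) (Fin 2) (map (Sum.map inl id) u * map (Sum.map inr id) v)` is in
`T (J ⊕ Empty)`; its image under `map (Equiv.sumEmpty J Empty)` is `contr τ` by `map_int`.
(2) `map σ (contr τ) = int J (Fin 2) (map (Sum.map σ id) (map Sum.swap τ * map inr e))`
(`map_int`) and `Sum.map σ id ∘ Sum.swap = Sum.swap ∘ Sum.map id σ`, where `Sum.map id σ` is a
permutation of `Fin 2 ⊕ J`. (3) is `sub`: `Sum.map f id ∘ Sum.swap = Sum.elim inr (inl ∘ f)` and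
`Sum.map f id ∘ Sum.inr = Sum.inr`. -/
def S_Con : Prop := ∀ (K : Type) [Field K] (S : Sys K) (J : Type) [Finite J]
  (τ : S.C (Fin 2 ⊕ J)),
  (τ ∈ S.T (Fin 2 ⊕ J) → S.contr τ ∈ S.T J) ∧ (S.Sym τ → S.Sym (S.contr τ)) ∧
  ∀ (V : Type) [Finite V] (f : J → V) (P : S.C V), S.tot V (P * S.map f (S.contr τ)) =
    S.tot (V ⊕ Fin 2) (S.map Sum.inl P *
      (S.map (Sum.elim Sum.inr (Sum.inl ∘ f)) τ * S.map Sum.inr S.e))

/-- **The two scalar products.** The statement `S_Con` is a hypothesis.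

PROOF. (1) `∫ M2 Q = ∫_(Fin 4 ⊕ J) e(0,2) e(1,3) τ(0,1,J) τ(2,3,J)` (`IsQ` with `V = Fin 4`,
`f = id`). Eliminate the variable `3` (in `e(1,3)` and `τ(2,3,J)`), giving
`∫_(Fin 3 ⊕ J) e(0,2) τ(0,1,J) τ(2,1,J)`, then `2`, giving `∫_(Fin 2 ⊕ J) τ(0,1,J) τ(0,1,J)`.
(`Cal.elim` with `s = Sum.map Fin.castSucc id : Fin 3 ⊕ J → Fin 4 ⊕ J` and `v = inl (Fin.last 3)`,
etc.) (2) `∫ M1 Q = ∫_(Fin 4 ⊕ J) e(0,1) e(2,3) τ(0,1,J) τ(2,3,J)`. On the other side use part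
(3) of `S_Con` with `V = J`, `f = id`, `P = contr τ`, and then again with `V = J ⊕ Fin 2`,
`f = inl`: `∫_J (contr τ)² = ∫_((J ⊕ Fin 2) ⊕ Fin 2) τ(inr·, J) e(inr·) τ(inl inr ·, J) e(..)`;
conclude by `tot_equiv`. -/
def S_Val : Prop := ∀ (K : Type) [Field K] (S : Sys K) (J : Type) [Finite J],
  ∀ τ ∈ S.T (Fin 2 ⊕ J), ∀ Q : S.C (Fin 4), S.IsQ τ Q →
    S.tot (Fin 4) (S.M2 * Q) = S.tot (Fin 2 ⊕ J) (τ * τ) ∧
    S.tot (Fin 4) (S.M1 * Q) = S.tot J (S.contr τ * S.contr τ)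

/-- **The grading relation.** `X_Q(z) + (|J| + 1) Y_Q(z) = 0`.

PROOF. Write `A = Fin 2 ⊕ J`, `a₀ = inl 0`, `a₁ = inl 1`, and `h_i : A → A ⊕ Unit` for `i ∈ A`:
`h_i i = inr ()`, `h_i j = inl j` for `j ≠ i`. Put
`P = int A Unit (map ![inl a₀, inr ()] z * map h_(a₀) τ)`, i.e. `P = ∫_b z(x_(a₀), b) τ(b, x_(a₁),
x_J)`. The rule `deg` says `∑_(i ∈ A) t(i) = 0`,
`t(i) = tot (A ⊕ Unit) (map inl P * (map ![inl i, inr ()] w * map h_i τ))`. By commutativity and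
`sub` (for `f = inl : A → A ⊕ Unit`), with `V = (A ⊕ Unit) ⊕ Unit`, `x_i = inl (inl i)`,
`c = inl (inr ())`, `b = inr ()`:
`t(i) = ∫_V w(x_i, c) τ(x with c at the place i) z(x_(a₀), b) τ(x with b at the place a₀)`.
(1) `t(i) = t(a₁)` for `i ≠ a₀`: let `σ = swap a₁ i` (it fixes `a₀`) and
`σ' = (σ ⊕ 1) ⊕ 1`, a permutation of `V`. `tot_equiv` for `σ'` transforms the product of
`t(a₁)` into that of `t(i)`, up to replacing `τ` by `map σ τ = τ`: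
`σ' ∘ (inl ∘ h_(a₁)) = (inl ∘ h_i) ∘ σ`, etc.
(2) `t(a₁) = ∫ w(x_(a₁), c) τ(x_(a₀), c, J) z(x_(a₀), b) τ(b, x_(a₁), J)` equals `Y_Q(z)`: by
`IsQ` with `V = Fin 4`, `f = ![2, 1, 3, 0]`,
`Y_Q(z) = ∫_(Fin 4 ⊕ J) w(0,1) z(2,3) τ(2,1,J) τ(3,0,J)`; use the bijection
`0 ↦ x_(a₁)`, `1 ↦ c`, `2 ↦ x_(a₀)`, `3 ↦ b`, `J ↦ x_J`.
(3) `t(a₀) = ∫ w(x_(a₀), c) τ(c, x_(a₁), J) z(x_(a₀), b) τ(b, x_(a₁), J)` equals `X_Q(z)`: by
`IsQ` with `V = Fin 5`, `f = ![1, 3, 2, 4]`, `X_Q(z) = ∫_(Fin 5 ⊕ J) w(0,1) z(0,2) e(3,4)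
τ(1,3,J) τ(2,4,J)`; eliminate `4`: `∫_(Fin 4 ⊕ J) w(0,1) z(0,2) τ(1,3,J) τ(2,3,J)`; bijection
`0 ↦ x_(a₀)`, `1 ↦ c`, `2 ↦ b`, `3 ↦ x_(a₁)`, `J ↦ x_J`.
Sum: `t(a₀) + (|A| - 1) t(a₁) = 0` and `|A| - 1 = |J| + 1`. -/
def S_G : Prop := ∀ (K : Type) [Field K] (S : Sys K) (w : S.C (Fin 2)), S.IsGrad w →
  ∀ (J : Type) [Fintype J], ∀ τ ∈ S.T (Fin 2 ⊕ J), S.Sym τ → ∀ Q : S.C (Fin 4), S.IsQ τ Q →
  ∀ z : S.C (Fin 2), S.X w z Q + (Fintype.card J + 1) * S.Y w z Q = 0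

/-- **The diagrams with `w`.**

PROOF. Put `W = ∫ w z`. `w` absorbs `e` and is antisymmetric.
`X(M1) = ∫ w(0,1) z(0,2) e(3,4) e(1,3) e(2,4)`: eliminate `4` (`u = e(3,4)`, other factor
`e(2,4)`), then `3`, then `1` (`u = w(0,1)`, other factor `e(1,2)`): `∫ w(0,2) z(0,2) = W`.
`X(M2) = ∫ w(0,1) z(0,2) e(3,4) e(1,2) e(3,4) = δ W`: split off `∫ e(3,4) e(3,4) = δ`
by `tot_mul`, then eliminate `1`.
`X(M3) = ∫ w(0,1) z(0,2) e(3,4) e(1,4) e(3,2) = W`: eliminate `4`, `3`, `1`.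
`Y(M1) = ∫ w(0,1) z(2,3) e(2,1) e(3,0)`: eliminate `1` and `0` in `w`: `∫ w(3,2) z(2,3) = -W`.
`Y(M2) = ∫ w(0,1) z(2,3) e(2,3) e(1,0) = (∫ w e)(∫ z e)` by `tot_mul`, and `∫ w e = 0`, because
`∫ w e = ∫ w(1,0) e(1,0) = -∫ w e` (characteristic `≠ 2`).
`Y(M3) = ∫ w(0,1) z(2,3) e(2,0) e(1,3) = ∫ w(2,3) z(2,3) = W`. -/
def S_XY : Prop := ∀ (K : Type) [Field K] [CharZero K] (S : Sys K) (w z : S.C (Fin 2)),
  S.IsGrad w →
  S.X w z S.M1 = S.tot (Fin 2) (w * z) ∧ S.X w z S.M2 = S.delta * S.tot (Fin 2) (w * z) ∧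
  S.X w z S.M3 = S.tot (Fin 2) (w * z) ∧ S.Y w z S.M1 = -S.tot (Fin 2) (w * z) ∧
  S.Y w z S.M2 = 0 ∧ S.Y w z S.M3 = S.tot (Fin 2) (w * z)

/-- **Partial contraction.** `θ(a, b) = ∫_(x, y) u(a, x, b, y) e(x, y)`.

PROOF. As in `S_Con`: `T_comp` with `ι = Fin 2`, `κ = Empty`, `J = Fin 2`, `u' = map ![inl 0,
inr 0, inl 1, inr 1] u ∈ T (Fin 2 ⊕ Fin 2)` (`T_equiv`) and `v = map inr e ∈ T (Empty ⊕ Fin 2)`,
then `T_equiv` for `Equiv.sumEmpty`. The formula is `sub`. -/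
def S_Pc : Prop := ∀ (K : Type) [Field K] (S : Sys K), ∀ u ∈ S.T (Fin 4), ∃ θ ∈ S.T (Fin 2),
  ∀ (V : Type) [Finite V] (f : Fin 2 → V) (P : S.C V), S.tot V (P * S.map f θ) =
    S.tot (V ⊕ Fin 2) (S.map Sum.inl P *
      (S.map ![Sum.inl (f 0), Sum.inr 0, Sum.inl (f 1), Sum.inr 1] u * S.map Sum.inr S.e))

/-- **The first kernel.** The statement `S_Pc` is a hypothesis.

PROOF. Let `θ` be from `S_Pc` for `u = ν`, and
`n = e(inl 0, inr 0) θ(inr 1, inl 1)`, in `T (Fin 2 ⊕ Fin 2)` by `T_mul` and `T_equiv`. With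
`V = Fin 2 ⊕ Fin 2`: `∫ n w(inr 0, inr 1) z(inl 0, inl 1) = ∫_(V ⊕ Fin 2) e(inl 0, inr 0)
ν(inr 1, x, inl 1, y) e(x, y) w(inr 0, inr 1) z(inl 0, inl 1)`, where `x`, `y` are the last two
variables. Eliminate `inr 0` (it occurs in `e(inl 0, inr 0)` and in `w`, which
absorbs `e`): `w(inl 0, inr 1)`. Renaming `inl 0 ↦ 0`, `inr 1 ↦ 1`, `inl 1 ↦ 2`, `x ↦ 3`,
`y ↦ 4` gives `∫ w(0,1) z(0,2) e(3,4) ν(1,3,2,4) = X_ν(z)`.
`Num n`: let `g ∈ T (Fin 2 ⊕ Fin 2)`. Then `∫ n g = ∫_(V ⊕ Fin 2) e(inl 0, inr 0)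
ν(inr 1, x, inl 1, y) e(x, y) g(inl 0, inl 1, inr 0, inr 1)`. Let `γ ∈ T (Fin 2)` be from
`S_Pc` for the class `map (inl 0 ↦ 1, inl 1 ↦ 2, inr 0 ↦ 3, inr 1 ↦ 0) g` of `T (Fin 4)`, that is
`γ(c, d) = ∫_(a, a') g(a, d, a', c) e(a, a')`. Then `∫ n g = ∫_(Fin 4) ν(0,1,2,3) e(1,3) γ(0,2)`
(`c = 0`, `x = 1`, `d = 2`, `y = 3`), and `e(1,3) γ(0,2) ∈ T (Fin 4)`, so it is `0` by `Num ν`. -/
def S_Ker1 : Prop := ∀ (K : Type) [Field K] (S : Sys K), ∀ ν ∈ S.T (Fin 4), S.Num ν →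
  ∃ n ∈ S.T (Fin 2 ⊕ Fin 2), S.Num n ∧ ∀ w : S.C (Fin 2), S.Abs S.e w → ∀ z : S.C (Fin 2),
    S.tot (Fin 2 ⊕ Fin 2) (n * S.map Sum.inr w * S.map Sum.inl z) = S.X w z ν

/-- **The second kernel.**

PROOF. `n = map ![inl 0, inr 1, inl 1, inr 0] ν`, the transport of `ν` along a bijection
`Fin 4 ≃ Fin 2 ⊕ Fin 2`; so `n ∈ T` and `Num n` (`T_equiv`, `tot_equiv`). The inverse bijection
`inr 0 ↦ 0`, `inr 1 ↦ 1`, `inl 0 ↦ 2`, `inl 1 ↦ 3` transforms the integral into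
`∫ ν(2,1,3,0) w(0,1) z(2,3) = Y_ν(z)`. -/
def S_Ker2 : Prop := ∀ (K : Type) [Field K] (S : Sys K), ∀ ν ∈ S.T (Fin 4), S.Num ν →
  ∃ n ∈ S.T (Fin 2 ⊕ Fin 2), S.Num n ∧ ∀ w z : S.C (Fin 2),
    S.tot (Fin 2 ⊕ Fin 2) (n * S.map Sum.inr w * S.map Sum.inl z) = S.Y w z ν

/-- **The key relation.** The statements `S_G`, `S_XY`, `S_Ker1`, `S_Ker2` are hypotheses.

PROOF. `k = |J| + 2`, `λ = α + (δ+1) β + (k-1)(β - α)`. For all `z`, with `W = ∫ w z`, the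
functions `X`, `Y` are linear in `Q`, so by `S_XY`
`0 = X_Q + (k-1) Y_Q = (α + (δ+1) β) W + X_ν + (k-1) ((β - α) W + Y_ν) = λ W + X_ν + (k-1) Y_ν`.
Let `n = n₁ + (k-1) n₂` with `n₁`, `n₂` from `S_Ker1`, `S_Ker2`; it is in `T` and numerically
trivial, and `∫ n w(inr) z(inl) = X_ν(z) + (k-1) Y_ν(z) = -λ ∫ w z`. By `S.nil` (`x = w`,
`c = -λ`) and `w ≠ 0`: `λ = 0`. -/
def S_Lam : Prop := ∀ (K : Type) [Field K] [CharZero K] (S : Sys K) (w : S.C (Fin 2)),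
  S.IsGrad w → w ≠ 0 → ∀ (J : Type) [Fintype J], ∀ τ ∈ S.T (Fin 2 ⊕ J), S.Sym τ →
  ∀ Q : S.C (Fin 4), S.IsQ τ Q → ∀ (α β : K), ∀ ν ∈ S.T (Fin 4), S.Num ν →
  Q = α • S.M1 + β • (S.M2 + S.M3) + ν →
  α + (S.delta + 1) * β + (Fintype.card J + 1) * (β - α) = 0

/-- **(REL)** The statements `S_Dia`, `S_Qex`, `S_Q4`, `S_Val`, `S_Lam` are hypotheses.

PROOF. By `S_Qex`, `S_Q4`: `Q = α M1 + β (M2 + M3) + ν`. By `S_Val`, `S_Dia` (`∫ M_i ν = 0`):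
`∫ τ² = ∫ M2 Q = α δ + β (δ² + δ)`, `∫ (contr τ)² = ∫ M1 Q = α δ² + 2 β δ`. With
`s = |J| + 1` and `λ = α + (δ+1) β + s (β - α) = 0` (`S_Lam`):
`s (α δ² + 2 β δ) - (δ + s - 1)(α δ + β (δ² + δ)) = -δ (δ - 1) λ = 0` (`linear_combination`). -/
def S_Rel : Prop := ∀ (K : Type) [Field K] [CharZero K] (S : Sys K) (w : S.C (Fin 2)),
  S.IsGrad w → w ≠ 0 → ∀ (J : Type) [Fintype J], ∀ τ ∈ S.T (Fin 2 ⊕ J), S.Sym τ →
  (Fintype.card J + 1) * S.tot J (S.contr τ * S.contr τ) =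
    (S.delta + Fintype.card J) * S.tot (Fin 2 ⊕ J) (τ * τ)

/-- **The chain.** The statements `S_Con`, `S_Rel` are hypotheses.

PROOF. (A) For every `r`: if `ρ ∈ T (JJ r)` is symmetric and `∫ ρ² = 0` then `∫ ρ EE_r = 0`.
Induction on `r`. `r = 0`: `ρ = c 1` by `const`, `c² = 0` (`tot_one`), and `∫ ρ 1 = c = 0`.
`r + 1`: `ρ ∈ T (Fin 2 ⊕ JJ r)`; by `S_Rel` and `card_JJ`, `(2r+1) ∫ (contr ρ)² = 0`, so
`∫ (contr ρ)² = 0`; `contr ρ` is in `T (JJ r)` and symmetric (`S_Con`), so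
`∫ (contr ρ) EE_r = 0`. By part (3) of `S_Con` (`V = JJ r`, `f = id`, `P = EE_r`) and
`tot_equiv` for `Equiv.sumComm` it equals `∫ ρ EE_(r+1)`.
(B) `ρ ∈ T (JJ (m+1)) = T (Fin 2 ⊕ JJ m)` symmetric: `S_Rel` gives
`(2m+1) ∫ (contr ρ)² = (δ + 2m) ∫ ρ² = 0`; now continue as in (A), applying (A) to `contr ρ`. -/
def S_Chain : Prop := ∀ (K : Type) [Field K] [CharZero K] (S : Sys K) (w : S.C (Fin 2)),
  S.IsGrad w → w ≠ 0 → ∀ m : ℕ, S.delta = -(2 * m : K) →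
  ∀ ρ ∈ S.T (JJ (m + 1)), S.Sym ρ → S.tot (JJ (m + 1)) (ρ * S.EE (m + 1)) = 0

/-- **`EE` and `EF`.**

PROOF. Induction on `r`. `r = 0`: `EE 0 = 1`, `EF 0 = 1` (empty product). `r + 1`: given `φ` for
`r` define `φ' : Fin 2 ⊕ JJ r ≃ Fin (r+1) ⊕ Fin (r+1)`, `inl 0 ↦ inl 0`, `inl 1 ↦ inr 0`,
`inr j ↦ Sum.map Fin.succ Fin.succ (φ j)`; `map φ' (map inl e * map inr (EE r)) =
map ![inl 0, inr 0] e * map (Sum.map succ succ) (map φ (EE r))`, and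
`EF (r+1) = e(inl 0, inr 0) * ∏_(i : Fin r) e(inl i.succ, inr i.succ)` (`Fin.prod_univ_succ`).
`EE r ∈ T (JJ r)`: induction, `T_one`, `T_mul`. -/
def S_EE : Prop := ∀ (K : Type) [Field K] (S : Sys K) (r : ℕ), S.EE r ∈ S.T (JJ r) ∧
  ∃ φ : JJ r ≃ Fin r ⊕ Fin r, S.map φ (S.EE r) = S.EF r

/-- **The numerically trivial class.** The statements `S_Chain`, `S_EE` are hypotheses.

PROOF. `EF ∈ T` by `S_EE` and `T_equiv`, so `Gam ∈ T`. Let `g ∈ T (Fin r ⊕ Fin r)`, `r = m + 1`.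
`∫ Gam g = ∑_σ ∫ (map σ EF) g = ∑_σ ∫ EF (map σ⁻¹ g) = ∫ EF ρ'` with
`ρ' = ∑_σ map σ g` (`tot_equiv`; reindex `σ ↦ σ⁻¹`). `ρ'` is symmetric and in `T`. Let
`ρ = map φ.symm ρ' ∈ T (JJ r)`; it is symmetric (conjugate the permutation by `φ`), and
`∫ EF ρ' = ∫ (map φ EE) ρ' = ∫ EE ρ = 0` by `S_Chain`. -/
def S_Gam : Prop := ∀ (K : Type) [Field K] [CharZero K] (S : Sys K) (w : S.C (Fin 2)),
  S.IsGrad w → w ≠ 0 → ∀ m : ℕ, S.delta = -(2 * m : K) →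
  S.Gam (m + 1) ∈ S.T (Fin (m + 1) ⊕ Fin (m + 1)) ∧ S.Num (S.Gam (m + 1))

/-- **Elimination of `r` variables.**

PROOF. Induction on `r`. `r = 0`: empty products, `tot_equiv` for `Equiv.sumEmpty`. `r + 1`:
`V ⊕ Fin (r+1) ≃ (V ⊕ Fin r) ⊕ Unit` (the last variable `Fin.last r`), the product over
`Fin (r+1)` is the product over the `Fin.castSucc j` times the last factor
`e(inl (π last), inr last) x(inr last)` (`Fin.prod_univ_castSucc`); eliminate it by `Cal.elim`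
(`ι = Unit`, `u = x`): the factor `x(inl (π last))` remains and goes into `P`. -/
def S_Elr : Prop := ∀ (K : Type) [Field K] (S : Sys K) (x : S.C Unit), S.Abs S.e x →
  ∀ (r : ℕ) (V : Type) [Finite V] (π : Fin r → V) (P : S.C V),
  S.tot (V ⊕ Fin r) (S.map Sum.inl P * ∏ j : Fin r, (S.map ![Sum.inl (π j), Sum.inr j] S.e *
    S.map (fun _ : Unit => (Sum.inr j : V ⊕ Fin r)) x)) =
  S.tot V (P * ∏ j : Fin r, S.map (fun _ : Unit => π j) x)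

/-- **A pair of input variables gives zero.**

PROOF. `v₁ ≠ v₂` are the two variables, `s : V' → V` the inclusion of the others. By `tot_equiv`
(`V' ⊕ Fin 2 ≃ V`) and `tot_mul` the integral is `(∫ P)(∫_(Fin 2) e(0,1) x(0) x(1))`, and
eliminating the variable `1` in the second factor (`Cal.elim`, `u = x`) gives
`∫ x x = 0`. -/
def S_Zero : Prop := ∀ (K : Type) [Field K] (S : Sys K) (x : S.C Unit), S.Abs S.e x →
  S.tot Unit (x * x) = 0 → ∀ (V V' : Type) [Finite V] [Finite V'] (s : V' → V) (v₁ v₂ : V),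
  Function.Bijective (Sum.elim s ![v₁, v₂]) → ∀ P : S.C V',
  S.tot V (S.map s P * (S.map ![v₁, v₂] S.e * S.map (fun _ : Unit => v₁) x *
    S.map (fun _ : Unit => v₂) x)) = 0

/-- **Evaluation, one permutation.** The statements `S_Elr`, `S_Zero` are hypotheses.

PROOF. `map σ (EF r) = ∏_i e(σ (inl i), σ (inr i))`, `map inr (pw x r) = ∏_j x(inr j)`. CASE 1:
there is `i` with `σ (inl i) = inr b` and `σ (inr i) = inr b'` (`b ≠ b'`). Then the whole product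
is `e(inr b, inr b') x(inr b) x(inr b')` times a product of classes which do not involve the
variables `inr b`, `inr b'`, i.e. of the form `map s P` with
`s : {v // v ≠ inr b ∧ v ≠ inr b'} → Fin r ⊕ Fin r` the inclusion (the factors are
`e(σ (inl i'), σ (inr i'))` for `i' ≠ i`, `x(inr j)` for `j ≠ b, b'`, and `y(inl ·)`). By
`S_Zero` the integral is `0`: take `n = 0`. CASE 2: there is no such `i`. Every pair
`{σ (inl i), σ (inr i)}` has at least one element in the left part, and the `r` pairs are a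
partition of `Fin r ⊕ Fin r`, so every pair has exactly one element `inr j` (counting) and one
element `inl (π j)`; `π : Fin r → Fin r` is bijective, and using `e_symm`
`map σ (EF r) = ∏_j e(inl (π j), inr j)` (reindex the product by the bijection `i ↦ j`). By
`S_Elr` (`V = Fin r`, `P = y`) the integral is `∫ y ∏_j x(π j) = ∫ y ∏_j x(j) = ∫ (pw x r) y`:
take `n = 1`. For `σ = 1` we are in CASE 2. -/
def S_EvS : Prop := ∀ (K : Type) [Field K] (S : Sys K) (x : S.C Unit), S.Abs S.e x →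
  S.tot Unit (x * x) = 0 → ∀ (r : ℕ) (σ : Equiv.Perm (Fin r ⊕ Fin r)), ∃ n : ℕ,
  (σ = 1 → n = 1) ∧ ∀ y : S.C (Fin r), S.tot (Fin r ⊕ Fin r)
    (S.map σ (S.EF r) * S.map Sum.inr (S.pw x r) * S.map Sum.inl y) =
      n * S.tot (Fin r) (S.pw x r * y)

/-- **Powers.**

PROOF. Induction on `r`; `Fin (r+1) ≃ Fin r ⊕ Unit`, `Fin.prod_univ_castSucc`, `tot_mul`; for
`r = 0` `tot_equiv` (`Fin 0 ≃ Empty`) and `tot_one`. -/
def S_Pow : Prop := ∀ (K : Type) [Field K] (S : Sys K) (z : S.C Unit) (r : ℕ),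
  S.tot (Fin r) (S.pw z r) = (S.tot Unit z) ^ r

/-- **The formal theorem.** The statements `S_Gam`, `S_EvS`, `S_Pow` are hypotheses.

PROOF. Let `r = m + 1`, `X = pw x r`. `X ≠ 0`: `pw x r * pw y r = pw (x * y) r` has `∫` equal to
`(∫ x y)^r ≠ 0` by `S_Pow`. By `S_EvS`: `∫ Gam X(inr) y(inl) = N ∫ X y` for all `y`, with `N`
the sum of the `n_σ`, `N ≥ 1`. By `S_Gam` and `S.nil` (`n = Gam r`, `x = X`, `c = N`): `N = 0` or
`X = 0`, a contradiction. -/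
def S_Formal : Prop := ∀ (K : Type) [Field K] [CharZero K] (S : Sys K) (w : S.C (Fin 2)),
  S.IsGrad w → w ≠ 0 → ∀ m : ℕ, S.delta = -(2 * m : K) → ∀ x y : S.C Unit, S.Abs S.e x →
  S.tot Unit (x * x) = 0 → S.tot Unit (x * y) ≠ 0 → False

end Statements

end Pool.Agent.Lib.MP_4ca46c_ag.Nil
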