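import Mathlib
import Pool.Agent.Lib.MP_4ca46c_ag.Sign.SpecA

/-!
# Specification L: linear algebra of the last step

`V = H(X)`, `n = dim X`, `A r` and `B r` the algebraic operators of degree `r` on `V` and `V ⊗ V`
(structure `OpData` of `Sign/SpecA.lean`), `ε = sgn n pr` the sign operator. `tr (f ε)` is the
supertrace. If numerically trivial operators of degree `0` on `V` and `V ⊗ V` are nilpotent and
there is a `K`-combination `w` of elements of `B (-1)` with `H w H = H` in even degrees
(`H = L ⊗ 1 + 1 ⊗ L`), then `ε` is algebraic.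
-/

set_option autoImplicit false

namespace Pool.Agent.Lib.MP_4ca46c_ag.Nil

open Module TensorProduct LinearMap Pool.Agent.Lib.MP_4ca46c_ag.Sign

section Defs

variable {K V : Type} [Field K] [AddCommGroup V] [Module K V]

/-- The operator `f` of degree `r` is numerically trivial: its supertrace with all the elements of
`A (-r)` vanishes. -/
def SNum (A : ℤ → AddSubgroup (Module.End K V)) (ε : Module.End K V) (r : ℤ)
    (f : Module.End K V) : Prop :=
  f ∈ A r ∧ ∀ g ∈ A (-r), LinearMap.trace K V (g * f * ε) = 0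

/-- Algebraic operators on `V` and `V ⊗ V` such that the numerically trivial ones of degree `0`
are nilpotent. -/
structure NilOp [FiniteDimensional K V] (n : ℕ) (pr : ℤ → Module.End K V) (L : Module.End K V)
    (A : ℤ → AddSubgroup (Module.End K V)) (B : ℤ → AddSubgroup (Module.End K (V ⊗[K] V))) :
    Prop where
  op : OpData n pr L A B
  nilA : ∀ f, SNum A (sgn n pr) 0 f → IsNilpotent f
  nilB : ∀ f, SNum B (TensorProduct.map (sgn n pr) (sgn n pr)) 0 f → IsNilpotent f

/-- The conclusion of Lemma Q' -/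
def HalfZero (pr : ℤ → Module.End K V) (u : Module.End K V) : Prop :=
  (∀ j, Even j → LinearMap.trace K V (u * pr j) = 0) ∨
    (∀ j, Odd j → LinearMap.trace K V (u * pr j) = 0)

end Defs

section Statements

/-- **The numerically trivial operators form an ideal.**

PROOF. Let `ε = sgn n pr`. Every `h ∈ A s` commutes with `ε`: `h pr_k = pr_(k+2s) h` for all `k`,
the parity of `k + 2s` is that of `k`, and the `pr_k` outside `[0, 2n]` vanish (both `h ε` and
`ε h` are the sum of `± pr_(k+2s) h` over all the integers `k` with `k` or `k + 2s` in `[0, 2n]`).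
Let `h ∈ A (-(s+r))`: `tr (h (g f) ε) = tr ((h g) f ε) = 0` as `h g ∈ A (-r)`, and
`tr (h (f g) ε) = tr (h f ε g) = tr ((g h) f ε) = 0` (`LinearMap.trace_mul_comm`). -/
def S_Idl : Prop := ∀ (K V : Type) [Field K] [AddCommGroup V] [Module K V]
  [FiniteDimensional K V] (n : ℕ) (pr : ℤ → Module.End K V)
  (A : ℤ → AddSubgroup (Module.End K V)), (∀ i, i < 0 ∨ 2 * (n : ℤ) < i → pr i = 0) →
  RatAlg pr A → ∀ (r s : ℤ) (f g : Module.End K V), SNum A (sgn n pr) r f → g ∈ A s →
    SNum A (sgn n pr) (s + r) (g * f) ∧ SNum A (sgn n pr) (r + s) (f * g)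

/-- **The sign operator of `V ⊗ V`.**

PROOF. `ε ⊗ ε = ∑_(i,j) (-1)^(i+j) pr_i ⊗ pr_j = ∑_c (-1)^c prT_c`; `prT c` is the sum of the
`pr_i ⊗ pr_(c-i)` and vanishes for `c` outside `[0, 4n]`. -/
def S_EpsT : Prop := ∀ (K V : Type) [Field K] [AddCommGroup V] [Module K V]
  [FiniteDimensional K V] (n : ℕ) (pr : ℤ → Module.End K V),
  (∀ i, i < 0 ∨ 2 * (n : ℤ) < i → pr i = 0) →
  TensorProduct.map (sgn n pr) (sgn n pr) = sgn (2 * n) (prT n pr) ∧
    ∀ i, i < 0 ∨ 2 * ((2 * n : ℕ) : ℤ) < i → prT n pr i = 0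

/-- **Tensor products of numerically trivial operators.** The statements `S_Idl`, `S_EpsT` are
hypotheses.

PROOF. `ε = sgn n pr`. `f ⊗ g ∈ B (r+s)` by `tensor`. Let `u ∈ B (-(r+s))`. As `f` and `g`
commute with `ε`, `u (f ⊗ g)(ε ⊗ ε) = (u (1 ⊗ g)) (1 ⊗ ε) (f ε ⊗ 1)`, so its trace is
`tr (ptrR ((u (1 ⊗ g)) (1 ⊗ ε)) (f ε))` by `trace_mul_map_one`, and
`ptrR ((u (1 ⊗ g)) (1 ⊗ ε)) ∈ A (-r)` by `OpData.ptr`, since `u (1 ⊗ g) ∈ B (-r)`
(`1 ⊗ g ∈ B s` by `tensor`). So it is `0`. For `g ⊗ f`: let `γ = gswap n pr ∈ B 0`. `γ γ = 1` and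
`γ (f ⊗ g) = (g ⊗ f) γ` because `f`, `g` map `V^i` to `V^(i+2r)`, `V^(i+2s)` and so preserve
the parity of the degree. So `g ⊗ f = γ (f ⊗ g) γ`, and the numerically trivial operators on
`V ⊗ V` are an ideal (`S_Idl` for `prT n pr`, `2 n`, `B`, with `S_EpsT`). -/
def S_AB2 : Prop := ∀ (K V : Type) [Field K] [CharZero K] [AddCommGroup V] [Module K V]
  [FiniteDimensional K V] (n : ℕ) (pr : ℤ → Module.End K V) (L : Module.End K V)
  (A : ℤ → AddSubgroup (Module.End K V)) (B : ℤ → AddSubgroup (Module.End K (V ⊗[K] V))),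
  OpData n pr L A B → ∀ (r s : ℤ) (f g : Module.End K V), SNum A (sgn n pr) r f → g ∈ A s →
    SNum B (TensorProduct.map (sgn n pr) (sgn n pr)) (r + s) (TensorProduct.map f g) ∧
    SNum B (TensorProduct.map (sgn n pr) (sgn n pr)) (r + s) (TensorProduct.map g f)

/-- **Lemma Q'.** The statements `S_Idl`, `S_EpsT`, `S_AB2` are hypotheses; the theorems `StInj`
and `StSurj` of `Sign/SpecA.lean` are proved in `Sign/Inj.lean` and `Sign/Surj.lean`. Compare the
proof of `StQ` (`Sign/Q.lean`).

PROOF. `t j = tr (g L^r f | V^j)`. Put `Om = ∑_(a=0..r) (-1)^a L^a f ⊗ L^(r-a) f` and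
`W = ∑_(a=0..r) (-1)^a g L^a ⊗ g L^(r-a)`, `H = LL L`. By telescoping (with
`c_a = L^a f ⊗ L^(r+1-a) f`) `H Om = ∑ (-1)^a (c_(a+1) + c_a) = f ⊗ L^(r+1) f + (-1)^r
L^(r+1) f ⊗ f`, which is numerically trivial by `S_AB2` (in `B (r+1)`); in the same way `W H`
is numerically trivial, in `B (-r+1)`. For every `c`
(*) `tr (W Om prT_c) = (-1)^r (r+1) ∑_(i+j=c) t i * t j` (as in `StQ`).
Let `c` be even and `c ≠ 2n - 2r`. CLAIM: `tr (W Om prT_c) = 0`. Write `w = ∑ c_k w_k`
with `w_k ∈ B (-1)`. If `c + 2r < 2n`: for `z` of degree `c` the vector `Om z - w H Om z` has even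
degree `c + 2r < 2n` and is killed by `H` (`H w H = H` there), so it is `0` by `StInj`; so
`W Om = (W w)(H Om) = ∑ c_k (W w_k)(H Om)` on degree `c`, where `(W w_k)(H Om)` is in `B 0` and
numerically trivial (`S_Idl`), hence nilpotent by `nilB`; it commutes with `prT_c`, so
`tr ((W w_k)(H Om) prT_c) = 0`. If `c + 2r > 2n`: by `StSurj` every `z` of degree `c + 2r` is `H y`
with `y` of even degree `c + 2r - 2`, so `H w z = H w H y = H y = z`; so `W Om = (W H)(w Om) =
∑ c_k (W H)(w_k Om)` on degree `c`, again with trace `0` on degree `c`.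
So `∑_(i+j=c) t i t j = 0` for even `c ≠ 2n - 2r` (characteristic zero). Suppose that `t i ≠ 0` for
some even `i` and `t i' ≠ 0` for some odd `i'`. Let `m` be the least and `M` the greatest index
with `t ≠ 0` (all such indices are in `[0, 2n]`), so `m < M`. For `c = 2m` the sum is `(t m)^2 ≠ 0`,
so `m = n - r`; for `c = 2M` it is `(t M)^2 ≠ 0`, so `M = n - r`: a contradiction. -/
def S_Q2 : Prop := ∀ (K V : Type) [Field K] [CharZero K] [AddCommGroup V] [Module K V]
  [FiniteDimensional K V] (n : ℕ) (pr : ℤ → Module.End K V) (L : Module.End K V)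
  (A : ℤ → AddSubgroup (Module.End K V)) (B : ℤ → AddSubgroup (Module.End K (V ⊗[K] V))),
  NilOp n pr L A B → ∀ w ∈ Submodule.span K (B (-1) : Set (Module.End K (V ⊗[K] V))),
  (∀ c, Even c → LL L * w * LL L * prT n pr c = LL L * prT n pr c) →
  ∀ (r : ℕ), ∀ f ∈ A 0, ∀ g ∈ A (-r), SNum A (sgn n pr) (r + 1) (L ^ (r + 1) * f) →
    SNum A (sgn n pr) 1 (g * L ^ (r + 1)) → HalfZero pr (g * L ^ r * f)

/-- **Lemma Q', odd version**: `H w H = H` on odd degrees instead of even degrees.

PROOF. As in `S_Q2`: now `tr (W Om prT_c) = 0` for every odd `c` (`2n - 2r` is even, so no `c` is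
excluded), i.e. `∑_(i+j=c) t i t j = 0` for all odd `c`. Suppose that `t i ≠ 0` for some even `i`
and for some odd `i'`; let `m₀` be the least even and `m₁` the least odd index with `t ≠ 0`, and
`c = m₀ + m₁`, an odd number: in the sum over `i + j = c` one of `i`, `j` is even and the other
odd, so (even one `≥ m₀`, odd one `≥ m₁`) only the terms `(m₀, m₁)` and `(m₁, m₀)` are not zero
and the sum is `2 t m₀ t m₁ ≠ 0`, a contradiction. -/
def S_Q2o : Prop := ∀ (K V : Type) [Field K] [CharZero K] [AddCommGroup V] [Module K V]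
  [FiniteDimensional K V] (n : ℕ) (pr : ℤ → Module.End K V) (L : Module.End K V)
  (A : ℤ → AddSubgroup (Module.End K V)) (B : ℤ → AddSubgroup (Module.End K (V ⊗[K] V))),
  NilOp n pr L A B → ∀ w ∈ Submodule.span K (B (-1) : Set (Module.End K (V ⊗[K] V))),
  (∀ c, Odd c → LL L * w * LL L * prT n pr c = LL L * prT n pr c) →
  ∀ (r : ℕ), ∀ f ∈ A 0, ∀ g ∈ A (-r), SNum A (sgn n pr) (r + 1) (L ^ (r + 1) * f) →
    SNum A (sgn n pr) 1 (g * L ^ (r + 1)) → HalfZero pr (g * L ^ r * f)

/-- **Duality for a rational symmetric form.**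

PROOF. `M` is a group of operators closed under rational multiples. Choose a finite family
`g_1, .., g_m ∈ M` which spans `span K M` over `K` (`End V` is finite dimensional). If
`x ∈ M` and `F (x g_i) = 0` for all `i`, then `F (x y) = 0` for all `y ∈ M`, so
`x ∈ S` by `hS`. View `M` as a `ℚ`-vector space (`End V` is a module over `ℚ` through `K`). There
is a `ℚ`-linear functional `φ : M → ℚ` which vanishes on `S` with `φ x ≠ 0`
(`Submodule.exists_le_ker_of_notMem`). The rational functionals `y ↦ F (y g_i)` have the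
property that an element killed by all of them is in `S`, hence killed by `φ`; so
`φ = ∑ c_i F (· g_i)` with rational `c_i` (`mem_span_of_iInf_ker_le_ker`), and
`e = ∑ c_i g_i` has `F (y e) = φ y` for `y ∈ M`. Compare `exists_finite_test` and
`exists_representing` in `Pool/Agent/Results/MP_4ca46c_ag/KunnethCriterion.lean`. -/
def S_Orth : Prop := ∀ (K V : Type) [Field K] [CharZero K] [AddCommGroup V] [Module K V]
  [FiniteDimensional K V] (M S : AddSubgroup (Module.End K V)),
  (∀ (q : ℚ), ∀ f ∈ M, (q : K) • f ∈ M) → (∀ (q : ℚ), ∀ f ∈ S, (q : K) • f ∈ S) → S ≤ M →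
  ∀ F : Module.End K V →ₗ[K] K, (∀ x ∈ M, ∀ y ∈ M, ∃ q : ℚ, F (x * y) = q) →
  (∀ x ∈ M, (∀ y ∈ M, F (x * y) = 0) → x ∈ S) → ∀ x ∈ M, x ∉ S →
  ∃ e ∈ M, (∀ l ∈ S, F (l * e) = 0) ∧ F (x * e) ≠ 0

/-- **Splitting of the identity.** The statements `S_Idl`, `S_Orth` are hypotheses. Compare `StK1`
(`Sign/K1.lean`).

PROOF. `ε = sgn n pr`, `str f = tr (f ε)`; `str (f g) = str (g f)` for algebraic `f`, `g`.
Let `p` (resp. `p'`) be the group of the `x ∈ A 0` with `tr (x a pr_j) = 0` for all `a ∈ A 0` and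
all odd (resp. all even) `j`; and `S = p + p'`. They are two-sided ideals of `A 0` stable under
rational multiples, and contain the numerically trivial `x ∈ A 0` (`x a` is numerically trivial by
`S_Idl`, nilpotent by `nilA` and commutes with `pr_j`, so `tr (x a pr_j) = 0`). CLAIM: `1 ∈ S`. If
not, by `S_Orth` (`M = A 0`, `F f = str f`, rational by `OpData.trace`) there is `e ∈ A 0` with
`str (l e) = 0` for `l ∈ S` and `str e ≠ 0`; so `e` is not numerically trivial, but `l e` is, for
`l ∈ S` (`a l ∈ S` for `a ∈ A 0`). Let `r` be maximal such that there are `s : ℤ` and `x' ∈ A s`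
with `L^r x' e` not numerically trivial (an element of `A (r+s)`); it exists since `r = 0`, `x' = 1`
is possible and `L^(2n+1) = 0`. Fix such `s`, `x'`, put `x = x' e`. By maximality `L^(r+1) x'' e` is
numerically trivial for all `s'` and `x'' ∈ A s'`. There is `c ∈ A (-(r+s))` with
`str (c L^r x) ≠ 0`. Put `y = c L^r x ∈ A 0`. It is not nilpotent (a nilpotent element of `A 0` has
trace `0` on every `V^j`), so `y^3` is not nilpotent, so `y^3` is not numerically trivial
(`nilA`). Put `b = c L^r ∈ A (-s)`, `g = x c ∈ A (-r)`, `f = x c L^r ∈ A 0`,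
`l = b g L^r f x' ∈ A 0`. Then `y^3 = l e`. And
* `L^(r+1) f = (L^(r+1) x' e) c L^r` is numerically trivial (`S_Idl`);
* `g L^(r+1) = x c L^(r+1)` is numerically trivial: for `y' ∈ A (-1)`,
  `str (y' x' e c L^(r+1)) = str ((L^(r+1) (y' x') e) c) = 0`;
* for `a ∈ A 0`, `tr (l a pr_j) = tr (b g L^r f x' a pr_j) = tr (g L^r (f x' a b) pr_(j+2s))`
  (since `pr_j b = b pr_(j+2s)`), and `f' = f x' a b ∈ A 0` satisfies the hypothesis of the
  lemma; so by `hQ` the numbers `tr (l a pr_j)` vanish for all even `j` or for all odd `j`.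
The sets of the `a ∈ A 0` for which they vanish for all even `j`, respectively for all odd `j`, are
subgroups of `A 0` with union `A 0`; so one of them is `A 0` (a group is not the union of two
proper subgroups), and `l ∈ p'` or `l ∈ p`. So `l ∈ S` and `y^3 = l e` is numerically trivial: a
contradiction. -/
def S_K12 : Prop := ∀ (K V : Type) [Field K] [CharZero K] [AddCommGroup V] [Module K V]
  [FiniteDimensional K V] (n : ℕ) (pr : ℤ → Module.End K V) (L : Module.End K V)
  (A : ℤ → AddSubgroup (Module.End K V)) (B : ℤ → AddSubgroup (Module.End K (V ⊗[K] V))),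
  NilOp n pr L A B →
  (∀ (r : ℕ), ∀ f ∈ A 0, ∀ g ∈ A (-r), SNum A (sgn n pr) (r + 1) (L ^ (r + 1) * f) →
    SNum A (sgn n pr) 1 (g * L ^ (r + 1)) → HalfZero pr (g * L ^ r * f)) →
  ∃ x ∈ A 0, ∃ x' ∈ A 0, x + x' = 1 ∧
    (∀ a ∈ A 0, ∀ j, Odd j → LinearMap.trace K V (x * a * pr j) = 0) ∧
    (∀ a ∈ A 0, ∀ j, Even j → LinearMap.trace K V (x' * a * pr j) = 0)

/-- **The sign operator is algebraic.** Compare `StK2` (`Sign/K2.lean`).

PROOF. For odd `j` the powers of `x` have trace `0` on `V^j` (`a = x^m`, `(x pr_j)^(m+1) =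
x^(m+1) pr_j`), so `x pr_j` is nilpotent (`isNilpotent_of_trace_pow`, file `Split.lean`); for
even `j` the same holds for `x' = 1 - x`. Choose `M ≥ 1` with `x^M pr_j = 0` for odd `j` and
`(1 - x)^M pr_j = 0` for even `j`. Then `1 - (1 - x^M)^M` is the projector `π` onto the even
part: on `V^j` with `j` odd it is `1 - 1`, and for even `j` the operator `1 - x^M` is a multiple
of `1 - x` (a commuting one), so its `M`-th power is `0` there. So `π ∈ A 0` and
`sgn n pr = 2 π - 1 ∈ A 0`. -/
def S_K22 : Prop := ∀ (K V : Type) [Field K] [CharZero K] [AddCommGroup V] [Module K V]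
  [FiniteDimensional K V] (n : ℕ) (pr : ℤ → Module.End K V) (L : Module.End K V)
  (A : ℤ → AddSubgroup (Module.End K V)), LefMod n pr L → RatAlg pr A →
  ∀ x ∈ A 0, ∀ x' ∈ A 0, x + x' = 1 →
    (∀ a ∈ A 0, ∀ j, Odd j → LinearMap.trace K V (x * a * pr j) = 0) →
    (∀ a ∈ A 0, ∀ j, Even j → LinearMap.trace K V (x' * a * pr j) = 0) → sgn n pr ∈ A 0

/-- **The last step.** The statements `S_Q2`, `S_K12`, `S_K22` are hypotheses; assembly. -/
def S_SgnN : Prop := ∀ (K V : Type) [Field K] [CharZero K] [AddCommGroup V] [Module K V]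
  [FiniteDimensional K V] (n : ℕ) (pr : ℤ → Module.End K V) (L : Module.End K V)
  (A : ℤ → AddSubgroup (Module.End K V)) (B : ℤ → AddSubgroup (Module.End K (V ⊗[K] V))),
  NilOp n pr L A B → ∀ w ∈ Submodule.span K (B (-1) : Set (Module.End K (V ⊗[K] V))),
  (∀ c, Even c → LL L * w * LL L * prT n pr c = LL L * prT n pr c) → sgn n pr ∈ A 0

/-- **`C⁺` implies nilpotence.**

PROOF. `f` commutes with `ε = sgn n pr ∈ A 0`. For `m ≥ 1`: `f^(m-1) ε ∈ A 0` (with
`f^(m-1) ∈ A 0`), so `tr (f^m) = tr ((f^(m-1) ε) f ε) = 0` (`ε ε = 1`). So `f` is nilpotent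
(`isNilpotent_of_trace_pow`, file `Split.lean`). -/
def S_Conv : Prop := ∀ (K V : Type) [Field K] [CharZero K] [AddCommGroup V] [Module K V]
  [FiniteDimensional K V] (n : ℕ) (pr : ℤ → Module.End K V) (L : Module.End K V)
  (A : ℤ → AddSubgroup (Module.End K V)), LefMod n pr L → RatAlg pr A → sgn n pr ∈ A 0 →
  ∀ f, SNum A (sgn n pr) 0 f → IsNilpotent f

end Statements

section Idempotent

/-- A linear algebra datum for the choice of the idempotent: an algebra `R` of operators on a
finite dimensional space with an anti-involution `t` which preserves the trace, and a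
homomorphism `κ : R → K`. -/
structure StarAlg (K V : Type) [Field K] [AddCommGroup V] [Module K V] where
  R : Subalgebra K (Module.End K V)
  t : R →ₗ[K] R
  t_mul : ∀ x y, t (x * y) = t y * t x
  t_t : ∀ x, t (t x) = x
  trace_t : ∀ x, LinearMap.trace K V (t x : Module.End K V) = LinearMap.trace K V x
  κ : R →ₐ[K] K
  κ_t : ∀ x, κ (t x) = κ x

/-- **The minimal symmetric idempotent.**

PROOF. Among the symmetric idempotents `e` of `R` with `κ e = 1` (there is one, `e = 1`) choose one
with minimal rank (`finrank` of the range). Let `x ∈ R` with `κ x = 0`; put `z = e x e`. (1) If `z`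
is symmetric (`t z = z`) then it is nilpotent: otherwise (Fitting) there is a polynomial `p` such
that `f = z p(z)` is a nonzero idempotent: the minimal polynomial of `z` is `X^a q` with
`q(0) ≠ 0`, and `deg q > 0` as `z` is not nilpotent; by Bezout `1 = u X^(a+1) + v q`
and `f = u(z) z^(a+1)` is idempotent (`f (1 - f) = u(z) z^(a+1) v(z) q(z) = 0`) and nonzero
(otherwise `1 = v(z) q(z)` and `q(z)` is invertible, while `z^a q(z) = 0` gives `z^a = 0`). `f` is
symmetric, `κ f = 0` (`κ z = κ x = 0`), `e f = f e = f`. So `e - f` is a symmetric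
idempotent with `κ = 1` of smaller rank: a contradiction. (2) In general `z + t z` is symmetric and of
the form `e x' e` with `κ x' = 0` (`x' = x + t x`), so it is nilpotent and
`2 tr z = tr (z + t z) = 0`. So all the elements of `e (ker κ) e` have trace `0`; the powers
`z^m`, `m ≥ 1`, are in `e (ker κ) e`, so `z` is nilpotent (`isNilpotent_of_trace_pow`). -/
def S_Idem : Prop := ∀ (K V : Type) [Field K] [CharZero K] [AddCommGroup V] [Module K V]
  [FiniteDimensional K V] (S : StarAlg K V), ∃ e : S.R, e * e = e ∧ S.t e = e ∧ S.κ e = 1 ∧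
    ∀ x : S.R, S.κ x = 0 → IsNilpotent (e * x * e)

end Idempotent

end Pool.Agent.Lib.MP_4ca46c_ag.Nil
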