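import Pool.Agent.Lib.MP_4ca46c_ag.Nil.Act
import Pool.Agent.Lib.MP_4ca46c_ag.Nil.SpecD
import Pool.Agent.Lib.MP_4ca46c_ag.Nil.SpecL

/-!
# Specification I: the cohomology of the powers of a generic section

Read `Nil/Inst.lean`, `Nil/Act.lean`, `Nil/Ev.lean`, `Nil/CalOf.lean` and the folder `Nil/P` first.
`W : PreWeil K 𝒱` is a Weil cohomology theory, `pw Y ι` is the power `Y^ι`, `pj Y i` its
projections, `pm Y f : pw Y κ ⟶ pw Y ι` the morphism `y ↦ y ∘ f`, `pl` the morphism with given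
components. `W.calOf Y` is the calculus of EVEN classes on the powers of `Y`, and `W.cv Y u` is the
class in `W.H (pw Y ι)` of an element `u` of `(W.calOf Y).C ι` (all compatibilities hold by `rfl`,
see `cv_map`, `cv_mul`, `cv_int`, `tot_cv`, `cv_act` in `Nil/Act.lean`). `W.eps X` is the sign
operator. Rule (E): `W.tr_eps a b : tr (b * eps a) = tr (a * b)`, and
`tr (eps a * b) = tr (a * eps b)` (`eps_mul`, `tr_eps_self`, `eps_eps`).
`W.ind`, `W.ind_tm`, `W.ind_sum` are the induction principles (homogeneous classes, Künneth).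
-/

set_option autoImplicit false

open CategoryTheory Limits MonoidalCategory CartesianMonoidalCategory TensorProduct

namespace Pool.Agent.Lib.MP_4ca46c_ag.Nil

open PreWeil (IsPl pw pj pm pl pmIso pwSum pwUnit pwEmpty pwTwo)

namespace PreWeil

variable {K : Type} [Field K] [CharZero K] {𝒱 : Type 1} [Category.{0} 𝒱]
  [CartesianMonoidalCategory 𝒱] (W : PreWeil K 𝒱)

/-- the data of the section `r : Y ⟶ Z` if the diagonal of `Y` is not in the ideal `JK r` -/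
structure Dat {Y Z : 𝒱} (r : Y ⟶ Z) (e : Module.End K (W.H Y)) (E : (W.calOf Y).C (Fin 2)) :
    Prop where
  sec : W.Sec4 r
  nil : W.NilPow Y
  not : (LinearMap.id : W.H Y →ₗ[K] W.H Y) ∉ W.JK r
  isE : W.IsE r e
  cls : W.IsCls Y e E

/-- `s : ι' → ι` is injective and misses exactly `i` -/
def IsCo {ι ι' : Type} (s : ι' → ι) (i : ι) : Prop :=
  Function.Bijective (Sum.elim s (fun _ : Unit => i))

end PreWeil

section Adjoints

/-- **Adjoints.**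

PROOF. (0) Left nondegeneracy: if `tr (a * z) = tr (a * z')` for all `a` then `z = z'`, because
`tr (a * z) = tr (z * eps a)` (E) and `eps` is surjective. (1) The first half is `push_spec`; the
second: `tr (pull g y * x) = tr (x * eps (pull g y)) = tr (x * pull g (eps y)) =
tr (push g x * eps y) = tr (y * push g x)` by (E), `eps_pull`, `push_spec`. (2) is (0). (3) For all
`a`, `b`: `tr (a * g (eps b)) = tr (f a * eps b) = tr (eps (f a) * b) = tr (f (eps a) * b) =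
tr (eps a * g b) = tr (a * eps (g b))`, so `g ∘ eps = eps ∘ g` by (0); and
`tr (g b * a) = tr (a * eps (g b)) = tr (a * g (eps b)) = tr (f a * eps b) = tr (b * f a)`.
(4) Let `σ = lift (snd Y X) (fst Y X) : Y ⊗ X ⟶ X ⊗ Y`, an isomorphism. `tr (a * z) =
tr (z * eps a)` with `z = op (pull σ u) b` is, by `op_spec`, the trace of
`pull σ u * pull snd b * pull fst (eps a)` on `Y ⊗ X`; by `tr_iso` for `σ` it is the trace on
`X ⊗ Y` of `u * pull fst b * pull snd (eps a) = (u * pull fst b) * eps (pull snd a)`, which is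
`tr (pull snd a * (u * pull fst b)) = tr (u * pull snd a * pull fst b)` by (E) and `Ev_comm`, i.e.
`tr (op u a * b)`. (5) With the isomorphism `φ : H(X) → H(X)^*`, `φ b = tr (· * b)` (injective by
(0), equal dimensions), `φ ∘ g = f^* ∘ φ` (`f^*` the dual map), and `trace (f^*) = trace f`
(`LinearMap.trace_transpose'`, `LinearMap.trace_conj'`). -/
def S_Adj : Prop := ∀ (K : Type) [Field K] [CharZero K] (𝒱 : Type 1) [Category.{0} 𝒱]
  [CartesianMonoidalCategory 𝒱] (W : PreWeil K 𝒱),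
  (∀ {X Y : 𝒱} (g : X ⟶ Y), W.IsAdj (W.push g) (W.pull g).toLinearMap ∧
    W.IsAdj (W.pull g).toLinearMap (W.push g)) ∧
  (∀ {X Y : 𝒱} (f : W.H Y →ₗ[K] W.H X) (g g' : W.H X →ₗ[K] W.H Y), W.IsAdj f g → W.IsAdj f g' →
    g = g') ∧
  (∀ {X Y : 𝒱} (f : W.H Y →ₗ[K] W.H X) (g : W.H X →ₗ[K] W.H Y), W.IsAdj f g →
    W.eps X ∘ₗ f = f ∘ₗ W.eps Y → W.eps Y ∘ₗ g = g ∘ₗ W.eps X ∧ W.IsAdj g f) ∧
  (∀ {X Y : 𝒱} (u : W.H (X ⊗ Y)), u ∈ W.Ev (X ⊗ Y) →
    W.IsAdj (W.op u) (W.op (W.pull (lift (snd Y X) (fst Y X)) u))) ∧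
  (∀ {X : 𝒱} (f g : Module.End K (W.H X)), W.IsAdj f g →
    LinearMap.trace K (W.H X) f = LinearMap.trace K (W.H X) g)

/-- **Combinations of algebraic correspondences.**

PROOF. (1) `Submodule.span_induction` twice, with `cor_comp`. (2) `Submodule.span_induction`; for
`f = op u` with `u` algebraic use `mem_cor` and `cor_gr`, `cor_gr_zero`, `eps_gr` on homogeneous
classes (the degree is changed by `2 r`). (3) `cor_pull`, `cor_push`, `cor_id`. (4) `op` is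
linear (`op_add`, `op_smul`); `Submodule.span_induction` and `mem_cor` in both directions (a
correspondence of degree `r` is `0` or `op u` with `u` in `Alg (X ⊗ Y) c`, `c = dim Y + r`).
(5) `r_* ∈ CK Z Y 1`, `s ∈ CK Z Z (-1)`, `r^* ∈ CK Y Z 0`. (6) `cor_gr` and
`Submodule.span_induction`. -/
def S_CK : Prop := ∀ (K : Type) [Field K] [CharZero K] (𝒱 : Type 1) [Category.{0} 𝒱]
  [CartesianMonoidalCategory 𝒱] (W : PreWeil K 𝒱),
  (∀ {X Y Z : 𝒱} (m n : ℤ), ∀ f ∈ W.CK X Y m, ∀ g ∈ W.CK Y Z n, f ∘ₗ g ∈ W.CK X Z (m + n)) ∧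
  (∀ {X Y : 𝒱} (m : ℤ), ∀ f ∈ W.CK X Y m, W.eps X ∘ₗ f = f ∘ₗ W.eps Y) ∧
  (∀ {X Y : 𝒱} (g : X ⟶ Y), (W.pull g).toLinearMap ∈ W.CK X Y 0 ∧
    W.push g ∈ W.CK Y X ((W.dim Y : ℤ) - W.dim X) ∧
    (LinearMap.id : W.H X →ₗ[K] W.H X) ∈ W.CK X X 0) ∧
  (∀ {X Y : 𝒱} (m : ℤ) (c : ℕ), (c : ℤ) = W.dim Y + m →
    (∀ u ∈ W.AK (X ⊗ Y) c, W.op u ∈ W.CK X Y m) ∧
    ∀ f ∈ W.CK X Y m, ∃ u ∈ W.AK (X ⊗ Y) c, f = W.op u) ∧
  (∀ {Y Z : 𝒱} (r : Y ⟶ Z), W.dim Z = W.dim Y + 1 → W.JK r ≤ W.CK Y Y 0) ∧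
  (∀ {X : 𝒱}, ∀ f ∈ W.CK X X 0, ∀ i, ∀ x ∈ W.gr X i, f x ∈ W.gr X i)

/-- **Adjoints of algebraic correspondences.** The statements `S_Adj`, `S_CK` are hypotheses.

PROOF. `Submodule.span_induction`: for `f = op u`, `u ∈ AlgZ (X ⊗ Y) (dim Y + m)`, take
`g = op (pull σ u)` with `σ = lift (snd Y X) (fst Y X)`; `dim Y + m = dim X + (m + dim Y - dim X)`.
`IsAdj f g` by `S_Adj` part 4 (algebraic classes have even degree, `Ev_of_gr`), and `IsAdj g f` by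
`S_Adj` part 3 and `S_CK` part 2. Sums and multiples are clear. -/
def S_AdK : Prop := ∀ (K : Type) [Field K] [CharZero K] (𝒱 : Type 1) [Category.{0} 𝒱]
  [CartesianMonoidalCategory 𝒱] (W : PreWeil K 𝒱) {X Y : 𝒱} (m : ℤ), ∀ f ∈ W.CK X Y m,
  ∃ g ∈ W.CK Y X (m + W.dim Y - W.dim X), W.IsAdj f g ∧ W.IsAdj g f

/-- **The ideal `JK r`.** The statements `S_Adj`, `S_CK`, `S_AdK` are hypotheses.

PROOF. (1) By `S_CK` part 4, `f = op u` with `u ∈ AK (Y ⊗ Y) (dim Y)`; `Submodule.span_induction`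
with `Sec4.step0`. (2) For `j = r^* s r_*`, `j' = r^* s' r_*` in `JK r`: `j ∘ j' = r^* s'' r_*` with
`s'' = s ∘ r_* ∘ r^* ∘ s' ∈ CK Z Z (-1 + 1 + 0 - 1)` (`dim Z = dim Y + 1`); for
`f = κ id + j'` (part 1) the claim follows. (3) If `s'` is the adjoint of `s` (`S_AdK`, in
`CK Z Z (-1 + dim Z - dim Z)`) then `r^* s' r_*` is the adjoint of `r^* s r_*`, since `r^*` and
`r_*` are adjoint to each other (`S_Adj` part 1). -/
def S_Jdl : Prop := ∀ (K : Type) [Field K] [CharZero K] (𝒱 : Type 1) [Category.{0} 𝒱]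
  [CartesianMonoidalCategory 𝒱] (W : PreWeil K 𝒱) {Y Z : 𝒱} (r : Y ⟶ Z), W.Sec4 r →
  (∀ f ∈ W.CK Y Y 0, ∃ κ : K, f - κ • LinearMap.id ∈ W.JK r) ∧
  (∀ j ∈ W.JK r, ∀ f ∈ W.CK Y Y 0, f ∘ₗ j ∈ W.JK r ∧ j ∘ₗ f ∈ W.JK r) ∧
  (∀ j ∈ W.JK r, ∃ j' ∈ W.JK r, W.IsAdj j j')

/-- **The idempotent.** The statements `S_Adj`, `S_CK`, `S_AdK`, `S_Jdl`, `S_Idem` (from
`Nil/SpecL.lean`) are hypotheses.

PROOF. `R` = the subalgebra of `End (H(Y))` with underlying space `CK Y Y 0` (`S_CK` parts 1, 3).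
For `x ∈ R` let `t x ∈ R` be the adjoint (`S_AdK` for `X = Y`, `m = 0`; unique by `S_Adj` part 2, so
`t` is linear, `t (x y) = t y t x`, `t (t x) = x`), `trace (t x) = trace x` (`S_Adj` part 5). Since
`id` is not in `JK r` the number `κ` in `S_Jdl` part 1 is unique; `κ : R → K` is a homomorphism
of algebras with kernel `JK r` (`f g - κ_f κ_g = (f - κ_f) g + κ_f (g - κ_g) ∈ JK r` by `S_Jdl`
part 2), and `κ (t x) = κ x` by `S_Jdl` part 3 (`t (x - κ) = t x - κ`). `S_Idem` gives `e` with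
`e e = e`, `t e = e`, `κ e = 1` (so `1 - e ∈ JK r`) and `e x e` nilpotent for `κ x = 0`, in
particular for `x ∈ JK r` (which is in `R` by `S_CK` part 5). -/
def S_ExE : Prop := ∀ (K : Type) [Field K] [CharZero K] (𝒱 : Type 1) [Category.{0} 𝒱]
  [CartesianMonoidalCategory 𝒱] (W : PreWeil K 𝒱) {Y Z : 𝒱} (r : Y ⟶ Z), W.Sec4 r →
  (LinearMap.id : W.H Y →ₗ[K] W.H Y) ∉ W.JK r → ∃ e, W.IsE r e

/-- **The trace pairing and composition.**

PROOF. Both sides are bilinear in `u`, `v`; let `u = tm a b`, `v = tm c d` with homogeneous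
`a`, `b`, `c`, `d` (`ind_tm`, `ind`). `pull (lift (snd X Y) (fst X Y)) (tm c d) =
pull snd c * pull fst d = (-1)^(|c||d|) tm d c` (`pull_tm`, `comm_smul`), and
`tr (tm a b * tm d c) = (-1)^(|b||d|) tr (a d) tr (b c)` (`tr_four`). On the other side
`op u ∘ op v = op (comp u v)`, `comp (tm a b) (tm c d) = tr (b c) • tm a d` (`comp_tm`), and by
`trace_eps` the trace is `tr (b c) tr (a d)`. If `tr (b c) ≠ 0` then `|b| + |c| = 2 dim Y`, so
`|c||d| + |b||d|` is even. -/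
def S_Lef : Prop := ∀ (K : Type) [Field K] [CharZero K] (𝒱 : Type 1) [Category.{0} 𝒱]
  [CartesianMonoidalCategory 𝒱] (W : PreWeil K 𝒱) {X Y : 𝒱} (u : W.H (X ⊗ Y)) (v : W.H (Y ⊗ X)),
  W.tr (X ⊗ Y) (u * W.pull (lift (snd X Y) (fst X Y)) v) =
    LinearMap.trace K (W.H X) (W.op u ∘ₗ W.op v ∘ₗ W.eps X)

/-- **Classes of operators.**

PROOF. (1) `op : H(Y ⊗ Y) → End (H(Y))` is linear and injective (`op_inj`), and the dimensions are
equal (`kun`, `Module.finrank_tensorProduct`, `Module.finrank_linearMap`), so `φ = op u₀`. For all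
`z ∈ H(Y ⊗ Y)`: `op (eps z) = eps ∘ op z ∘ eps` (check on `z = tm a b`: `eps (tm a b) =
tm (eps a) (eps b)` by `eps_mul`, `eps_pull`, and `tr (eps b * x) = tr (b * eps x)`). So
`op (eps u₀) = eps φ eps = φ` and `eps u₀ = u₀`, i.e. `u₀` is even, and
`u = pull (pwTwo Y).hom u₀`. (2) `op_inj` and `pull (pwTwo Y).inv` is injective. (3) `S_CK` part 4
(a hypothesis): `φ = op u₀` with `u₀ ∈ AK (Y ⊗ Y) (dim Y)`, so `cv u = pull (pwTwo Y).hom u₀` by
`op_inj`, and it is in `AK (pw Y (Fin 2)) (dim Y)` (`alg_pull`); `Nat.card (Fin 2) * dim Y / 2 =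
dim Y`. -/
def S_Cls : Prop := ∀ (K : Type) [Field K] [CharZero K] (𝒱 : Type 1) [Category.{0} 𝒱]
  [CartesianMonoidalCategory 𝒱] (W : PreWeil K 𝒱) (Y : 𝒱),
  (∀ φ : Module.End K (W.H Y), W.eps Y ∘ₗ φ = φ ∘ₗ W.eps Y → ∃ u, W.IsCls Y φ u) ∧
  (∀ (φ : Module.End K (W.H Y)) (u v : (W.calOf Y).C (Fin 2)), W.IsCls Y φ u → W.IsCls Y φ v →
    u = v) ∧
  (∀ φ ∈ W.CK Y Y 0, ∀ u, W.IsCls Y φ u → W.cv Y u ∈ W.midAlg Y (Fin 2))

end Adjoints

section Places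

/-- **The action in one variable, products.**

PROOF. Projection formulas: (P1) `push f (x * pull f y) = push f x * y` and (P2)
`push f (pull f x * y) = x * push f y`, for all classes (test with `tr (_ * z)`: (P1) is
`push_spec` and associativity; (P2): `tr (pull f x * (y * pull f z)) = tr ((y * pull f z) *
eps (pull f x))` by (E), which is `tr (y * pull f (z * eps x)) = tr (push f y * z * eps x) =
tr (x * (push f y * z))`). Base change: `pull_push` (`CalOf.lean`).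
(1) Let `T = (κ ⊕ J) ⊕ Unit`. `plc u (inl i) h (pull inl a * pull inr b) = push inl
(pull ![inl (inl i), inr ()] u * pull (h ∘ inl) a * pull (h ∘ inr) b)`, where
`h ∘ inr = inl ∘ inr` and `h ∘ inl = (Sum.map inl id) ∘ h'`; `pull (inl ∘ inr) b =
pull inl (pull inr b)` comes out by (P1), and the rest is
`push inl (pull (Sum.map inl id) (pull ![inl i, inr ()] u * pull h' a)) =
pull inl (plc u i h' a)` by `pull_push`.
(2) Similarly, but now `pull (h ∘ inl) a = pull inl (pull inl a)` has to be moved to the left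
past the even class `pull _ u` (`Ev_comm`) and comes out by (P2).
(3) `pull_push`: `pull (pm f) (push inl R) = push inl (pull (Sum.map f id) R)`,
`Sum.map f id ∘ ![inl i, inr ()] = ![inl (f i), inr ()]`, `Sum.map f id ∘ h = h' ∘ f`.
(4) `h () = inr ()`. Let `u₀ = pull (pwTwo Y).inv u`, so `u = pull (pwTwo Y).hom u₀`, and let
`ψ : pw Y (Unit ⊕ Unit) ⟶ Y ⊗ Y` be `lift (pj (inl ())) (pj (inr ()))`, an isomorphism.
`pull ![inl (), inr ()] u = pull ψ u₀`, `pull (pm h) (pull (pj ()) x) = pull ψ (pull snd x)`, and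
`push (pm inl) (pull ψ z) = pull (pj ()) (push fst z)` for all `z` (test with
`y = pull (pj ()) y'`, use `tr_iso` for `ψ` and for `pwUnit Y`). -/
def S_Pl1 : Prop := ∀ (K : Type) [Field K] [CharZero K] (𝒱 : Type 1) [Category.{0} 𝒱]
  [CartesianMonoidalCategory 𝒱] (W : PreWeil K 𝒱) (Y : 𝒱),
  (∀ (κ J : Type) [Finite κ] [Finite J] (u : W.H (pw Y (Fin 2))) (i : κ)
    (h : κ ⊕ J → (κ ⊕ J) ⊕ Unit) (h' : κ → κ ⊕ Unit), IsPl (Sum.inl i) h → IsPl i h' →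
    ∀ (a : W.H (pw Y κ)) (b : W.H (pw Y J)),
    W.plc Y u (Sum.inl i) h (W.pull (pm Y Sum.inl) a * W.pull (pm Y Sum.inr) b) =
      W.pull (pm Y Sum.inl) (W.plc Y u i h' a) * W.pull (pm Y Sum.inr) b) ∧
  (∀ (κ J : Type) [Finite κ] [Finite J] (u : W.H (pw Y (Fin 2))), u ∈ W.Ev (pw Y (Fin 2)) →
    ∀ (j : J) (h : κ ⊕ J → (κ ⊕ J) ⊕ Unit) (h' : J → J ⊕ Unit), IsPl (Sum.inr j) h → IsPl j h' →
    ∀ (a : W.H (pw Y κ)) (b : W.H (pw Y J)),
    W.plc Y u (Sum.inr j) h (W.pull (pm Y Sum.inl) a * W.pull (pm Y Sum.inr) b) =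
      W.pull (pm Y Sum.inl) a * W.pull (pm Y Sum.inr) (W.plc Y u j h' b)) ∧
  (∀ (ι κ : Type) [Finite ι] [Finite κ] (f : ι ≃ κ) (u : W.H (pw Y (Fin 2))) (i : ι)
    (h : ι → ι ⊕ Unit) (h' : κ → κ ⊕ Unit), IsPl i h → IsPl (f i) h' → ∀ τ : W.H (pw Y ι),
    W.pull (pm Y f) (W.plc Y u i h τ) = W.plc Y u (f i) h' (W.pull (pm Y f) τ)) ∧
  (∀ (φ : Module.End K (W.H Y)) (u : (W.calOf Y).C (Fin 2)), W.IsCls Y φ u →
    ∀ (h : Unit → Unit ⊕ Unit), IsPl () h → ∀ x : W.H Y,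
    W.plc Y (W.cv Y u) () h (W.pull (pj Y ()) x) = W.pull (pj Y ()) (φ x))

/-- **The action in one variable.** The statement `S_Pl1` is a hypothesis.

PROOF. Let `f : ι' ⊕ Unit ≃ ι` be the bijection given by `IsCo s i`. `pull (pm s) a * pull (pj i) x =
pull (pm f) (pull (pm inl) a * pull (pm inr) (pull (pj ()) x))` (`pm_comp`, `pm_pj`). (1) and (2)
are `S_Pl1` parts 3, 2, 4 and 3, 1. (3) Every class on `pw Y ι` is `pull (pm f)` of a class `R` on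
`pw Y (ι' ⊕ Unit)` (`pmIso`); use `ind_sum` for `R`, `ind` for `a` and for `x`, where
`b = pull (pj ()) x` (`pwUnit`). -/
def S_Pl2 : Prop := ∀ (K : Type) [Field K] [CharZero K] (𝒱 : Type 1) [Category.{0} 𝒱]
  [CartesianMonoidalCategory 𝒱] (W : PreWeil K 𝒱) (Y : 𝒱) (ι ι' : Type) [Finite ι] [Finite ι']
  (s : ι' → ι) (i : ι), PreWeil.IsCo s i →
  (∀ (φ : Module.End K (W.H Y)) (u : (W.calOf Y).C (Fin 2)), W.IsCls Y φ u →
    ∀ h : ι → ι ⊕ Unit, IsPl i h → ∀ (a : W.H (pw Y ι')) (x : W.H Y),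
    W.plc Y (W.cv Y u) i h (W.pull (pm Y s) a * W.pull (pj Y i) x) =
      W.pull (pm Y s) a * W.pull (pj Y i) (φ x)) ∧
  (∀ (u : W.H (pw Y (Fin 2))) (j : ι') (h : ι → ι ⊕ Unit) (h' : ι' → ι' ⊕ Unit), IsPl (s j) h →
    IsPl j h' → ∀ (a : W.H (pw Y ι')) (x : W.H Y),
    W.plc Y u (s j) h (W.pull (pm Y s) a * W.pull (pj Y i) x) =
      W.pull (pm Y s) (W.plc Y u j h' a) * W.pull (pj Y i) x) ∧
  (∀ (P : W.H (pw Y ι) → Prop), P 0 → (∀ (k l : ℕ) (a : W.H (pw Y ι')) (x : W.H Y),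
    a ∈ W.gr _ k → x ∈ W.gr _ l → P (W.pull (pm Y s) a * W.pull (pj Y i) x)) →
    (∀ a b, P a → P b → P (a + b)) → ∀ τ, P τ)

/-- **The degree.** The statement `S_Pl2` is a hypothesis.

PROOF. (1) `degOp X x = k • x` for `x ∈ gr X k` (`pi_same`, `pi_ne`, `gr_top`). Let `P(ι)` be the
claim (2) for `ι`. Induction over the finite type `ι` (`Finite.induction_empty_option`, compare the
proof of `dim_pw` in `CalOf.lean`; for bijections use `S_Pl2` or `S_Pl1`). Better: induction on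
`n = Nat.card ι` for all `ι` at once. `n = 0`: the sum is empty, and `degOp (pw Y ι) = 0` because
`W.dim (pw Y ι) = 0` by `dim_pw`. `n + 1`: choose `i ∈ ι`, `ι' = {j // j ≠ i}`, `s` the inclusion.
By `S_Pl2` part 3 let `τ = pull (pm s) a * pull (pj i) x`, `a ∈ gr k`, `x ∈ gr l`. The term for `i`
is `pull (pm s) a * pull (pj i) (degOp Y x) = l • τ` (`S_Pl2` part 1), the sum of the terms for
`j ≠ i` is `pull (pm s) (∑_(j ∈ ι') plc θ j h'_j a) * pull (pj i) x = k • τ` (`S_Pl2` part 2 and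
the induction hypothesis), and `τ ∈ gr (k + l)`. -/
def S_Eul : Prop := ∀ (K : Type) [Field K] [CharZero K] (𝒱 : Type 1) [Category.{0} 𝒱]
  [CartesianMonoidalCategory 𝒱] (W : PreWeil K 𝒱) (Y : 𝒱),
  (∀ (X : 𝒱) (k : ℕ) (x : W.H X), x ∈ W.gr X k → W.degOp X x = (k : K) • x) ∧
  ∀ (θ : (W.calOf Y).C (Fin 2)), W.IsCls Y (W.degOp Y) θ → ∀ (ι : Type) [Fintype ι]
    (h : ι → ι → ι ⊕ Unit), (∀ i, IsPl i (h i)) → ∀ τ : W.H (pw Y ι),
    ∑ i, W.plc Y (W.cv Y θ) i (h i) τ = W.degOp (pw Y ι) τ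

/-- **Classes on `Y × Y`.** The statements `S_Adj`, `S_Pl2`, `S_Lef` are hypotheses.

PROOF. Let `u`, `v` be the classes of `φ`, `ψ`. (1) `IsCls (φ ∘ ψ) (act u 0 v)`: as both sides are
linear in `v` (allow arbitrary `v ∈ H(pw Y (Fin 2))` and the operator `O(v) =
op (pull (pwTwo Y).inv v)`) it is enough to show `O(plc u 0 _ v) = φ ∘ O(v)` for
`v = pull (pm s) a * pull (pj 0) x`, `s : Unit → Fin 2`, `s () = 1`, `a = pull (pj ()) b`,
homogeneous `x`, `b`: `v = pull (pj 1) b * pull (pj 0) x = ± pull (pj 0) x * pull (pj 1) b`, so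
`O(v) z = ± tr (b z) • x` (`op_tm`) and `plc u 0 _ v` is the same with `φ x` for `x`; the sign is
the same as `φ x` has the parity of `x` (`φ` commutes with `eps` because `u` is even: part (4)).
(2) `IsCls (ψ ∘ φ') (act u 1 v)`: let `v = pull (pj 0) x * pull (pj 1) b`, then `O(v) z =
tr (b z) • x`, and `plc u 1 _ v = pull (pj 0) x * pull (pj 1) (φ b)`, whose operator is
`z ↦ tr (φ b * z) • x = tr (b * φ' z) • x`. (3) `S_Adj` part 4 (and part 2): the adjoint of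
`op u₀` is `op (pull σ u₀)`, and `pull (pwTwo Y).inv (pull (pm ![1, 0]) (cv u)) = pull σ u₀`.
(4) `op` of an even class commutes with `eps`: `op (eps z) = eps ∘ op z ∘ eps` (see `S_Cls`).
(5) `tot (u * v) = tr (u₀ * v₀)` (`tr_iso` for `pwTwo Y`), `v₀ = pull σ (pull σ v₀)`, and
`op (pull σ v₀) = ψ'` is the adjoint of `ψ`; so `S_Lef` gives the trace of `φ ∘ ψ' ∘ eps`. -/
def S_Op2 : Prop := ∀ (K : Type) [Field K] [CharZero K] (𝒱 : Type 1) [Category.{0} 𝒱]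
  [CartesianMonoidalCategory 𝒱] (W : PreWeil K 𝒱) (Y : 𝒱) (φ ψ : Module.End K (W.H Y))
  (u v : (W.calOf Y).C (Fin 2)), W.IsCls Y φ u → W.IsCls Y ψ v →
  W.IsCls Y (φ ∘ₗ ψ) ((W.calOf Y).act u 0 v) ∧
  (∀ φ' : Module.End K (W.H Y), W.IsAdj φ φ' → W.IsCls Y (ψ ∘ₗ φ') ((W.calOf Y).act u 1 v) ∧
    W.IsCls Y φ' ((W.calOf Y).map ![1, 0] u)) ∧
  W.eps Y ∘ₗ φ = φ ∘ₗ W.eps Y ∧
  (∀ ψ' : Module.End K (W.H Y), W.IsAdj ψ ψ' →
    (W.calOf Y).tot (Fin 2) (u * v) = LinearMap.trace K (W.H Y) (φ ∘ₗ ψ' ∘ₗ W.eps Y))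

/-- **The class of the identity.** The statements `S_Pl2`, `S_Cls` are hypotheses.

PROOF. (1) `abs_iff` and `S_Pl2` parts 3, 1 with `ι' = {j // j ≠ i}` and `φ = id`. (2)
`cv I = pull (pwTwo Y).hom (graph (𝟙 Y))` by `op_inj` and `op_graph`, and
`pm Y ![k, l] ≫ (pwTwo Y).hom = lift (pj Y k) (pj Y l)`. -/
def S_One : Prop := ∀ (K : Type) [Field K] [CharZero K] (𝒱 : Type 1) [Category.{0} 𝒱]
  [CartesianMonoidalCategory 𝒱] (W : PreWeil K 𝒱) (Y : 𝒱) (I : (W.calOf Y).C (Fin 2)),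
  W.IsCls Y LinearMap.id I → (∀ (ι : Type) [Finite ι] (u : (W.calOf Y).C ι),
    (W.calOf Y).Abs I u) ∧
  ∀ (ι : Type) [Finite ι] (k l : ι), W.cv Y ((W.calOf Y).map ![k, l] I) = W.dg Y k l

/-- **The classes `x` and `y ⊗ y`.** The statements `S_Pl1`, `S_Pl2` are hypotheses.

PROOF. (1) `abs_iff` for `ι = Unit` and `S_Pl1` part 4. (2) At the place `1`: `S_Pl2` part 1 with
`ι' = Unit`, `s () = 0`, `a = pull (pj ()) y`: `plc (..) 1 _ (cv P) = pull (pj 0) y *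
pull (pj 1) (e y) = cv P`. At the place `0`: `cv P = (-1)^(k k) • (pull (pj 1) y * pull (pj 0) y)`
(`comm_smul`), and `S_Pl2` part 1 with `s () = 1`. (3) Let `y_m = pull (pj m) y` in
`H(pw Y (Fin 4))`; by `pull_comp`, `pm_pj` the claim is `y_0 y_1 y_2 y_3 = - y_0 y_3 y_2 y_1`, and
the `y_m` anticommute (`comm`, `k` odd). -/
def S_AbX : Prop := ∀ (K : Type) [Field K] [CharZero K] (𝒱 : Type 1) [Category.{0} 𝒱]
  [CartesianMonoidalCategory 𝒱] (W : PreWeil K 𝒱) (Y : 𝒱) (e : Module.End K (W.H Y))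
  (E : (W.calOf Y).C (Fin 2)), W.IsCls Y e E →
  (∀ (x : W.H Y) (X : (W.calOf Y).C Unit), e x = x → W.cv Y X = W.pull (pj Y ()) x →
    (W.calOf Y).Abs E X) ∧
  ∀ (k : ℕ) (y : W.H Y), y ∈ W.gr Y k → e y = y → ∀ P : (W.calOf Y).C (Fin 2),
    W.cv Y P = W.pull (pj Y 0) y * W.pull (pj Y 1) y → (W.calOf Y).Abs E P ∧
    (Odd k → (W.calOf Y).map ![(0 : Fin 4), 1] P * (W.calOf Y).map ![2, 3] P =
      -((W.calOf Y).map ![(0 : Fin 4), 3] P * (W.calOf Y).map ![2, 1] P))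

end Places

section Calculus

/-- **The action of a symmetric idempotent class.**

PROOF. Everything is tested with `P` (`ext_tot`: `tot (P * _)`) and moved into one integral by
`map_int`, `sub_id`, `sub`. (4) `map_int` and `Sum.map f id ∘ plF i = plF (f i) ∘ f`.
(3) `tot (n * act e i τ) = ∫_(ι ⊕ Unit) n(inl) e(inl i, inr ()) τ(plF i)` (`sub_id`), and the
permutation of `ι ⊕ Unit` which exchanges `inl i` and `inr ()` satisfies `π ∘ inl = plF i`,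
`π ∘ plF i = inl`; use `tot_equiv` and the symmetry of `e`. (2) For `i ≠ j`,
`∫ P (act e i (act e j τ)) = ∫ P(inl inl) e(inl inl i, inl inr ()) e(inl inl j, inr ()) τ(k)` over
`(ι ⊕ Unit) ⊕ Unit`, where `k i = inl (inr ())`, `k j = inr ()`, `k x = inl (inl x)` for the others
(`map_int` for `map (plF i) (int ..)`); exchange the last two variables. (1)
`∫ P (act e i (act e i τ)) = ∫ P(inl inl) e(inl inl i, v) e(v, inr ()) τ(k)` with
`v = inl (inr ())`, `k i = inr ()`, `k x = inl (inl x)` for `x ≠ i`. Eliminate `v` by `Cal.elim`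
(it occurs in `e(inr (), v)` and at the place `1` of `e(inl inl i, v)`, `e` absorbs `e`): the rest is
`∫_(ι ⊕ Unit) P(inl) e(inl i, inr ()) τ(plF i) = ∫ P (act e i τ)`. -/
def S_Act : Prop := ∀ (K : Type) [Field K] (S : Cal K) (e : S.C (Fin 2)),
  S.map ![1, 0] e = e → S.Abs e e →
  (∀ (ι : Type) [Finite ι] (i : ι) (τ : S.C ι), S.act e i (S.act e i τ) = S.act e i τ) ∧
  (∀ (ι : Type) [Finite ι] (i j : ι) (τ : S.C ι),
    S.act e i (S.act e j τ) = S.act e j (S.act e i τ)) ∧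
  (∀ (ι : Type) [Finite ι] (i : ι) (n τ : S.C ι),
    S.tot ι (n * S.act e i τ) = S.tot ι (S.act e i n * τ)) ∧
  (∀ (ι κ : Type) [Finite ι] [Finite κ] (f : ι ≃ κ) (i : ι) (τ : S.C ι),
    S.map f (S.act e i τ) = S.act e (f i) (S.map f τ))

/-- **The projection onto the classes which absorb `e`.** The statement `S_Act` is a hypothesis.

PROOF. For every finite set `s ⊆ V` there is a linear map `π` such that: `act e i (π u) = π u` for
`i ∈ s`, `π u = u` if `act e i u = u` for all `i ∈ s`, `tot (n * π u) = tot (n * u)` if `n` absorbs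
`e`, and `π` preserves `M`. Induction on `s` (`Finset.induction_on`): for `insert j s` take
`act e j ∘ π`: `act e i (act e j (π u)) = act e j (act e i (π u)) = act e j (π u)` for `i ∈ s`,
`act e j (act e j _) = act e j _`, and `tot (n * act e j (π u)) = tot (act e j n * π u) =
tot (n * π u)`. Take `s = univ` (`abs_iff`). -/
def S_PrC : Prop := ∀ (K : Type) [Field K] (S : Cal K) (e : S.C (Fin 2)),
  S.map ![1, 0] e = e → S.Abs e e → ∀ (V : Type) [Finite V] (M : Submodule K (S.C V)),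
  (∀ i, ∀ u ∈ M, S.act e i u ∈ M) → ∃ π : S.C V →ₗ[K] S.C V, (∀ u, S.Abs e (π u)) ∧
    (∀ u, S.Abs e u → π u = u) ∧ (∀ n u, S.Abs e n → S.tot V (n * π u) = S.tot V (n * u)) ∧
    ∀ u ∈ M, π u ∈ M

/-- **Absorption and products.**

PROOF. (1) Place `inl i` (`inr j` is the same up to commutativity): `act e (inl i) (map inl u *
map inr v) = int (ι ⊕ κ) Unit (map (Sum.map inl id) (e(inl i, inr ()) * map (plF i) u) *
map inl (map inr v))`, which is `map inl (act e i u) * map inr v` by `mul_int`, `map_int`.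
(2) Let `R = map (Sum.map inl id) u * map (Sum.map inr id) v` on `(ι ⊕ κ) ⊕ J` and the place
`inl i`, `i ∈ ι`. For all `P`, `∫ P (act e (inl i) (int (ι ⊕ κ) J R))` is the integral over
`((ι ⊕ κ) ⊕ Unit) ⊕ J` of `P(inl inl) e(inl inl inl i, inl inr ()) R'`, where in `R'` the
variable `i` of `u` is replaced by `v₀ = inl (inr ())`. Eliminate `v₀` by `Cal.elim` (`u` absorbs
`e`, `i₀ = inl i`): the rest is `∫_((ι ⊕ κ) ⊕ J) P(inl) R = ∫ P (int (ι ⊕ κ) J R)`. In the same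
way for the places `inr k`, `k ∈ κ`, with `v`. (3) There is no place. -/
def S_AbC : Prop := ∀ (K : Type) [Field K] (S : Cal K) (e : S.C (Fin 2)),
  (∀ (ι κ : Type) [Finite ι] [Finite κ] (u : S.C ι) (v : S.C κ), S.Abs e u → S.Abs e v →
    S.Abs e (S.map Sum.inl u * S.map Sum.inr v)) ∧
  (∀ (ι κ J : Type) [Finite ι] [Finite κ] [Finite J] (u : S.C (ι ⊕ J)) (v : S.C (κ ⊕ J)),
    S.Abs e u → S.Abs e v → S.Abs e (S.int (ι ⊕ κ) J (S.map (Sum.map Sum.inl id) u *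
      S.map (Sum.map Sum.inr id) v))) ∧
  S.Abs e (1 : S.C Empty)

/-- **Pairings with products of two classes.**

PROOF. `elimF` twice. First eliminate the variable `3` of `Fin 4` (it occurs in `f(2,3)`, `f(1,3)`,
`f(0,3)` respectively, and at the place `3` of `n`), then the second variable of the other factor,
for instance for the first formula `∫_(Fin 3) n(0,1,2,2) f(0,1)` is `∫_(Fin 2) n(0,0,1,1)` (eliminate
the variable `1` of `Fin 3`, `p = 1`). -/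
def S_M4 : Prop := ∀ (K : Type) [Field K] (S : Cal K) (f : S.C (Fin 2)) (n : S.C (Fin 4)),
  S.Abs f n →
  S.tot (Fin 4) (n * (S.map ![0, 1] f * S.map ![2, 3] f)) =
    S.tot (Fin 2) (S.map ![0, 0, 1, 1] n) ∧
  S.tot (Fin 4) (n * (S.map ![0, 2] f * S.map ![1, 3] f)) =
    S.tot (Fin 2) (S.map ![0, 1, 0, 1] n) ∧
  S.tot (Fin 4) (n * (S.map ![0, 3] f * S.map ![1, 2] f)) =
    S.tot (Fin 2) (S.map ![0, 1, 1, 0] n)

/-- **Algebraic classes of the middle codimension.**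

PROOF. `AK` is the span of `Alg`; use `Submodule.span_induction` (twice for products) and
`alg_pull`, `alg_one`, `alg_mul`, `push_alg`, `dim_pw`. Write `D = dim Y` and `c(ι) = |ι| D / 2`. If
`|ι| D` is odd then `midAlg Y ι = ⊥`. (1) `Nat.card ι = Nat.card κ`. (3) If both `|ι| D` and
`|κ| D` are even then `c(ι) + c(κ) = c(ι ⊕ κ)`; otherwise one of the classes is `0`. (4) The
codimension of the product is `c(ι ⊕ J) + c(κ ⊕ J)`, the push-forward lowers it by `|J| D`, and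
`c(ι ⊕ J) + c(κ ⊕ J) = c(ι ⊕ κ) + |J| D` if `(|ι| + |J|) D` and `(|κ| + |J|) D` are even.
(5) `u` has codimension `D`, the push-forward lowers by `D`. (6) `alg_gr`, and
`2 (|ι| D / 2) = |ι| D` if it is even. (7) The same: an even degree. -/
def S_Mid : Prop := ∀ (K : Type) [Field K] [CharZero K] (𝒱 : Type 1) [Category.{0} 𝒱]
  [CartesianMonoidalCategory 𝒱] (W : PreWeil K 𝒱) (Y : 𝒱),
  (∀ (ι κ : Type) [Finite ι] [Finite κ] (f : ι ≃ κ), ∀ u ∈ W.midAlg Y ι,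
    W.pull (pm Y f) u ∈ W.midAlg Y κ) ∧
  (1 : W.H (pw Y Empty)) ∈ W.midAlg Y Empty ∧
  (∀ (ι κ : Type) [Finite ι] [Finite κ], ∀ u ∈ W.midAlg Y ι, ∀ v ∈ W.midAlg Y κ,
    W.pull (pm Y Sum.inl) u * W.pull (pm Y Sum.inr) v ∈ W.midAlg Y (ι ⊕ κ)) ∧
  (∀ (ι κ J : Type) [Finite ι] [Finite κ] [Finite J], ∀ u ∈ W.midAlg Y (ι ⊕ J),
    ∀ v ∈ W.midAlg Y (κ ⊕ J), W.push (pm Y (Sum.inl : ι ⊕ κ → (ι ⊕ κ) ⊕ J))
      (W.pull (pm Y (Sum.map Sum.inl id)) u * W.pull (pm Y (Sum.map Sum.inr id)) v) ∈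
        W.midAlg Y (ι ⊕ κ)) ∧
  (∀ (ι : Type) [Finite ι] (i : ι) (h : ι → ι ⊕ Unit), ∀ u ∈ W.midAlg Y (Fin 2),
    ∀ τ ∈ W.midAlg Y ι, W.plc Y u i h τ ∈ W.midAlg Y ι) ∧
  (∀ (ι : Type) [Finite ι], ∀ u ∈ W.midAlg Y ι, u ∈ W.gr (pw Y ι) (Nat.card ι * W.dim Y)) ∧
  (∀ (ι : Type) [Finite ι], ∀ u ∈ W.midAlg Y ι, u ∈ W.Ev (pw Y ι))

end Calculus

section Section

/-- **Basic properties of `E`.** The statements `S_CK`, `S_Cls`, `S_Op2`, `S_Adj` are hypotheses.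

PROOF. `cv E ∈ midAlg Y (Fin 2)` by `S_Cls` part 3. `IsAdj e e` is `IsE.symm`. `S_Op2`:
`act E 0 E` and `act E 1 E` are classes of `e ∘ e = e`, so they are `E` (`S_Cls` part 2), and `E`
absorbs `E` (`abs_iff`); `map ![1, 0] E` is the class of the adjoint `e`, so it is `E`. -/
def S_EE3 : Prop := ∀ (K : Type) [Field K] [CharZero K] (𝒱 : Type 1) [Category.{0} 𝒱]
  [CartesianMonoidalCategory 𝒱] (W : PreWeil K 𝒱) {Y Z : 𝒱} (r : Y ⟶ Z)
  (e : Module.End K (W.H Y)) (E : (W.calOf Y).C (Fin 2)), W.Dat r e E →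
  E ∈ W.TT Y E (Fin 2) ∧ (W.calOf Y).map ![1, 0] E = E ∧ (W.calOf Y).Abs E E

/-- **The kernel of `κ`.** The statements `S_Adj`, `S_CK`, `S_AdK`, `S_Jdl` are hypotheses.

PROOF. `x = v ∘ r_* ∈ CK Y Y 0`. By `S_Jdl` part 1, `x = κ id + r^* s r_*`. If `κ = 0` we are done.
Otherwise `id = v' ∘ r_*` with `v' = κ⁻¹ (v - r^* s) ∈ CK Y Z (-1)`. Let `g ∈ CK Z Y 0`
(`-1 + dim Z - dim Y = 0`) be the adjoint of `v'` (`S_AdK`). Taking adjoints, `id = r^* ∘ g`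
(the adjoint of `r_*` is `r^*`, `S_Adj` parts 1, 2). So `id = (r^* g) (v' r_*) = r^* (g v') r_*` with
`g v' ∈ CK Z Z (-1)`, i.e. `id ∈ JK r`, a contradiction. -/
def S_Kap : Prop := ∀ (K : Type) [Field K] [CharZero K] (𝒱 : Type 1) [Category.{0} 𝒱]
  [CartesianMonoidalCategory 𝒱] (W : PreWeil K 𝒱) {Y Z : 𝒱} (r : Y ⟶ Z), W.Sec4 r →
  (LinearMap.id : W.H Y →ₗ[K] W.H Y) ∉ W.JK r → ∀ v ∈ W.CK Y Z (-1),
    v ∘ₗ W.push r ∈ W.JK r

/-- **Classes on `Y^4` as operators.** The statements `S_Adj`, `S_CK`, `S_Pl2` are hypotheses.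

PROOF. Let `ω = lift (pm Y i.succAbove) (pj Y i) : pw Y (Fin 4) ⟶ pw Y (Fin 3) ⊗ Y`; it is an
isomorphism (the inverse is `pl` of the components `fst ≫ pj j`, `snd` at the places
`i.succAbove j`, `i`). (1) is this. (2) `th r i = ω ≫ (pw Y (Fin 3) ◁ r)` (both have components
`pm Y i.succAbove` and `pj Y i ≫ r`), so by `tr_iso` and `S_Lef`-free rewriting the claim is only
`pull (th r i) b = pull ω (pull (lift (fst _ _) (snd _ _ ≫ r)) b)` (`pull_comp`). (3) Both sides are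
linear in `b`; for `b = tm p q` (`ind_tm`): `pull (lift fst (snd ≫ r)) (tm p q) =
tm p (pull r q)`, `op (tm p (pull r q)) x = tr (pull r q * x) • p = tr (q * push r x) • p`
(`S_Adj` part 1) `= op (tm p q) (push r x)`. (4) Put `Φ(τ) = op (pull σ (pull ω⁻¹ τ))`, where
`σ = lift (snd _ _) (fst _ _) : Y ⊗ pw Y (Fin 3) ⟶ pw Y (Fin 3) ⊗ Y`. By `S_Pl2` part 3 with
`s = i.succAbove` it is enough to show `Φ(plc (cv E) i _ τ) = e ∘ Φ(τ)` for
`τ = pull (pm s) a * pull (pj i) x = pull ω (tm a x)`, `a ∈ gr k`, `x ∈ gr l`: `pull σ (tm a x) =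
pull snd a * pull fst x = (-1)^(k l) tm x a`, so `Φ(τ) z = (-1)^(k l) tr (a z) • x`, and
`plc (cv E) i _ τ` is the same with `e x` for `x` (`S_Pl2` part 1), where `e x ∈ gr l` because
`e ∈ CK Y Y 0` (`S_CK` part 6). -/
def S_Phi : Prop := ∀ (K : Type) [Field K] [CharZero K] (𝒱 : Type 1) [Category.{0} 𝒱]
  [CartesianMonoidalCategory 𝒱] (W : PreWeil K 𝒱) {Y Z : 𝒱} (r : Y ⟶ Z) (i : Fin 4),
  ∃ ω : pw Y (Fin 4) ≅ pw Y (Fin 3) ⊗ Y,
  (∀ b, W.pull (PreWeil.th r i) b = W.pull ω.hom (W.pull (lift (fst _ _) (snd _ _ ≫ r)) b)) ∧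
  (∀ b : W.H (pw Y (Fin 3) ⊗ Z),
    W.op (W.pull (lift (fst (pw Y (Fin 3)) Y) (snd (pw Y (Fin 3)) Y ≫ r)) b) =
      W.op b ∘ₗ W.push r) ∧
  ∀ (e : Module.End K (W.H Y)) (E : (W.calOf Y).C (Fin 2)), e ∈ W.CK Y Y 0 → W.IsCls Y e E →
    ∀ g : (W.calOf Y).C (Fin 4), (W.calOf Y).Abs E g →
    e ∘ₗ W.op (W.pull (lift (snd Y (pw Y (Fin 3))) (fst Y (pw Y (Fin 3))))
      (W.pull ω.inv (W.cv Y g))) =
    W.op (W.pull (lift (snd Y (pw Y (Fin 3))) (fst Y (pw Y (Fin 3)))) (W.pull ω.inv (W.cv Y g)))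

/-- **Lemma S.** The statements `S_Adj`, `S_CK`, `S_AdK`, `S_Jdl`, `S_Lef`, `S_Kap`, `S_Phi` are
hypotheses.

PROOF. Let `ω` be from `S_Phi`, `g₁ = pull ω.inv (cv g)`, `v = pull (lift snd fst) g₁` in
`H(Y ⊗ pw Y (Fin 3))`, `P₃ = pw Y (Fin 3)`, `b' = pull (lift fst (snd ≫ r)) b` in `H(P₃ ⊗ Y)`. By
`S_Phi` and `tr_iso` for `ω` the left side is `tr (b' * g₁) = tr (b' * pull (lift snd fst) v)`
(the two exchange morphisms are inverse), which is `trace (op b' ∘ op v ∘ eps) =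
trace (op b ∘ r_* ∘ op v ∘ eps)` over `H(P₃)` by `S_Lef` and `S_Phi`. By cyclicity
(`LinearMap.trace_comp_comm'`) and since `op b`, `op v`, `r_*` commute with `eps` (they are in
`CK`, `S_CK` part 2) this is `trace (x ∘ eps)` over `H(Y)` with `x = op v ∘ op b ∘ r_*`. With
`D = dim Y`: `cv g ∈ AK (pw Y (Fin 4)) (2 D)` (definition of `TT`, `midAlg`), so
`v ∈ AK (Y ⊗ P₃) (2 D)` and `op v ∈ CK Y P₃ (-D)` (`2 D = dim P₃ - D`, `dim_pw`), `op b ∈
CK P₃ Z (D - 1)` (`2 D = dim Z + (D - 1)`); so `op v ∘ op b ∈ CK Y Z (-1)` and `x ∈ JK r` by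
`S_Kap`. By `S_Phi`, `e ∘ op v = op v`, so `e x = x`. `trace (x eps) = trace (e e x eps) =
trace (e x eps e) = trace (e x e eps)` (`e` commutes with `eps`), `e x e` is nilpotent (`IsE.ker`)
and commutes with `eps`, `eps eps = 1`, so `e x e eps` is nilpotent and its trace is `0`
(`LinearMap.isNilpotent_trace_of_isNilpotent`). -/
def S_LemS : Prop := ∀ (K : Type) [Field K] [CharZero K] (𝒱 : Type 1) [Category.{0} 𝒱]
  [CartesianMonoidalCategory 𝒱] (W : PreWeil K 𝒱) {Y Z : 𝒱} (r : Y ⟶ Z)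
  (e : Module.End K (W.H Y)) (E : (W.calOf Y).C (Fin 2)), W.Dat r e E → ∀ (i : Fin 4),
  ∀ b ∈ W.AK (pw Y (Fin 3) ⊗ Z) (2 * W.dim Y), ∀ g ∈ W.TT Y E (Fin 4),
    W.tr (pw Y (Fin 4)) (W.pull (PreWeil.th r i) b * W.cv Y g) = 0

/-- **The spreading argument.** The statements `S_Cls`, `S_CK`, `S_One`, `S_PrC`, `S_AbC`, `S_AbE`
(`Nil/SpecD.lean`), `S_M4`, `S_Mid`, `S_EE3`, `S_LemS` are hypotheses.

PROOF. Let `Q ∈ TT (Fin 4)`. `cv Q` is in `AK (pw Y (Fin 4)) (2 D)`, `D = dim Y`. By `Sec4.four`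
and `Submodule.span_induction`, `cv Q = x₀ • dg 0 1 * dg 2 3 + x₁ • dg 0 2 * dg 1 3 +
x₂ • dg 0 3 * dg 1 2 + ∑_i pull (th r i) (b i)` with `b i ∈ AK _ (2 D)`. Let `I` be the class of
`id` (`S_Cls` part 1); `cv (map ![k, l] I) = dg k l` (`S_One`). Put `N_1(f) = f(0,1) f(2,3)`,
`N_2(f) = f(0,2) f(1,3)`, `N_3(f) = f(0,3) f(1,2)`. So `Q = x₀ N_1(I) + x₁ N_2(I) + x₂ N_3(I) + B`
with `cv B = ∑ pull (th r i) (b i)`, in `AK (pw Y (Fin 4)) (2 D) = midAlg Y (Fin 4)`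
(`alg_pull`). Let `π` be from `S_PrC` for `V = Fin 4` and `M = {u | cv u ∈ midAlg}` (stable by
`S_Mid` part 5 and `cv_act`). Then `Q = π Q = ∑ x_k π (N_k(I)) + π B`. CLAIM
`π (N_k(I)) = N_k(E)`: for all `u`, `tot (π (N_k(I)) * u) = tot (π (N_k(I)) * π u) =
tot (π u * N_k(I)) = tot (π u * N_k(E)) = tot (N_k(E) * π u) = tot (N_k(E) * u)`, where the third
step is `S_M4` for `f = I` and `f = E` (`π u` absorbs `I` by `S_One` and `E`), and the others
are the third property of `π`, as `π (N_k(I))`, `π u` and `N_k(E)` absorb `E` (`S_AbC` part 1 and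
`S_AbE` for `N_k(E)`); use `ext_tot`. Finally `ν = π B ∈ TT`, and for `g ∈ TT`:
`tot (ν * g) = tot (g * π B) = tot (g * B) = ∑_i tr (pull (th r i) (b i) * cv g) = 0` by `S_LemS`. -/
def S_FourI : Prop := ∀ (K : Type) [Field K] [CharZero K] (𝒱 : Type 1) [Category.{0} 𝒱]
  [CartesianMonoidalCategory 𝒱] (W : PreWeil K 𝒱) {Y Z : 𝒱} (r : Y ⟶ Z)
  (e : Module.End K (W.H Y)) (E : (W.calOf Y).C (Fin 2)), W.Dat r e E →
  ∀ Q ∈ W.TT Y E (Fin 4), ∃ a b c : K, ∃ ν ∈ W.TT Y E (Fin 4),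
    (∀ g ∈ W.TT Y E (Fin 4), (W.calOf Y).tot (Fin 4) (ν * g) = 0) ∧
    Q = a • ((W.calOf Y).map ![0, 1] E * (W.calOf Y).map ![2, 3] E) +
      b • ((W.calOf Y).map ![0, 2] E * (W.calOf Y).map ![1, 3] E) +
      c • ((W.calOf Y).map ![0, 3] E * (W.calOf Y).map ![1, 2] E) + ν

/-- **Nilpotence.** The statements `S_PrC`, `S_Mid`, `S_EE3` are hypotheses.

PROOF. Let `d = dim (pw Y ι) = |ι| D` (`dim_pw`); `midAlg Y (ι ⊕ ι) = AK (pw Y (ι ⊕ ι)) d` since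
`|ι ⊕ ι| D / 2 = |ι| D`. Put `n' = pull (pwSum Y ι ι).inv (cv n)`, in
`AK (pw Y ι ⊗ pw Y ι) d`. For `g ∈ AK (pw Y ι ⊗ pw Y ι) d` let `G` be the element of the
calculus with `cv G = pull (pwSum Y ι ι).hom g` (it is even, `S_Mid` part 7), and `π` from `S_PrC`
for `V = ι ⊕ ι`, `M = {u | cv u ∈ midAlg}`: `tr (n' * g) = tot (n * G) = tot (n * π G) = 0`, since
`π G ∈ TT` (`tr_iso`). So `op n'` is nilpotent (`NilPow`). For all `y` in the calculus,
`tr (op n' (cv x) * cv y) = tr (n' * pull snd (cv x) * pull fst (cv y)) =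
tot (n * map inr x * map inl y) = c * tot (x * y)` (`op_spec`, `tr_iso`; `fst`, `snd` composed with
`pwSum.hom` are `pm inl`, `pm inr`). `op n' (cv x)` is even (`n'` is even), so
`op n' (cv x) = c • cv x` by `dualE`. If `(op n')^N = 0` then `c^N • cv x = 0`. -/
def S_NilI : Prop := ∀ (K : Type) [Field K] [CharZero K] (𝒱 : Type 1) [Category.{0} 𝒱]
  [CartesianMonoidalCategory 𝒱] (W : PreWeil K 𝒱) {Y Z : 𝒱} (r : Y ⟶ Z)
  (e : Module.End K (W.H Y)) (E : (W.calOf Y).C (Fin 2)), W.Dat r e E →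
  ∀ (ι : Type) [Finite ι], ∀ n ∈ W.TT Y E (ι ⊕ ι),
    (∀ g ∈ W.TT Y E (ι ⊕ ι), (W.calOf Y).tot (ι ⊕ ι) (n * g) = 0) →
    ∀ (x : (W.calOf Y).C ι) (c : K), (∀ y : (W.calOf Y).C ι, (W.calOf Y).tot (ι ⊕ ι)
      (n * (W.calOf Y).map Sum.inr x * (W.calOf Y).map Sum.inl y) =
        c * (W.calOf Y).tot ι (x * y)) → c = 0 ∨ x = 0

/-- **The system.** The statements `S_EE3`, `S_Mid`, `S_AbE`, `S_AbC`, `S_FourI`, `S_NilI` are
hypotheses. PROOF. Assembly; `mem_TT`, `cv_map`, `cv_mul`, `cv_int`. -/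
def S_SysI : Prop := ∀ (K : Type) [Field K] [CharZero K] (𝒱 : Type 1) [Category.{0} 𝒱]
  [CartesianMonoidalCategory 𝒱] (W : PreWeil K 𝒱) {Y Z : 𝒱} (r : Y ⟶ Z)
  (e : Module.End K (W.H Y)) (E : (W.calOf Y).C (Fin 2)), W.Dat r e E → W.IsSys Y E

/-- **The grading operator.** The statements `S_Adj`, `S_CK`, `S_Cls`, `S_Pl2`, `S_Op2`, `S_Eul`,
`S_Mid` are hypotheses.

PROOF. Write `D = dim Y`, `φ₀ = degOp Y - D id`, `ψ = φ₀ ∘ e`, `w` the class of `ψ`. `e` has degree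
`0` (`IsE.mem`, `S_CK` part 6), so it commutes with `degOp Y` and `e ψ = ψ e = ψ`. The adjoint of
`degOp Y` is `2 D id - degOp Y`: for `a ∈ gr i`, `b ∈ gr j`, `tr (a b) = 0` unless `i + j = 2 D`. So
the adjoint of `ψ` is `e ∘ (-φ₀) = -ψ`. `symm`: `map ![1, 0] w` is the class of the adjoint `-ψ`
(`S_Op2`), so it is `-w`. `abs`: `act E 0 w`, `act E 1 w` are the classes of `e ∘ ψ`, `ψ ∘ e`
(`S_Op2`, adjoint of `e` is `e`), so `w` absorbs `E` (`abs_iff`, `S_Cls` part 2). `deg`: let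
`τ ∈ TT ι`. By `sub_id` (and commutativity) the sum is `tot (P * ∑_i act w i τ)`
(`h i = plF i` by `eq_plF`). For every `i`, with `θ` the class of `degOp Y`, and `τ = act E i τ`:
`plc w i _ (cv τ) = plc θ i _ (cv τ) - D • cv τ`. Proof: by `S_Pl2` part 1 and 3 (with
`ι' = {j // j ≠ i}`), `plc w i = plc θ i ∘ plc E i - D plc E i` as maps on `H(pw Y ι)`, because
`ψ = degOp ∘ e - D e`; and `plc E i (cv τ) = cv τ`. By `S_Eul` the sum over `i` is
`degOp (cv τ) - |ι| D • cv τ = 0`, as `cv τ ∈ gr (|ι| D)` (`S_Mid` part 6). -/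
def S_GrI : Prop := ∀ (K : Type) [Field K] [CharZero K] (𝒱 : Type 1) [Category.{0} 𝒱]
  [CartesianMonoidalCategory 𝒱] (W : PreWeil K 𝒱) {Y Z : 𝒱} (r : Y ⟶ Z)
  (e : Module.End K (W.H Y)) (E : (W.calOf Y).C (Fin 2)), W.Dat r e E →
  ∀ (h : W.IsSys Y E) (w : (W.calOf Y).C (Fin 2)),
  W.IsCls Y ((W.degOp Y - (W.dim Y : K) • LinearMap.id) ∘ₗ e) w → (W.sysOf Y E h).IsGrad w

/-- **Skew-symmetric forms.**

PROOF. Let `M` be the matrix of `B` in a basis, `M^T = -M` and `det M ≠ 0`. `det M = det M^T =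
det (-M) = (-1)^n det M`, so `n` is even in characteristic zero. -/
def S_Par : Prop := ∀ (K V : Type) [Field K] [CharZero K] [AddCommGroup V] [Module K V]
  [FiniteDimensional K V] (B : V →ₗ[K] V →ₗ[K] K), (∀ x y, B x y = -B y x) →
  (∀ x, (∀ y, B x y = 0) → x = 0) → Even (Module.finrank K V)

/-- **The superdimension.** The statements `S_Adj`, `S_CK`, `S_Op2`, `S_Par` are hypotheses.

PROOF. `tot (E * E) = trace (e e eps) = trace (e eps)` (`S_Op2` part 4, `IsAdj e e`). Let `ev`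
be the projector `even Y` onto the even part and `od = id - ev`; `eps = ev - od` (`eps_eq`), `e`
commutes with `eps` and so with `ev`, `od`. `e ev`, `e od` are idempotents, so their traces are
the dimensions of their ranges `U₀`, `U₁` (`LinearMap.IsProj.trace` or
`LinearMap.IsIdempotentElem`..). It remains to see that `dim U₀`, `dim U₁` are even
(`dim U₀ = 2 p`, `dim U₁ = 2 q`); `p = 0` iff `e ev = 0`. `U₁`: the form `B x y = tr (x * y)` on `U₁`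
is skew (odd classes anticommute under the trace: (E), `eps y = -y`) and nondegenerate: if
`tr (x * y) = 0` for all `y ∈ U₁` then for all `z`: `tr (x * z) = tr (e x * z) = tr (x * e z)`, and
`tr (x * od (e z)) = tr (x * e z)` because `x` is odd (the trace of an odd class is `0`), so it is
`0` and `x = 0`. `U₀`: `D = dim Y` is odd. Let `γ = ∑_(i < D) pi i - ∑_(i > D) pi i`
(`i ≤ 2 D`); it commutes with `e` (degree `0`) and `γ γ = id` on even classes (no even class has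
degree `D`). `B x y = tr (x * γ y)` on `U₀` is skew: for `x ∈ gr i`, `y ∈ gr j` even with
`i + j = 2 D`, `γ y = ± y` and `γ x = ∓ x`, `tr (x * y) = tr (y * x)`. It is nondegenerate as
before, since `γ` maps `U₀` onto `U₀`. Use `S_Par`. -/
def S_Dim : Prop := ∀ (K : Type) [Field K] [CharZero K] (𝒱 : Type 1) [Category.{0} 𝒱]
  [CartesianMonoidalCategory 𝒱] (W : PreWeil K 𝒱) {Y Z : 𝒱} (r : Y ⟶ Z)
  (e : Module.End K (W.H Y)) (E : (W.calOf Y).C (Fin 2)), W.Dat r e E → ∃ p q : ℕ,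
  (W.calOf Y).tot (Fin 2) (E * E) = 2 * p - 2 * q ∧
  (p = 0 ↔ ∀ i, Even i → ∀ x ∈ W.gr Y i, e x = 0) ∧
  (q = 0 ↔ ∀ i, Odd i → ∀ x ∈ W.gr Y i, e x = 0)

/-- **The idempotent kills the even or the odd classes.** The statements `S_SysI`, `S_GrI`,
`S_Dim`, `S_Cls`, `S_CK`, `S_AbX`, `S_Formal`, `S_Formal2` are hypotheses.

PROOF. `S = sysOf Y E _`, `S.delta = tot (E * E) = 2 p - 2 q`. `D = dim Y` is odd. Let
`ψ = (degOp Y - D) ∘ e` and `w` its class (`S_Cls` part 1; `ψ` commutes with `eps`), `IsGrad w`.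
(0) If `x ∈ gr i`, `i` even and `e x ≠ 0` then `w ≠ 0`: `ψ x = (i - D) • e x ≠ 0` as `i ≠ D`
(`e x ∈ gr i`). CASE `p ≤ q`, `m = q - p`, `δ = -(2 m)`. Suppose `x ∈ gr i`, `i` even, `x' = e x ≠ 0`
(so `e x' = x'`, `x' ∈ gr i`). Let `X` in `C Unit` be given by `pull (pj ()) x'` (even). It
absorbs `E` (`S_AbX`), `tot (X * X) = tr (x' * x') = 0` since `2 i ≠ 2 D`. By duality there is `y`
with `tr (x' * y) ≠ 0`; replacing `y` by `even Y y` (`tr (x' * y) = tr (x' * even y)`) it is even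
and gives `Y'` in `C Unit` with `tot (X * Y') ≠ 0`. `S_Formal` gives a contradiction. CASE `p > q`,
`n = 2 p - 2 q`, `δ = n`. By `S_Dim`, `p ≠ 0`, so there is an `x` as in (0) and `w ≠ 0`. Suppose
`y ∈ gr i`, `i` odd, `y' = e y ≠ 0`. Let `P` be given by `pull (pj 0) y' * pull (pj 1) y'`, of
degree `2 i`. It absorbs `E` and is an odd square (`S_AbX`), and `P ≠ 0` (`pull (pwTwo Y).inv`
maps it to `tm y' y' ≠ 0`, `kun_tmul`), so by `Cal.dual` there is `Q` with `tot (P * Q) ≠ 0`.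
`S_Formal2` gives a contradiction. -/
def S_Out : Prop := ∀ (K : Type) [Field K] [CharZero K] (𝒱 : Type 1) [Category.{0} 𝒱]
  [CartesianMonoidalCategory 𝒱] (W : PreWeil K 𝒱) {Y Z : 𝒱} (r : Y ⟶ Z)
  (e : Module.End K (W.H Y)) (E : (W.calOf Y).C (Fin 2)), W.Dat r e E →
  (∀ i, Even i → ∀ x ∈ W.gr Y i, e x = 0) ∨ (∀ i, Odd i → ∀ x ∈ W.gr Y i, e x = 0)

/-- **The result for the section.** The statements `S_CK`, `S_Cls`, `S_ExE`, `S_Out` are
hypotheses.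

PROOF. If `id ∈ JK r`, `id = r^* s r_*`, done. Otherwise `S_ExE` gives `e`, `S_Cls` part 1 gives its
class `E` (`e` commutes with `eps` by `S_CK`), `Dat r e E`, and `1 - e = r^* s r_*` (`one_sub`); if
`e x = 0` then `r^* s r_* x = x`. Use `S_Out`. -/
def S_MM : Prop := ∀ (K : Type) [Field K] [CharZero K] (𝒱 : Type 1) [Category.{0} 𝒱]
  [CartesianMonoidalCategory 𝒱] (W : PreWeil K 𝒱) {Y Z : 𝒱} (r : Y ⟶ Z), W.Sec4 r →
  W.NilPow Y →
  (∃ s ∈ W.CK Z Z (-1), ∀ i, Even i → ∀ x ∈ W.gr Y i, W.pull r (s (W.push r x)) = x) ∨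
  (∃ s ∈ W.CK Z Z (-1), ∀ i, Odd i → ∀ x ∈ W.gr Y i, W.pull r (s (W.push r x)) = x)

end Section

end Pool.Agent.Lib.MP_4ca46c_ag.Nil
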