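import Pool.Agent.Lib.MP_4ca46c_ag.Nil.SpecD

/-!
# A pair of input variables gives zero, second version
-/

set_option autoImplicit false

namespace Pool.Agent.Lib.MP_4ca46c_ag.Nil

theorem tZe2 : S_Ze2 := by
  classical
  intro K _ _ S p hp V V' _ _ s v₁ v₂ hs P b₁ b₂
  have hs1 : ∀ b, s b ≠ v₁ := fun b hb => by
    have := @hs.1 (Sum.inl b) (Sum.inr 0) hb
    exact absurd this (by simp)
  have hs2 : ∀ b, s b ≠ v₂ := fun b hb => by
    have := @hs.1 (Sum.inl b) (Sum.inr 1) hb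
    exact absurd this (by simp)
  have hθ1 : Equiv.swap v₁ v₂ v₁ = v₂ := Equiv.swap_apply_left _ _
  have hθ2 : Equiv.swap v₁ v₂ v₂ = v₁ := Equiv.swap_apply_right _ _
  have hθs : ∀ b, Equiv.swap v₁ v₂ (s b) = s b := fun b =>
    Equiv.swap_apply_of_ne_of_ne (hs1 b) (hs2 b)
  have h1 := S.tot_equiv (Equiv.swap v₁ v₂)
    (S.map s P * (S.map ![v₁, v₂] S.e * S.map ![v₁, s b₁] p * S.map ![v₂, s b₂] p))
  have e0 : S.map (Equiv.swap v₁ v₂) (S.map s P) = S.map s P := by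
    rw [S.map_map]
    congr 2
    funext b
    exact hθs b
  have e1 : S.map (Equiv.swap v₁ v₂) (S.map ![v₁, v₂] S.e) = S.map ![v₁, v₂] S.e := by
    conv_rhs => rw [← S.e_symm]
    rw [S.map_map, S.map_map]
    congr 2
    funext i
    fin_cases i
    · exact hθ1
    · exact hθ2
  have e2 : S.map (Equiv.swap v₁ v₂) (S.map ![v₁, s b₁] p) = S.map ![v₂, s b₁] p := by
    rw [S.map_map]
    congr 2
    funext i
    fin_cases i
    · exact hθ1
    · exact hθs b₁
  have e3 : S.map (Equiv.swap v₁ v₂) (S.map ![v₂, s b₂] p) = S.map ![v₁, s b₂] p := by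
    rw [S.map_map]
    congr 2
    funext i
    fin_cases i
    · exact hθ2
    · exact hθs b₂
  have e4 : S.map ![v₂, s b₁] p * S.map ![v₁, s b₂] p =
      -(S.map ![v₁, s b₁] p * S.map ![v₂, s b₂] p) := by
    have h := congrArg (S.map ![v₁, s b₂, v₂, s b₁]) hp
    rw [map_neg, map_mul, map_mul, S.map_map, S.map_map, S.map_map, S.map_map] at h
    have f1 : (![v₁, s b₂, v₂, s b₁] ∘ ![(0 : Fin 4), 1]) = ![v₁, s b₂] := by
      funext i
      fin_cases i <;> rfl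
    have f2 : (![v₁, s b₂, v₂, s b₁] ∘ ![(2 : Fin 4), 3]) = ![v₂, s b₁] := by
      funext i
      fin_cases i <;> rfl
    have f3 : (![v₁, s b₂, v₂, s b₁] ∘ ![(0 : Fin 4), 3]) = ![v₁, s b₁] := by
      funext i
      fin_cases i <;> rfl
    have f4 : (![v₁, s b₂, v₂, s b₁] ∘ ![(2 : Fin 4), 1]) = ![v₂, s b₂] := by
      funext i
      fin_cases i <;> rfl
    rw [f1, f2, f3, f4] at h
    rw [mul_comm, h]
  have e5 : S.map (Equiv.swap v₁ v₂)
      (S.map s P * (S.map ![v₁, v₂] S.e * S.map ![v₁, s b₁] p * S.map ![v₂, s b₂] p)) =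
      -(S.map s P * (S.map ![v₁, v₂] S.e * S.map ![v₁, s b₁] p * S.map ![v₂, s b₂] p)) := by
    rw [map_mul, map_mul, map_mul, e0, e1, e2, e3, mul_assoc (S.map ![v₁, v₂] S.e), e4]
    ring
  rw [e5, map_neg] at h1
  exact self_eq_neg.1 h1.symm

end Pool.Agent.Lib.MP_4ca46c_ag.Nil
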